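import Pool.Agent.Work.MP_d2308b_lc.Defs

/-!
# The completion of `Add(κ, J) * Prikry(U)` (definitions)

`κ` is a cardinal, `Mo κ` is the set of its elements (the ordinals `< κ`).

`A` is the completion of the Cohen forcing `Add(κ, J)` (`Cohen`), `U` is an `A`-name for a normal
ultrafilter on `κ` (`Nor`), and `B` is the completion of the two step iteration `A * Prikry(U)`
(`Prik`).  These are characterisations up to isomorphism: a partial order `Q` and a complete Boolean
algebra `B` together with a map `c : Q → B` such that all values are nonzero, the values are dense in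
`B`, `q' ≤ q` implies `c q' ≤ c q`, and incompatible elements of `Q` have disjoint values, determine
`B` as the completion of `Q`.  (The last two properties hold by the definitions of `bas` and `cv`.)
-/

namespace Pool.MP_d2308b.SP

open Cardinal Set

/-- the points of `κ` -/
abbrev Mo (κ : Cardinal.{0}) : Type := κ.ord.ToType

/-! ## The Cohen algebra -/

section cohen

variable {J A : Type} [CompleteBooleanAlgebra A]

/-- domain of a partial function `J → 2` -/
def dm {J : Type} (p : J → Option Bool) : Set J := {x | p x ≠ none}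

/-- the Boolean value of 'the generic function takes the value `b` at `x`' -/
def lit (g : J → A) (x : J) (b : Bool) : A := if b then g x else (g x)ᶜ

/-- the Boolean value of 'the partial function `p` is contained in the generic function' -/
def bas (g : J → A) (p : J → Option Bool) : A := ⨅ x, ⨅ b, ⨅ (_ : p x = some b), lit g x b

/-- `A` is the completion of `Add(κ, J)` (partial functions `J → 2` of cardinality `< κ`), and
`g x` is the Boolean value of 'the generic function has the value `1` at `x`'. -/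
structure Cohen (κ : Cardinal.{0}) (g : J → A) : Prop where
  ne : ∀ p, #(dm p) < κ → bas g p ≠ ⊥
  dense : ∀ a : A, a ≠ ⊥ → ∃ p, #(dm p) < κ ∧ bas g p ≤ a

end cohen

/-! ## The normal ultrafilter and the Prikry part -/

/-- `U` is a name for a normal ultrafilter on `κ`: `X : κ → A` is a name for a subset of `κ`
(`X α` is the Boolean value of `α ∈ X`) and `U X` is the Boolean value of 'X belongs to U'.  The
clauses: `κ ∈ U`; intersections; complements; supersets (and extensionality); the tails
`(β, κ)` belong to `U`; diagonal intersections of sequences of length `κ`. -/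
structure Nor {κ : Cardinal.{0}} {A : Type} [CompleteBooleanAlgebra A] (U : (Mo κ → A) → A) :
    Prop where
  top : U (fun _ => ⊤) = ⊤
  inf : ∀ X Y, U X ⊓ U Y ≤ U (fun α => X α ⊓ Y α)
  compl : ∀ X, U (fun α => (X α)ᶜ) = (U X)ᶜ
  sub : ∀ X Y, (⨅ α, (X α)ᶜ ⊔ Y α) ≤ (U X)ᶜ ⊔ U Y
  tail : ∀ β, U (fun α => open Classical in if β < α then ⊤ else ⊥) = ⊤
  normal : ∀ X : Mo κ → Mo κ → A, (⨅ β, U (X β)) ≤ U (fun α => ⨅ β : Iio α, X β.1 α)

/-- `s` is an initial segment of `t` -/
def Ends {M : Type} [LinearOrder M] (s t : Finset M) : Prop :=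
  s ⊆ t ∧ ∀ x ∈ t, x ∉ s → ∀ y ∈ s, y < x

/-- raw conditions `(a, s, X)`: `a : A`, `s` a finite subset of `κ` (the stem), `X` a name for a
subset of `κ`. -/
abbrev Cn (κ : Cardinal.{0}) (A : Type) : Type := A × Finset (Mo κ) × (Mo κ → A)

section prikry

variable {κ : Cardinal.{0}} {J A B : Type} [CompleteBooleanAlgebra A] [CompleteBooleanAlgebra B]

/-- the element of `B` given by a raw condition: 'a is in the generic filter, `s` is an initial
segment of the Prikry sequence `H`, and `H \ s ⊆ X`'. -/
def cv (ι : A → B) (h : Finset (Mo κ) → B) (q : Cn κ A) : B :=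
  ι q.1 ⊓ h q.2.1 ⊓ ⨅ t, ⨅ (_ : Ends q.2.1 t), (h t)ᶜ ⊔ ⨅ α ∈ t \ q.2.1, ι (q.2.2 α)

/-- real conditions: `a` forces `X ∈ U` (`a = ⊥` is allowed) -/
def Rl (U : (Mo κ → A) → A) (q : Cn κ A) : Prop := q.1 ≤ U q.2.2

/-- `B` is the completion of `A * Prikry(U)`; `ι` is the (complete) embedding of `A`, and `h s` is
the Boolean value of '`s` is an initial segment of the Prikry sequence'.  The conditions of the
forcing are the `(a, s, X)` with `a ≠ ⊥`, `a ≤ U X`; their values are nonzero and dense. -/
structure Prik (U : (Mo κ → A) → A) (ι : A → B) (h : Finset (Mo κ) → B) : Prop where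
  sup : ∀ S : Set A, ι (sSup S) = ⨆ x ∈ S, ι x
  compl : ∀ x, ι xᶜ = (ι x)ᶜ
  inj : ∀ x, ι x = ⊥ → x = ⊥
  emp : h ∅ = ⊤
  mono : ∀ s t, Ends s t → h t ≤ h s
  disj : ∀ s t, ¬ Ends s t → ¬ Ends t s → h s ⊓ h t = ⊥
  ne : ∀ q : Cn κ A, q.1 ≠ ⊥ → Rl U q → cv ι h q ≠ ⊥
  dense : ∀ b, b ≠ ⊥ → ∃ q : Cn κ A, q.1 ≠ ⊥ ∧ Rl U q ∧ cv ι h q ≤ b

end prikry

end Pool.MP_d2308b.SP
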