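import Pool.Agent.Work.MP_d2308b_lc.Card
import Pool.Agent.Work.MP_d2308b_lc.SP.Base

/-!
# Block [d2308b SP]: wide Aronszajn trees in the Silver-Prikry models (definitions)

Captain: helper94.  Plan of the proof in `Stmts.lean`.
-/

namespace Pool.MP_d2308b.SP

open Cardinal Set

/-- the points of `κ⁺` -/
abbrev La (κ : Cardinal.{0}) : Type := (Order.succ κ).ord.ToType

/-- the hypotheses on `κ` in the ground model -/
structure Crd (κ : Cardinal.{0}) : Prop where
  reg : κ.IsRegular
  unc : ℵ₀ < κ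
  pow : κ ^< κ = κ
  cont : 2 ^ κ = Order.succ κ

/-! ## The Cohen algebra -/

section cohen

variable {J A : Type} [CompleteBooleanAlgebra A]

/-- compatible partial functions -/
def Cpt {J : Type} (p q : J → Option Bool) : Prop := ∀ x b c, p x = some b → q x = some c → b = c

/-- the partial function `q` extends `p` -/
def Ext {J : Type} (p q : J → Option Bool) : Prop := ∀ x b, p x = some b → q x = some b

/-- union of two partial functions (the first one has priority) -/
def jn {J : Type} (p q : J → Option Bool) : J → Option Bool := fun x => (p x).or (q x)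

/-- restriction to `K` -/
noncomputable def rs {J : Type} (K : Set J) (p : J → Option Bool) : J → Option Bool :=
  open Classical in fun x => if x ∈ K then p x else none

/-- `x` belongs to the complete subalgebra generated by the coordinates in `K`. -/
def Supp (κ : Cardinal.{0}) (g : J → A) (K : Set J) (x : A) : Prop :=
  ∀ y, y ≠ ⊥ → y ≤ x → ∃ p, #(dm p) < κ ∧ dm p ⊆ K ∧ bas g p ≤ x ∧ bas g p ⊓ y ≠ ⊥

/-- the projection to the complete subalgebra of the coordinates in `K` -/
noncomputable def pj (κ : Cardinal.{0}) (g : J → A) (K : Set J) (x : A) : A :=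
  ⨆ p : {p : J → Option Bool // #(dm p) < κ ∧ bas g p ≤ x}, bas g (rs K p.1)

lemma supp_bot (κ : Cardinal.{0}) (g : J → A) (K : Set J) : Supp κ g K ⊥ :=
  fun _ hy h => absurd (le_bot_iff.1 h) hy

end cohen

section prikry

variable {κ : Cardinal.{0}} {J A B : Type} [CompleteBooleanAlgebra A] [CompleteBooleanAlgebra B]

/-- `q'` is stronger than `q` -/
def Le (q' q : Cn κ A) : Prop :=
  q'.1 ≤ q.1 ∧ Ends q.2.1 q'.2.1 ∧ (q'.1 ≤ ⨅ α ∈ q'.2.1 \ q.2.1, q.2.2 α) ∧
    ∀ α, q'.2.2 α ≤ q.2.2 α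

/-- the common extension of `q` and `q'` with stem `u` -/
def mg (q q' : Cn κ A) (u : Finset (Mo κ)) : Cn κ A :=
  (q.1 ⊓ q'.1 ⊓ (⨅ α ∈ u \ q.2.1, q.2.2 α) ⊓ (⨅ α ∈ u \ q'.2.1, q'.2.2 α), u,
    fun α => q.2.2 α ⊓ q'.2.2 α)

/-- '`q` is good' (belongs to the quotient): `s` is an initial segment of the Prikry sequence `H`
and for all initial segments `t ⊇ s` of `H`, the projection of `r ⊓ ⟦t \ s ⊆ Z⟧` is in the generic
filter. -/
def gd (ι : A → B) (h : Finset (Mo κ) → B) (π : A → A) (q : Cn κ A) : B :=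
  h q.2.1 ⊓ ⨅ t, ⨅ (_ : Ends q.2.1 t), (h t)ᶜ ⊔ ι (π (q.1 ⊓ ⨅ α ∈ t \ q.2.1, q.2.2 α))

/-- '`q` and `q'` are compatible in the quotient' -/
def cmp (ι : A → B) (h : Finset (Mo κ) → B) (π : A → A) (q q' : Cn κ A) : B :=
  ⨆ u, ⨆ (_ : Ends q.2.1 u), ⨆ (_ : Ends q'.2.1 u), gd ι h π (mg q q' u)

/-- the raw condition `q` has all its entries in the subalgebra of `K` -/
def KC (κ : Cardinal.{0}) {J A : Type} [CompleteBooleanAlgebra A] (g : J → A) (K : Set J)
    (q : Cn κ A) : Prop :=
  Supp κ g K q.1 ∧ ∀ α, Supp κ g K (q.2.2 α)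

/-- the subalgebra of `K` is closed under `U` -/
def UCl (κ : Cardinal.{0}) {J A : Type} [CompleteBooleanAlgebra A] (g : J → A)
    (U : (Mo κ → A) → A) (K : Set J) : Prop :=
  ∀ X : Mo κ → A, (∀ α, Supp κ g K (X α)) → Supp κ g K (U X)

/-- `b` belongs to the complete subalgebra of `B` generated by the coordinates in `K` and the
Prikry sequence. -/
def BSupp (g : J → A) (U : (Mo κ → A) → A) (ι : A → B) (h : Finset (Mo κ) → B) (K : Set J)
    (b : B) : Prop :=
  ∀ y, y ≠ ⊥ → y ≤ b → ∃ c : Cn κ A, KC κ g K c ∧ Rl U c ∧ cv ι h c ≤ b ∧ cv ι h c ⊓ y ≠ ⊥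

/-- the complete setting -/
structure Sys (κ : Cardinal.{0}) {J A B : Type} [CompleteBooleanAlgebra A]
    [CompleteBooleanAlgebra B] (g : J → A) (U : (Mo κ → A) → A) (ι : A → B)
    (h : Finset (Mo κ) → B) : Prop where
  crd : Crd κ
  coh : Cohen κ g
  nor : Nor U
  prik : Prik U ι h

end prikry

/-! ## Label sequences -/

section seq

/-- label sequences: pairs `(a, s)`, `a : Λ` is the length, `s : Λ → L` is `default` from `a` on. -/
def Sq (Λ L : Type) [LinearOrder Λ] [Inhabited L] : Type :=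
  {p : Λ × (Λ → L) // ∀ g, ¬ g < p.1 → p.2 g = default}

variable {Λ L B : Type} [LinearOrder Λ] [Inhabited L]

/-- length -/
def Sq.lh (q : Sq Λ L) : Λ := q.1.1

/-- labels -/
def Sq.sq (q : Sq Λ L) (g : Λ) : L := q.1.2 g

/-- the initial-segment order -/
def Sq.sub (q q' : Sq Λ L) : Prop := q.lh < q'.lh ∧ ∀ g, g < q.lh → q.sq g = q'.sq g

/-- restriction of a full label sequence -/
noncomputable def Sq.restr (s : Λ → L) (a : Λ) : Sq Λ L :=
  ⟨(a, fun g => open Classical in if g < a then s g else default), fun g hg => by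
    have hg' : ¬ g < a := hg
    simp only [if_neg hg']⟩

/-- The tree order of a valuation `val`: the sequences of length `0` are below everything else, and
otherwise `q` is below `q'` with the value `val q'` if `q` is a proper initial segment of `q'`. -/
noncomputable def RSv [CompleteBooleanAlgebra B] (val : Sq Λ L → B) (q q' : Sq Λ L) : B :=
  open Classical in
  if IsBot q.lh ∧ ¬ IsBot q'.lh then ⊤ else if q.sub q' then val q' else ⊥

end seq

/-! ## The valuation -/

section value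

variable {κ : Cardinal.{0}} {A B T Λ : Type} [CompleteBooleanAlgebra A] [CompleteBooleanAlgebra B]
  [LinearOrder Λ]

/-- raw labels: a root condition and a move (`κ` many pairs (condition, element of `T`)) -/
abbrev Lb (κ : Cardinal.{0}) (A T : Type) : Type := Cn κ A × (Mo κ → Cn κ A × T)

/-- the intersection of the `Z` of the root condition at `g` and of the `Z`'s of the moves with
positions in `F` -/
def ZF (ρ : Λ → Lb κ A T) (g : Λ) (F : Finset (Λ × Mo κ)) : Mo κ → A :=
  fun α => (ρ g).1.2.2 α ⊓ ⨅ x ∈ F, ((ρ x.1).2 x.2).1.2.2 α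

/-- `r` is below the root at `g` and below all moves with positions in `F`, all positions being
`< a` -/
def Lt (P : A → Prop) (ρ : Λ → Lb κ A T) (g a : Λ) (r : A) (F : Finset (Λ × Mo κ)) : Prop :=
  P r ∧ r ≤ (ρ g).1.1 ∧ ∀ x ∈ F, x.1 < a ∧ r ≤ ((ρ x.1).2 x.2).1.1

/-- legitimate conditions `(r, u, ZF ρ g F)` -/
def Lg (P : A → Prop) (ρ : Λ → Lb κ A T) (g a : Λ) (r : A) (u : Finset (Mo κ))
    (F : Finset (Λ × Mo κ)) : Prop :=
  Lt P ρ g a r F ∧ Le (r, u, ZF ρ g F) (ρ g).1

/-- The Boolean value of 'the label sequence `ρ` restricted to `a` belongs to the tree': all root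
conditions are good; compatible conditions of moves give elements of `T` increasing for `R`;
each move is predense below each legitimate good condition; and each legitimate `r` whose projection
is in the generic filter is part of a good condition for some stem. -/
def rval (ι : A → B) (h : Finset (Mo κ) → B) (π : A → A) (R : T → T → B) (P : A → Prop)
    (ρ : Λ → Lb κ A T) (a : Λ) : B :=
  (⨅ g, ⨅ (_ : g < a), gd ι h π (ρ g).1) ⊓
  (⨅ b, ⨅ c, ⨅ (_ : b < c ∧ c < a), ⨅ i, ⨅ j,
    (cmp ι h π ((ρ b).2 i).1 ((ρ c).2 j).1)ᶜ ⊔ R ((ρ b).2 i).2 ((ρ c).2 j).2) ⊓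
  (⨅ g, ⨅ b, ⨅ (_ : g < a ∧ b < a), ⨅ r, ⨅ u, ⨅ F, ⨅ (_ : Lg P ρ g a r u F),
    (gd ι h π (r, u, ZF ρ g F))ᶜ ⊔ ⨆ i, cmp ι h π (r, u, ZF ρ g F) ((ρ b).2 i).1) ⊓
  (⨅ g, ⨅ (_ : g < a), ⨅ r, ⨅ F, ⨅ (_ : Lt P ρ g a r F),
    (ι (π r))ᶜ ⊔ ⨆ u, gd ι h π (r, u, ZF ρ g F))

/-- all entries of a raw condition have the property `P` -/
def CnP (P : A → Prop) (q : Cn κ A) : Prop := P q.1 ∧ ∀ α, P (q.2.2 α)

/-- all entries of a raw label have the property `P` -/
def LbP (P : A → Prop) (l : Lb κ A T) : Prop := CnP P l.1 ∧ ∀ i, CnP P (l.2 i).1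

/-- the valuation of label sequences, for a type `L` of labels with `raw : L → Lb κ A T` -/
def vl {L : Type} [Inhabited L] (ι : A → B) (h : Finset (Mo κ) → B) (π : A → A) (R : T → T → B)
    (P : A → Prop) (raw : L → Lb κ A T) (σ : Sq Λ L) : B :=
  rval ι h π R P (fun g => raw (σ.sq g)) σ.lh

/-- image of a raw condition under a map -/
def mpC (φ : A → A) (q : Cn κ A) : Cn κ A := (φ q.1, q.2.1, fun α => φ (q.2.2 α))

/-- image of a raw label under a map -/
def mpL (φ : A → A) (l : Lb κ A T) : Lb κ A T := (mpC φ l.1, fun i => (mpC φ (l.2 i).1, (l.2 i).2))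

end value

/-! ## The actual labels -/

/-- the subalgebra of the coordinates in `K`, as a type -/
abbrev As (κ : Cardinal.{0}) {J A : Type} [CompleteBooleanAlgebra A] (g : J → A) (K : Set J) :
    Type := {x : A // Supp κ g K x}

/-- the labels: raw labels with entries in the subalgebra of `K` -/
abbrev Lab (κ : Cardinal.{0}) {J A : Type} [CompleteBooleanAlgebra A] (g : J → A) (K : Set J)
    (T : Type) : Type := {l : Lb κ A T // LbP (Supp κ g K) l}

instance instLab (κ : Cardinal.{0}) {J A : Type} [CompleteBooleanAlgebra A] (g : J → A)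
    (K : Set J) (T : Type) [Inhabited T] : Inhabited (Lab κ g K T) :=
  ⟨⟨((⊥, ∅, fun _ => ⊥), fun _ => ((⊥, ∅, fun _ => ⊥), default)),
    ⟨supp_bot κ g K, fun _ => supp_bot κ g K⟩, fun _ => ⟨supp_bot κ g K, fun _ => supp_bot κ g K⟩⟩⟩

end Pool.MP_d2308b.SP
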