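import Pool.Agent.Work.MP_d2308b_lc.SP.Stmts

/-!
# Block [d2308b SP], item AL: a set in the ultrafilter contains a tail of the Prikry sequence
-/

namespace Pool.MP_d2308b.SP

open Cardinal Set

theorem sp_AL (hEn : StEn) (hLq : StLq) (hMt : StMt) : StAL := by
  intro κ A B _ _ U ι h hU hP a X haX
  have M := hMt κ A B U ι h hU hP
  have L := hLq κ A
  have E := hEn (Mo κ)
  refine dense_le fun p hp hpa => ?_
  obtain ⟨q, hq1, hqR, hqp⟩ := hP.dense p hp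
  have hqa : q.1 ≤ a := M.le_fst q a hqR (hqp.trans hpa)
  have hE : Ends q.2.1 q.2.1 := E.refl _
  have hR : Rl U ((a, q.2.1, X) : Cn κ A) := haX
  have hL1 : Le (mg q (a, q.2.1, X) q.2.1) q := L.mg_left q (a, q.2.1, X) q.2.1 hE hE
  have hL2 : Le (mg q (a, q.2.1, X) q.2.1) (a, q.2.1, X) :=
    L.mg_right q (a, q.2.1, X) q.2.1 hE hE
  have hRm : Rl U (mg q (a, q.2.1, X) q.2.1) := M.real_mg q (a, q.2.1, X) q.2.1 hqR hR
  have hne : (mg q (a, q.2.1, X) q.2.1).1 ≠ ⊥ := by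
    have h1 : (mg q (a, q.2.1, X) q.2.1).1 = q.1 := by
      simp [mg, inf_eq_left.2 hqa]
    rw [h1]
    exact hq1
  refine ⟨cv ι h (mg q (a, q.2.1, X) q.2.1), hP.ne _ hne hRm, (M.mono _ _ hL1).trans hqp, ?_⟩
  exact (M.mono _ _ hL2).trans (le_iSup (fun u : Finset (Mo κ) => cv ι h (a, u, X)) q.2.1)

end Pool.MP_d2308b.SP
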