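import Pool.Agent.Work.MP_d2308b_lc.SP.Stmts2

/-!
# Block [d2308b SP], item AN: one move
-/

namespace Pool.MP_d2308b.SP

open Cardinal Set

theorem AN_ex {B T : Type} [CompleteBooleanAlgebra B] (y : B) (e : T → B) (hy : y ≠ ⊥)
    (h : y ≤ ⨆ x, e x) : ∃ x, y ⊓ e x ≠ ⊥ := by
  by_contra hc
  push Not at hc
  apply hy
  have h1 : y = y ⊓ ⨆ x, e x := (inf_eq_left.mpr h).symm
  rw [h1, inf_iSup_eq]
  exact iSup_eq_bot.mpr hc

theorem sp_AN (hMA : StMA) (hCB : StCB) (hSU : StSU) (_hMt : StMt) (hBK : StBK) : StAN := by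
  intro κ J A B _ _ g U ι h hS K' hK' T _ q hq e he hqe
  have hκ : ℵ₀ ≤ κ := hS.crd.reg.aleph0_le
  have hsu : SUs κ g := hSU κ J A g hκ hS.coh
  have hbk : BKs g U ι h K' := hBK κ J A B g U ι h hS K' hK'
  have hcc : CC B (Order.succ κ) := hCB κ J A B g U ι h hS
  let I : Type := {p : Cn κ A × T // KC κ g K' p.1 ∧ Rl U p.1 ∧ cv ι h p.1 ≤ cv ι h q ∧
    cv ι h p.1 ≤ e p.2}
  have hbot : cv ι h ((⊥ : A), (∅ : Finset (Mo κ)), (fun _ => (⊤ : A))) = ⊥ := by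
    have h1 : ι ⊥ = ⊥ := by
      have h2 := hS.prik.sup ∅
      simpa using h2
    have h3 : cv ι h ((⊥ : A), (∅ : Finset (Mo κ)), (fun _ => (⊤ : A))) ≤ ι ⊥ := by
      unfold cv
      exact inf_le_left.trans inf_le_left
    rw [h1] at h3
    exact le_bot_iff.mp h3
  obtain ⟨t0⟩ := (inferInstance : Nonempty T)
  have hne : Nonempty I := ⟨⟨(((⊥ : A), (∅ : Finset (Mo κ)), (fun _ => (⊤ : A))), t0),
    ⟨supp_bot κ g K', fun _ => hsu.top K'⟩, bot_le, by rw [hbot]; exact bot_le,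
    by rw [hbot]; exact bot_le⟩⟩
  obtain ⟨m, hm⟩ := hMA κ B hκ hcc I (fun p => cv ι h p.1.1)
  refine ⟨fun i => (m i).1, fun i => (m i).2, ?_⟩
  have hm' : ⨆ i, cv ι h (m i).1.1 = ⨆ p : I, cv ι h p.1.1 := hm
  rw [hm']
  by_contra hcon
  set s : B := ⨆ p : I, cv ι h p.1.1 with hs
  have hy : cv ι h q ⊓ sᶜ ≠ ⊥ := by
    intro h0
    apply hcon
    exact (disjoint_compl_right_iff.mp (disjoint_iff.mpr h0))
  obtain ⟨x, hx⟩ := AN_ex (cv ι h q ⊓ sᶜ) e hy (inf_le_left.trans hqe)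
  have hB : BSupp g U ι h K' (cv ι h q ⊓ e x) := hbk.inf _ _ (hbk.cvK q hq) (he x)
  obtain ⟨c, hc1, hc2, hc3, hc4⟩ := hB (cv ι h q ⊓ sᶜ ⊓ e x) hx
    (le_inf (inf_le_left.trans inf_le_left) inf_le_right)
  apply hc4
  have h5 : cv ι h c ≤ s := by
    rw [hs]
    exact le_iSup (fun p : I => cv ι h p.1.1)
      ⟨(c, x), hc1, hc2, hc3.trans inf_le_left, hc3.trans inf_le_right⟩
  have h6 : cv ι h c ⊓ (cv ι h q ⊓ sᶜ ⊓ e x) ≤ s ⊓ sᶜ :=
    le_inf (inf_le_left.trans h5) (inf_le_right.trans (inf_le_left.trans inf_le_right))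
  rw [inf_compl_self] at h6
  exact le_bot_iff.mp h6

end Pool.MP_d2308b.SP
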