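import Pool.Agent.Work.MP_d2308b_lc.SP.Stmts

/-!
# Block [d2308b SP], item AU: automorphisms from permutations of the coordinates
-/

namespace Pool.MP_d2308b.SP

open Cardinal Set

section AU

variable {J A : Type} [CompleteBooleanAlgebra A]

/-- the transported partial function -/
def AU_te (e : Equiv.Perm J) (p : J → Option Bool) : J → Option Bool := fun x => p (e.symm x)

lemma AU_te_symm (e : Equiv.Perm J) (p : J → Option Bool) : AU_te e.symm (AU_te e p) = p := by
  funext x
  show p (e.symm (e.symm.symm x)) = p x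
  rw [Equiv.symm_symm, Equiv.symm_apply_apply]

lemma AU_symm_te (e : Equiv.Perm J) (p : J → Option Bool) : AU_te e (AU_te e.symm p) = p := by
  funext x
  show p (e.symm.symm (e.symm x)) = p x
  rw [Equiv.symm_symm, Equiv.apply_symm_apply]

lemma AU_dm (e : Equiv.Perm J) (p : J → Option Bool) : dm (AU_te e p) = e '' dm p := by
  ext x
  constructor
  · intro hx
    exact ⟨e.symm x, hx, Equiv.apply_symm_apply e x⟩
  · rintro ⟨y, hy, rfl⟩
    show p (e.symm (e y)) ≠ none
    rw [Equiv.symm_apply_apply]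
    exact hy

lemma AU_small {κ : Cardinal.{0}} (e : Equiv.Perm J) {p : J → Option Bool} (hp : #(dm p) < κ) :
    #(dm (AU_te e p)) < κ := by
  rw [AU_dm]
  exact lt_of_le_of_lt mk_image_le hp

lemma AU_cpt (e : Equiv.Perm J) {p q : J → Option Bool} (h : Cpt (AU_te e p) (AU_te e q)) :
    Cpt p q := by
  intro x b c hp hq
  refine h (e x) b c ?_ ?_
  · show p (e.symm (e x)) = some b
    rw [Equiv.symm_apply_apply]; exact hp
  · show q (e.symm (e x)) = some c
    rw [Equiv.symm_apply_apply]; exact hq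

lemma AU_ext (e : Equiv.Perm J) {p q : J → Option Bool} (h : Ext p q) :
    Ext (AU_te e p) (AU_te e q) := fun x b hp => h (e.symm x) b hp

/-- the map -/
noncomputable def AU_ph (κ : Cardinal.{0}) (g : J → A) (e : Equiv.Perm J) (x : A) : A :=
  ⨆ p : {p : J → Option Bool // #(dm p) < κ ∧ bas g p ≤ x}, bas g (AU_te e p.1)

lemma AU_mono (κ : Cardinal.{0}) (g : J → A) (e : Equiv.Perm J) {x y : A} (h : x ≤ y) :
    AU_ph κ g e x ≤ AU_ph κ g e y :=
  iSup_le fun p => le_iSup (fun p : {p : J → Option Bool // #(dm p) < κ ∧ bas g p ≤ y} =>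
    bas g (AU_te e p.1)) ⟨p.1, p.2.1, p.2.2.trans h⟩

lemma AU_le (κ : Cardinal.{0}) (g : J → A) (e : Equiv.Perm J) {x : A} {p : J → Option Bool}
    (hp : #(dm p) < κ) (h : bas g p ≤ x) : bas g (AU_te e p) ≤ AU_ph κ g e x :=
  le_iSup (fun p : {p : J → Option Bool // #(dm p) < κ ∧ bas g p ≤ x} =>
    bas g (AU_te e p.1)) ⟨p, hp, h⟩

lemma AU_inv {κ : Cardinal.{0}} {g : J → A} (hF : PFs κ g) (hC : Cohen κ g) (e : Equiv.Perm J)
    (x : A) : AU_ph κ g e.symm (AU_ph κ g e x) = x := by
  apply le_antisymm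
  · refine iSup_le fun q => ?_
    obtain ⟨q, hq, hqx⟩ := q
    by_contra hcon
    have h1 : bas g (AU_te e.symm q) ⊓ xᶜ ≠ ⊥ := by
      intro h0
      apply hcon
      exact disjoint_compl_right_iff.1 (disjoint_iff.2 h0)
    obtain ⟨p', hp', hp'le⟩ := hC.dense _ h1
    have h2 : Ext (AU_te e.symm q) p' := hF.ext_of_le p' _ hp' (hp'le.trans inf_le_left)
    have h3 : Ext q (AU_te e p') := by
      have := AU_ext e h2
      rwa [AU_symm_te] at this
    have h4 : bas g (AU_te e p') ≤ ⨆ p : {p : J → Option Bool // #(dm p) < κ ∧ bas g p ≤ x},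
        bas g (AU_te e p.1) := (hF.anti _ _ h3).trans hqx
    have hne : bas g (AU_te e p') ≠ ⊥ := hC.ne _ (AU_small e hp')
    obtain ⟨⟨p'', hp'', hp''x⟩, y, hy, hy1, hy2⟩ := ex_sup hne h4
    have h5 : Cpt (AU_te e p'') (AU_te e p') := by
      by_contra hcp
      have h6 := hF.disj _ _ hcp
      apply hy
      rw [← le_bot_iff, ← h6]
      exact le_inf hy2 hy1
    have h7 : Cpt p'' p' := AU_cpt e h5
    have h8 : bas g (jn p'' p') = ⊥ := by
      rw [hF.jn_bas _ _ h7, ← le_bot_iff]
      have h9 : bas g p'' ⊓ bas g p' ≤ x ⊓ xᶜ :=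
        inf_le_inf hp''x (hp'le.trans inf_le_right)
      rwa [inf_compl_self] at h9
    exact hC.ne _ (hF.jn_small _ _ hp'' hp') h8
  · conv_lhs => rw [hF.sup_basic x]
    refine iSup_le fun p => ?_
    obtain ⟨p, hp, hpx⟩ := p
    have h1 := AU_le κ g e.symm (AU_small e hp) (AU_le κ g e hp hpx)
    rwa [AU_te_symm] at h1

lemma AU_inv' {κ : Cardinal.{0}} {g : J → A} (hF : PFs κ g) (hC : Cohen κ g) (e : Equiv.Perm J)
    (x : A) : AU_ph κ g e (AU_ph κ g e.symm x) = x := by
  have h := AU_inv hF hC e.symm x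
  rwa [Equiv.symm_symm] at h

/-- the order isomorphism -/
noncomputable def AU_iso {κ : Cardinal.{0}} {g : J → A} (hF : PFs κ g) (hC : Cohen κ g)
    (e : Equiv.Perm J) : A ≃o A where
  toFun := AU_ph κ g e
  invFun := AU_ph κ g e.symm
  left_inv := AU_inv hF hC e
  right_inv := AU_inv' hF hC e
  map_rel_iff' := by
    intro a b
    constructor
    · intro h
      have h1 := AU_mono κ g e.symm h
      have h2 : ∀ c, AU_ph κ g e.symm ((⟨AU_ph κ g e, AU_ph κ g e.symm, AU_inv hF hC e,
        AU_inv' hF hC e⟩ : A ≃ A) c) = c := fun c => AU_inv hF hC e c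
      rwa [h2, h2] at h1
    · exact AU_mono κ g e

lemma AU_iso_apply {κ : Cardinal.{0}} {g : J → A} (hF : PFs κ g) (hC : Cohen κ g)
    (e : Equiv.Perm J) (x : A) : AU_iso hF hC e x = AU_ph κ g e x := rfl

lemma AU_bas {κ : Cardinal.{0}} {g : J → A} (hF : PFs κ g) (e : Equiv.Perm J)
    {p : J → Option Bool} (hp : #(dm p) < κ) : AU_ph κ g e (bas g p) = bas g (AU_te e p) := by
  apply le_antisymm
  · refine iSup_le fun q => ?_
    obtain ⟨q, hq, hqp⟩ := q
    exact hF.anti _ _ (AU_ext e (hF.ext_of_le q p hq hqp))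
  · exact AU_le κ g e hp le_rfl

lemma AU_fixp (e : Equiv.Perm J) (K : Set J) (he : ∀ x ∈ K, e x = x) {p : J → Option Bool}
    (hp : dm p ⊆ K) : AU_te e p = p := by
  funext x
  show p (e.symm x) = p x
  by_cases hx : x ∈ K
  · have h1 : e.symm x = x := by
      rw [Equiv.symm_apply_eq]
      exact (he x hx).symm
    rw [h1]
  · have h1 : e.symm x ∉ K := by
      intro h2
      have h3 := he _ h2
      rw [Equiv.apply_symm_apply] at h3
      exact hx (h3 ▸ h2)
    have h2 : ∀ y, y ∉ K → p y = none := by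
      intro y hy
      by_contra hc
      exact hy (hp hc)
    rw [h2 _ h1, h2 _ hx]

end AU

/-- [AU] Automorphisms from permutations of the coordinates. -/
theorem sp_AU (hPF : StPF) (hSU : StSU) (hPI : StPI) : StAU := by
  intro κ J A _ g hκ hC e K he
  have hF : PFs κ g := hPF κ J A g hκ hC
  have hI : PIs κ g K := hPI κ J A g K hκ hC
  -- supported elements are fixed
  have hfix : ∀ c, Supp κ g K c → AU_iso hF hC e c = c := by
    intro c hc
    have h1 : c = ⨆ p : {p : J → Option Bool // #(dm p) < κ ∧ dm p ⊆ K ∧ bas g p ≤ c},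
        bas g p.1 := by
      apply le_antisymm
      · refine dense_le fun y hy hyc => ?_
        obtain ⟨p, hp, hpK, hpc, hpy⟩ := hc y hy hyc
        exact ⟨_, hpy, inf_le_right, inf_le_left.trans (le_iSup
          (fun p : {p : J → Option Bool // #(dm p) < κ ∧ dm p ⊆ K ∧ bas g p ≤ c} => bas g p.1)
          ⟨p, hp, hpK, hpc⟩)⟩
      · exact iSup_le fun p => p.2.2.2
    have h2 : AU_iso hF hC e (⨆ p : {p : J → Option Bool // #(dm p) < κ ∧ dm p ⊆ K ∧
        bas g p ≤ c}, bas g p.1) = ⨆ p : {p : J → Option Bool // #(dm p) < κ ∧ dm p ⊆ K ∧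
        bas g p ≤ c}, bas g p.1 := by
      rw [OrderIso.map_iSup]
      refine iSup_congr fun p => ?_
      rw [AU_iso_apply, AU_bas hF e p.2.1, AU_fixp e K he p.2.2.1]
    rw [← h1] at h2
    exact h2
  refine ⟨AU_iso hF hC e, fun K' x hx y hy hyx => ?_, fun x => ?_⟩
  · -- supports
    have h1 : (AU_iso hF hC e).symm y ≠ ⊥ := by
      intro h0
      apply hy
      rw [← (AU_iso hF hC e).apply_symm_apply y, h0, OrderIso.map_bot]
    have h2 : (AU_iso hF hC e).symm y ≤ x := by
      rw [OrderIso.symm_apply_le]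
      exact hyx
    obtain ⟨p, hp, hpK, hpx, hpy⟩ := hx _ h1 h2
    refine ⟨AU_te e p, AU_small e hp, ?_, AU_le κ g e hp hpx, ?_⟩
    · rw [AU_dm]
      exact Set.image_mono hpK
    · intro h0
      apply hpy
      have h3 : AU_iso hF hC e (bas g p ⊓ (AU_iso hF hC e).symm y) = ⊥ := by
        rw [OrderIso.map_inf, OrderIso.apply_symm_apply, AU_iso_apply, AU_bas hF e hp]
        exact h0
      rw [← OrderIso.map_bot (AU_iso hF hC e)] at h3
      exact (AU_iso hF hC e).injective h3
  · apply le_antisymm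
    · refine hI.least _ _ (hI.supp x) ?_
      rw [← hfix _ (hI.supp x)]
      exact (AU_iso hF hC e).monotone (hI.le x)
    · refine hI.least _ _ (hI.supp _) ?_
      have h1 := hI.le (AU_iso hF hC e x)
      rw [← hfix _ (hI.supp (AU_iso hF hC e x))] at h1
      exact (AU_iso hF hC e).le_iff_le.1 h1

end Pool.MP_d2308b.SP
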