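import Pool.Agent.Work.MP_d2308b_lc.SP.Stmts

/-!
# Block [d2308b SP], item BK: closure properties of the subalgebra of `B` given by `K`
-/

namespace Pool.MP_d2308b.SP

open Cardinal Set

section BK

variable {κ : Cardinal.{0}} {J A B : Type} [CompleteBooleanAlgebra A] [CompleteBooleanAlgebra B]
  {g : J → A} {U : (Mo κ → A) → A} {ι : A → B} {h : Finset (Mo κ) → B} {K : Set J}

lemma BK_sup {I : Sort*} (f : I → B) (H : ∀ i, BSupp g U ι h K (f i)) :
    BSupp g U ι h K (⨆ i, f i) := by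
  intro y hy hle
  obtain ⟨i, q, hq0, hqy, hqi⟩ := ex_sup hy hle
  obtain ⟨c, h1, h2, h3, h4⟩ := H i q hq0 hqi
  exact ⟨c, h1, h2, h3.trans (le_iSup f i), ne_bot_of_le (inf_le_inf_left _ hqy) h4⟩

lemma BK_cv (c : Cn κ A) (h1 : KC κ g K c) (h2 : Rl U c) : BSupp g U ι h K (cv ι h c) := by
  intro y hy hle
  refine ⟨c, h1, h2, le_rfl, ?_⟩
  rwa [inf_eq_right.2 hle]

lemma BK_compl (hP : Prik U ι h)
    (RD : ∀ q : Cn κ A, Rl U q → ∃ Y : Mo κ → A, (∀ α, Supp κ g K (Y α)) ∧ U Y = ⊤ ∧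
      cv ι h (pj κ g K q.1, q.2.1, Y) ≤ gd ι h (pj κ g K) q)
    (CP : ∀ q c : Cn κ A, Rl U q → Rl U c → KC κ g K c →
      gd ι h (pj κ g K) q ⊓ cv ι h c ≠ ⊥ → cv ι h q ⊓ cv ι h c ≠ ⊥)
    (PI : PIs κ g K) (En : Ens (Mo κ)) (Lq : Les κ A) (Mt : Mts U ι h)
    {b : B} (hb : BSupp g U ι h K b) : BSupp g U ι h K bᶜ := by
  intro y hy hyb
  obtain ⟨q, hq1, hqR, hqy⟩ := hP.dense y hy
  obtain ⟨Y, hYK, hYU, hYle⟩ := RD q hqR
  have hcK : KC κ g K ((pj κ g K q.1, q.2.1, Y) : Cn κ A) := ⟨PI.supp q.1, hYK⟩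
  have hcR : Rl U ((pj κ g K q.1, q.2.1, Y) : Cn κ A) := by
    show pj κ g K q.1 ≤ U Y
    rw [hYU]
    exact le_top
  have hcb : cv ι h ((pj κ g K q.1, q.2.1, Y) : Cn κ A) ≤ bᶜ := by
    apply le_compl_of_inf
    by_contra hne
    obtain ⟨c', hK', hR', hle', hne'⟩ := hb _ hne inf_le_right
    have h1 : gd ι h (pj κ g K) q ⊓ cv ι h c' ≠ ⊥ :=
      ne_bot_of_le (le_inf (inf_le_right.trans (inf_le_left.trans hYle)) inf_le_left) hne'
    refine CP q c' hqR hR' hK' h1 (le_bot_iff.1 ?_)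
    exact (inf_le_inf (hqy.trans hyb) hle').trans (compl_inf_self b).le
  refine ⟨(pj κ g K q.1, q.2.1, Y), hcK, hcR, hcb, ?_⟩
  have hm : (mg ((pj κ g K q.1, q.2.1, Y) : Cn κ A) q q.2.1).1 ≠ ⊥ := by
    refine ne_bot_of_le ?_ hq1
    refine le_inf (le_inf (le_inf (PI.le _) le_rfl) ?_) ?_
    · refine le_iInf₂ fun α hα => ?_
      rw [Finset.sdiff_self] at hα
      exact absurd hα (Finset.notMem_empty α)
    · refine le_iInf₂ fun α hα => ?_
      rw [Finset.sdiff_self] at hα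
      exact absurd hα (Finset.notMem_empty α)
  have hR : Rl U (mg ((pj κ g K q.1, q.2.1, Y) : Cn κ A) q q.2.1) :=
    Mt.real_mg _ q _ hcR hqR
  refine ne_bot_of_le (le_inf ?_ ?_) (hP.ne _ hm hR)
  · exact Mt.mono _ _ (Lq.mg_left (pj κ g K q.1, q.2.1, Y) q q.2.1 (En.refl _) (En.refl _))
  · exact (Mt.mono _ _ (Lq.mg_right (pj κ g K q.1, q.2.1, Y) q q.2.1 (En.refl _)
      (En.refl _))).trans hqy

end BK

theorem sp_BK (hRd : StRd) (hCP : StCP) (hUF : StUF) (hSU : StSU) (hPI : StPI) (hEn : StEn)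
    (hLq : StLq) (hIo : StIo) (hMt : StMt) : StBK := by
  intro κ J A B _ _ g U ι h hS K hK
  have _hκ : ℵ₀ ≤ κ := hS.crd.unc.le
  have _UF := hUF κ A U hS.crd.unc hS.nor
  have _Io := hIo κ A B U ι h hS.prik
  have RD := hRd κ J A B g U ι h hS K hK
  have CP := hCP κ J A B g U ι h hS K
  have SU : SUs κ g := hSU κ J A g hS.crd.unc.le hS.coh
  have PI : PIs κ g K := hPI κ J A g K hS.crd.unc.le hS.coh
  have En : Ens (Mo κ) := hEn (Mo κ)
  have Lq : Les κ A := hLq κ A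
  have Mt : Mts U ι h := hMt κ A B U ι h hS.nor hS.prik
  have hcompl : ∀ b, BSupp g U ι h K b → BSupp g U ι h K bᶜ := fun b hb =>
    BK_compl hS.prik RD CP PI En Lq Mt hb
  have hbiInf : ∀ (I : Type) (p : I → Prop) (f : I → B), (∀ i, p i → BSupp g U ι h K (f i)) →
      BSupp g U ι h K (⨅ i, ⨅ (_ : p i), f i) := by
    intro I p f H
    have h1 := hcompl _ (BK_sup (fun i => ⨆ (_ : p i), (f i)ᶜ)
      fun i => BK_sup (fun _ : p i => (f i)ᶜ) fun hp => hcompl _ (H i hp))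
    simpa only [compl_iSup, compl_compl] using h1
  have hsup : ∀ b b', BSupp g U ι h K b → BSupp g U ι h K b' → BSupp g U ι h K (b ⊔ b') := by
    intro b b' h1 h2
    rw [sup_eq_iSup]
    refine BK_sup _ fun k => ?_
    cases k
    · exact h2
    · exact h1
  have hinf : ∀ b b', BSupp g U ι h K b → BSupp g U ι h K b' → BSupp g U ι h K (b ⊓ b') := by
    intro b b' h1 h2
    have h3 := hcompl _ (hsup _ _ (hcompl _ h1) (hcompl _ h2))
    simpa only [compl_sup, compl_compl] using h3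
  have hbot : BSupp g U ι h K ⊥ := fun y hy hle => absurd (le_bot_iff.1 hle) hy
  have hiota : ∀ a, Supp κ g K a → BSupp g U ι h K (ι a) := by
    intro a ha
    rw [← Mt.cv_iota a]
    refine BK_cv _ ⟨ha, fun _ => SU.top K⟩ ?_
    show a ≤ U (fun _ => ⊤)
    rw [hS.nor.top]
    exact le_top
  have hstem : ∀ s, BSupp g U ι h K (h s) := by
    intro s
    rw [← Mt.cv_stem s]
    refine BK_cv _ ⟨SU.top K, fun _ => SU.top K⟩ ?_
    show (⊤ : A) ≤ U (fun _ => ⊤)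
    rw [hS.nor.top]
  have hgd : ∀ q : Cn κ A, BSupp g U ι h K (gd ι h (pj κ g K) q) := fun q =>
    hinf _ _ (hstem _) (hbiInf (Finset (Mo κ)) (fun t => Ends q.2.1 t)
      (fun t => (h t)ᶜ ⊔ ι (pj κ g K (q.1 ⊓ ⨅ α ∈ t \ q.2.1, q.2.2 α)))
      fun t _ => hsup _ _ (hcompl _ (hstem t)) (hiota _ (PI.supp _)))
  exact
    { iSup := fun I f H => BK_sup f H
      biSup := fun I p f H => BK_sup (fun i => ⨆ (_ : p i), f i)
        fun i => BK_sup (fun _ : p i => f i) fun hp => H i hp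
      compl := hcompl
      biInf := hbiInf
      inf := hinf
      sup := hsup
      top := by
        have h1 := hcompl _ hbot
        rwa [compl_bot] at h1
      bot := hbot
      iota := hiota
      stem := hstem
      cvK := fun q hq => hinf _ _ (hinf _ _ (hiota _ hq.1) (hstem _))
        (hbiInf (Finset (Mo κ)) (fun t => Ends q.2.1 t)
          (fun t => (h t)ᶜ ⊔ ⨅ α ∈ t \ q.2.1, ι (q.2.2 α))
          fun t _ => hsup _ _ (hcompl _ (hstem t))
            (hbiInf (Mo κ) (fun α => α ∈ t \ q.2.1) (fun α => ι (q.2.2 α))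
              fun α _ => hiota _ (hq.2 α)))
      gdK := hgd
      cmpK := fun q q' => BK_sup (fun u => ⨆ (_ : Ends q.2.1 u), ⨆ (_ : Ends q'.2.1 u),
          gd ι h (pj κ g K) (mg q q' u))
        fun u => BK_sup (fun _ : Ends q.2.1 u => ⨆ (_ : Ends q'.2.1 u),
            gd ι h (pj κ g K) (mg q q' u))
          fun _ => BK_sup (fun _ : Ends q'.2.1 u => gd ι h (pj κ g K) (mg q q' u))
            fun _ => hgd _ }

end Pool.MP_d2308b.SP
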