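import Pool.Agent.Work.MP_d2308b_lc.SP.Stmts

/-!
# Block [d2308b SP]: item BS (small supports in `B`)
-/

namespace Pool.MP_d2308b.SP

open Cardinal Set

lemma BS_card {κ : Cardinal.{0}} (hκ : ℵ₀ ≤ κ) {J : Type} (f : Mo κ → Set J)
    (hf : ∀ i, #(f i) ≤ κ) : #(⋃ i, f i : Set J) ≤ κ :=
  calc #(⋃ i, f i : Set J) ≤ Cardinal.sum fun i => #(f i) := mk_iUnion_le_sum_mk
    _ ≤ Cardinal.sum fun _ : Mo κ => κ := sum_le_sum _ _ hf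
    _ = #(Mo κ) * κ := sum_const' _ _
    _ = κ := by rw [mk_ord_toType, mul_eq_self hκ]

theorem sp_BS (hMA : StMA) (hCB : StCB) (hSM : StSM) (hSU : StSU) : StBS := by
  intro κ J A B _ _ g U ι h S
  have hκ : ℵ₀ ≤ κ := S.crd.unc.le
  have SU := hSU κ J A g hκ S.coh
  refine ⟨fun K K' b hK hb y hy hyb => ?_, fun b => ?_⟩
  · obtain ⟨c, hc, hr, hle, hne⟩ := hb y hy hyb
    exact ⟨c, ⟨SU.mono K K' _ hK hc.1, fun α => SU.mono K K' _ hK (hc.2 α)⟩, hr, hle, hne⟩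
  by_cases hb : b = ⊥
  · refine ⟨∅, by simp, fun y hy hyb => ?_⟩
    rw [hb] at hyb
    exact absurd (le_bot_iff.1 hyb) hy
  obtain ⟨q0, h1, h2, h3⟩ := S.prik.dense b hb
  have hne : Nonempty {q : Cn κ A // Rl U q ∧ q.1 ≠ ⊥ ∧ cv ι h q ≤ b} := ⟨⟨q0, h2, h1, h3⟩⟩
  obtain ⟨e, he⟩ := hMA κ B hκ (hCB κ J A B g U ι h S)
    {q : Cn κ A // Rl U q ∧ q.1 ≠ ⊥ ∧ cv ι h q ≤ b} (fun q => cv ι h q.1)
  have hsup : ⨆ q : {q : Cn κ A // Rl U q ∧ q.1 ≠ ⊥ ∧ cv ι h q ≤ b}, cv ι h q.1 = b := by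
    refine le_antisymm (iSup_le fun q => q.2.2.2) (dense_le fun p hp hpb => ?_)
    obtain ⟨q, hq1, hq2, hq3⟩ := S.prik.dense p hp
    exact ⟨cv ι h q, S.prik.ne q hq1 hq2, hq3,
      le_iSup (fun q : {q : Cn κ A // Rl U q ∧ q.1 ≠ ⊥ ∧ cv ι h q ≤ b} => cv ι h q.1)
        ⟨q, hq2, hq1, hq3.trans hpb⟩⟩
  have hS : ∀ x : A, ∃ K' : Set J, #K' ≤ κ ∧ Supp κ g K' x := fun x => by
    obtain ⟨K', -, h4, h5⟩ := hSM κ J A g S.crd S.coh Set.univ x (SU.univ x)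
    exact ⟨K', h4, h5⟩
  choose s hs1 hs2 using hS
  refine ⟨(⋃ i : Mo κ, s (e i).1.1) ∪ ⋃ i : Mo κ, ⋃ α : Mo κ, s ((e i).1.2.2 α), ?_, ?_⟩
  · refine (mk_union_le _ _).trans ?_
    refine (add_le_add (BS_card hκ _ fun i => hs1 _)
      (BS_card hκ _ fun i => BS_card hκ _ fun α => hs1 _)).trans ?_
    rw [add_eq_self hκ]
  · intro y hy hyb
    rw [← hsup, ← he] at hyb
    obtain ⟨i, q, hq, hqy, hqi⟩ := ex_sup hy hyb
    refine ⟨(e i).1, ⟨?_, fun α => ?_⟩, (e i).2.1, (e i).2.2.2, fun h0 => hq ?_⟩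
    · refine SU.mono _ _ _ ?_ (hs2 _)
      exact (subset_iUnion (fun i : Mo κ => s (e i).1.1) i).trans subset_union_left
    · refine SU.mono _ _ _ ?_ (hs2 _)
      exact ((subset_iUnion (fun α : Mo κ => s ((e i).1.2.2 α)) α).trans
        (subset_iUnion (fun i : Mo κ => ⋃ α : Mo κ, s ((e i).1.2.2 α)) i)).trans
          subset_union_right
    · exact le_bot_iff.1 (h0 ▸ le_inf hqi hqy)

end Pool.MP_d2308b.SP
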