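import Pool.Agent.Work.MP_d2308b_lc.SP.Stmts2

/-!
# Block [d2308b SP], item Br: branch analysis
-/

namespace Pool.MP_d2308b.SP

open Cardinal Set

section

variable {Λ L B : Type} [LinearOrder Λ] [Inhabited L] [CompleteBooleanAlgebra B]

lemma Br_lt {val : Sq Λ L → B} {q q' : Sq Λ L} (h : RSv val q q' ≠ ⊥) : q.lh < q'.lh := by
  classical
  unfold RSv at h
  split_ifs at h with h1 h2
  · rcases lt_or_eq_of_le (h1.1 q'.lh) with h3 | h3
    · exact h3
    · exact absurd (h3 ▸ h1.1) h1.2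
  · exact h2.1
  · exact absurd rfl h

lemma Br_sub {val : Sq Λ L → B} {q q' : Sq Λ L} (hq : ¬ IsBot q.lh) (h : RSv val q q' ≠ ⊥) :
    q.sub q' := by
  classical
  unfold RSv at h
  split_ifs at h with h1 h2
  · exact absurd h1.1 hq
  · exact h2
  · exact absurd rfl h

lemma Br_le {val : Sq Λ L → B} {q q' : Sq Λ L} (hq : ¬ IsBot q.lh) : RSv val q q' ≤ val q' := by
  classical
  unfold RSv
  split_ifs with h1 h2
  · exact absurd h1.1 hq
  · exact le_rfl
  · exact bot_le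

end

theorem sp_Br (_hSq : StSq) : StBr := by
  intro Λ L B _ _ _ _ val hmax hanti hbot c
  classical
  obtain ⟨v, hv⟩ : ∃ v, v = incr (RSv val) univ c := ⟨_, rfl⟩
  have ctot : ∀ g, v ≤ ⨆ q, c g q := fun g => hv ▸ incr_tot (mem_univ g)
  have cfun : ∀ g x y, x ≠ y → v ⊓ c g x ⊓ c g y = ⊥ := fun g x y h =>
    hv ▸ incr_fun (mem_univ g) h
  have cinc : ∀ g h, g < h → ∀ x y, v ⊓ c g x ⊓ c h y ≤ RSv val x y := fun g h hgh x y =>
    hv ▸ incr_inc (mem_univ g) (mem_univ h) hgh x y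
  have f4 : ∀ h q, v ⊓ c h q ≠ ⊥ → h ≤ q.lh := by
    intro h
    induction h using WellFoundedLT.induction with
    | ind h ih =>
      intro q hq
      by_contra hlt
      push Not at hlt
      obtain ⟨q', p, hp, hp1, hp2⟩ := ex_sup hq (inf_le_left.trans (ctot q.lh))
      have h1 : v ⊓ c q.lh q' ≠ ⊥ := ne_bot_of_le (le_inf (hp1.trans inf_le_left) hp2) hp
      have h2 := ih q.lh hlt q' h1
      have h3 : RSv val q' q ≠ ⊥ := ne_bot_of_le ((le_inf (le_inf (hp1.trans inf_le_left) hp2)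
        (hp1.trans inf_le_right)).trans (cinc _ _ hlt q' q)) hp
      exact absurd (Br_lt h3) (not_lt.2 h2)
  have f5 : ∀ h q, v ⊓ c h q ≤ val q := by
    intro h q
    obtain ⟨k, hk⟩ := hmax h
    apply dense_le
    intro p hp hpq
    obtain ⟨q', p', hp', hp1, hp2⟩ := ex_sup hp ((hpq.trans inf_le_left).trans (ctot k))
    have h1 : p' ≤ RSv val q q' := (le_inf (hp1.trans hpq) hp2).trans (cinc h k hk q q')
    refine ⟨p', hp', hp1, ?_⟩
    by_cases hq : IsBot q.lh
    · rw [hbot q hq]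
      exact le_top
    · exact (h1.trans (Br_le hq)).trans (hanti _ _ (Br_sub hq (ne_bot_of_le h1 hp')))
  refine ⟨fun σ => v ⊓ ⨆ g, c g σ, fun σ => hv ▸ inf_le_left, fun σ => ?_, ?_, fun b => ?_⟩
  · apply dense_le
    intro p hp hpσ
    obtain ⟨g, p', hp', hp1, hp2⟩ := ex_sup hp (hpσ.trans inf_le_right)
    exact ⟨p', hp', hp1, (le_inf ((hp1.trans hpσ).trans inf_le_left) hp2).trans (f5 g σ)⟩
  · intro σ τ hσ hτ hne
    obtain ⟨g, p, hp, hp1, hp2⟩ := ex_sup hne (inf_le_left.trans inf_le_right)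
    obtain ⟨h, p', hp', hp3, hp4⟩ := ex_sup hp (hp1.trans (inf_le_right.trans inf_le_right))
    have hpv : p' ≤ v := (hp3.trans hp1).trans (inf_le_left.trans inf_le_left)
    have hpσ : p' ≤ c g σ := hp3.trans hp2
    rcases lt_trichotomy g h with h1 | h1 | h1
    · left
      exact Br_sub hσ (ne_bot_of_le ((le_inf (le_inf hpv hpσ) hp4).trans (cinc g h h1 σ τ)) hp')
    · right; left
      subst h1
      by_contra hστ
      have h2 := le_inf (le_inf hpv hpσ) hp4
      rw [cfun g σ τ hστ] at h2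
      exact hp' (le_bot_iff.1 h2)
    · right; right
      exact Br_sub hτ (ne_bot_of_le ((le_inf (le_inf hpv hp4) hpσ).trans (cinc h g h1 τ σ)) hp')
  · rw [← hv]
    obtain ⟨g, hg⟩ := hmax b
    apply dense_le
    intro p hp hpv
    obtain ⟨q, p', hp', hp1, hp2⟩ := ex_sup hp (hpv.trans (ctot g))
    have h1 : p' ≤ v ⊓ c g q := le_inf (hp1.trans hpv) hp2
    have h2 : b < q.lh := lt_of_lt_of_le hg (f4 g q (ne_bot_of_le h1 hp'))
    refine ⟨p', hp', hp1, le_iSup_of_le (⟨q, h2⟩ : {σ : Sq Λ L // b < σ.lh}) ?_⟩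
    exact le_inf (h1.trans inf_le_left) (le_iSup_of_le g hp2)

end Pool.MP_d2308b.SP
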