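import Pool.Agent.Work.MP_d2308b_lc.SP.Stmts

/-!
# Item CA: the Cohen algebra is `κ⁺`-c.c.
-/

namespace Pool.MP_d2308b.SP

open Cardinal Set

theorem sp_CA (hDS : StDS) (hPF : StPF) : StCA := by
  intro κ J A _ g hC hg
  have hk : ℵ₀ ≤ κ := hC.unc.le
  have PF := hPF κ J A g hk hg
  intro S h1 h2
  by_contra hcard
  rw [not_lt] at hcard
  have hS : κ < #S := lt_of_lt_of_le (Order.lt_succ κ) hcard
  have hne : ∀ a : S, ∃ p, #(dm p) < κ ∧ bas g p ≤ a.1 := fun a => hg.dense a.1 (h1 a.1 a.2)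
  choose p hp1 hp2 using hne
  obtain ⟨a, a', haa, hcpt⟩ := hDS κ J S hk hC.pow p hp1 hS
  have h3 : bas g (jn (p a) (p a')) ≠ ⊥ := hg.ne _ (PF.jn_small _ _ (hp1 a) (hp1 a'))
  apply h3
  rw [PF.jn_bas _ _ hcpt, ← le_bot_iff]
  refine (inf_le_inf (hp2 a) (hp2 a')).trans ?_
  exact (disjoint_iff.1 (h2 a.2 a'.2 (fun h => haa (Subtype.ext h)))).le

end Pool.MP_d2308b.SP
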