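import Pool.Agent.Work.MP_d2308b_lc.SP.Stmts

/-!
# Block [d2308b SP], item CB: the chain condition of the Prikry algebra
-/

namespace Pool.MP_d2308b.SP

open Cardinal Set

/-- two real conditions with the same stem and disjoint values have disjoint first entries -/
lemma CB_disj {κ : Cardinal.{0}} {A B : Type} [CompleteBooleanAlgebra A]
    [CompleteBooleanAlgebra B] {U : (Mo κ → A) → A} {ι : A → B} {h : Finset (Mo κ) → B}
    (hE : Ens (Mo κ)) (hL : Les κ A) (hM : Mts U ι h) (hP : Prik U ι h) (q q' : Cn κ A)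
    (hq : Rl U q) (hq' : Rl U q') (hst : q.2.1 = q'.2.1) (hd : Disjoint (cv ι h q) (cv ι h q')) :
    q.1 ⊓ q'.1 = ⊥ := by
  have e1 : Ends q.2.1 q.2.1 := hE.refl _
  have e2 : Ends q'.2.1 q.2.1 := by
    rw [hst]
    exact hE.refl _
  have h1 := hM.mono _ _ (hL.mg_left q q' q.2.1 e1 e2)
  have h2 := hM.mono _ _ (hL.mg_right q q' q.2.1 e1 e2)
  have h3 : cv ι h (mg q q' q.2.1) = ⊥ := le_bot_iff.1 (hd h1 h2)
  have h4 : (mg q q' q.2.1).1 = ⊥ := by
    by_contra hne'
    exact hP.ne _ hne' (hM.real_mg _ _ _ hq hq') h3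
  have h5 : (mg q q' q.2.1).1 = q.1 ⊓ q'.1 := by
    unfold mg
    rw [← hst]
    simp
  rw [← h5, h4]

/-- a set is small if it maps to a small set with small fibres -/
lemma CB_card {κ : Cardinal.{0}} (hκ : ℵ₀ ≤ κ) {S T : Type} (F : S → T) (hT : #T ≤ κ)
    (hF : ∀ t, #{b : S // F b = t} ≤ κ) : #S ≤ κ := by
  rw [← mk_congr (Equiv.sigmaFiberEquiv F), mk_sigma]
  calc Cardinal.sum (fun t : T => #{b : S // F b = t}) ≤ Cardinal.sum (fun _ : T => κ) :=
        sum_le_sum _ _ hF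
    _ = #T * κ := sum_const' T κ
    _ ≤ κ * κ := mul_le_mul_left hT κ
    _ = κ := mul_eq_self hκ

theorem sp_CB (hCA : StCA) (hEn : StEn) (hLq : StLq) (hMt : StMt) : StCB := by
  intro κ J A B _ _ g U ι h hS S hS0 hSd
  have hκ : ℵ₀ ≤ κ := hS.crd.unc.le
  have hA : CC A (Order.succ κ) := hCA κ J A g hS.crd hS.coh
  have hE := hEn (Mo κ)
  have hL := hLq κ A
  have hM := hMt κ A B U ι h hS.nor hS.prik
  choose q hq0 hqR hqle using fun b : S => hS.prik.dense b.1 (hS0 b.1 b.2)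
  have key : ∀ b b' : S, b ≠ b' → (q b).2.1 = (q b').2.1 → (q b).1 ⊓ (q b').1 = ⊥ := by
    intro b b' hne hst
    refine CB_disj hE hL hM hS.prik _ _ (hqR b) (hqR b') hst ?_
    exact (hSd b.2 b'.2 (fun h => hne (Subtype.ext h))).mono (hqle b) (hqle b')
  refine Order.lt_succ_iff.2 (CB_card hκ (fun b : S => (q b).2.1) ?_ fun s => ?_)
  · have hinf : Infinite (Mo κ) := by
      rw [infinite_iff, mk_ord_toType]
      exact hκ
    rw [mk_finset_of_infinite, mk_ord_toType]
  · refine Order.lt_succ_iff.1 ?_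
    have h1 := hA.family (fun b : {b : S // (q b).2.1 = s} => (q b.1).1) (by
      intro i j hij
      exact key i.1 j.1 (fun h => hij (Subtype.ext h)) (i.2.trans j.2.symm))
    have h2 : {i : {b : S // (q b).2.1 = s} | (q i.1).1 ≠ ⊥} = Set.univ :=
      eq_univ_of_forall fun i => hq0 i.1
    rw [h2, mk_univ] at h1
    exact h1

end Pool.MP_d2308b.SP
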