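import Pool.Agent.Work.MP_d2308b_lc.SP.Stmts

/-!
# Block [d2308b SP]: item CP (compatibility)
-/

namespace Pool.MP_d2308b.SP

open Cardinal Set

lemma CP_core {κ : Cardinal.{0}} {A B : Type} [CompleteBooleanAlgebra A]
    [CompleteBooleanAlgebra B] {U : (Mo κ → A) → A} {ι : A → B} {h : Finset (Mo κ) → B}
    (hP : Prik U ι h) (hL : Les κ A) (hM : Mts U ι h) (q c : Cn κ A) (u : Finset (Mo κ))
    (hq : Rl U q) (hc : Rl U c) (h1 : Ends q.2.1 u) (h2 : Ends c.2.1 u)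
    (h3 : (mg q c u).1 ≠ ⊥) : cv ι h q ⊓ cv ι h c ≠ ⊥ := by
  intro h4
  refine hP.ne (mg q c u) h3 (hM.real_mg q c u hq hc) ?_
  exact le_bot_iff.1 ((le_inf (hM.mono _ _ (hL.mg_left q c u h1 h2))
    (hM.mono _ _ (hL.mg_right q c u h1 h2))).trans h4.le)

/-- item CP -/
theorem sp_CP (hEn : StEn) (hLq : StLq) (hIo : StIo) (hMt : StMt) (hGd : StGd) (hSU : StSU)
    (hPI : StPI) : StCP := by
  intro κ J A B _ _ g U ι h hS K q c hq hc hK hne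
  have hκ : ℵ₀ ≤ κ := hS.crd.unc.le
  have hPI' := hPI κ J A g K hκ hS.coh
  have hSU' := hSU κ J A g hκ hS.coh
  have hE := hEn (Mo κ)
  have hL := hLq κ A
  have hI := hIo κ A B U ι h hS.prik
  have hM := hMt κ A B U ι h hS.nor hS.prik
  have hG := hGd κ A B U ι h (pj κ g K) hS.nor hS.prik hPI'.mono hPI'.le
  have hst : h q.2.1 ⊓ h c.2.1 ≠ ⊥ := by
    intro h0
    apply hne
    exact le_bot_iff.1 ((inf_le_inf (hG.le_h q) (hM.le_h c)).trans h0.le)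
  have hcmp : Ends q.2.1 c.2.1 ∨ Ends c.2.1 q.2.1 := by
    by_contra hcon
    push Not at hcon
    exact hst (hS.prik.disj _ _ hcon.1 hcon.2)
  rcases hcmp with hqc | hcq
  · -- the stem of `q` is an initial segment of the stem of `c`
    refine CP_core hS.prik hL hM q c c.2.1 hq hc hqc (hE.refl _) ?_
    have h1 : gd ι h (pj κ g K) q ⊓ cv ι h c ≤
        ι (pj κ g K (q.1 ⊓ ⨅ α ∈ c.2.1 \ q.2.1, q.2.2 α) ⊓ c.1) := by
      rw [hI.inf]
      refine le_inf ?_ (inf_le_right.trans (hM.le_iota c))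
      exact (inf_le_inf le_rfl (hM.le_h c)).trans (hG.le_ends q c.2.1 hqc)
    have h2 : c.1 ⊓ pj κ g K (q.1 ⊓ ⨅ α ∈ c.2.1 \ q.2.1, q.2.2 α) ≠ ⊥ := by
      intro h0
      rw [inf_comm] at h0
      rw [h0, hI.bot] at h1
      exact hne (le_bot_iff.1 h1)
    have h3 := hPI'.meet _ _ hK.1 h2
    intro h4
    apply h3
    change q.1 ⊓ c.1 ⊓ (⨅ α ∈ c.2.1 \ q.2.1, q.2.2 α) ⊓ (⨅ α ∈ c.2.1 \ c.2.1, c.2.2 α) = ⊥ at h4
    rw [← le_bot_iff, ← h4]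
    refine le_inf (le_inf (le_inf ?_ inf_le_left) ?_) ?_
    · exact inf_le_right.trans inf_le_left
    · exact inf_le_right.trans inf_le_right
    · rw [Finset.sdiff_self]
      simp
  · refine CP_core hS.prik hL hM q c q.2.1 hq hc (hE.refl _) hcq ?_
    have h1 : gd ι h (pj κ g K) q ⊓ cv ι h c ≤
        ι (pj κ g K q.1 ⊓ (c.1 ⊓ ⨅ α ∈ q.2.1 \ c.2.1, c.2.2 α)) := by
      rw [hI.inf, hI.inf, hI.biInf]
      refine le_inf (inf_le_left.trans (hG.le_pi q)) (le_inf (inf_le_right.trans (hM.le_iota c)) ?_)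
      rw [inf_comm]
      exact (inf_le_inf le_rfl (hG.le_h q)).trans (hM.le_ends c q.2.1 hcq)
    have hsupp : Supp κ g K (c.1 ⊓ ⨅ α ∈ q.2.1 \ c.2.1, c.2.2 α) :=
      hSU'.inf K _ _ hK.1 (hSU'.biInf K (Mo κ) (fun α => α ∈ q.2.1 \ c.2.1) c.2.2
        fun i _ => hK.2 i)
    have h2 : (c.1 ⊓ ⨅ α ∈ q.2.1 \ c.2.1, c.2.2 α) ⊓ pj κ g K q.1 ≠ ⊥ := by
      intro h0
      rw [inf_comm] at h0
      rw [h0, hI.bot] at h1
      exact hne (le_bot_iff.1 h1)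
    have h3 := hPI'.meet _ _ hsupp h2
    intro h4
    apply h3
    change q.1 ⊓ c.1 ⊓ (⨅ α ∈ q.2.1 \ q.2.1, q.2.2 α) ⊓ (⨅ α ∈ q.2.1 \ c.2.1, c.2.2 α) = ⊥ at h4
    rw [← le_bot_iff, ← h4]
    refine le_inf (le_inf (le_inf inf_le_right ?_) ?_) ?_
    · exact inf_le_left.trans inf_le_left
    · rw [Finset.sdiff_self]
      simp
    · exact inf_le_left.trans inf_le_right

end Pool.MP_d2308b.SP
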