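import Pool.Agent.Work.MP_d2308b_lc.SP.Stmts2

/-!
# Block SP, item Ch: the chain lemma
-/

set_option autoImplicit false

namespace Pool.MP_d2308b.SP

open Cardinal Set

theorem Ch_two {B T Λ : Type} [CompleteBooleanAlgebra B] [LinearOrder Λ] [WellFoundedLT Λ]
    (R : T → T → B) (y : B) (M : Λ → T → B)
    (hcl : ∀ g x x', x ≠ x' → y ⊓ M g x ⊓ M g x' ≤ R x x' ⊔ R x' x)
    (g : Λ) (x x' : T) (hx : x ≠ x') : y ⊓ minPart R M g x ⊓ minPart R M g x' = ⊥ := by
  have h1 : y ⊓ minPart R M g x ⊓ minPart R M g x' ≤ M g x :=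
    inf_le_left.trans (inf_le_right.trans (minPart_le M g x))
  have h2 : y ⊓ minPart R M g x ⊓ minPart R M g x' ≤ M g x' :=
    inf_le_right.trans (minPart_le M g x')
  have h3 : y ⊓ minPart R M g x ⊓ minPart R M g x' ≤ R x x' ⊔ R x' x :=
    (le_inf (le_inf (inf_le_left.trans inf_le_left) h1) h2).trans (hcl g x x' hx)
  have h4 : y ⊓ minPart R M g x ⊓ minPart R M g x' ≤ (M g x ⊓ R x x')ᶜ :=
    inf_le_right.trans (inf_le_right.trans (iInf_le _ x))
  have h5 : y ⊓ minPart R M g x ⊓ minPart R M g x' ≤ (M g x' ⊓ R x' x)ᶜ :=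
    inf_le_left.trans (inf_le_right.trans (inf_le_right.trans (iInf_le _ x')))
  generalize y ⊓ minPart R M g x ⊓ minPart R M g x' = p at *
  have h6 : p ⊓ R x x' = ⊥ := by
    have h7 : p ⊓ R x x' ≤ (M g x ⊓ R x x') ⊓ (M g x ⊓ R x x')ᶜ :=
      le_inf (inf_le_inf h1 le_rfl) (inf_le_left.trans h4)
    rw [inf_compl_self] at h7
    exact le_bot_iff.1 h7
  have h8 : p ⊓ R x' x = ⊥ := by
    have h7 : p ⊓ R x' x ≤ (M g x' ⊓ R x' x) ⊓ (M g x' ⊓ R x' x)ᶜ :=
      le_inf (inf_le_inf h2 le_rfl) (inf_le_left.trans h5)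
    rw [inf_compl_self] at h7
    exact le_bot_iff.1 h7
  have h9 : p ≤ p ⊓ (R x x' ⊔ R x' x) := le_inf le_rfl h3
  rw [inf_sup_left, h6, h8, sup_bot_eq] at h9
  exact le_bot_iff.1 h9

theorem sp_Ch : StCh := by
  intro B T Λ _ _ _ R y M htr hwf k1 k3 hcl
  refine le_incr (fun g _ => (k1 g).trans (hwf (M g)))
    (fun g _ x x' hx => Ch_two R y M hcl g x x' hx) ?_
  intro g _ k _ hgk x x'
  have h1 := minPart_down htr hwf M k3 g k hgk x'
  calc y ⊓ minPart R M g x ⊓ minPart R M k x' ≤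
      y ⊓ minPart R M g x ⊓ ⨆ z, minPart R M g z ⊓ R z x' := inf_le_inf_left _ h1
    _ = ⨆ z, y ⊓ minPart R M g x ⊓ (minPart R M g z ⊓ R z x') := inf_iSup_eq _ _
    _ ≤ R x x' := by
        refine iSup_le fun z => ?_
        by_cases hz : x = z
        · rw [← hz]
          exact inf_le_right.trans inf_le_right
        · have h2 := Ch_two R y M hcl g x z hz
          rw [← inf_assoc, h2, bot_inf_eq]
          exact bot_le

end Pool.MP_d2308b.SP
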