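import Pool.Agent.Work.MP_d2308b_lc.SP.Stmts

/-!
# Block [d2308b SP], item DS (helper61): among more than `κ` small partial functions two are
compatible
-/

namespace Pool.MP_d2308b.SP

open Cardinal Set

lemma DS_rs_dm {J : Type} (K : Set J) (p : J → Option Bool) : dm (rs K p) ⊆ K := by
  intro x hx
  by_contra h
  apply hx
  unfold rs
  rw [if_neg h]

lemma DS_rs_ext {J : Type} (K : Set J) (p : J → Option Bool) : Ext (rs K p) p := by
  intro x b hx
  unfold rs at hx
  split_ifs at hx with h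
  exact hx

lemma DS_rs_mem {J : Type} (K : Set J) (p : J → Option Bool) (x : J) (hx : x ∈ K) :
    rs K p x = p x := by
  unfold rs
  rw [if_pos hx]

lemma DS_rs_small {J : Type} (K : Set J) (p : J → Option Bool) : dm (rs K p) ⊆ dm p := by
  intro x hx h
  apply hx
  unfold rs
  split_ifs
  · exact h
  · rfl

theorem sp_DS (hCL : StCL) (hNP : StNP) : StDS := by
  classical
  intro κ X I hκ hpow p hp hI
  have hne : Nonempty I := by
    rw [← Cardinal.mk_ne_zero_iff]
    intro h
    rw [h] at hI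
    exact absurd (lt_of_le_of_lt zero_le hI) (lt_irrefl _)
  let ii : (X → Option Bool) → I := fun q =>
    if h : ∃ i, Ext q (p i) then Classical.choose h else Classical.choice hne
  have hii : ∀ q, (∃ i, Ext q (p i)) → Ext q (p (ii q)) := by
    intro q h
    show Ext q (p (if h : ∃ i, Ext q (p i) then Classical.choose h else Classical.choice hne))
    rw [dif_pos h]
    exact Classical.choose_spec h
  let F : Set X → Set X := fun w =>
    ⋃ q : {q : X → Option Bool // dm q ⊆ w ∧ #(dm q) < κ}, dm (p (ii q.1))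
  have hF : ∀ w : Set X, #w < κ → #(F w) ≤ κ := by
    intro w hw
    have h1 := hNP X κ κ hκ le_rfl hpow.le w hw.le
    calc #(F w) ≤ Cardinal.sum (fun q : {q : X → Option Bool // dm q ⊆ w ∧ #(dm q) < κ} =>
          #(dm (p (ii q.1)))) := Cardinal.mk_iUnion_le_sum_mk
      _ ≤ Cardinal.sum (fun _ : {q : X → Option Bool // dm q ⊆ w ∧ #(dm q) < κ} => κ) :=
          Cardinal.sum_le_sum _ _ fun q => (hp _).le
      _ = #{q : X → Option Bool // dm q ⊆ w ∧ #(dm q) < κ} * κ := Cardinal.sum_const' _ _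
      _ ≤ κ * κ := mul_le_mul_left h1 κ
      _ = κ := Cardinal.mul_eq_self hκ
  obtain ⟨D, -, hD, hcl⟩ := hCL X κ κ hκ le_rfl hpow.le F hF ∅ (by simp)
  have h2 := hNP X κ κ hκ le_rfl hpow.le D hD
  obtain ⟨a, ha⟩ : ∃ a : I, ∀ q : {q : X → Option Bool // dm q ⊆ D ∧ #(dm q) < κ},
      ii q.1 ≠ a := by
    by_contra hcon
    push Not at hcon
    have hs : Function.Surjective
        (fun q : {q : X → Option Bool // dm q ⊆ D ∧ #(dm q) < κ} => ii q.1) := hcon
    exact absurd ((Cardinal.mk_le_of_surjective hs).trans h2) (not_le.2 hI)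
  have hq1 : dm (rs D (p a)) ⊆ D := DS_rs_dm D (p a)
  have hq2 : #(dm (rs D (p a))) < κ :=
    lt_of_le_of_lt (Cardinal.mk_le_mk_of_subset (DS_rs_small D (p a))) (hp a)
  have hq3 : Ext (rs D (p a)) (p (ii (rs D (p a)))) := hii _ ⟨a, DS_rs_ext D (p a)⟩
  refine ⟨ii (rs D (p a)), a, ha ⟨_, hq1, hq2⟩, ?_⟩
  intro x b c hb hc
  have hxD : x ∈ D := by
    apply hcl (dm (rs D (p a))) hq1 hq2
    refine Set.mem_iUnion.2 ⟨⟨rs D (p a), subset_rfl, hq2⟩, ?_⟩
    show p (ii (rs D (p a))) x ≠ none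
    rw [hb]
    exact Option.some_ne_none b
  have h3 : rs D (p a) x = some c := by rw [DS_rs_mem D (p a) x hxD, hc]
  have h4 := hq3 x c h3
  rw [hb] at h4
  exact Option.some.inj h4

end Pool.MP_d2308b.SP
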