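import Pool.Agent.Work.MP_d2308b_lc.SP.Stmts

/-!
# Block [d2308b SP], item Dn: density with a prescribed initial segment
-/

set_option autoImplicit false

namespace Pool.MP_d2308b.SP

open Cardinal Set

theorem Dn_meet {κ : Cardinal.{0}} {A B : Type} [CompleteBooleanAlgebra A]
    [CompleteBooleanAlgebra B] {U : (Mo κ → A) → A} {ι : A → B} {h : Finset (Mo κ) → B}
    (hM : Mts U ι h) (q q' : Cn κ A) (hne : cv ι h q ⊓ cv ι h q' ≠ ⊥) :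
    ∃ u, Ends q.2.1 u ∧ Ends q'.2.1 u ∧ cv ι h (mg q q' u) ≠ ⊥ := by
  by_contra hcon
  push Not at hcon
  apply hne
  apply le_bot_iff.1
  refine (hM.meet q q').trans ?_
  refine iSup_le fun u => iSup_le fun h1 => iSup_le fun h2 => ?_
  rw [hcon u h1 h2]

theorem sp_Dn (_ : StEn) (hLq : StLq) (_ : StIo) (hMt : StMt) : StDn := by
  intro κ A B _ _ U ι h hU hP q₀ u y hq₀ hy hyle
  have hM := hMt κ A B U ι h hU hP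
  have hL := hLq κ A
  obtain ⟨q₁, hq₁ne, hq₁, hq₁y⟩ := hP.dense y hy
  have h1 : cv ι h q₁ ⊓ cv ι h q₀ ≠ ⊥ := by
    rw [inf_eq_left.2 (hq₁y.trans (hyle.trans inf_le_left))]
    exact hP.ne q₁ hq₁ne hq₁
  obtain ⟨u₁, e1, e2, hne₂⟩ := Dn_meet hM q₁ q₀ h1
  obtain ⟨q₂, hq₂⟩ : ∃ q₂, q₂ = mg q₁ q₀ u₁ := ⟨_, rfl⟩
  rw [← hq₂] at hne₂
  have hR₂ : Rl U q₂ := hq₂ ▸ hM.real_mg q₁ q₀ u₁ hq₁ hq₀
  have hL21 : Le q₂ q₁ := hq₂ ▸ hL.mg_left q₁ q₀ u₁ e1 e2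
  have hL20 : Le q₂ q₀ := hq₂ ▸ hL.mg_right q₁ q₀ u₁ e1 e2
  have hy₂ : cv ι h q₂ ≤ y := (hM.mono q₂ q₁ hL21).trans hq₁y
  have h2 : cv ι h q₂ ⊓ cv ι h ((⊤ : A), u, fun _ => ⊤) ≠ ⊥ := by
    rw [hM.cv_stem u, inf_eq_left.2 (hy₂.trans (hyle.trans inf_le_right))]
    exact hne₂
  obtain ⟨u₂, e3, e4, hne₃⟩ := Dn_meet hM q₂ ((⊤ : A), u, fun _ => ⊤) h2
  have hRu : Rl U ((⊤ : A), u, fun _ => ⊤) := by
    show (⊤ : A) ≤ U (fun _ => ⊤)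
    rw [hU.top]
  refine ⟨mg q₂ ((⊤ : A), u, fun _ => ⊤) u₂, hM.ne_fst _ hne₃, hM.real_mg _ _ _ hR₂ hRu, ?_, ?_, e4⟩
  · exact (hM.mono _ _ (hL.mg_left q₂ _ u₂ e3 e4)).trans hy₂
  · exact hL.trans _ _ _ (hL.mg_left q₂ _ u₂ e3 e4) hL20

end Pool.MP_d2308b.SP
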