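import Pool.Agent.Work.MP_d2308b_lc.SP.Stmts2

/-!
# Block [d2308b SP]: item EX (extension of a state)
-/

namespace Pool.MP_d2308b.SP

open Cardinal Set

theorem sp_EX (hTF : StTF) (hSA : StSA) : StEX := by
  classical
  intro κ A B T L _ _ _ ι h π R P raw v W hP hraw hW g σ r u F y hS b
  have hyv : y ≤ v := hS.leW.trans (hW.le σ)
  obtain ⟨⟨σ', hσ'⟩, y1, hy1, hy1y, hy1W⟩ := ex_sup hS.ne (hyv.trans (hW.long (max b σ.lh)))
  have hbσ' : b < σ'.lh := (le_max_left _ _).trans_lt hσ'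
  have hσσ' : σ.lh < σ'.lh := (le_max_right _ _).trans_lt hσ'
  have hnb : ¬ IsBot σ.lh := fun hb => not_lt.2 (hb g) hS.hg
  have hnb' : ¬ IsBot σ'.lh := fun hb => not_lt.2 (hb b) hbσ'
  have hne : W σ ⊓ W σ' ≠ ⊥ := fun h0 =>
    hy1 (le_bot_iff.1 (h0 ▸ le_inf (hy1y.trans hS.leW) hy1W))
  have hsub : σ.sub σ' := by
    rcases hW.cmp σ σ' hnb hnb' hne with h1 | h1 | h1
    · exact h1
    · rw [h1] at hσσ'
      exact absurd hσσ' (lt_irrefl _)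
    · exact absurd (h1.1.trans hσσ') (lt_irrefl _)
  obtain ⟨-, htf⟩ := hTF κ A T (La κ) L raw P σ σ' hsub
  obtain ⟨hZ, -, hLg⟩ := htf g r u F hS.hg hS.lg.1
  obtain ⟨i, r', u', y', hy', hyy', hall⟩ := hSA κ A B T (La κ) ι h π R P hP (rho raw σ') σ'.lh g b
    (fun g _ => hraw _) (hS.hg.trans hσσ') hbσ' r u F y1 hy1 (hy1W.trans (hW.val σ'))
    (hLg hS.lg) (by rw [← hZ]; exact hy1y.trans hS.gdl)
  obtain ⟨hlg', hle1, hle2, hgd'⟩ := hall (insert (b, i) F) (fun x => Finset.mem_insert)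
  exact ⟨σ', i, r', u', insert (b, i) F, y', hsub, hbσ', hyy'.trans hy1y,
    ⟨hy', hyy'.trans hy1W, hS.hg.trans hσσ', hlg', hgd'⟩, Finset.subset_insert _ _,
    Finset.mem_insert_self _ _, by rw [hZ]; exact hle1, hle2⟩

end Pool.MP_d2308b.SP
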