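import Pool.Agent.Work.MP_d2308b_lc.SP.Stmts

/-!
# Block [d2308b SP], item En: initial segments
-/

namespace Pool.MP_d2308b.SP

open Cardinal Set

theorem sp_En : StEn := by
  intro M _
  refine ⟨?_, ?_, ?_, ?_, ?_, ?_⟩
  · intro s
    exact ⟨Finset.Subset.refl _, fun x hx hn => absurd hx hn⟩
  · intro s
    exact ⟨Finset.empty_subset _, fun x _ _ y hy => absurd hy (Finset.notMem_empty y)⟩
  · rintro s t u ⟨h1, h2⟩ ⟨h3, h4⟩
    refine ⟨h1.trans h3, fun x hx hn y hy => ?_⟩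
    by_cases ht : x ∈ t
    · exact h2 x ht hn y hy
    · exact h4 x hx ht y (h1 hy)
  · rintro s t u ⟨h1, h2⟩ ⟨h3, h4⟩
    by_cases hst : s ⊆ t
    · exact Or.inl ⟨hst, fun x hx hn y hy => h2 x (h3 hx) hn y hy⟩
    · right
      obtain ⟨x, hx, hxt⟩ := Finset.not_subset.1 hst
      have hts : t ⊆ s := by
        intro y hy
        by_contra hys
        exact lt_asymm (h4 x (h1 hx) hxt y hy) (h2 y (h3 hy) hys x hx)
      exact ⟨hts, fun z hz hn y hy => h4 z (h1 hz) hn y hy⟩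
  · intro s w h
    refine ⟨Finset.subset_union_left, fun x hx hn y hy => ?_⟩
    rcases Finset.mem_union.1 hx with h1 | h1
    · exact absurd h1 hn
    · exact h x h1 y hy
  · rintro s t u ⟨h1, h2⟩ ⟨h3, h4⟩
    ext x
    simp only [Finset.mem_sdiff, Finset.mem_union]
    constructor
    · rintro ⟨h5, h6⟩
      by_cases ht : x ∈ t
      · exact Or.inr ⟨ht, h6⟩
      · exact Or.inl ⟨h5, ht⟩
    · rintro (⟨h5, h6⟩ | ⟨h5, h6⟩)
      · exact ⟨h5, fun hs => h6 (h1 hs)⟩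
      · exact ⟨h3 h5, h6⟩

end Pool.MP_d2308b.SP
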