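import Pool.Agent.Work.MP_d2308b_lc.SP.Stmts2

/-!
# Block [d2308b SP], item Fn: no branch
-/

namespace Pool.MP_d2308b.SP

open Cardinal Set

lemma Fn_ZF_mono {κ : Cardinal.{0}} {A T Λ : Type} [CompleteBooleanAlgebra A] [LinearOrder Λ]
    (ρ : Λ → Lb κ A T) (g : Λ) (F F' : Finset (Λ × Mo κ)) (hF : F ⊆ F') (α : Mo κ) :
    ZF ρ g F' α ≤ ZF ρ g F α :=
  le_inf inf_le_left (inf_le_right.trans (le_iInf₂ fun x hx => iInf₂_le x (hF hx)))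

/-- Conditions with the same stem. -/
lemma Fn_Le {κ : Cardinal.{0}} {A : Type} [CompleteBooleanAlgebra A] (hEn : StEn)
    (p p' : A) (s : Finset (Mo κ)) (X X' : Mo κ → A) (hp : p' ≤ p) (hX : ∀ α, X' α ≤ X α) :
    Le ((p', s, X') : Cn κ A) (p, s, X) := by
  refine ⟨hp, (hEn (Mo κ)).refl s, ?_, hX⟩
  exact le_iInf₂ fun α hα => absurd (Finset.mem_sdiff.1 hα).1 (Finset.mem_sdiff.1 hα).2

lemma Fn_imp {B : Type} [CompleteBooleanAlgebra B] {y x z : B} (h1 : y ≤ xᶜ ⊔ z) (h2 : y ≤ x) :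
    y ≤ z := by
  have h3 : y ≤ (xᶜ ⊔ z) ⊓ x := le_inf h1 h2
  rw [inf_sup_right, compl_inf_eq_bot, bot_sup_eq] at h3
  exact h3.trans inf_le_left

lemma Fn_cmp {κ : Cardinal.{0}} {A B : Type} [CompleteBooleanAlgebra A]
    [CompleteBooleanAlgebra B] (ι : A → B) (h : Finset (Mo κ) → B) (π : A → A) (q q' : Cn κ A)
    (u : Finset (Mo κ)) (h1 : Ends q.2.1 u) (h2 : Ends q'.2.1 u) :
    gd ι h π (mg q q' u) ≤ cmp ι h π q q' :=
  le_iSup_of_le u (le_iSup_of_le h1 (le_iSup_of_le h2 le_rfl))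

/-- Below the member conditions implies below `cmp`. -/
lemma Fn_gdcmp (hLq : StLq) {κ : Cardinal.{0}} {A B : Type} [CompleteBooleanAlgebra A]
    [CompleteBooleanAlgebra B] (ι : A → B) (h : Finset (Mo κ) → B) (π : A → A)
    (hGd : Gds ι h π) (p q q' : Cn κ A) (h1 : Le p q) (h2 : Le p q') :
    gd ι h π p ≤ cmp ι h π q q' :=
  (hGd.mono _ _ ((hLq κ A).mg_glb p q q' h1 h2)).trans (Fn_cmp ι h π q q' p.2.1 h1.2.1 h2.2.1)

/-- The second infimum of `rval`. -/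
lemma Fn_R1 {κ : Cardinal.{0}} {A B T Λ : Type} [CompleteBooleanAlgebra A]
    [CompleteBooleanAlgebra B] [LinearOrder Λ] (ι : A → B) (h : Finset (Mo κ) → B) (π : A → A)
    (R : T → T → B) (P : A → Prop) (ρ : Λ → Lb κ A T) (a c b : Λ) (hcb : c < b) (hb : b < a)
    (i j : Mo κ) :
    rval ι h π R P ρ a ≤ (cmp ι h π ((ρ c).2 i).1 ((ρ b).2 j).1)ᶜ ⊔
      R ((ρ c).2 i).2 ((ρ b).2 j).2 := by
  unfold rval
  refine (inf_le_left.trans (inf_le_left.trans inf_le_right)).trans ?_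
  exact iInf_le_of_le c (iInf_le_of_le b (iInf_le_of_le ⟨hcb, hb⟩ (iInf_le_of_le i
    (iInf_le_of_le j le_rfl))))

/-- The fourth infimum of `rval`. -/
lemma Fn_R3 {κ : Cardinal.{0}} {A B T Λ : Type} [CompleteBooleanAlgebra A]
    [CompleteBooleanAlgebra B] [LinearOrder Λ] (ι : A → B) (h : Finset (Mo κ) → B) (π : A → A)
    (R : T → T → B) (P : A → Prop) (ρ : Λ → Lb κ A T) (a g : Λ) (hg : g < a) (r : A)
    (F : Finset (Λ × Mo κ)) (hF : Lt P ρ g a r F) :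
    rval ι h π R P ρ a ≤ (ι (π r))ᶜ ⊔ ⨆ u, gd ι h π (r, u, ZF ρ g F) := by
  unfold rval
  refine inf_le_right.trans ?_
  exact iInf_le_of_le g (iInf_le_of_le hg (iInf_le_of_le r (iInf_le_of_le F
    (iInf_le_of_le hF le_rfl))))

section key

variable {κ : Cardinal.{0}} {J A B T : Type} [CompleteBooleanAlgebra A] [CompleteBooleanAlgebra B]

/-- The final argument, all data being transferred to one label sequence. -/
lemma Fn_key (hEn : StEn) (hLq : StLq) (hPC : StPC)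
    (gc : J → A) (U : (Mo κ → A) → A) (ι : A → B) (h : Finset (Mo κ) → B) (K : Set J)
    (R : T → T → B) (P : A → Prop) (hS : Sys κ gc U ι h) (hR : WideAronszajn (La κ) R)
    (hP : ∀ S : Set A, (∀ x ∈ S, P x) → P (sInf S)) (hIo : Ios ι) (hMt : Mts U ι h)
    (hGd : Gds ι h (pj κ gc K)) (ρ : La κ → Lb κ A T) (a g c b' : La κ) (hg : g < a)
    (hcb : c < b') (hb' : b' < a) (p₀ : A) (s : Finset (Mo κ)) (X₀ : Mo κ → A) (hp₀ : p₀ ≠ ⊥)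
    (hX₀ : p₀ ≤ U X₀) (hval : cv ι h (p₀, s, X₀) ≤ rval ι h (pj κ gc K) R P ρ a)
    (r r' : Bool → A) (F F' : Bool → Finset (La κ × Mo κ))
    (hpr : ∀ k, p₀ ≤ pj κ gc K (r k ⊓ r' k)) (hlt : ∀ k, Lt P ρ g a (r k) (F k))
    (hlt' : ∀ k, Lt P ρ g a (r' k) (F' k)) (j : Bool → Mo κ) (i' : Mo κ)
    (hlec : ∀ k, Le (r k, s, ZF ρ g (F k)) ((ρ c).2 (j k)).1)
    (hleb' : ∀ k, Le (r' k, s, ZF ρ g (F' k)) ((ρ b').2 i').1)
    (tne : ((ρ c).2 (j false)).2 ≠ ((ρ c).2 (j true)).2)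
    (inc₀ : cv ι h (p₀, s, X₀) ⊓ R ((ρ c).2 (j false)).2 ((ρ c).2 (j true)).2 = ⊥)
    (inc₁ : cv ι h (p₀, s, X₀) ⊓ R ((ρ c).2 (j true)).2 ((ρ c).2 (j false)).2 = ⊥) : False := by
  classical
  have hltk : ∀ k, Lt P ρ g a (r k ⊓ r' k) (F k ∪ F' k) := by
    intro k
    refine ⟨?_, inf_le_left.trans (hlt k).2.1, ?_⟩
    · have h1 := hP {r k, r' k} (by
        rintro x (rfl | rfl)
        · exact (hlt k).1
        · exact (hlt' k).1)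
      rwa [sInf_pair] at h1
    · intro x hx
      rcases Finset.mem_union.1 hx with hx | hx
      · exact ⟨((hlt k).2.2 x hx).1, inf_le_left.trans ((hlt k).2.2 x hx).2⟩
      · exact ⟨((hlt' k).2.2 x hx).1, inf_le_right.trans ((hlt' k).2.2 x hx).2⟩
  have hsup : ∀ k, cv ι h (p₀, s, X₀) ≤
      ⨆ u, gd ι h (pj κ gc K) (r k ⊓ r' k, u, ZF ρ g (F k ∪ F' k)) := by
    intro k
    have h1 : cv ι h (p₀, s, X₀) ≤ (ι (pj κ gc K (r k ⊓ r' k)))ᶜ ⊔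
        ⨆ u, gd ι h (pj κ gc K) (r k ⊓ r' k, u, ZF ρ g (F k ∪ F' k)) :=
      hval.trans (Fn_R3 ι h (pj κ gc K) R P ρ a g hg (r k ⊓ r' k) (F k ∪ F' k) (hltk k))
    exact Fn_imp h1 ((hMt.le_iota _).trans (hIo.mono _ _ (hpr k)))
  have hY : ∀ k, ∃ Y : Mo κ → A, U Y = ⊤ ∧ cv ι h (p₀, s, fun α => X₀ α ⊓ Y α) ≤
      gd ι h (pj κ gc K) (r k ⊓ r' k, s, ZF ρ g (F k ∪ F' k)) := fun k =>
    hPC κ J A B gc U ι h hS K p₀ s X₀ (r k ⊓ r' k) (ZF ρ g (F k ∪ F' k)) hX₀ (hsup k)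
  choose Y hYU hYle using hY
  have hreal : Rl U ((p₀, s, fun α => X₀ α ⊓ (Y false α ⊓ Y true α)) : Cn κ A) := by
    have h1 : U X₀ ⊓ U (fun α => Y false α ⊓ Y true α) ≤
        U (fun α => X₀ α ⊓ (Y false α ⊓ Y true α)) := hS.nor.inf _ _
    have h2 : U (Y false) ⊓ U (Y true) ≤ U (fun α => Y false α ⊓ Y true α) := hS.nor.inf _ _
    rw [hYU, hYU, inf_top_eq, top_le_iff] at h2
    rw [h2, inf_top_eq] at h1
    exact hX₀.trans h1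
  have hne : cv ι h (p₀, s, fun α => X₀ α ⊓ (Y false α ⊓ Y true α)) ≠ ⊥ :=
    hS.prik.ne _ hp₀ hreal
  have hle0 : cv ι h (p₀, s, fun α => X₀ α ⊓ (Y false α ⊓ Y true α)) ≤ cv ι h (p₀, s, X₀) :=
    hMt.mono _ _ (Fn_Le hEn _ _ _ _ _ le_rfl fun α => inf_le_left)
  have hlek : ∀ k, cv ι h (p₀, s, fun α => X₀ α ⊓ (Y false α ⊓ Y true α)) ≤
      gd ι h (pj κ gc K) (r k ⊓ r' k, s, ZF ρ g (F k ∪ F' k)) := by
    intro k
    refine le_trans (hMt.mono _ _ (Fn_Le hEn _ _ _ _ _ le_rfl fun α => ?_)) (hYle k)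
    cases k
    · exact le_inf inf_le_left (inf_le_right.trans inf_le_left)
    · exact le_inf inf_le_left (inf_le_right.trans inf_le_right)
  have hRk : ∀ k, cv ι h (p₀, s, fun α => X₀ α ⊓ (Y false α ⊓ Y true α)) ≤
      R ((ρ c).2 (j k)).2 ((ρ b').2 i').2 := by
    intro k
    have hL1 : Le ((r k ⊓ r' k, s, ZF ρ g (F k ∪ F' k)) : Cn κ A) ((ρ c).2 (j k)).1 :=
      (hLq κ A).trans _ _ _ (Fn_Le hEn _ _ _ _ _ inf_le_left
        (Fn_ZF_mono ρ g _ _ Finset.subset_union_left)) (hlec k)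
    have hL2 : Le ((r k ⊓ r' k, s, ZF ρ g (F k ∪ F' k)) : Cn κ A) ((ρ b').2 i').1 :=
      (hLq κ A).trans _ _ _ (Fn_Le hEn _ _ _ _ _ inf_le_right
        (Fn_ZF_mono ρ g _ _ Finset.subset_union_right)) (hleb' k)
    have hc1 : gd ι h (pj κ gc K) (r k ⊓ r' k, s, ZF ρ g (F k ∪ F' k)) ≤
        cmp ι h (pj κ gc K) ((ρ c).2 (j k)).1 ((ρ b').2 i').1 :=
      Fn_gdcmp hLq ι h (pj κ gc K) hGd _ _ _ hL1 hL2
    have h1 : cv ι h (p₀, s, X₀) ≤ (cmp ι h (pj κ gc K) ((ρ c).2 (j k)).1 ((ρ b').2 i').1)ᶜ ⊔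
        R ((ρ c).2 (j k)).2 ((ρ b').2 i').2 :=
      hval.trans (Fn_R1 ι h (pj κ gc K) R P ρ a c b' hcb hb' (j k) i')
    exact Fn_imp (hle0.trans h1) ((hlek k).trans hc1)
  have hcon : cv ι h (p₀, s, fun α => X₀ α ⊓ (Y false α ⊓ Y true α)) ≤
      R ((ρ c).2 (j false)).2 ((ρ c).2 (j true)).2 ⊔
        R ((ρ c).2 (j true)).2 ((ρ c).2 (j false)).2 :=
    (le_inf (hRk false) (hRk true)).trans (hR.conn _ _ _ tne)
  apply hne
  have h2 : cv ι h (p₀, s, fun α => X₀ α ⊓ (Y false α ⊓ Y true α)) ≤ cv ι h (p₀, s, X₀) ⊓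
      (R ((ρ c).2 (j false)).2 ((ρ c).2 (j true)).2 ⊔
        R ((ρ c).2 (j true)).2 ((ρ c).2 (j false)).2) := le_inf hle0 hcon
  rw [inf_sup_left, inc₀, inc₁, sup_bot_eq] at h2
  exact le_bot_iff.1 h2

end key

/-- Transfer to a longer (or equal) sequence. -/
lemma Fn_tr (hTF : StTF) {κ : Cardinal.{0}} {A T Λ L : Type} [CompleteBooleanAlgebra A]
    [LinearOrder Λ] [Inhabited L] (raw : L → Lb κ A T) (P : A → Prop) (σ τ : Sq Λ L)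
    (hst : σ = τ ∨ σ.sub τ) :
    (∀ b, b < σ.lh → rho raw σ b = rho raw τ b) ∧ σ.lh ≤ τ.lh ∧
    ∀ (g : Λ) (r : A) (F : Finset (Λ × Mo κ)), g < σ.lh → Lt P (rho raw σ) g σ.lh r F →
      ZF (rho raw σ) g F = ZF (rho raw τ) g F ∧ Lt P (rho raw τ) g τ.lh r F := by
  rcases hst with rfl | hst
  · exact ⟨fun _ _ => rfl, le_rfl, fun _ _ _ _ h => ⟨rfl, h⟩⟩
  · obtain ⟨h1, h2⟩ := hTF κ A T Λ L raw P σ τ hst
    exact ⟨h1, hst.1.le, fun g r F hg hL => ⟨(h2 g r ∅ F hg hL).1, (h2 g r ∅ F hg hL).2.1⟩⟩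

/-- Two data with the same stem and compatible first components. -/
lemma Fn_two (hEn : StEn) (hLq : StLq) (hPC : StPC) (hTF : StTF) {κ : Cardinal.{0}}
    {J A B T L : Type} [CompleteBooleanAlgebra A] [CompleteBooleanAlgebra B] [Inhabited L]
    (gc : J → A) (U : (Mo κ → A) → A) (ι : A → B) (h : Finset (Mo κ) → B) (K : Set J)
    (R : T → T → B) (P : A → Prop) (raw : L → Lb κ A T) (v : B) (W : Sq (La κ) L → B)
    (hS : Sys κ gc U ι h) (hR : WideAronszajn (La κ) R)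
    (hP : ∀ S : Set A, (∀ x ∈ S, P x) → P (sInf S))
    (hW : Wbr ι h (pj κ gc K) R P raw v W) (hIo : Ios ι) (hMt : Mts U ι h)
    (hGd : Gds ι h (pj κ gc K)) (g b b' : La κ)
    (D : Dtm U ι h (pj κ gc K) R P raw W g b) (D' : Dtm U ι h (pj κ gc K) R P raw W g b')
    (hcb : D.c < b') (hs : D'.q.2.1 = D.q.2.1)
    (hne : D.q.1 ⊓ D'.q.1 ⊓ pj κ gc K (D.r false ⊓ D'.r false) ⊓
      pj κ gc K (D.r true ⊓ D'.r true) ≠ ⊥) : False := by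
  obtain ⟨p₀, hp₀⟩ : ∃ p₀, p₀ = D.q.1 ⊓ D'.q.1 ⊓ pj κ gc K (D.r false ⊓ D'.r false) ⊓
      pj κ gc K (D.r true ⊓ D'.r true) := ⟨_, rfl⟩
  rw [← hp₀] at hne
  have hpq : p₀ ≤ D.q.1 := by
    rw [hp₀]; exact inf_le_left.trans (inf_le_left.trans inf_le_left)
  have hpq' : p₀ ≤ D'.q.1 := by
    rw [hp₀]; exact inf_le_left.trans (inf_le_left.trans inf_le_right)
  have hpr : ∀ k, p₀ ≤ pj κ gc K (D.r k ⊓ D'.r k) := by
    intro k
    rw [hp₀]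
    cases k
    · exact inf_le_left.trans inf_le_right
    · exact inf_le_right
  have hreal : p₀ ≤ U (fun α => D.q.2.2 α ⊓ D'.q.2.2 α) :=
    (le_inf (hpq.trans D.real) (hpq'.trans D'.real)).trans (hS.nor.inf _ _)
  have hL : Le ((p₀, D.q.2.1, fun α => D.q.2.2 α ⊓ D'.q.2.2 α) : Cn κ A) D.q :=
    Fn_Le hEn D.q.1 p₀ D.q.2.1 D.q.2.2 _ hpq fun α => inf_le_left
  have hL' : Le ((p₀, D.q.2.1, fun α => D.q.2.2 α ⊓ D'.q.2.2 α) : Cn κ A) D'.q := by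
    rw [← hs]
    exact Fn_Le hEn D'.q.1 p₀ D'.q.2.1 D'.q.2.2 _ hpq' fun α => inf_le_right
  have hcne : cv ι h (p₀, D.q.2.1, fun α => D.q.2.2 α ⊓ D'.q.2.2 α) ≠ ⊥ :=
    hS.prik.ne _ hne hreal
  have hc : cv ι h (p₀, D.q.2.1, fun α => D.q.2.2 α ⊓ D'.q.2.2 α) ≤ cv ι h D.q :=
    hMt.mono _ _ hL
  have hc' : cv ι h (p₀, D.q.2.1, fun α => D.q.2.2 α ⊓ D'.q.2.2 α) ≤ cv ι h D'.q :=
    hMt.mono _ _ hL'
  have hWW : W D.σ ⊓ W D'.σ ≠ ⊥ := fun h0 => hcne (le_bot_iff.1 (by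
    rw [← h0]
    exact le_inf (hc.trans D.leW) (hc'.trans D'.leW)))
  have hb1 : ¬ IsBot D.σ.lh := fun h0 => absurd (h0 g) (not_le.2 D.hg)
  have hb2 : ¬ IsBot D'.σ.lh := fun h0 => absurd (h0 g) (not_le.2 D'.hg)
  obtain ⟨τ, h1, h2, h3⟩ : ∃ τ : Sq (La κ) L, (D.σ = τ ∨ D.σ.sub τ) ∧ (D'.σ = τ ∨ D'.σ.sub τ) ∧
      cv ι h (p₀, D.q.2.1, fun α => D.q.2.2 α ⊓ D'.q.2.2 α) ≤ W τ := by
    rcases hW.cmp D.σ D'.σ hb1 hb2 hWW with h0 | h0 | h0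
    · exact ⟨D'.σ, Or.inr h0, Or.inl rfl, hc'.trans D'.leW⟩
    · exact ⟨D'.σ, Or.inl h0, Or.inl rfl, hc'.trans D'.leW⟩
    · exact ⟨D.σ, Or.inl rfl, Or.inr h0, hc.trans D.leW⟩
  obtain ⟨a1, a2, a3⟩ := Fn_tr hTF raw P D.σ τ h1
  obtain ⟨b1, b2, b3⟩ := Fn_tr hTF raw P D'.σ τ h2
  have hlec : ∀ k, Le (D.r k, D.q.2.1, ZF (rho raw τ) g (D.F k))
      ((rho raw τ D.c).2 (D.j k)).1 := by
    intro k
    have h0 := D.lec k
    rw [a1 D.c D.hc, (a3 g (D.r k) (D.F k) D.hg (D.lt k)).1] at h0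
    exact h0
  have hleb : ∀ k, Le (D'.r k, D.q.2.1, ZF (rho raw τ) g (D'.F k))
      ((rho raw τ b').2 D'.i).1 := by
    intro k
    have h0 := D'.leb k
    rw [b1 b' D'.hb, (b3 g (D'.r k) (D'.F k) D'.hg (D'.lt k)).1, hs] at h0
    exact h0
  have htne := D.tne
  have hi0 := D.inc₀
  have hi1 := D.inc₁
  rw [a1 D.c D.hc] at htne hi0 hi1
  refine Fn_key hEn hLq hPC gc U ι h K R P hS hR hP hIo hMt hGd (rho raw τ) τ.lh g D.c b'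
    (D.hg.trans_le a2) hcb (D'.hb.trans_le b2) p₀ D.q.2.1
    (fun α => D.q.2.2 α ⊓ D'.q.2.2 α) hne hreal (h3.trans (hW.val τ)) D.r D'.r D.F D'.F hpr
    (fun k => (a3 g _ _ D.hg (D.lt k)).2) (fun k => (b3 g _ _ D'.hg (D'.lt k)).2) D.j D'.i
    hlec hleb htne ?_ ?_
  · exact le_bot_iff.1 (by rw [← hi0]; exact inf_le_inf_right _ hc)
  · exact le_bot_iff.1 (by rw [← hi1]; exact inf_le_inf_right _ hc)

theorem sp_Fn (hUF : StUF) (hPI : StPI) (hKn : StKn) (hEn : StEn) (hLq : StLq) (hIo : StIo)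
    (hMt : StMt) (hGd : StGd) (hPC : StPC) (hTF : StTF) (hFm : StFm) (hSp : StSp) : StFn := by
  clear hUF
  intro κ J A B T L _ _ _ gc U ι h K R P raw v W hS hR hP hraw hW
  have hκ : ℵ₀ ≤ κ := hS.crd.unc.le
  have pi := hPI κ J A gc K hκ hS.coh
  have io := hIo κ A B U ι h hS.prik
  have mt := hMt κ A B U ι h hS.nor hS.prik
  have gds := hGd κ A B U ι h (pj κ gc K) hS.nor hS.prik pi.mono pi.le
  have hne : Nonempty (La κ) := by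
    rw [← Cardinal.mk_ne_zero_iff, mk_ord_toType]
    exact (Order.bot_lt_succ κ).ne'
  obtain ⟨g⟩ := hne
  have hD : ∀ b : La κ, Nonempty (Dtm U ι h (pj κ gc K) R P raw W g b) :=
    fun b => hFm κ A B T L U ι h (pj κ gc K) R P raw v W hS.nor hS.prik gds hR hP hraw hW g b
  let D : ∀ b : La κ, Dtm U ι h (pj κ gc K) R P raw W g b := fun b => Classical.choice (hD b)
  obtain ⟨e, s₀, he, hlt⟩ := hSp κ hκ (fun b => (D b).q.2.1) (fun b => (D b).c)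
  obtain ⟨ξ, ξ', hξ, hx⟩ := hKn κ J A gc hS.crd hS.coh K (fun ξ => (D (e ξ)).q.1)
    (fun ξ k => (D (e ξ)).r k) (fun ξ => (D (e ξ)).ne)
    (fun ξ k => mt.le_fst _ _ (D (e ξ)).real (((D (e ξ)).gdl k).trans (gds.le_pi _)))
  exact Fn_two hEn hLq hPC hTF gc U ι h K R P raw v W hS hR hP hW io mt gds g (e ξ) (e ξ')
    (D (e ξ)) (D (e ξ')) (hlt ξ ξ' hξ).2 ((he ξ').trans (he ξ).symm) hx

end Pool.MP_d2308b.SP
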