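import Pool.Agent.Work.MP_d2308b_lc.SP.Stmts2

/-!
# Block [d2308b SP], item GF: invariance of the valuation under an automorphism (helper57)
-/

set_option autoImplicit false

namespace Pool.MP_d2308b.SP

open Cardinal Set

section gf

variable {κ : Cardinal.{0}} {A B T Λ : Type} [CompleteBooleanAlgebra A] [CompleteBooleanAlgebra B]
  [LinearOrder Λ]

theorem gf_inf (φ : A ≃o A) (x : A) (s : Finset (Mo κ)) (Z : Mo κ → A) :
    φ x ⊓ (⨅ α ∈ s, φ (Z α)) = φ (x ⊓ ⨅ α ∈ s, Z α) := by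
  rw [OrderIso.map_inf, OrderIso.map_iInf]
  congr 1
  refine iInf_congr fun α => ?_
  rw [OrderIso.map_iInf]

theorem gf_gd (ι : A → B) (h : Finset (Mo κ) → B) (π : A → A) (φ : A ≃o A)
    (hπ : ∀ x, π (φ x) = π x) (q : Cn κ A) :
    gd ι h π (mpC (fun x => φ x) q) = gd ι h π q := by
  unfold gd
  have h1 : ∀ t : Finset (Mo κ), ι (π ((mpC (fun x => φ x) q).1 ⊓
      ⨅ α ∈ t \ (mpC (fun x => φ x) q).2.1, (mpC (fun x => φ x) q).2.2 α)) =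
      ι (π (q.1 ⊓ ⨅ α ∈ t \ q.2.1, q.2.2 α)) := by
    intro t
    have h2 : (mpC (fun x => φ x) q).1 ⊓
        (⨅ α ∈ t \ (mpC (fun x => φ x) q).2.1, (mpC (fun x => φ x) q).2.2 α) =
        φ (q.1 ⊓ ⨅ α ∈ t \ q.2.1, q.2.2 α) := gf_inf φ q.1 (t \ q.2.1) q.2.2
    rw [h2, hπ]
  have h3 : (mpC (fun x => φ x) q).2.1 = q.2.1 := rfl
  simp only [h1]
  rw [h3]

theorem gf_mg (φ : A ≃o A) (q q' : Cn κ A) (u : Finset (Mo κ)) :
    mg (mpC (fun x => φ x) q) (mpC (fun x => φ x) q') u = mpC (fun x => φ x) (mg q q' u) := by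
  unfold mg mpC
  refine Prod.ext ?_ (Prod.ext rfl ?_)
  · show φ q.1 ⊓ φ q'.1 ⊓ (⨅ α ∈ u \ q.2.1, φ (q.2.2 α)) ⊓ (⨅ α ∈ u \ q'.2.1, φ (q'.2.2 α)) =
      φ (q.1 ⊓ q'.1 ⊓ (⨅ α ∈ u \ q.2.1, q.2.2 α) ⊓ (⨅ α ∈ u \ q'.2.1, q'.2.2 α))
    rw [← gf_inf, ← gf_inf, OrderIso.map_inf]
  · funext α
    show φ (q.2.2 α) ⊓ φ (q'.2.2 α) = φ (q.2.2 α ⊓ q'.2.2 α)
    rw [OrderIso.map_inf]

theorem gf_cmp (ι : A → B) (h : Finset (Mo κ) → B) (π : A → A) (φ : A ≃o A)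
    (hπ : ∀ x, π (φ x) = π x) (q q' : Cn κ A) :
    cmp ι h π (mpC (fun x => φ x) q) (mpC (fun x => φ x) q') = cmp ι h π q q' := by
  unfold cmp
  refine iSup_congr fun u => iSup_congr fun _ => iSup_congr fun _ => ?_
  rw [gf_mg, gf_gd ι h π φ hπ]

theorem gf_ZF (φ : A ≃o A) (ρ : Λ → Lb κ A T) (g : Λ) (F : Finset (Λ × Mo κ)) :
    ZF (fun g => mpL (fun x => φ x) (ρ g)) g F = fun α => φ (ZF ρ g F α) := by
  funext α
  show φ ((ρ g).1.2.2 α) ⊓ (⨅ x ∈ F, φ (((ρ x.1).2 x.2).1.2.2 α)) =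
    φ ((ρ g).1.2.2 α ⊓ ⨅ x ∈ F, ((ρ x.1).2 x.2).1.2.2 α)
  rw [OrderIso.map_inf, OrderIso.map_iInf]
  congr 1
  refine iInf_congr fun x => ?_
  rw [OrderIso.map_iInf]

theorem gf_cond (φ : A ≃o A) (ρ : Λ → Lb κ A T) (g : Λ) (F : Finset (Λ × Mo κ)) (r : A)
    (u : Finset (Mo κ)) : ((r, u, ZF (fun g => mpL (fun x => φ x) (ρ g)) g F) : Cn κ A) =
      mpC (fun x => φ x) (φ.symm r, u, ZF ρ g F) := by
  rw [gf_ZF]
  refine Prod.ext ?_ rfl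
  show r = φ (φ.symm r)
  rw [OrderIso.apply_symm_apply]

theorem gf_Lt (P : A → Prop) (φ : A ≃o A) (ρ : Λ → Lb κ A T) (g a : Λ) (r : A)
    (F : Finset (Λ × Mo κ)) (h : Lt P (fun g => mpL (fun x => φ x) (ρ g)) g a r F) :
    Lt (fun _ => True) ρ g a (φ.symm r) F := by
  obtain ⟨-, h1, h2⟩ := h
  refine ⟨trivial, ?_, fun x hx => ⟨(h2 x hx).1, ?_⟩⟩
  · rw [OrderIso.symm_apply_le]
    exact h1
  · rw [OrderIso.symm_apply_le]
    exact (h2 x hx).2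

theorem gf_Lg (P : A → Prop) (φ : A ≃o A) (ρ : Λ → Lb κ A T) (g a : Λ) (r : A)
    (u : Finset (Mo κ)) (F : Finset (Λ × Mo κ))
    (h : Lg P (fun g => mpL (fun x => φ x) (ρ g)) g a r u F) :
    Lg (fun _ => True) ρ g a (φ.symm r) u F := by
  obtain ⟨h1, h2⟩ := h
  obtain ⟨k1, k2, k3, k4⟩ := h2
  refine ⟨gf_Lt P φ ρ g a r F h1, ?_, ?_, ?_, ?_⟩
  · show φ.symm r ≤ (ρ g).1.1
    rw [OrderIso.symm_apply_le]
    exact k1
  · exact k2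
  · show φ.symm r ≤ ⨅ α ∈ u \ (ρ g).1.2.1, (ρ g).1.2.2 α
    refine le_iInf₂ fun α hα => ?_
    rw [OrderIso.symm_apply_le]
    have k5 : r ≤ ⨅ α ∈ u \ (ρ g).1.2.1, φ ((ρ g).1.2.2 α) := k3
    exact k5.trans (iInf₂_le α hα)
  · intro α
    exact inf_le_left

end gf

theorem sp_GF : StGF := by
  intro κ A B T Λ _ _ _ ι h π R P φ hπ ρ a
  unfold rval
  refine inf_le_inf (inf_le_inf (inf_le_inf ?_ ?_) ?_) ?_
  · refine iInf_mono fun g => iInf_mono fun _ => ?_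
    exact (gf_gd ι h π φ hπ (ρ g).1).ge
  · refine iInf_mono fun b => iInf_mono fun c => iInf_mono fun _ => iInf_mono fun i =>
      iInf_mono fun j => ?_
    have e := gf_cmp ι h π φ hπ ((ρ b).2 i).1 ((ρ c).2 j).1
    show (cmp ι h π ((ρ b).2 i).1 ((ρ c).2 j).1)ᶜ ⊔ R ((ρ b).2 i).2 ((ρ c).2 j).2 ≤
      (cmp ι h π (mpC (fun x => φ x) ((ρ b).2 i).1) (mpC (fun x => φ x) ((ρ c).2 j).1))ᶜ ⊔
        R ((ρ b).2 i).2 ((ρ c).2 j).2
    rw [e]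
  · refine iInf_mono fun g => iInf_mono fun b => iInf_mono fun _ => le_iInf fun r =>
      le_iInf fun u => le_iInf fun F => le_iInf fun hL => ?_
    refine iInf_le_of_le (φ.symm r) (iInf_le_of_le u (iInf_le_of_le F
      (iInf_le_of_le (gf_Lg P φ ρ g a r u F hL) ?_)))
    rw [gf_cond φ ρ g F r u, gf_gd ι h π φ hπ]
    refine sup_le_sup_left (iSup_mono fun i => ?_) _
    exact (gf_cmp ι h π φ hπ (φ.symm r, u, ZF ρ g F) ((ρ b).2 i).1).ge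
  · refine iInf_mono fun g => iInf_mono fun _ => le_iInf fun r => le_iInf fun F =>
      le_iInf fun hL => ?_
    refine iInf_le_of_le (φ.symm r) (iInf_le_of_le F
      (iInf_le_of_le (gf_Lt P φ ρ g a r F hL) ?_))
    have e : π (φ.symm r) = π r := by
      rw [← hπ (φ.symm r), OrderIso.apply_symm_apply]
    rw [e]
    refine sup_le_sup_left (iSup_mono fun u => ?_) _
    rw [gf_cond φ ρ g F r u, gf_gd ι h π φ hπ]

end Pool.MP_d2308b.SP
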