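import Pool.Agent.Work.MP_d2308b_lc.SP.Stmts2

/-!
Item GT (helper92): the order `RSv val` is a well-founded tree order with a root.
-/

namespace Pool.MP_d2308b.SP

open Cardinal Set

set_option linter.unusedSectionVars false

section GT

variable {Λ L B : Type} [LinearOrder Λ] [WellFoundedLT Λ] [Inhabited L]
  [CompleteBooleanAlgebra B] {val : Sq Λ L → B}

lemma GT_root {q q' : Sq Λ L} (h1 : IsBot q.lh) (h2 : ¬ IsBot q'.lh) : RSv val q q' = ⊤ := by
  unfold RSv; rw [if_pos ⟨h1, h2⟩]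

lemma GT_val_le {q q' : Sq Λ L} (h : q.sub q') : val q' ≤ RSv val q q' := by
  unfold RSv
  by_cases h1 : IsBot q.lh ∧ ¬ IsBot q'.lh
  · rw [if_pos h1]; exact le_top
  · rw [if_neg h1, if_pos h]

lemma GT_notbot {a b : Λ} (h : a < b) : ¬ IsBot b := fun hb => absurd h (not_lt.2 (hb a))

lemma GT_lt {q q' : Sq Λ L} (h : RSv val q q' ≠ ⊥) : q.lh < q'.lh := by
  unfold RSv at h
  by_cases h1 : IsBot q.lh ∧ ¬ IsBot q'.lh
  · refine lt_of_le_of_ne (h1.1 _) fun h2 => h1.2 (h2 ▸ h1.1)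
  · rw [if_neg h1] at h
    by_cases h2 : q.sub q'
    · exact h2.1
    · rw [if_neg h2] at h; exact absurd rfl h

lemma GT_sub {q q' : Sq Λ L} (hq : ¬ IsBot q.lh) (h : RSv val q q' ≠ ⊥) : q.sub q' := by
  unfold RSv at h
  rw [if_neg (fun h1 => hq h1.1)] at h
  by_cases h2 : q.sub q'
  · exact h2
  · rw [if_neg h2] at h; exact absurd rfl h

lemma GT_le_val {q q' : Sq Λ L} (hq : ¬ IsBot q.lh) : RSv val q q' ≤ val q' := by
  unfold RSv
  rw [if_neg (fun h1 => hq h1.1)]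
  by_cases h2 : q.sub q'
  · rw [if_pos h2]
  · rw [if_neg h2]; exact bot_le

lemma GT_uniq (hS : Sqs Λ L) {q q' : Sq Λ L} (h1 : IsBot q.lh) (h2 : IsBot q'.lh) : q = q' :=
  hS.ext _ _ (le_antisymm (h1 _) (h2 _)) fun g hg => absurd hg (not_lt.2 (h1 g))

lemma GT_irr (x : Sq Λ L) : RSv val x x = ⊥ := by
  by_contra h
  exact lt_irrefl _ (GT_lt h)

lemma GT_trans (hS : Sqs Λ L) (x y z : Sq Λ L) :
    RSv val x y ⊓ RSv val y z ≤ RSv val x z := by
  apply dense_le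
  intro p hp hpx
  refine ⟨p, hp, le_rfl, ?_⟩
  have h1 : RSv val x y ≠ ⊥ := ne_bot_of_le (hpx.trans inf_le_left) hp
  have h2 : RSv val y z ≠ ⊥ := ne_bot_of_le (hpx.trans inf_le_right) hp
  have h3 := GT_lt h1
  have h4 := GT_lt h2
  by_cases hx : IsBot x.lh
  · rw [GT_root hx (GT_notbot h4)]; exact le_top
  · have h5 := GT_sub hx h1
    have hy := GT_notbot h3
    have h6 := GT_sub hy h2
    exact ((hpx.trans inf_le_right).trans (GT_le_val hy)).trans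
      (GT_val_le (hS.trans _ _ _ h5 h6))

lemma GT_conn (hS : Sqs Λ L) (hv : ∀ q q' : Sq Λ L, q.sub q' → val q' ≤ val q)
    (x y z : Sq Λ L) (hxy : x ≠ y) :
    RSv val x z ⊓ RSv val y z ≤ RSv val x y ⊔ RSv val y x := by
  apply dense_le
  intro p hp hpx
  refine ⟨p, hp, le_rfl, ?_⟩
  have h1 : RSv val x z ≠ ⊥ := ne_bot_of_le (hpx.trans inf_le_left) hp
  have h2 : RSv val y z ≠ ⊥ := ne_bot_of_le (hpx.trans inf_le_right) hp
  by_cases hx : IsBot x.lh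
  · have hy : ¬ IsBot y.lh := fun hy => hxy (GT_uniq hS hx hy)
    rw [GT_root hx hy]; simp
  by_cases hy : IsBot y.lh
  · rw [GT_root hy hx]; simp
  have h3 := GT_sub hx h1
  have h4 := GT_sub hy h2
  have h5 : p ≤ val z := (hpx.trans inf_le_left).trans (GT_le_val hx)
  rcases hS.conn _ _ _ h3 h4 with h | h | h
  · exact (h5.trans ((hv _ _ h4).trans (GT_val_le h))).trans le_sup_left
  · exact absurd h hxy
  · exact (h5.trans ((hv _ _ h3).trans (GT_val_le h))).trans le_sup_right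

lemma GT_wf (S : Sq Λ L → B) : ⨆ x, S x ≤ ⨆ x, (S x ⊓ ⨅ y, (S y ⊓ RSv val y x)ᶜ) := by
  apply dense_le
  intro p hp hpS
  set A : Set Λ := {a | ∃ (x : Sq Λ L) (q : B), x.lh = a ∧ q ≠ ⊥ ∧ q ≤ p ∧ q ≤ S x} with hA
  have hne : A.Nonempty := by
    obtain ⟨x, q, hq, hqp, hqx⟩ := ex_sup hp hpS
    exact ⟨x.lh, x, q, rfl, hq, hqp, hqx⟩
  obtain ⟨x, q, hx, hq, hqp, hqx⟩ := WellFounded.min_mem (r := ((· < ·) : Λ → Λ → Prop))
    wellFounded_lt A hne
  refine ⟨q, hq, hqp, le_iSup_of_le x (le_inf hqx (le_iInf fun y => le_compl_of_inf ?_))⟩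
  by_contra hc
  have h1 : RSv val y x ≠ ⊥ := ne_bot_of_le (inf_le_right.trans inf_le_right) hc
  have h2 := GT_lt h1
  rw [hx] at h2
  exact WellFounded.not_lt_min (r := ((· < ·) : Λ → Λ → Prop)) wellFounded_lt A
    ⟨y, _, rfl, hc, inf_le_left.trans hqp, inf_le_right.trans inf_le_left⟩ h2

lemma GT_root_top (hS : Sqs Λ L) [Nonempty Λ] :
    ⨆ r : Sq Λ L, ⨅ x, ⨅ (_ : x ≠ r), RSv val r x = ⊤ := by
  obtain ⟨a₀, ha₀⟩ : ∃ a₀ : Λ, IsBot a₀ := by
    refine ⟨WellFounded.min (r := ((· < ·) : Λ → Λ → Prop)) wellFounded_lt univ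
      ⟨Classical.arbitrary _, trivial⟩, fun b => ?_⟩
    exact not_lt.1 (WellFounded.not_lt_min (r := ((· < ·) : Λ → Λ → Prop)) wellFounded_lt univ
      (mem_univ b))
  have hr : IsBot (Sq.restr (fun _ : Λ => (default : L)) a₀).lh := by
    rw [hS.restr_lh]; exact ha₀
  refine top_le_iff.1 (le_iSup_of_le (Sq.restr (fun _ : Λ => (default : L)) a₀) ?_)
  refine le_iInf fun x => le_iInf fun hx => ?_
  rw [GT_root hr (fun h => hx (GT_uniq hS h hr))]

end GT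

/-- Item GT. -/
theorem sp_GT (hSq : StSq) : StGT := by
  intro Λ L B _ _ _ _ _ val hv
  have hS : Sqs Λ L := hSq Λ L
  exact ⟨GT_irr, GT_trans hS, fun x y z hxy => GT_conn hS hv x y z hxy, GT_wf, GT_root_top hS⟩

end Pool.MP_d2308b.SP
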