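import Pool.Agent.Work.MP_d2308b_lc.SP.Stmts

/-!
# Item [Gd] of block [d2308b SP]: facts on the elements `gd`

Author: helper10.  Captain: helper94.
-/

namespace Pool.MP_d2308b.SP

open Cardinal Set

lemma Gd_adj {D : Type*} [BooleanAlgebra D] (a b c : D) : a ≤ bᶜ ⊔ c ↔ a ⊓ b ≤ c := by
  rw [sup_comm, ← himp_eq, le_himp_iff]

section Gd

variable {κ : Cardinal.{0}} {A B : Type} [CompleteBooleanAlgebra A] [CompleteBooleanAlgebra B]

lemma Gd_le_ends (ι : A → B) (h : Finset (Mo κ) → B) (π : A → A) (q : Cn κ A) (t : Finset (Mo κ))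
    (ht : Ends q.2.1 t) : gd ι h π q ⊓ h t ≤ ι (π (q.1 ⊓ ⨅ α ∈ t \ q.2.1, q.2.2 α)) := by
  rw [← Gd_adj]
  exact inf_le_right.trans (iInf₂_le t ht)

/-- [Gd] -/
theorem sp_Gd (hEn : StEn) (hIo : StIo) (hMt : StMt) : StGd := by
  intro κ A B _ _ U ι h π hN hP hmon hex
  have hE : Ens (Mo κ) := hEn (Mo κ)
  have hI : Ios ι := hIo κ A B U ι h hP
  have hM : Mts U ι h := hMt κ A B U ι h hN hP
  have hle : ∀ x y, x ≤ y → ι (π x) ≤ ι (π y) := fun x y hxy => hI.mono _ _ (hmon _ _ hxy)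
  have hpi : ∀ q, gd ι h π q ≤ ι (π q.1) := by
    intro q
    have h1 : gd ι h π q ≤ gd ι h π q ⊓ h q.2.1 := le_inf le_rfl inf_le_left
    exact h1.trans ((Gd_le_ends ι h π q q.2.1 (hE.refl _)).trans (hle _ _ inf_le_left))
  refine ⟨fun q => inf_le_left, hpi, Gd_le_ends ι h π, ?_, ?_, ?_, ?_⟩
  · -- `cv_le`
    intro q
    refine le_inf (hM.le_h q) (le_iInf₂ fun t ht => ?_)
    rw [Gd_adj]
    have h1 : cv ι h q ⊓ h t ≤ ι (q.1 ⊓ ⨅ α ∈ t \ q.2.1, q.2.2 α) := by
      rw [hI.inf, hI.biInf (Mo κ) (fun α => α ∈ t \ q.2.1) q.2.2]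
      exact le_inf (inf_le_left.trans (hM.le_iota q)) (hM.le_ends q t ht)
    exact h1.trans (hI.mono _ _ (hex _))
  · -- `mono`
    rintro q' q ⟨hq1, hq2, hq3, hq4⟩
    refine le_inf (inf_le_left.trans (hP.mono _ _ hq2)) (le_iInf₂ fun t ht => ?_)
    rw [Gd_adj]
    by_cases c1 : Ends q'.2.1 t
    · refine (Gd_le_ends ι h π q' t c1).trans (hle _ _ (le_inf (inf_le_left.trans hq1) ?_))
      refine le_iInf₂ fun α hα => ?_
      rw [hE.sdiff q.2.1 q'.2.1 t hq2 c1] at hα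
      rcases Finset.mem_union.1 hα with h1 | h1
      · exact inf_le_right.trans ((iInf₂_le α h1).trans (hq4 α))
      · exact inf_le_left.trans (hq3.trans (iInf₂_le α h1))
    · by_cases c2 : Ends t q'.2.1
      · refine inf_le_left.trans ((hpi q').trans (hle _ _ (le_inf hq1 (hq3.trans ?_))))
        refine le_iInf₂ fun α hα => iInf₂_le α ?_
        rw [Finset.mem_sdiff] at hα ⊢
        exact ⟨c2.1 hα.1, hα.2⟩
      · have h1 : gd ι h π q' ⊓ h t ≤ h q'.2.1 ⊓ h t := inf_le_inf_right _ inf_le_left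
        rw [hP.disj _ _ c1 c2] at h1
        exact h1.trans bot_le
  · -- `step`
    intro q t ht
    refine le_inf inf_le_right (le_iInf₂ fun t' ht' => ?_)
    rw [Gd_adj]
    have h1 : gd ι h π q ⊓ h t ⊓ h t' ≤ gd ι h π q ⊓ h t' :=
      inf_le_inf_right _ inf_le_left
    refine h1.trans ((Gd_le_ends ι h π q t' (hE.trans _ _ _ ht ht')).trans (hle _ _ ?_))
    have h2 := hE.sdiff q.2.1 t t' ht ht'
    refine le_inf (le_inf inf_le_left ?_) ?_
    · refine inf_le_right.trans (le_iInf₂ fun α hα => iInf₂_le α ?_)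
      rw [h2]
      exact Finset.mem_union_right _ hα
    · refine inf_le_right.trans (le_iInf₂ fun α hα => iInf₂_le α ?_)
      rw [h2]
      exact Finset.mem_union_left _ hα
  · -- `iota`
    intro r
    refine le_antisymm (hpi _) (le_inf ?_ (le_iInf₂ fun t _ => ?_))
    · change ι (π r) ≤ h ∅
      rw [hP.emp]
      exact le_top
    · exact le_sup_of_le_right (hle _ _ (le_inf le_rfl (le_iInf₂ fun _ _ => le_top)))

end Gd

end Pool.MP_d2308b.SP
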