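import Pool.Agent.Work.MP_d2308b_lc.SP.Stmts2

/-!
# Block [d2308b SP], item HT: height of the tree
-/

namespace Pool.MP_d2308b.SP

open Cardinal Set

/-- an automorphism maps labels over `K'` to labels over `Ks` -/
lemma HT_lab {κ : Cardinal.{0}} {J A T : Type} [CompleteBooleanAlgebra A] {g : J → A}
    {K' Ks : Set J} (φ : A ≃o A) (hφ : ∀ x, Supp κ g K' x → Supp κ g Ks (φ x)) (q : Cn κ A)
    (hq : KC κ g K' q) (m : Mo κ → Cn κ A × T) (hm : ∀ i, KC κ g K' (m i).1) :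
    LbP (Supp κ g Ks) (mpL (fun x => φ x) (q, m)) :=
  ⟨⟨hφ _ hq.1, fun α => hφ _ (hq.2 α)⟩,
    fun i => ⟨hφ _ (hm i).1, fun α => hφ _ ((hm i).2 α)⟩⟩

/-- the automorphism for a set `K'` -/
lemma HT_aut (hAU : StAU) (hSU : StSU) {κ : Cardinal.{0}} {J A : Type}
    [CompleteBooleanAlgebra A] {g : J → A} (hκ : ℵ₀ ≤ κ) (hc : Cohen κ g) {K Ks : Set J}
    (hTA : TAc κ K Ks) (K' : Set J) (hKK' : K ⊆ K') (hK' : #K' ≤ Order.succ κ) :
    ∃ φ : A ≃o A, (∀ x, Supp κ g K' x → Supp κ g Ks (φ x)) ∧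
      ∀ x, pj κ g K (φ x) = pj κ g K x := by
  obtain ⟨e, he1, he2⟩ := hTA.2.2.2 K' hKK' hK'
  obtain ⟨φ, hφ1, hφ2⟩ := hAU κ J A g hκ hc e K he1
  refine ⟨φ, fun x hx => ?_, hφ2⟩
  refine (hSU κ J A g hκ hc).mono _ _ _ ?_ (hφ1 K' x hx)
  rintro _ ⟨y, hy, rfl⟩
  exact he2 y hy

theorem sp_HT (hKE : StKE) (hAU : StAU) (hSU : StSU) (hPI : StPI) (hMt : StMt) (hAN : StAN)
    (hRN : StRN) (hGd : StGd) (hIB : StIB) : StHT := by
  intro κ J A B _ _ g U ι h hS K Ks hUK hTA T _ R hT hR a hcT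
  obtain ⟨cT, hcT⟩ := hcT
  have hκ : ℵ₀ ≤ κ := hS.crd.unc.le
  have hκ' : ℵ₀ ≤ Order.succ κ := hκ.trans (Order.le_succ κ)
  have hcard : #(La κ × T) ≤ Order.succ κ := by
    rw [mk_prod, lift_id, lift_id, mk_ord_toType, hT, mul_eq_self hκ']
  obtain ⟨K', hKK', hK', hUK', hB⟩ :=
    hKE κ J A B g U ι h hS (La κ × T) (fun p => cT p.1 p.2) hcard K hTA.2.1
  obtain ⟨φ, hφ1, hφ2⟩ := HT_aut hAU hSU hκ hS.coh hTA K' hKK' hK'
  have hSU' := hSU κ J A g hκ hS.coh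
  have hM := hMt κ A B U ι h hS.nor hS.prik
  have hP := hPI κ J A g K hκ hS.coh
  have hG := hGd κ A B U ι h (pj κ g K) hS.nor hS.prik hP.mono hP.le
  obtain ⟨q, hq⟩ : ∃ q : Cn κ A, q = ((⊤ : A), ∅, fun _ => ⊤) := ⟨_, rfl⟩
  have hqR : Rl U q := by
    rw [hq]
    exact hS.nor.top.ge
  have hqK : KC κ g K' q := by
    rw [hq]
    exact ⟨hSU'.top K', fun _ => hSU'.top K'⟩
  have hqcv : cv ι h q = ⊤ := by
    rw [hq, hM.cv_stem ∅, hS.prik.emp]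
  have hmove : ∀ b : La κ, ∃ m : Mo κ → Cn κ A × T, (∀ i, KC κ g K' (m i).1 ∧ Rl U (m i).1 ∧
      cv ι h (m i).1 ≤ cv ι h q ∧ cv ι h (m i).1 ≤ cT (min b a) (m i).2) ∧
      cv ι h q ≤ ⨆ i, cv ι h (m i).1 := by
    intro b
    refine hAN κ J A B g U ι h hS K' hUK' T q hqK (cT (min b a)) (fun x => hB (min b a, x)) ?_
    have h1 := incr_tot (R := R) (c := cT) (show min b a ∈ Iic a from min_le_right b a)
    rw [hcT] at h1
    exact le_top.trans h1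
  choose m hm1 hm2 using hmove
  obtain ⟨s, hs⟩ : ∃ s : La κ → Lab κ g Ks T, ∀ b, (s b).1 = mpL (fun x => φ x) (q, m b) :=
    ⟨fun b => ⟨mpL (fun x => φ x) (q, m b),
      HT_lab φ hφ1 q hqK (m b) (fun i => (hm1 b i).1)⟩, fun b => rfl⟩
  refine ⟨_, top_le_iff.1 (hIB (La κ) (Lab κ g Ks T) B
    (vl ι h (pj κ g K) R (Supp κ g Ks) Subtype.val) s (Iic a) ⊤ fun a' ha' => ?_)⟩
  have ha'' : a' ≤ a := ha'
  rw [← hqcv]
  refine (hG.cv_le q).trans (hRN κ J A B g U ι h hS K Ks hUK φ hφ2 T R hR q m s a' hqR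
    (fun b _ => hs b) (fun b _ i => (hm1 b i).2.1) (fun b _ => hm2 b) ?_)
  intro b c hbc hca i j
  have hb : b ≤ a := (hbc.trans hca).le.trans ha''
  have hc : c ≤ a := hca.le.trans ha''
  have h1 := (hm1 b i).2.2.2
  have h2 := (hm1 c j).2.2.2
  rw [min_eq_left hb] at h1
  rw [min_eq_left hc] at h2
  have h3 := incr_inc (R := R) (c := cT) (show b ∈ Iic a from hb) (show c ∈ Iic a from hc) hbc
    (m b i).2 (m c j).2
  rw [hcT, top_inf_eq] at h3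
  exact (inf_le_inf h1 h2).trans h3

end Pool.MP_d2308b.SP
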