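import Pool.Agent.Work.MP_d2308b_lc.SP.Stmts2

/-!
# Block [d2308b SP], item IB

The restrictions of a full label sequence form an increasing sequence.
-/

namespace Pool.MP_d2308b.SP

open Cardinal Set

/-- the value of the larger sequence is below the value of the tree order -/
lemma IB_val_le {Λ L B : Type} [LinearOrder Λ] [Inhabited L] [CompleteBooleanAlgebra B]
    (val : Sq Λ L → B) {q q' : Sq Λ L} (h : q.sub q') : val q' ≤ RSv val q q' := by
  unfold RSv
  split_ifs
  · exact le_top
  · exact le_rfl

theorem sp_IB (hSq : StSq) : StIB := by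
  intro Λ L B _ _ _ _ val s I φ h
  have hsub := (hSq Λ L).restr_sub s
  classical
  refine le_incr ?_ ?_ ?_
  · intro g _
    exact le_iSup_of_le (Sq.restr s g) (by rw [if_pos rfl]; exact le_top)
  · intro g _ x y hxy
    by_cases hx : x = Sq.restr s g
    · rw [if_neg (fun hy => hxy (hx.trans hy.symm) : ¬ y = Sq.restr s g), inf_bot_eq]
    · rw [if_neg hx, inf_bot_eq, bot_inf_eq]
  · intro g _ k hk hgk x y
    by_cases hx : x = Sq.restr s g
    · by_cases hy : y = Sq.restr s k
      · subst hx hy
        exact (inf_le_left.trans inf_le_left).trans ((h k hk).trans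
          (IB_val_le val (hsub g k hgk)))
      · rw [if_neg hy, inf_bot_eq]
        exact bot_le
    · rw [if_neg hx, inf_bot_eq, bot_inf_eq]
      exact bot_le

end Pool.MP_d2308b.SP
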