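import Pool.Agent.Work.MP_d2308b_lc.SP.Stmts

/-!
# Block [d2308b SP], item If
-/

namespace Pool.MP_d2308b.SP

open Cardinal Set

lemma If_a {κ : Cardinal.{0}} {A : Type} [CompleteBooleanAlgebra A] {U : (Mo κ → A) → A}
    (h : UFs U) (X : Mo κ → A) (t : Finset (Mo κ)) :
    U X ≤ ⨆ α : Mo κ, ⨆ (_ : ∀ y ∈ t, y < α), X α := by
  classical
  refine (h.above t X).trans ?_
  refine (h.mono _ (fun _ => ⨆ α : Mo κ, ⨆ (_ : ∀ y ∈ t, y < α), X α) fun α => ?_).trans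
    (h.const _).le
  by_cases hα : ∀ y ∈ t, y < α
  · rw [if_pos hα]
    exact le_iSup₂ (f := fun (α : Mo κ) (_ : ∀ y ∈ t, y < α) => X α) α hα
  · rw [if_neg hα]
    exact bot_le

theorem sp_If (hUF : StUF) : StIf := by
  intro κ A _ U hκ hU X n s
  classical
  have h : UFs U := hUF κ A U hκ hU
  induction n with
  | zero =>
    have h1 : (⊤ : A) ≤ ⨅ α ∈ (∅ : Finset (Mo κ)), X α := by simp
    exact (le_top.trans h1).trans (le_iSup₂ (f := fun (w : Finset (Mo κ))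
      (_ : w.card = 0 ∧ ∀ α ∈ w, ∀ y ∈ s, y < α) => ⨅ α ∈ w, X α) ∅ ⟨rfl, by simp⟩)
  | succ n ih =>
    have h1 : U X ≤ U X ⊓ ⨆ w : Finset (Mo κ),
        ⨆ (_ : w.card = n ∧ ∀ α ∈ w, ∀ y ∈ s, y < α), ⨅ α ∈ w, X α := le_inf le_rfl ih
    refine h1.trans ?_
    rw [inf_iSup_eq]
    refine iSup_le fun w => ?_
    rw [inf_iSup_eq]
    refine iSup_le fun hw => ?_
    refine (inf_le_inf_right _ (If_a h X (s ∪ w))).trans ?_
    rw [iSup_inf_eq]
    refine iSup_le fun α => ?_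
    rw [iSup_inf_eq]
    refine iSup_le fun hα => ?_
    have hαw : α ∉ w := fun hm => lt_irrefl α (hα α (Finset.mem_union_right _ hm))
    have h2 : X α ⊓ ⨅ β ∈ w, X β ≤ ⨅ β ∈ insert α w, X β := by
      refine le_iInf₂ fun β hβ => ?_
      rcases Finset.mem_insert.1 hβ with rfl | hβ
      · exact inf_le_left
      · exact inf_le_right.trans (iInf₂_le β hβ)
    refine h2.trans (le_iSup₂ (f := fun (w : Finset (Mo κ))
      (_ : w.card = n + 1 ∧ ∀ α ∈ w, ∀ y ∈ s, y < α) => ⨅ α ∈ w, X α) (insert α w) ⟨?_, ?_⟩)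
    · rw [Finset.card_insert_of_notMem hαw, hw.1]
    · intro β hβ y hy
      rcases Finset.mem_insert.1 hβ with rfl | hβ
      · exact hα y (Finset.mem_union_left _ hy)
      · exact hw.2 β hβ y hy

end Pool.MP_d2308b.SP
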