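import Pool.Agent.Work.MP_d2308b_lc.SP.Stmts

/-!
# Block [d2308b SP], item Io (helper4): facts on the embedding
-/

namespace Pool.MP_d2308b.SP

open Cardinal Set

theorem Io_iSup {A B : Type} [CompleteBooleanAlgebra A] [CompleteBooleanAlgebra B] (ι : A → B)
    (hs : ∀ S : Set A, ι (sSup S) = ⨆ x ∈ S, ι x) (I : Type) (f : I → A) :
    ι (⨆ i, f i) = ⨆ i, ι (f i) := by
  rw [iSup, hs, iSup_range]

theorem Io_sup {A B : Type} [CompleteBooleanAlgebra A] [CompleteBooleanAlgebra B] (ι : A → B)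
    (hs : ∀ S : Set A, ι (sSup S) = ⨆ x ∈ S, ι x) (x y : A) : ι (x ⊔ y) = ι x ⊔ ι y := by
  rw [← sSup_pair, hs, iSup_pair]

theorem Io_iInf {A B : Type} [CompleteBooleanAlgebra A] [CompleteBooleanAlgebra B] (ι : A → B)
    (hs : ∀ S : Set A, ι (sSup S) = ⨆ x ∈ S, ι x) (hc : ∀ x, ι xᶜ = (ι x)ᶜ) (I : Type)
    (f : I → A) : ι (⨅ i, f i) = ⨅ i, ι (f i) := by
  apply compl_injective
  rw [← hc, compl_iInf, compl_iInf, Io_iSup ι hs]
  exact iSup_congr fun i => hc (f i)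

theorem Io_inf {A B : Type} [CompleteBooleanAlgebra A] [CompleteBooleanAlgebra B] (ι : A → B)
    (hs : ∀ S : Set A, ι (sSup S) = ⨆ x ∈ S, ι x) (hc : ∀ x, ι xᶜ = (ι x)ᶜ) (x y : A) :
    ι (x ⊓ y) = ι x ⊓ ι y := by
  apply compl_injective
  rw [← hc, compl_inf, compl_inf, Io_sup ι hs, hc, hc]

theorem Io_bot {A B : Type} [CompleteBooleanAlgebra A] [CompleteBooleanAlgebra B] (ι : A → B)
    (hs : ∀ S : Set A, ι (sSup S) = ⨆ x ∈ S, ι x) : ι ⊥ = ⊥ := by
  rw [← sSup_empty, hs]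
  simp

theorem sp_Io : StIo := by
  intro κ A B _ _ U ι h hP
  have hs := hP.sup
  have hc := hP.compl
  have hmono : ∀ x y, x ≤ y → ι x ≤ ι y := by
    intro x y hxy
    have h1 : ι y = ι x ⊔ ι y := by
      rw [← Io_sup ι hs, sup_eq_right.2 hxy]
    rw [h1]
    exact le_sup_left
  have hbot := Io_bot ι hs
  have htop : ι ⊤ = ⊤ := by
    rw [← compl_bot, hc, hbot, compl_bot]
  refine ⟨hmono, ?_, hbot, htop, Io_inf ι hs hc, Io_iSup ι hs, Io_iInf ι hs hc, ?_⟩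
  · intro x y hxy
    have h1 : ι (x ⊓ yᶜ) = ⊥ := by
      rw [Io_inf ι hs hc, hc]
      apply le_bot_iff.1
      calc ι x ⊓ (ι y)ᶜ ≤ ι y ⊓ (ι y)ᶜ := inf_le_inf_right _ hxy
        _ = ⊥ := inf_compl_self _
    have h2 := hP.inj _ h1
    rw [← disjoint_iff] at h2
    exact (disjoint_compl_right_iff).1 h2
  · intro I p f
    rw [Io_iInf ι hs hc]
    refine iInf_congr fun i => ?_
    by_cases hp : p i
    · simp only [hp, iInf_pos]
    · simp only [hp, iInf_neg, not_false_eq_true, htop]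

end Pool.MP_d2308b.SP
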