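import Pool.Agent.Work.MP_d2308b_lc.SP.Stmts

/-!
# Block [d2308b SP], item KE (helper22)
-/

namespace Pool.MP_d2308b.SP

open Cardinal Set

lemma KE_pow {κ : Cardinal.{0}} (hκ : ℵ₀ ≤ κ) (hpow : 2 ^ κ = Order.succ κ) :
    (Order.succ κ) ^ κ = Order.succ κ := by
  rw [← hpow, ← power_mul, mul_eq_self hκ]

lemma KE_union {κ μ : Cardinal.{0}} {J I : Type} (hμ : ℵ₀ ≤ μ) (hI : #I ≤ μ) (hκ : κ ≤ μ)
    (f : I → Set J) (hf : ∀ i, #(f i) ≤ κ) : #(⋃ i, f i : Set J) ≤ μ := by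
  refine (mk_iUnion_le f).trans ?_
  refine (mul_le_mul' hI (ciSup_le' hf)).trans ?_
  exact (mul_le_mul' le_rfl hκ).trans (mul_eq_self hμ).le

theorem sp_KE (hBS : StBS) (hCL : StCL) (hNK : StNK) (hSM : StSM) (hSU : StSU) : StKE := by
  intro κ J A B _ _ g U ι h sys I b hI K₀ hK₀
  have hκ : ℵ₀ ≤ κ := sys.crd.unc.le
  have hκ' : κ ≤ Order.succ κ := Order.le_succ κ
  have hs : ℵ₀ ≤ Order.succ κ := hκ.trans hκ'
  obtain ⟨hmono, hsmall⟩ := hBS κ J A B g U ι h sys
  choose Ki hKi hKiB using fun i => hsmall (b i)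
  have su := hSU κ J A g hκ sys.coh
  choose sp _ hsp hspS using fun x : A => hSM κ J A g sys.crd sys.coh Set.univ x (su.univ x)
  have hD₀ : #(K₀ ∪ ⋃ i, Ki i : Set J) ≤ Order.succ κ := by
    refine (mk_union_le _ _).trans ?_
    refine (add_le_add hK₀ (KE_union hs hI hκ' Ki hKi)).trans ?_
    rw [add_eq_self hs]
  have hF : ∀ w : Set J, #w < Order.succ κ →
      #(⋃ X : Mo κ → {x : A // Supp κ g w x}, sp (U fun α => (X α).1) : Set J) ≤
        Order.succ κ := by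
    intro w hw
    refine KE_union hs ?_ hκ' _ fun X => hsp _
    rw [mk_pi, prod_const', mk_ord_toType]
    refine (power_le_power_right (hNK κ J A g sys.crd sys.coh w hw.le)).trans ?_
    rw [KE_pow hκ sys.crd.cont]
  obtain ⟨D, hD1, hD2, hD3⟩ := hCL J (Order.succ κ) (Order.succ κ) hs le_rfl
    (powerlt_succ_self hκ sys.crd.cont).le
    (fun w => ⋃ X : Mo κ → {x : A // Supp κ g w x}, sp (U fun α => (X α).1)) hF
    (K₀ ∪ ⋃ i, Ki i) hD₀
  refine ⟨D, subset_union_left.trans hD1, hD2, ?_, fun i => ?_⟩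
  · intro X hX
    choose w hw1 hw2 hw3 using fun α => hSM κ J A g sys.crd sys.coh D (X α) (hX α)
    have hwc : #(⋃ α, w α : Set J) < Order.succ κ := by
      rw [Order.lt_succ_iff]
      exact KE_union hκ (mk_ord_toType κ).le le_rfl w hw2
    have h1 := hD3 (⋃ α, w α) (iUnion_subset hw1) hwc
    have h2 : sp (U X) ⊆ ⋃ X' : Mo κ → {x : A // Supp κ g (⋃ α, w α) x},
        sp (U fun α => (X' α).1) := by
      refine subset_iUnion_of_subset (fun α => ⟨X α, su.mono (w α) _ _ (subset_iUnion w α)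
        (hw3 α)⟩) ?_
      exact subset_rfl
    exact su.mono _ _ _ (h2.trans h1) (hspS (U X))
  · exact hmono (Ki i) D (b i) (((subset_iUnion Ki i).trans subset_union_right).trans hD1)
      (hKiB i)

end Pool.MP_d2308b.SP
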