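import Pool.Agent.Work.MP_d2308b_lc.SP.Stmts2

/-!
# Block [d2308b SP], item LC: the number of labels
-/

namespace Pool.MP_d2308b.SP

open Cardinal Set

section

variable {κ : Cardinal.{0}} {A T : Type} {P : A → Prop}

/-- the components of a raw condition -/
def LC_toC (q : Cn κ A) (h : CnP P q) : {x : A // P x} × Finset (Mo κ) × (Mo κ → {x : A // P x}) :=
  (⟨q.1, h.1⟩, q.2.1, fun α => ⟨q.2.2 α, h.2 α⟩)

lemma LC_toC_inj (q q' : Cn κ A) (h : CnP P q) (h' : CnP P q')
    (e : LC_toC q h = LC_toC q' h') : q = q' := by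
  obtain ⟨a, s, X⟩ := q
  obtain ⟨a', s', X'⟩ := q'
  have e1 := congrArg (fun z => (z.1.1, z.2.1, fun α => (z.2.2 α).1)) e
  exact e1

/-- the components of a raw label -/
def LC_toL (l : {l : Lb κ A T // LbP P l}) :
    ({x : A // P x} × Finset (Mo κ) × (Mo κ → {x : A // P x})) ×
      (Mo κ → ({x : A // P x} × Finset (Mo κ) × (Mo κ → {x : A // P x})) × T) :=
  (LC_toC l.1.1 l.2.1, fun i => (LC_toC (l.1.2 i).1 (l.2.2 i), (l.1.2 i).2))

lemma LC_toL_inj : Function.Injective (LC_toL (κ := κ) (A := A) (T := T) (P := P)) := by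
  rintro ⟨⟨q, m⟩, h⟩ ⟨⟨q', m'⟩, h'⟩ e
  have e1 : LC_toC q h.1 = LC_toC q' h'.1 := congrArg Prod.fst e
  have e2 : ∀ i, (LC_toC (m i).1 (h.2 i), (m i).2) = (LC_toC (m' i).1 (h'.2 i), (m' i).2) :=
    fun i => congrFun (congrArg Prod.snd e) i
  have f1 : q = q' := LC_toC_inj _ _ _ _ e1
  have f2 : m = m' := by
    funext i
    have g1 : LC_toC (m i).1 (h.2 i) = LC_toC (m' i).1 (h'.2 i) := congrArg Prod.fst (e2 i)
    have g2 : (m i).2 = (m' i).2 := (Prod.ext_iff.mp (e2 i)).2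
    exact Prod.ext (LC_toC_inj _ _ _ _ g1) g2
  subst f1
  subst f2
  rfl

end

theorem sp_LC (hNK : StNK) : StLC := by
  intro κ J A T _ g hc hg Ks hKs hT
  have hκ : ℵ₀ ≤ κ := hc.unc.le
  have hks : κ ≤ Order.succ κ := Order.le_succ κ
  have hs : ℵ₀ ≤ Order.succ κ := hκ.trans hks
  have hpow : (Order.succ κ) ^ κ = Order.succ κ := by
    rw [← hc.cont, ← power_mul, mul_eq_self hκ]
  have hM : #(Mo κ) = κ := mk_ord_toType κ
  have hInf : Infinite (Mo κ) := by
    rw [Cardinal.infinite_iff, hM]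
    exact hκ
  have hF : #(Finset (Mo κ)) ≤ Order.succ κ := by
    rw [mk_finset_of_infinite, hM]
    exact hks
  have hA : #{x : A // Supp κ g Ks x} ≤ Order.succ κ := hNK κ J A g hc hg Ks hKs
  have hmul : ∀ a b : Cardinal.{0}, a ≤ Order.succ κ → b ≤ Order.succ κ →
      a * b ≤ Order.succ κ := by
    intro a b ha hb
    calc a * b ≤ Order.succ κ * Order.succ κ := mul_le_mul' ha hb
      _ = Order.succ κ := mul_eq_self hs
  have hex : ∀ a : Cardinal.{0}, a ≤ Order.succ κ → a ^ κ ≤ Order.succ κ := by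
    intro a ha
    calc a ^ κ ≤ (Order.succ κ) ^ κ := power_le_power_right ha
      _ = Order.succ κ := hpow
  have h1 : #(Mo κ → {x : A // Supp κ g Ks x}) ≤ Order.succ κ := by
    rw [← power_def, hM]
    exact hex _ hA
  have h2 : #({x : A // Supp κ g Ks x} × Finset (Mo κ) × (Mo κ → {x : A // Supp κ g Ks x})) ≤
      Order.succ κ := by
    rw [← mul_def, ← mul_def]
    exact hmul _ _ hA (hmul _ _ hF h1)
  have h3 : #(Mo κ → ({x : A // Supp κ g Ks x} × Finset (Mo κ) ×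
      (Mo κ → {x : A // Supp κ g Ks x})) × T) ≤ Order.succ κ := by
    rw [← power_def, hM]
    refine hex _ ?_
    rw [← mul_def]
    exact hmul _ _ h2 hT.le
  refine (mk_le_of_injective (LC_toL_inj (κ := κ) (A := A) (T := T)
    (P := Supp κ g Ks))).trans ?_
  rw [← mul_def]
  exact hmul _ _ h2 h3

end Pool.MP_d2308b.SP
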