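import Pool.Agent.Work.MP_d2308b_lc.SP.Stmts

/-!
# Block [d2308b SP], item Lq (helper37): the order of raw conditions
-/

namespace Pool.MP_d2308b.SP

open Cardinal Set

theorem sp_Lq (hEn : StEn) : StLq := by
  intro κ A _
  have E := hEn (Mo κ)
  have key : ∀ (a : A) (s : Finset (Mo κ)) (X : Mo κ → A),
      (a ≤ ⨅ α ∈ s, X α) ↔ ∀ α ∈ s, a ≤ X α := by
    intro a s X
    simp only [le_iInf_iff]
  refine ⟨?_, ?_, ?_, ?_, ?_⟩
  · intro q
    refine ⟨le_rfl, E.refl _, ?_, fun α => le_rfl⟩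
    rw [key]
    intro α hα
    exact absurd hα (by simp)
  · rintro q₂ q₁ q₀ ⟨h1, h2, h3, h4⟩ ⟨k1, k2, k3, k4⟩
    rw [key] at h3 k3
    refine ⟨h1.trans k1, E.trans _ _ _ k2 h2, ?_, fun α => (h4 α).trans (k4 α)⟩
    rw [key]
    intro α hα
    rw [Finset.mem_sdiff] at hα
    by_cases hm : α ∈ q₁.2.1
    · exact h1.trans (k3 α (Finset.mem_sdiff.2 ⟨hm, hα.2⟩))
    · exact (h3 α (Finset.mem_sdiff.2 ⟨hα.1, hm⟩)).trans (k4 α)
  · intro q q' u hu hu'
    refine ⟨?_, hu, ?_, fun α => inf_le_left⟩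
    · exact ((inf_le_left.trans inf_le_left).trans inf_le_left)
    · exact inf_le_left.trans inf_le_right
  · intro q q' u hu hu'
    refine ⟨?_, hu', ?_, fun α => inf_le_right⟩
    · exact ((inf_le_left.trans inf_le_left).trans inf_le_right)
    · exact inf_le_right
  · rintro p q q' ⟨h1, h2, h3, h4⟩ ⟨k1, k2, k3, k4⟩
    refine ⟨le_inf (le_inf (le_inf h1 k1) h3) k3, E.refl _, ?_, fun α => le_inf (h4 α) (k4 α)⟩
    rw [key]
    intro α hα
    have : α ∈ p.2.1 \ p.2.1 := hα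
    exact absurd this (by simp)

end Pool.MP_d2308b.SP
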