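import Pool.Agent.Work.MP_d2308b_lc.SP.Stmts

/-!
# Block [d2308b SP], item MA: suprema of families in a chain condition algebra
-/

namespace Pool.MP_d2308b.SP

open Cardinal Set

/-- a maximal antichain of elements below members of the family -/
lemma MA_max {D I : Type} [CompleteBooleanAlgebra D] (f : I → D) :
    ∃ C : Set D, (∀ c ∈ C, c ≠ ⊥ ∧ ∃ i, c ≤ f i) ∧ C.Pairwise Disjoint ∧ sSup C = ⨆ i, f i := by
  obtain ⟨C, hC⟩ := zorn_subset
    {C : Set D | (∀ c ∈ C, c ≠ ⊥ ∧ ∃ i, c ≤ f i) ∧ C.Pairwise Disjoint} (by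
      intro ch hch hchain
      refine ⟨⋃₀ ch, ⟨?_, ?_⟩, fun s hs => subset_sUnion_of_mem hs⟩
      · rintro c ⟨s, hs, hc⟩
        exact (hch hs).1 c hc
      · rintro c ⟨s, hs, hc⟩ c' ⟨s', hs', hc'⟩ hne
        rcases hchain.total hs hs' with h | h
        · exact (hch hs').2 (h hc) hc' hne
        · exact (hch hs).2 hc (h hc') hne)
  refine ⟨C, hC.1.1, hC.1.2, le_antisymm ?_ ?_⟩
  · refine sSup_le fun c hc => ?_
    obtain ⟨-, i, hi⟩ := hC.1.1 c hc
    exact hi.trans (le_iSup f i)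
  · by_contra hle
    have hy : (⨆ i, f i) ⊓ (sSup C)ᶜ ≠ ⊥ := fun h0 =>
      hle (disjoint_compl_right_iff.1 (disjoint_iff.2 h0))
    obtain ⟨i, q, hq0, hqy, hqi⟩ := ex_sup hy inf_le_left
    have hqC : q ≤ (sSup C)ᶜ := hqy.trans inf_le_right
    have hd : ∀ c ∈ C, Disjoint q c := fun c hc =>
      (le_compl_iff_disjoint_right.1 hqC).mono_right (le_sSup hc)
    have hmem : insert q C ∈
        {C : Set D | (∀ c ∈ C, c ≠ ⊥ ∧ ∃ i, c ≤ f i) ∧ C.Pairwise Disjoint} := by
      refine ⟨?_, ?_⟩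
      · rintro c (rfl | hc)
        · exact ⟨hq0, i, hqi⟩
        · exact hC.1.1 c hc
      · rintro c (rfl | hc) c' (rfl | hc') hne
        · exact absurd rfl hne
        · exact hd c' hc'
        · exact (hd c hc).symm
        · exact hC.1.2 hc hc' hne
    have hqm : q ∈ C := hC.2 hmem (subset_insert q C) (mem_insert q C)
    exact hq0 (disjoint_self.1 (hd q hqm))

theorem sp_MA : StMA := by
  classical
  intro κ D _ hκ hCC I hI f
  obtain ⟨C, hC1, hC2, hC3⟩ := MA_max f
  have hcard : #C ≤ κ := Order.lt_succ_iff.1 (hCC C (fun c hc => (hC1 c hc).1) hC2)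
  have hle : ∀ e : Mo κ → I, ⨆ i, f (e i) ≤ ⨆ i, f i := fun e =>
    iSup_le fun i => le_iSup f (e i)
  rcases C.eq_empty_or_nonempty with h0 | hne
  · refine ⟨fun _ => Classical.arbitrary I, le_antisymm (hle _) ?_⟩
    rw [← hC3, h0, sSup_empty]
    exact bot_le
  · have hne' : Nonempty C := hne.to_subtype
    have hcard' : #C ≤ #(Mo κ) := by
      rw [mk_ord_toType]
      exact hcard
    obtain ⟨j⟩ := hcard'
    choose idx hidx using fun c : C => (hC1 c.1 c.2).2
    refine ⟨fun α => idx (Function.invFun j α), le_antisymm (hle _) ?_⟩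
    rw [← hC3]
    refine sSup_le fun c hc => ?_
    obtain ⟨α, hα⟩ := Function.invFun_surjective j.injective ⟨c, hc⟩
    have h1 : c ≤ f (idx (Function.invFun j α)) := by
      rw [hα]
      exact hidx ⟨c, hc⟩
    exact h1.trans (le_iSup (fun α => f (idx (Function.invFun j α))) α)

end Pool.MP_d2308b.SP
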