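import Pool.Agent.Work.MP_d2308b_lc.SP.Stmts2

namespace Pool.MP_d2308b.SP

open Cardinal Set

theorem sp_Main (hKE : StKE) (hTA : StTA) (hLC : StLC) (hSC : StSC) (hVA : StVA) (hGT : StGT)
    (hHT : StHT) (hNB : StNB) (hNH : StNH) : StMain := by
  intro κ J A B _ _ g U ι h S T R hT hR
  have h0 : ℵ₀ ≤ κ := S.crd.unc.le
  have h1 : ℵ₀ ≤ Order.succ κ := h0.trans (Order.le_succ κ)
  have hTne : Nonempty T := by
    rw [← mk_ne_zero_iff, hT]
    exact (lt_of_lt_of_le aleph0_pos h1).ne'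
  haveI : Inhabited T := ⟨Classical.arbitrary T⟩
  have hLne : Nonempty (La κ) := by
    rw [← mk_ne_zero_iff, mk_ord_toType]
    exact (lt_of_lt_of_le aleph0_pos h1).ne'
  obtain ⟨K, -, hK, hUK, hRK⟩ := hKE κ J A B g U ι h S (T × T) (fun x => R x.1 x.2) (by
    simp only [mk_prod, Cardinal.lift_id, hT, mul_eq_self h1, le_refl]) ∅ (by simp)
  obtain ⟨Ks, hKs, hKsc, he⟩ := hTA κ J h0 K hK
  have hTA' : TAc κ K Ks := ⟨hKs, hK, hKsc, he⟩
  have hRK' : ∀ x y, BSupp g U ι h K (R x y) := fun x y => hRK (x, y)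
  have hva := (hVA κ A B T (La κ) ι h (pj κ g K) R (Supp κ g Ks)).2 (Lab κ g Ks T) Subtype.val
  have hgt := hGT (La κ) (Lab κ g Ks T) B
    (vl ι h (pj κ g K) R (Supp κ g Ks) Subtype.val) hva.1
  have hnb := hNB κ J A B g U ι h S K Ks T R hR
  exact ⟨Sq (La κ) (Lab κ g Ks T), RSv (vl ι h (pj κ g K) R (Supp κ g Ks) Subtype.val),
    hSC κ _ S.crd (hLC κ J A T g S.crd S.coh Ks hKsc hT),
    ⟨hgt.1, hgt.2.1, hgt.2.2.1, hgt.2.2.2.1, hgt.2.2.2.2,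
      fun a => hHT κ J A B g U ι h S K Ks hUK hTA' T R hT hRK' a (hR.height a), hnb⟩,
    hNH κ J A B g U ι h S K Ks hUK hTA' T R hT hRK' hnb⟩

end Pool.MP_d2308b.SP
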