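import Pool.Agent.Work.MP_d2308b_lc.SP.Stmts2

/-! Item NB: the tree of the valuation has no branch. -/

namespace Pool.MP_d2308b.SP

open Cardinal Set

theorem NB_max (κ : Cardinal.{0}) (hκ : ℵ₀ ≤ κ) (a : La κ) : ∃ b, a < b := by
  have h1 : ℵ₀ ≤ Order.succ κ := hκ.trans (Order.le_succ κ)
  haveI : NoMaxOrder (La κ) := Cardinal.noMaxOrder h1
  exact exists_gt a

theorem sp_NB (hSU : StSU) (hVA : StVA) (hBr : StBr) (hFn : StFn) : StNB := by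
  intro κ J A B _ _ g U ι h hS K Ks T _ R hR c
  by_contra hne
  have hκ : ℵ₀ ≤ κ := hS.crd.unc.le
  obtain ⟨_, hv2⟩ := hVA κ A B T (La κ) ι h (pj κ g K) R (Supp κ g Ks)
  obtain ⟨hm, hb⟩ := hv2 (Lab κ g Ks T) Subtype.val
  obtain ⟨W, w1, w2, w3, w4⟩ := hBr (La κ) (Lab κ g Ks T) B
    (vl ι h (pj κ g K) R (Supp κ g Ks) Subtype.val) (NB_max κ hκ) hm hb c
  exact hFn κ J A B T (Lab κ g Ks T) g U ι h K R (Supp κ g Ks) Subtype.val
    (incr (RSv (vl ι h (pj κ g K) R (Supp κ g Ks) Subtype.val)) univ c) W hS hR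
    ((hSU κ J A g hκ hS.coh).sInf Ks) (fun l => l.2) ⟨hne, w1, w2, w3, w4⟩

end Pool.MP_d2308b.SP
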