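import Pool.Agent.Work.MP_d2308b_lc.SP.Stmts2

/-!
# Block [d2308b SP], item NH: no strict map from the tree to `T`
-/

namespace Pool.MP_d2308b.SP

open Cardinal Set

lemma NH_le_RSv {Λ L B : Type} [LinearOrder Λ] [Inhabited L] [CompleteBooleanAlgebra B]
    (val : Sq Λ L → B) {q q' : Sq Λ L} (h : q.sub q') : val q' ≤ RSv val q q' := by
  unfold RSv
  by_cases h1 : IsBot q.lh ∧ ¬ IsBot q'.lh
  · rw [if_pos h1]; exact le_top
  · rw [if_neg h1, if_pos h]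

lemma NH_card {κ : Cardinal.{0}} (hκ : ℵ₀ ≤ κ) {S T : Type} (hS : #S = Order.succ κ)
    (hT : #T = Order.succ κ) : #(Option (S × T)) ≤ Order.succ κ := by
  have h0 : ℵ₀ ≤ Order.succ κ := hκ.trans (Order.le_succ κ)
  rw [mk_option, mk_prod, lift_id, lift_id, hS, hT, mul_eq_self h0]
  exact (add_one_eq h0).le

theorem sp_NH (hLC : StLC) (hSC : StSC) (hKE : StKE) (hAU : StAU) (hSU : StSU) (hPI : StPI)
    (hAN : StAN) (hSq : StSq) (hRN : StRN) (hGd : StGd) (hIB : StIB) : StNH := by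
  classical
  intro κ J A B _ _ g U ι h hS K Ks hU hTA T _ R hT hR hnb f
  by_contra hne
  set val : Sq (La κ) (Lab κ g Ks T) → B :=
    vl ι h (pj κ g K) R (Supp κ g Ks) Subtype.val with hval
  set v : B := homVal (RSv val) R f with hv
  have hω : ℵ₀ ≤ κ := hS.crd.unc.le
  have hL : #(Lab κ g Ks T) ≤ Order.succ κ := hLC κ J A T g hS.crd hS.coh Ks hTA.2.2.1 hT
  have hSeq : #(Sq (La κ) (Lab κ g Ks T)) = Order.succ κ := hSC κ _ hS.crd hL
  obtain ⟨K', hKK', hK', hUK', hb⟩ := hKE κ J A B g U ι h hS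
    (Option (Sq (La κ) (Lab κ g Ks T) × T)) (fun i => i.elim v (fun p => f p.1 p.2))
    (NH_card hω hSeq hT) K hTA.2.1
  obtain ⟨e, he1, he2⟩ := hTA.2.2.2 K' hKK' hK'
  obtain ⟨φ, hφ1, hφ2⟩ := hAU κ J A g hω hS.coh e K he1
  have hSUs := hSU κ J A g hω hS.coh
  have hφ : ∀ x, Supp κ g K' x → Supp κ g Ks (φ x) := fun x hx =>
    hSUs.mono _ _ _ (image_subset_iff.2 fun y hy => he2 y hy) (hφ1 K' x hx)
  have hvK : BSupp g U ι h K' v := hb none
  obtain ⟨q, hqK, hqR, hqv, hqne⟩ := hvK v hne le_rfl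
  have hq0 : cv ι h q ≠ ⊥ := fun h0 => hqne (by rw [h0, bot_inf_eq])
  have hPIs := hPI κ J A g K hω hS.coh
  have hgds := hGd κ A B U ι h (pj κ g K) hS.nor hS.prik hPIs.mono hPIs.le
  have hm : ∀ σ : Sq (La κ) (Lab κ g Ks T), ∃ m : Mo κ → Cn κ A × T,
      (∀ i, KC κ g K' (m i).1 ∧ Rl U (m i).1 ∧ cv ι h (m i).1 ≤ cv ι h q ∧
        cv ι h (m i).1 ≤ f σ (m i).2) ∧ cv ι h q ≤ ⨆ i, cv ι h (m i).1 := fun σ =>
    hAN κ J A B g U ι h hS K' hUK' T q hqK (f σ) (fun x => hb (some (σ, x)))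
      (hqv.trans (homVal_tot σ))
  choose m hm1 hm2 using hm
  obtain ⟨s, hs⟩ := (hSq (La κ) (Lab κ g Ks T)).rcs (fun σ =>
    ⟨mpL (fun x => φ x) (q, m σ), ⟨⟨hφ _ hqK.1, fun α => hφ _ (hqK.2 α)⟩,
      fun i => ⟨hφ _ (hm1 σ i).1.1, fun α => hφ _ ((hm1 σ i).1.2 α)⟩⟩⟩)
  have claim : ∀ a, gd ι h (pj κ g K) q ≤ val (Sq.restr s a) := by
    intro a
    induction a using WellFoundedLT.induction with
    | ind a ih =>
      refine hRN κ J A B g U ι h hS K Ks hU φ hφ2 T R hR q (fun b => m (Sq.restr s b)) s a hqR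
        (fun b _ => congrArg Subtype.val (hs b)) (fun b _ i => (hm1 _ i).2.1)
        (fun b _ => hm2 _) ?_
      intro b c hbc hca i j
      have h1 : cv ι h (m (Sq.restr s b) i).1 ⊓ cv ι h (m (Sq.restr s c) j).1 ≤
          v ⊓ (RSv val (Sq.restr s b) (Sq.restr s c) ⊓ f (Sq.restr s b) (m (Sq.restr s b) i).2 ⊓
            f (Sq.restr s c) (m (Sq.restr s c) j).2) := by
        have h2 : cv ι h (m (Sq.restr s b) i).1 ⊓ cv ι h (m (Sq.restr s c) j).1 ≤ cv ι h q :=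
          inf_le_left.trans (hm1 _ i).2.2.1
        refine le_inf (h2.trans hqv) (le_inf (le_inf ?_ ?_) ?_)
        · exact h2.trans ((hgds.cv_le q).trans ((ih c hca).trans
            (NH_le_RSv val ((hSq (La κ) (Lab κ g Ks T)).restr_sub s b c hbc))))
        · exact inf_le_left.trans (hm1 _ i).2.2.2
        · exact inf_le_right.trans (hm1 _ j).2.2.2
      exact h1.trans (homVal_inc _ _ _ _)
  have h3 := hIB (La κ) (Lab κ g Ks T) B val s univ (gd ι h (pj κ g K) q) (fun g _ => claim g)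
  have h5 : gd ι h (pj κ g K) q ≤ ⊥ := h3.trans (le_of_eq (hnb _))
  exact hq0 (le_bot_iff.1 ((hgds.cv_le q).trans h5))

end Pool.MP_d2308b.SP
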