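import Pool.Agent.Work.MP_d2308b_lc.SP.Stmts

/-!
# Block [d2308b SP], item NK: the number of elements of the subalgebra of `K`
-/

namespace Pool.MP_d2308b.SP

open Cardinal Set

/-- every supported element is the supremum of `κ` many basic elements, or `⊥` -/
theorem NK_sup (hMA : StMA) (hCA : StCA) (κ : Cardinal.{0}) (J A : Type)
    [CompleteBooleanAlgebra A] (g : J → A) (hκ : Crd κ) (hg : Cohen κ g) (K : Set J) (x : A)
    (hx : Supp κ g K x) (hx0 : x ≠ ⊥) :
    ∃ e : Mo κ → {q : J → Option Bool // dm q ⊆ K ∧ #(dm q) < κ}, ⨆ i, bas g (e i).1 = x := by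
  let I : Type := {p : J → Option Bool // #(dm p) < κ ∧ dm p ⊆ K ∧ bas g p ≤ x}
  have : Nonempty I := by
    obtain ⟨p, h1, h2, h3, -⟩ := hx x hx0 le_rfl
    exact ⟨⟨p, h1, h2, h3⟩⟩
  obtain ⟨e, he⟩ := hMA κ A hκ.unc.le (hCA κ J A g hκ hg) I (fun p => bas g p.1)
  refine ⟨fun i => ⟨(e i).1, (e i).2.2.1, (e i).2.1⟩, ?_⟩
  show ⨆ i, bas g (e i).1 = x
  have he' : ⨆ i, bas g (e i).1 = ⨆ p : I, bas g p.1 := he
  rw [he']
  apply le_antisymm
  · exact iSup_le fun p => p.2.2.2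
  · apply dense_le
    intro y hy0 hyx
    obtain ⟨p, h1, h2, h3, h4⟩ := hx y hy0 hyx
    refine ⟨bas g p ⊓ y, h4, inf_le_right, inf_le_left.trans ?_⟩
    exact le_iSup (fun p : I => bas g p.1) ⟨p, h1, h2, h3⟩

theorem NK_pow {κ : Cardinal.{0}} (hκ : Crd κ) : Order.succ κ ^ κ = Order.succ κ := by
  have h := hκ.cont
  rw [← h, ← power_mul, mul_eq_self hκ.unc.le]

theorem sp_NK (hNP : StNP) (hMA : StMA) (hCA : StCA) (hPF : StPF) : StNK := by
  intro κ J A _ g hκ hg K hK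
  have h0 : ℵ₀ ≤ κ := hκ.unc.le
  have h1 : ℵ₀ ≤ Order.succ κ := h0.trans (Order.le_succ κ)
  have hpow : Order.succ κ ^< κ ≤ Order.succ κ := by
    rw [powerlt_le]
    intro c hc
    calc Order.succ κ ^ c ≤ Order.succ κ ^ κ :=
          power_le_power_left (by
            intro h2
            rw [h2] at h1
            exact absurd h1 (not_le.2 aleph0_pos)) hc.le
      _ = Order.succ κ := NK_pow hκ
  have hP := hNP J κ (Order.succ κ) h1 (Order.le_succ κ) hpow K hK
  have hF : #(Mo κ → {q : J → Option Bool // dm q ⊆ K ∧ #(dm q) < κ}) ≤ Order.succ κ := by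
    have h2 : #(Mo κ → {q : J → Option Bool // dm q ⊆ K ∧ #(dm q) < κ}) =
        #{q : J → Option Bool // dm q ⊆ K ∧ #(dm q) < κ} ^ #(Mo κ) := by
      rw [power_def]
    rw [h2, mk_ord_toType]
    calc _ ≤ Order.succ κ ^ κ := power_le_power_right hP
      _ = Order.succ κ := NK_pow hκ
  have hO : #(Option (Mo κ → {q : J → Option Bool // dm q ⊆ K ∧ #(dm q) < κ})) ≤
      Order.succ κ := by
    rw [mk_option]
    calc _ ≤ Order.succ κ + 1 := add_le_add_left hF 1
      _ = Order.succ κ := add_one_eq h1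
  refine le_trans ?_ hO
  classical
  have hex : ∀ x : {x : A // Supp κ g K x},
      ∃ o : Option (Mo κ → {q : J → Option Bool // dm q ⊆ K ∧ #(dm q) < κ}),
        o.elim ⊥ (fun e => ⨆ i, bas g (e i).1) = x.1 := by
    intro x
    by_cases hx : x.1 = ⊥
    · exact ⟨none, hx.symm⟩
    · obtain ⟨e, he⟩ := NK_sup hMA hCA κ J A g hκ hg K x.1 x.2 hx
      exact ⟨some e, he⟩
  choose f hf using hex
  refine mk_le_of_injective (f := f) ?_
  intro x y hxy
  apply Subtype.ext
  rw [← hf x, ← hf y, hxy]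

end Pool.MP_d2308b.SP
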