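import Pool.Agent.Work.MP_d2308b_lc.SP.Stmts

set_option autoImplicit false

namespace Pool.MP_d2308b.SP

open Cardinal Set

lemma NP_code {X : Type} {θ : Cardinal.{0}} {D : Set X} (q : X → Option Bool) (hD : dm q ⊆ D)
    (hq : #(dm q) < θ) : ∃ z : (Σ b : θ.ord.ToType, (Iio b → D × Bool)),
      ∀ x c, q x = some c ↔ ∃ j, ((z.2 j).1 : X) = x ∧ (z.2 j).2 = c := by
  obtain ⟨b, hb⟩ := exists_Iio hq
  obtain ⟨e⟩ := Cardinal.eq.1 hb
  refine ⟨⟨b, fun j => (⟨(e j).1, hD (e j).2⟩, (q (e j).1).getD false)⟩, fun x c => ?_⟩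
  constructor
  · intro h
    have hx : x ∈ dm q := by
      change q x ≠ none
      rw [h]; exact Option.some_ne_none c
    refine ⟨e.symm ⟨x, hx⟩, ?_, ?_⟩
    · simp
    · simp [h]
  · rintro ⟨j, h1, h2⟩
    have h1' : (e j).1 = x := h1
    have h2' : (q (e j).1).getD false = c := h2
    have h3 : q x ≠ none := by
      rw [← h1']; exact (e j).2
    obtain ⟨d, hd⟩ := Option.ne_none_iff_exists'.1 h3
    rw [h1', hd] at h2'
    rw [hd]
    exact congrArg some h2'

theorem sp_NP : StNP := by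
  intro X θ ν h0 hθ hpow D hD
  choose F hF using fun q : {q : X → Option Bool // dm q ⊆ D ∧ #(dm q) < θ} =>
    NP_code q.1 q.2.1 q.2.2
  have hinj : Function.Injective F := by
    intro q q' h
    refine Subtype.ext (funext fun x => Option.ext fun c => ?_)
    rw [hF q x c, hF q' x c, h]
  refine (mk_le_of_injective hinj).trans ?_
  rw [mk_sigma]
  have hDB : #(D × Bool) ≤ ν := by
    rw [mk_prod, Cardinal.lift_id, Cardinal.lift_id]
    calc #D * #Bool ≤ ν * ν :=
          mul_le_mul' hD (by rw [mk_bool]; exact (natCast_le_aleph0 (n := 2)).trans h0)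
      _ = ν := mul_eq_self h0
  have h2 : ∀ b : θ.ord.ToType, #(Iio b → D × Bool) ≤ ν := by
    intro b
    have h3 : #(Iio b) < θ := by simpa using mk_Iio_lt b (by simp)
    rw [mk_arrow, Cardinal.lift_id, Cardinal.lift_id]
    calc #(D × Bool) ^ #(Iio b) ≤ ν ^ #(Iio b) := power_le_power_right hDB
      _ ≤ ν ^< θ := le_powerlt ν h3
      _ ≤ ν := hpow
  refine (sum_le_sum _ _ h2).trans ?_
  rw [sum_const', mk_ord_toType]
  calc θ * ν ≤ ν * ν := mul_le_mul' hθ le_rfl
    _ = ν := mul_eq_self h0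

end Pool.MP_d2308b.SP
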