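import Pool.Agent.Work.MP_d2308b_lc.SP.Stmts

/-! Item PC of the block [d2308b SP] (helper29): colour lemma. -/

namespace Pool.MP_d2308b.SP

open Cardinal Set

theorem sp_PC (hRw : StRw) (hIf : StIf) (hUF : StUF) (hPI : StPI) (hEn : StEn) (_hLq : StLq)
    (hIo : StIo) (hMt : StMt) (hDn : StDn) (hGd : StGd) : StPC := by
  intro κ J A B _ _ g U ι h hS K p s X r Z hpX hle
  have hκ : ℵ₀ < κ := hS.crd.unc
  have hN := hS.nor
  have hP := hS.prik
  have uf := hUF κ A U hκ hN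
  have pi := hPI κ J A g K hκ.le hS.coh
  have en := hEn (Mo κ)
  have io := hIo κ A B U ι h hP
  have mt := hMt κ A B U ι h hN hP
  have gdf := hGd κ A B U ι h (pj κ g K) hN hP pi.mono pi.le
  obtain ⟨Y, c, -, -, hY, hYc⟩ := hRw κ A U hκ hN (fun _ => True) (fun _ _ => trivial)
    (fun _ _ => trivial) (fun _ _ => trivial)
    (fun w => pj κ g K (r ⊓ ⨅ α ∈ w, Z α)) (fun _ => trivial)
  have hreal : ∀ a : A, a ≤ p → a ≤ U (fun α => X α ⊓ Y α) := by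
    intro a ha
    rw [uf.inf_eq, hY, inf_top_eq]
    exact ha.trans hpX
  have claim : ∀ n, p ≤ c n := by
    intro n
    by_contra hn
    have hp0 : p ⊓ (c n)ᶜ ≠ ⊥ := by
      intro h0
      exact hn (by simpa using le_compl_of_inf h0)
    set q₀ : Cn κ A := (p ⊓ (c n)ᶜ, s, fun α => X α ⊓ Y α) with hq₀
    have hR0 : Rl U q₀ := hreal _ inf_le_left
    have hL0 : Le q₀ (p, s, X) := by
      refine ⟨inf_le_left, en.refl s, ?_, fun α => inf_le_left⟩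
      simp [hq₀]
    have hne : cv ι h q₀ ≠ ⊥ := hP.ne q₀ hp0 hR0
    obtain ⟨u, y, hy, hy1, hy2⟩ := ex_sup hne ((mt.mono _ _ hL0).trans hle)
    have hyu : y ≤ h u := hy2.trans (gdf.le_h _)
    obtain ⟨q', hq'1, hq'R, hq'y, hq'L, hq'u⟩ := hDn κ A B U ι h hN hP q₀ u y hR0 hy
      (le_inf hy1 hyu)
    have hsup : q'.1 ≤ ⨆ w : Finset (Mo κ), ⨆ (_ : w.card = n ∧ ∀ α ∈ w, ∀ y ∈ q'.2.1, y < α),
        ⨅ α ∈ w, q'.2.2 α := (show q'.1 ≤ U q'.2.2 from hq'R).trans (hIf κ A U hκ hN q'.2.2 n q'.2.1)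
    obtain ⟨w, x, hx, hx1, hx2⟩ := ex_sup hq'1 hsup
    obtain ⟨⟨hwn, hwa⟩, x', hx', hx'1, hx'2⟩ := ex_sup hx hx2
    have hx'q : x' ≤ q'.1 := hx'1.trans hx1
    set q'' : Cn κ A := (x', q'.2.1 ∪ w, q'.2.2) with hq''
    have hR2 : Rl U q'' := hx'q.trans hq'R
    have hE2 : Ends q'.2.1 (q'.2.1 ∪ w) := en.union _ _ hwa
    have hL2 : Le q'' q' := by
      refine ⟨hx'q, hE2, ?_, fun α => le_rfl⟩
      refine le_iInf₂ fun α hα => ?_
      have hαw : α ∈ w := by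
        have := Finset.mem_sdiff.1 hα
        rcases Finset.mem_union.1 this.1 with h1 | h1
        · exact absurd h1 this.2
        · exact h1
      exact hx'2.trans (iInf₂_le α hαw)
    have hcv2 : cv ι h q'' ≠ ⊥ := hP.ne q'' hx' hR2
    have hle2 : cv ι h q'' ≤ ι (pj κ g K (r ⊓ ⨅ α ∈ w, Z α)) := by
      have h1 : cv ι h q'' ≤ gd ι h (pj κ g K) (r, u, Z) :=
        ((mt.mono _ _ hL2).trans hq'y).trans hy2
      have h2 : cv ι h q'' ≤ h (q'.2.1 ∪ w) := mt.le_h q''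
      have hEu : Ends u (q'.2.1 ∪ w) := en.trans _ _ _ hq'u hE2
      have h3 := gdf.le_ends (r, u, Z) (q'.2.1 ∪ w) hEu
      refine (le_inf h1 h2).trans (h3.trans (io.mono _ _ (pi.mono _ _ (inf_le_inf_left _ ?_))))
      refine le_iInf₂ fun α hα => iInf₂_le α ?_
      refine Finset.mem_sdiff.2 ⟨Finset.mem_union_right _ hα, fun hαu => ?_⟩
      exact lt_irrefl _ (hwa α hα α (hq'u.1 hαu))
    have hxf : x' ≤ pj κ g K (r ⊓ ⨅ α ∈ w, Z α) := mt.le_fst q'' _ hR2 hle2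
    have hxY : x' ≤ ⨅ α ∈ w, Y α :=
      hx'2.trans (iInf₂_mono fun α _ => (hq'L.2.2.2 α).trans inf_le_right)
    have hxc : x' ≤ c n := by
      have := (hYc w).1
      rw [hwn] at this
      exact (le_inf hxY hxf).trans this
    have hxcc : x' ≤ (c n)ᶜ := (hx'q.trans hq'L.1).trans inf_le_right
    exact hx' (le_bot_iff.1 (by simpa using le_inf hxc hxcc))
  refine ⟨Y, hY, ?_⟩
  refine le_inf (mt.le_h _) (le_iInf₂ fun t ht => ?_)
  rw [sup_comm, ← himp_eq, le_himp_iff]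
  have h1 : cv ι h (p, s, fun α => X α ⊓ Y α) ⊓ h t ≤ ι p := inf_le_left.trans (mt.le_iota _)
  have h2 : cv ι h (p, s, fun α => X α ⊓ Y α) ⊓ h t ≤ ι (⨅ α ∈ t \ s, Y α) := by
    rw [io.biInf]
    refine (mt.le_ends (p, s, fun α => X α ⊓ Y α) t ht).trans ?_
    exact iInf₂_mono fun α _ => io.mono _ _ inf_le_right
  have h3 : p ⊓ (⨅ α ∈ t \ s, Y α) ≤ pj κ g K (r ⊓ ⨅ α ∈ t \ s, Z α) := by
    refine le_trans ?_ (hYc (t \ s)).2
    exact le_inf inf_le_right (inf_le_left.trans (claim _))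
  refine (le_inf h1 h2).trans ?_
  rw [← io.inf]
  exact io.mono _ _ h3

end Pool.MP_d2308b.SP
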