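import Pool.Agent.Work.MP_d2308b_lc.SP.Stmts

/-!
# Block [d2308b SP], item PF: elementary facts on partial functions
-/

namespace Pool.MP_d2308b.SP

open Cardinal Set

section PF

variable {J A : Type}

lemma PF_mem {p : J → Option Bool} {x : J} {b : Bool} (h : p x = some b) : x ∈ dm p := by
  show p x ≠ none
  rw [h]
  exact Option.some_ne_none b

lemma PF_rs_some {K : Set J} {p : J → Option Bool} {x : J} {b : Bool} :
    rs K p x = some b ↔ x ∈ K ∧ p x = some b := by
  classical
  unfold rs
  by_cases h : x ∈ K
  · simp [h]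
  · simp [h]

lemma PF_jn_some {p q : J → Option Bool} {x : J} {b : Bool} :
    jn p q x = some b ↔ p x = some b ∨ (p x = none ∧ q x = some b) := by
  unfold jn
  cases h : p x <;> simp

variable [CompleteBooleanAlgebra A] (g : J → A)

lemma PF_lit_disj (x : J) {b c : Bool} (h : b ≠ c) : lit g x b ⊓ lit g x c = ⊥ := by
  unfold lit
  cases b <;> cases c
  · exact absurd rfl h
  · simp
  · simp
  · exact absurd rfl h

lemma PF_bas_le {p : J → Option Bool} {x : J} {b : Bool} (h : p x = some b) :
    bas g p ≤ lit g x b := by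
  unfold bas
  exact (iInf_le _ x).trans ((iInf_le _ b).trans (iInf_le _ h))

lemma PF_le_bas {p : J → Option Bool} {a : A} (h : ∀ x b, p x = some b → a ≤ lit g x b) :
    a ≤ bas g p :=
  le_iInf fun x => le_iInf fun b => le_iInf fun hb => h x b hb

lemma PF_anti {p q : J → Option Bool} (h : Ext p q) : bas g q ≤ bas g p :=
  PF_le_bas g fun x b hb => PF_bas_le g (h x b hb)

end PF

theorem sp_PF : StPF := by
  classical
  intro κ J A _ g hκ hC
  refine ⟨?_, ?_, ?_, ?_, ?_, ?_, ?_, ?_, ?_, ?_, ?_, ?_, ?_⟩
  · -- rs_dm
    intro K p x hx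
    obtain ⟨b, hb⟩ := Option.ne_none_iff_exists'.1 hx
    exact (PF_rs_some.1 hb).1
  · -- rs_small
    intro K p hp
    refine lt_of_le_of_lt (mk_le_mk_of_subset ?_) hp
    intro x hx
    obtain ⟨b, hb⟩ := Option.ne_none_iff_exists'.1 hx
    exact PF_mem (PF_rs_some.1 hb).2
  · -- jn_dm
    intro p q
    ext x
    constructor
    · intro hx
      obtain ⟨b, hb⟩ := Option.ne_none_iff_exists'.1 hx
      rcases PF_jn_some.1 hb with h | h
      · exact Or.inl (PF_mem h)
      · exact Or.inr (PF_mem h.2)
    · rintro (hx | hx)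
      · obtain ⟨b, hb⟩ := Option.ne_none_iff_exists'.1 hx
        exact PF_mem (PF_jn_some.2 (Or.inl hb))
      · obtain ⟨b, hb⟩ := Option.ne_none_iff_exists'.1 hx
        cases h : p x with
        | none => exact PF_mem (PF_jn_some.2 (Or.inr ⟨h, hb⟩))
        | some c => exact PF_mem (PF_jn_some.2 (Or.inl h))
  · -- jn_small
    intro p q hp hq
    have h1 : dm (jn p q) ⊆ dm p ∪ dm q := by
      intro x hx
      obtain ⟨b, hb⟩ := Option.ne_none_iff_exists'.1 hx
      rcases PF_jn_some.1 hb with h | h
      · exact Or.inl (PF_mem h)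
      · exact Or.inr (PF_mem h.2)
    exact lt_of_le_of_lt ((mk_le_mk_of_subset h1).trans (mk_union_le _ _))
      (add_lt_of_lt hκ hp hq)
  · -- jn_bas
    intro p q hpq
    apply le_antisymm
    · refine le_inf ?_ ?_
      · exact PF_le_bas g fun x b hb => PF_bas_le g (PF_jn_some.2 (Or.inl hb))
      · refine PF_le_bas g fun x b hb => PF_bas_le g (PF_jn_some.2 ?_)
        cases h : p x with
        | none => exact Or.inr ⟨rfl, hb⟩
        | some c => exact Or.inl (by rw [hpq x c b h hb])
    · refine PF_le_bas g fun x b hb => ?_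
      rcases PF_jn_some.1 hb with h | h
      · exact inf_le_left.trans (PF_bas_le g h)
      · exact inf_le_right.trans (PF_bas_le g h.2)
  · -- jn_rs
    intro K p q
    funext x
    unfold rs jn
    by_cases h : x ∈ K
    · simp [h]
    · simp [h]
  · -- anti
    intro p q h
    exact PF_anti g h
  · -- disj
    intro p q h
    unfold Cpt at h
    push Not at h
    obtain ⟨x, b, c, hb, hc, hbc⟩ := h
    rw [← le_bot_iff, ← PF_lit_disj g x hbc]
    exact inf_le_inf (PF_bas_le g hb) (PF_bas_le g hc)
  · -- bas_rs
    intro K p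
    exact PF_anti g fun x b hb => (PF_rs_some.1 hb).2
  · -- cpt_rs
    intro K p q hp hc x b c hb hc'
    exact hc x b c hb (PF_rs_some.2 ⟨hp (PF_mem hb), hc'⟩)
  · -- cpt_comm
    intro p q h x b c hb hc
    exact (h x c b hc hb).symm
  · -- ext_of_le
    intro p q hp hle x b hb
    by_contra hne
    have h1 : bas g p ≤ lit g x b := hle.trans (PF_bas_le g hb)
    cases h : p x with
    | some c =>
      have hcb : c ≠ b := by
        rintro rfl
        exact hne h
      refine hC.ne p hp (le_bot_iff.1 ?_)
      rw [← PF_lit_disj g x hcb]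
      exact le_inf (PF_bas_le g h) h1
    | none =>
      let p' : J → Option Bool := fun y => if y = x then some (!b) else p y
      have hx : p' x = some (!b) := if_pos rfl
      have hsub : dm p' ⊆ insert x (dm p) := by
        intro y hy
        by_cases hyx : y = x
        · exact Or.inl hyx
        · refine Or.inr ?_
          have h2 : p' y = p y := if_neg hyx
          show p y ≠ none
          rw [← h2]
          exact hy
      have hsm : #(dm p') < κ := by
        refine lt_of_le_of_lt ((mk_le_mk_of_subset hsub).trans mk_insert_le) ?_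
        exact add_lt_of_lt hκ hp (one_lt_aleph0.trans_le hκ)
      have hext : Ext p p' := by
        intro y c hc
        have hyx : y ≠ x := by
          rintro rfl
          rw [h] at hc
          exact absurd hc (by simp)
        have h2 : p' y = p y := if_neg hyx
        rw [h2, hc]
      refine hC.ne p' hsm (le_bot_iff.1 ?_)
      have hb' : (!b) ≠ b := by cases b <;> simp
      rw [← PF_lit_disj g x hb']
      exact le_inf (PF_bas_le g hx) ((PF_anti g hext).trans h1)
  · -- sup_basic
    intro x
    apply le_antisymm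
    · apply dense_le
      intro a ha hax
      obtain ⟨p, hp, hpa⟩ := hC.dense a ha
      exact ⟨bas g p, hC.ne p hp, hpa,
        le_iSup (fun p : {p : J → Option Bool // #(dm p) < κ ∧ bas g p ≤ x} => bas g p.1)
          ⟨p, hp, hpa.trans hax⟩⟩
    · exact iSup_le fun p => p.2.2

end Pool.MP_d2308b.SP
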