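import Pool.Agent.Work.MP_d2308b_lc.SP.Stmts

/-!
# Block [d2308b SP], item PI: the projections of the Cohen algebra
-/

namespace Pool.MP_d2308b.SP

open Cardinal Set

/-- the clause `meet` of [PI] -/
theorem PI_meet {κ : Cardinal.{0}} {J A : Type} [CompleteBooleanAlgebra A] {g : J → A}
    (hp : PFs κ g) (hc : Cohen κ g) (K : Set J) (c x : A) (hs : Supp κ g K c)
    (h : c ⊓ pj κ g K x ≠ ⊥) : c ⊓ x ≠ ⊥ := by
  have h1 : ∃ p : {p : J → Option Bool // #(dm p) < κ ∧ bas g p ≤ x},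
      c ⊓ bas g (rs K p.1) ≠ ⊥ := by
    by_contra hcon
    push Not at hcon
    apply h
    unfold pj
    rw [inf_iSup_eq, iSup_eq_bot]
    exact hcon
  obtain ⟨⟨p, hps, hpx⟩, hne⟩ := h1
  obtain ⟨p', hp's, hp'K, hp'c, hne'⟩ := hs (c ⊓ bas g (rs K p)) hne inf_le_left
  have hcpt : Cpt p' (rs K p) := by
    by_contra hcon
    apply hne'
    rw [eq_bot_iff, ← hp.disj _ _ hcon]
    exact inf_le_inf_left _ inf_le_right
  have hb : bas g (jn p' p) ≠ ⊥ := hc.ne _ (hp.jn_small _ _ hp's hps)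
  rw [hp.jn_bas _ _ (hp.cpt_rs K p' p hp'K hcpt)] at hb
  intro h0
  apply hb
  rw [eq_bot_iff, ← h0]
  exact inf_le_inf hp'c hpx

/-- the clause `le` of [PI] -/
theorem PI_le {κ : Cardinal.{0}} {J A : Type} [CompleteBooleanAlgebra A] {g : J → A}
    (hp : PFs κ g) (K : Set J) (x : A) : x ≤ pj κ g K x := by
  have h1 : (⨆ p : {p : J → Option Bool // #(dm p) < κ ∧ bas g p ≤ x}, bas g p.1) ≤
      pj κ g K x := iSup_mono fun p => hp.bas_rs K p.1
  exact (hp.sup_basic x).le.trans h1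

/-- the clause `mono` of [PI] -/
theorem PI_mono {κ : Cardinal.{0}} {J A : Type} [CompleteBooleanAlgebra A] {g : J → A}
    (K : Set J) {x y : A} (h : x ≤ y) : pj κ g K x ≤ pj κ g K y := by
  unfold pj
  refine iSup_le fun p => ?_
  exact le_iSup (fun q : {q : J → Option Bool // #(dm q) < κ ∧ bas g q ≤ y} =>
    bas g (rs K q.1)) ⟨p.1, p.2.1, p.2.2.trans h⟩

/-- the clause `least` of [PI] -/
theorem PI_least {κ : Cardinal.{0}} {J A : Type} [CompleteBooleanAlgebra A] {g : J → A}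
    (hp : PFs κ g) (hs : SUs κ g) (hc : Cohen κ g) (K : Set J) (c x : A) (h : Supp κ g K c)
    (hx : x ≤ c) : pj κ g K x ≤ c := by
  by_contra hcon
  have h1 : cᶜ ⊓ pj κ g K x ≠ ⊥ := by
    intro h0
    apply hcon
    rw [inf_comm, ← _root_.sdiff_eq, _root_.sdiff_eq_bot_iff] at h0
    exact h0
  apply PI_meet hp hc K _ x (hs.compl K c h) h1
  rw [eq_bot_iff]
  calc cᶜ ⊓ x ≤ cᶜ ⊓ c := inf_le_inf_left _ hx
    _ = ⊥ := _root_.compl_inf_self _

theorem sp_PI (hPF : StPF) (hSU : StSU) : StPI := by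
  intro κ J A _ g K hκ hc
  have hp := hPF κ J A g hκ hc
  have hs := hSU κ J A g hκ hc
  have hsupp : ∀ x, Supp κ g K (pj κ g K x) := by
    intro x
    refine hs.iSup K _ _ fun p => hs.basic K _ (hp.rs_small K _ p.2.1) ?_
    intro y hy
    by_contra hyK
    apply hy
    show rs K p.1 y = none
    unfold rs
    rw [if_neg hyK]
  refine ⟨hsupp, PI_le hp K, fun x y h => PI_mono K h, PI_meet hp hc K, PI_least hp hs hc K,
    fun c h => le_antisymm (PI_least hp hs hc K c c h le_rfl) (PI_le hp K c), fun c x h => ?_⟩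
  refine le_antisymm (PI_least hp hs hc K _ _ (hs.inf K _ _ h (hsupp x))
    (inf_le_inf_left _ (PI_le hp K x))) ?_
  by_contra hcon
  have hd : Supp κ g K (c ⊓ (pj κ g K (c ⊓ x))ᶜ) := hs.inf K _ _ h (hs.compl K _ (hsupp _))
  have h1 : (c ⊓ (pj κ g K (c ⊓ x))ᶜ) ⊓ pj κ g K x ≠ ⊥ := by
    intro h0
    apply hcon
    rw [inf_right_comm, ← _root_.sdiff_eq, _root_.sdiff_eq_bot_iff] at h0
    exact h0
  apply PI_meet hp hc K _ x hd h1
  rw [eq_bot_iff, inf_right_comm]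
  calc (c ⊓ x) ⊓ (pj κ g K (c ⊓ x))ᶜ ≤ pj κ g K (c ⊓ x) ⊓ (pj κ g K (c ⊓ x))ᶜ :=
        inf_le_inf_right _ (PI_le hp K _)
    _ = ⊥ := inf_compl_self _

end Pool.MP_d2308b.SP
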