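import Pool.Agent.Work.MP_d2308b_lc.SP.Stmts2

/-!
# Block [d2308b SP], item RN (helper85): true runs, copied by an automorphism
-/

set_option autoImplicit false

namespace Pool.MP_d2308b.SP

open Cardinal Set

theorem sp_RN (hTR : StTR) (hGF : StGF) (hVA : StVA) (hSq : StSq) : StRN := by
  intro κ J A B _ _ g U ι h hS K Ks hU φ hφ T _ R hR q m s a hq hs hm hpre hcmp
  have h1 := hTR κ J A B g U ι h hS K hU T (La κ) R hR q m a hq hm hpre hcmp
  have h2 := hGF κ A B T (La κ) ι h (pj κ g K) R (Supp κ g Ks) φ hφ (fun b => (q, m b)) a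
  have hF := hSq (La κ) (Lab κ g Ks T)
  refine (h1.trans h2).trans ?_
  have hlh : (Sq.restr s a).lh = a := hF.restr_lh s a
  refine (hVA κ A B T (La κ) ι h (pj κ g K) R (Supp κ g Ks)).1
    (fun b => ((Sq.restr s a).sq b).1) (fun b => mpL (fun x => φ x) (q, m b))
    (Sq.restr s a).lh a hlh.le fun b hb => ?_
  rw [hlh] at hb
  have h3 : (Sq.restr s a).sq b = s b := hF.restr_sq s a b hb
  exact (congrArg Subtype.val h3).trans (hs b hb)

end Pool.MP_d2308b.SP
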