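import Pool.Agent.Work.MP_d2308b_lc.SP.Stmts

/-!
# Block [d2308b SP], item Rd: reduction of a real condition to a condition of the subalgebra
-/

namespace Pool.MP_d2308b.SP

open Cardinal Set

/-- each value of the colouring is above the first component -/
lemma Rd_key {κ : Cardinal.{0}} {A : Type} [CompleteBooleanAlgebra A] {U : (Mo κ → A) → A}
    (hIf : StIf) (hUF : StUF) (hk : ℵ₀ < κ) (hN : Nor U) (a : A) (X Y : Mo κ → A)
    (f : Finset (Mo κ) → A) (c : ℕ → A) (ha : a ≤ U X) (hY : U Y = ⊤)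
    (hf : ∀ w, a ⊓ (⨅ α ∈ w, X α) ≤ f w)
    (hc : ∀ u : Finset (Mo κ), (⨅ α ∈ u, Y α) ⊓ f u ≤ c u.card) (n : ℕ) : a ≤ c n := by
  have hU := hUF κ A U hk hN
  have h1 : a ≤ U (fun α => X α ⊓ Y α) := by
    rw [hU.inf_eq, hY, inf_top_eq]
    exact ha
  have h2 := hIf κ A U hk hN (fun α => X α ⊓ Y α) n ∅
  have h3 : a ≤ a ⊓ ⨆ w : Finset (Mo κ), ⨆ (_ : w.card = n ∧ ∀ α ∈ w, ∀ y ∈ (∅ : Finset (Mo κ)),
      y < α), ⨅ α ∈ w, (X α ⊓ Y α) := le_inf le_rfl (h1.trans h2)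
  refine h3.trans ?_
  rw [inf_iSup_eq]
  refine iSup_le fun w => ?_
  rw [inf_iSup_eq]
  refine iSup_le fun hw => ?_
  rw [← hw.1]
  refine le_trans (le_inf ?_ ?_) (hc w)
  · refine inf_le_right.trans ?_
    exact iInf_mono fun α => iInf_mono fun _ => inf_le_right
  · refine le_trans (inf_le_inf_left a ?_) (hf w)
    exact iInf_mono fun α => iInf_mono fun _ => inf_le_left

theorem sp_Rd (hRw : StRw) (hIf : StIf) (hUF : StUF) (hSU : StSU) (hPI : StPI) (hIo : StIo)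
    (hMt : StMt) : StRd := by
  intro κ J A B _ _ g U ι h hS K hK q hq
  have hk : ℵ₀ < κ := hS.crd.unc
  have hSu := hSU κ J A g hk.le hS.coh
  have hPi := hPI κ J A g K hk.le hS.coh
  have hio := hIo κ A B U ι h hS.prik
  have hmt := hMt κ A B U ι h hS.nor hS.prik
  obtain ⟨Y, c, hYP, hcP, hUY, hYc⟩ := hRw κ A U hk hS.nor (Supp κ g K) (hSu.compl K)
    (hSu.sInf K) hK (fun u => pj κ g K (q.1 ⊓ ⨅ α ∈ u, q.2.2 α)) (fun u => hPi.supp _)
  have hkey : ∀ n, q.1 ≤ c n := Rd_key hIf hUF hk hS.nor q.1 q.2.2 Y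
    (fun u => pj κ g K (q.1 ⊓ ⨅ α ∈ u, q.2.2 α)) c hq hUY (fun w => hPi.le _) (fun u => (hYc u).1)
  have hpj : ∀ n, pj κ g K q.1 ≤ c n := fun n => hPi.least (c n) q.1 (hcP n) (hkey n)
  refine ⟨Y, hYP, hUY, ?_⟩
  unfold gd
  refine le_inf (hmt.le_h _) (le_iInf fun t => le_iInf fun ht => ?_)
  rw [sup_comm, ← himp_eq, le_himp_iff]
  have h1 : cv ι h (pj κ g K q.1, q.2.1, Y) ⊓ h t ≤ ι (pj κ g K q.1) :=
    inf_le_left.trans (hmt.le_iota (pj κ g K q.1, q.2.1, Y))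
  have h2 : cv ι h (pj κ g K q.1, q.2.1, Y) ⊓ h t ≤ ι (⨅ α ∈ t \ q.2.1, Y α) := by
    refine (hmt.le_ends (pj κ g K q.1, q.2.1, Y) t ht).trans (le_of_eq ?_)
    exact (hio.biInf (Mo κ) (fun α => α ∈ t \ q.2.1) Y).symm
  refine (le_inf h1 h2).trans ?_
  rw [← hio.inf]
  refine hio.mono _ _ ?_
  refine le_trans (le_inf inf_le_right (inf_le_left.trans (hpj (t \ q.2.1).card))) ?_
  exact (hYc (t \ q.2.1)).2

end Pool.MP_d2308b.SP
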