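import Pool.Agent.Work.MP_d2308b_lc.SP.Stmts

/-!
# Block [d2308b SP], item Rw: Rowbottom's theorem for names of colourings
-/

namespace Pool.MP_d2308b.SP

open Cardinal Set

section Rw

variable {A : Type} [CompleteBooleanAlgebra A]

lemma Rw_top {P : A → Prop} (hinf : ∀ S : Set A, (∀ x ∈ S, P x) → P (sInf S)) : P ⊤ := by
  have h := hinf ∅ (fun x hx => absurd hx (Set.notMem_empty x))
  have e : sInf (∅ : Set A) = ⊤ := sInf_empty
  rw [← e]
  exact h

lemma Rw_iInf {P : A → Prop} (hinf : ∀ S : Set A, (∀ x ∈ S, P x) → P (sInf S)) {I : Type}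
    {f : I → A} (h : ∀ i, P (f i)) : P (⨅ i, f i) := by
  refine hinf (Set.range f) ?_
  rintro x ⟨i, rfl⟩
  exact h i

lemma Rw_inf {P : A → Prop} (hinf : ∀ S : Set A, (∀ x ∈ S, P x) → P (sInf S)) {x y : A}
    (hx : P x) (hy : P y) : P (x ⊓ y) := by
  have := hinf {x, y} (by
    intro z hz
    rcases hz with h | h
    · rw [h]
      exact hx
    · rw [Set.mem_singleton_iff.1 h]
      exact hy)
  rwa [sInf_pair] at this

lemma Rw_sup {P : A → Prop} (hc : ∀ x, P x → P xᶜ)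
    (hinf : ∀ S : Set A, (∀ x ∈ S, P x) → P (sInf S)) {x y : A}
    (hx : P x) (hy : P y) : P (x ⊔ y) := by
  have := hc _ (Rw_inf hinf (hc _ hx) (hc _ hy))
  rwa [compl_inf, compl_compl, compl_compl] at this

lemma Rw_star (a c : A) : ((a ⊓ c) ⊔ (aᶜ ⊓ cᶜ)) ⊓ a ≤ c ∧ ((a ⊓ c) ⊔ (aᶜ ⊓ cᶜ)) ⊓ c ≤ a := by
  constructor
  · rw [inf_sup_right]
    refine sup_le (inf_le_left.trans inf_le_right) ?_
    have : aᶜ ⊓ cᶜ ⊓ a ≤ ⊥ := by
      rw [← compl_inf_eq_bot (a := a)]
      exact le_inf (inf_le_left.trans inf_le_left) inf_le_right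
    exact this.trans bot_le
  · rw [inf_sup_right]
    refine sup_le (inf_le_left.trans inf_le_left) ?_
    have : aᶜ ⊓ cᶜ ⊓ c ≤ ⊥ := by
      rw [← compl_inf_eq_bot (a := c)]
      exact le_inf (inf_le_left.trans inf_le_right) inf_le_right
    exact this.trans bot_le

end Rw

/-- the case of sets with `n` elements -/
lemma Rw_step {κ : Cardinal.{0}} {A : Type} [CompleteBooleanAlgebra A] {U : (Mo κ → A) → A}
    (hN : Nor U) (hU : UFs U) {P : A → Prop} (hc : ∀ x, P x → P xᶜ)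
    (hinf : ∀ S : Set A, (∀ x ∈ S, P x) → P (sInf S))
    (hPU : ∀ X : Mo κ → A, (∀ α, P (X α)) → P (U X)) (n : ℕ) :
    ∀ f : Finset (Mo κ) → A, (∀ u, P (f u)) →
      ∃ (Y : Mo κ → A) (c : A), (∀ α, P (Y α)) ∧ P c ∧ U Y = ⊤ ∧
        ∀ u : Finset (Mo κ), u.card = n →
          (⨅ α ∈ u, Y α) ⊓ f u ≤ c ∧ (⨅ α ∈ u, Y α) ⊓ c ≤ f u := by
  classical
  induction n with
  | zero =>
    intro f hf
    refine ⟨fun _ => ⊤, f ∅, fun _ => Rw_top hinf, hf ∅, hN.top, ?_⟩
    intro u hu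
    rw [Finset.card_eq_zero.1 hu]
    exact ⟨inf_le_right, inf_le_right⟩
  | succ n ih =>
    intro f hf
    choose Y' c' hY' hc' hU' hu' using fun α : Mo κ =>
      ih (fun u => f (insert α u)) (fun u => hf _)
    set c : A := U (fun α => c' α) with hcdef
    set Ys : Mo κ → A := fun α => (c' α ⊓ c) ⊔ ((c' α)ᶜ ⊓ cᶜ) with hYs
    set D : Mo κ → A := fun α => ⨅ β : Iio α, Y' β.1 α with hD
    have hcP : P c := hPU _ hc'
    have hYsP : ∀ α, P (Ys α) := fun α =>
      Rw_sup hc hinf (Rw_inf hinf (hc' α) hcP) (Rw_inf hinf (hc _ (hc' α)) (hc _ hcP))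
    have hDP : ∀ α, P (D α) := fun α => Rw_iInf hinf fun β => hY' β.1 α
    have hUYs : U Ys = ⊤ := by
      have h1 : c ≤ U Ys := by
        have := hU.rel c (fun α => c' α) Ys (fun α => by
          simp only [hYs]
          rw [inf_comm]
          exact le_sup_left)
        rwa [← hcdef, inf_idem] at this
      have h2 : cᶜ ≤ U Ys := by
        have := hU.rel cᶜ (fun α => (c' α)ᶜ) Ys (fun α => by
          simp only [hYs]
          rw [inf_comm]
          exact le_sup_right)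
        rwa [hN.compl, ← hcdef, inf_idem] at this
      rw [eq_top_iff, ← sup_compl_eq_top (x := c)]
      exact sup_le h1 h2
    have hUD : U D = ⊤ := by
      rw [eq_top_iff]
      refine le_trans ?_ (hN.normal Y')
      simp only [hU', iInf_top, le_refl]
    refine ⟨fun α => Ys α ⊓ D α, c, fun α => Rw_inf hinf (hYsP α) (hDP α), hcP, ?_, ?_⟩
    · rw [hU.inf_eq, hUYs, hUD, inf_top_eq]
    · intro u hu
      have hne : u.Nonempty := by
        rw [← Finset.card_pos, hu]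
        exact Nat.succ_pos n
      set α : Mo κ := u.min' hne with hα
      have hαu : α ∈ u := u.min'_mem hne
      have hcard : (u.erase α).card = n := by
        rw [Finset.card_erase_of_mem hαu, hu, Nat.add_sub_cancel]
      obtain ⟨g1, g2⟩ := hu' α (u.erase α) hcard
      rw [Finset.insert_erase hαu] at g1 g2
      have k1 : (⨅ β ∈ u, (Ys β ⊓ D β)) ≤ Ys α := (iInf₂_le α hαu).trans inf_le_left
      have k2 : (⨅ β ∈ u, (Ys β ⊓ D β)) ≤ ⨅ β ∈ u.erase α, Y' α β := by
        refine le_iInf₂ fun β hβ => ?_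
        have hβu : β ∈ u := Finset.mem_of_mem_erase hβ
        have hlt : α < β := lt_of_le_of_ne (u.min'_le β hβu) (Finset.ne_of_mem_erase hβ).symm
        refine (iInf₂_le β hβu).trans (inf_le_right.trans ?_)
        exact iInf_le (fun γ : Iio β => Y' γ.1 β) ⟨α, hlt⟩
      constructor
      · have h1 : (⨅ β ∈ u, (Ys β ⊓ D β)) ⊓ f u ≤ c' α :=
          (inf_le_inf_right _ k2).trans g1
        exact (le_inf (inf_le_left.trans k1) h1).trans (Rw_star (c' α) c).1
      · have h1 : (⨅ β ∈ u, (Ys β ⊓ D β)) ⊓ c ≤ c' α :=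
          (inf_le_inf_right _ k1).trans (Rw_star (c' α) c).2
        exact (le_inf (inf_le_left.trans k2) h1).trans g2

/-- item Rw -/
theorem sp_Rw (hUF : StUF) : StRw := by
  intro κ A _ U hκ hN P hc hinf hPU f hf
  have hU := hUF κ A U hκ hN
  choose Y c hY hcP hUY hu using fun n : ℕ => Rw_step hN hU hc hinf hPU n f hf
  refine ⟨fun α => ⨅ n, Y n α, c, fun α => Rw_iInf hinf fun n => hY n α, hcP, ?_, ?_⟩
  · rw [eq_top_iff]
    have h1 : #ℕ < κ := by
      rw [Cardinal.mk_nat]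
      exact hκ
    refine le_trans ?_ (hU.iInf ℕ h1 Y)
    simp only [hUY, iInf_top, le_refl]
  · intro u
    obtain ⟨g1, g2⟩ := hu u.card u rfl
    have k : (⨅ α ∈ u, ⨅ n, Y n α) ≤ ⨅ α ∈ u, Y u.card α :=
      le_iInf₂ fun α hα => (iInf₂_le α hα).trans (iInf_le _ u.card)
    exact ⟨(inf_le_inf_right _ k).trans g1, (inf_le_inf_right _ k).trans g2⟩

end Pool.MP_d2308b.SP
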