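import Pool.Agent.Work.MP_d2308b_lc.SP.Stmts2

/-!
# [d2308b SP] item SA (helper99)
-/

namespace Pool.MP_d2308b.SP

open Cardinal Set

lemma SA_iInf {A : Type*} [CompleteBooleanAlgebra A] {P : A → Prop}
    (hP : ∀ S : Set A, (∀ x ∈ S, P x) → P (sInf S)) {I : Sort*} (f : I → A)
    (hf : ∀ i, P (f i)) : P (⨅ i, f i) :=
  hP _ (by rintro x ⟨i, rfl⟩; exact hf i)

lemma SA_inf {A : Type*} [CompleteBooleanAlgebra A] {P : A → Prop}
    (hP : ∀ S : Set A, (∀ x ∈ S, P x) → P (sInf S)) {x y : A} (hx : P x) (hy : P y) :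
    P (x ⊓ y) := by
  rw [← sInf_pair]
  refine hP _ ?_
  rintro z (rfl | rfl)
  · exact hx
  · exact hy

lemma SA_cancel {B : Type*} [CompleteBooleanAlgebra B] {y x z : B} (h1 : y ≤ xᶜ ⊔ z)
    (h2 : y ≤ x) : y ≤ z := by
  have h3 : y ≤ x ⊓ (xᶜ ⊔ z) := le_inf h2 h1
  rw [inf_sup_left, inf_compl_self, bot_sup_eq] at h3
  exact h3.trans inf_le_right

lemma SA_ZF {κ : Cardinal.{0}} {A T Λ : Type} [CompleteBooleanAlgebra A]
    (ρ : Λ → Lb κ A T) (g b : Λ) (i : Mo κ) (F F' : Finset (Λ × Mo κ))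
    (hF : ∀ x, x ∈ F' ↔ x = (b, i) ∨ x ∈ F) :
    ZF ρ g F' = fun α => ZF ρ g F α ⊓ ((ρ b).2 i).1.2.2 α := by
  funext α
  unfold ZF
  apply le_antisymm
  · refine le_inf (le_inf inf_le_left (inf_le_right.trans ?_)) (inf_le_right.trans ?_)
    · exact le_iInf fun x => le_iInf fun hx =>
        iInf_le_of_le x (iInf_le_of_le ((hF x).2 (Or.inr hx)) le_rfl)
    · exact iInf_le_of_le (b, i) (iInf_le_of_le ((hF _).2 (Or.inl rfl)) le_rfl)
  · refine le_inf (inf_le_left.trans inf_le_left) ?_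
    refine le_iInf fun x => le_iInf fun hx => ?_
    rcases (hF x).1 hx with h1 | h1
    · rw [h1]
      exact inf_le_right
    · exact (inf_le_left.trans inf_le_right).trans (iInf_le_of_le x (iInf_le_of_le h1 le_rfl))

theorem sp_SA (hLq : StLq) : StSA := by
  intro κ A B T Λ _ _ _ ι h π R P hP ρ a g b hL hg hb r u F y hy hyv hLg hyg
  have h1 : y ≤ ⨆ i, cmp ι h π (r, u, ZF ρ g F) ((ρ b).2 i).1 := by
    have h2 : rval ι h π R P ρ a ≤ (gd ι h π (r, u, ZF ρ g F))ᶜ ⊔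
        ⨆ i, cmp ι h π (r, u, ZF ρ g F) ((ρ b).2 i).1 := by
      unfold rval
      refine (inf_le_left.trans inf_le_right).trans ?_
      exact iInf_le_of_le g (iInf_le_of_le b (iInf_le_of_le ⟨hg, hb⟩ (iInf_le_of_le r
        (iInf_le_of_le u (iInf_le_of_le F (iInf_le_of_le hLg le_rfl))))))
    exact SA_cancel (hyv.trans h2) hyg
  obtain ⟨i, y1, hy1, hy1y, h4⟩ := ex_sup hy h1
  unfold cmp at h4
  obtain ⟨u', y2, hy2, hy2y, h5⟩ := ex_sup hy1 h4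
  obtain ⟨he1, y3, hy3, hy3y, h6⟩ := ex_sup hy2 h5
  obtain ⟨he2, y4, hy4, hy4y, h7⟩ := ex_sup hy3 h6
  have le := hLq κ A
  have hml := le.mg_left (r, u, ZF ρ g F) ((ρ b).2 i).1 u' he1 he2
  have hmr := le.mg_right (r, u, ZF ρ g F) ((ρ b).2 i).1 u' he1 he2
  refine ⟨i, (mg (r, u, ZF ρ g F) ((ρ b).2 i).1 u').1, u', y4, hy4,
    hy4y.trans (hy3y.trans (hy2y.trans hy1y)), ?_⟩
  intro F' hF'
  have hm : ((mg (r, u, ZF ρ g F) ((ρ b).2 i).1 u').1, u', ZF ρ g F') =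
      mg (r, u, ZF ρ g F) ((ρ b).2 i).1 u' := by
    rw [SA_ZF ρ g b i F F' hF']
    rfl
  have hZP : ∀ α, P (ZF ρ g F α) := fun α => by
    refine SA_inf hP ((hL g hg).1.2 α) ?_
    exact SA_iInf hP _ fun x => SA_iInf hP _ fun hx =>
      ((hL x.1 (hLg.1.2.2 x hx).1).2 x.2).2 α
  have hPr : P (mg (r, u, ZF ρ g F) ((ρ b).2 i).1 u').1 := by
    refine SA_inf hP (SA_inf hP (SA_inf hP hLg.1.1 ((hL b hb).2 i).1) ?_) ?_
    · exact SA_iInf hP _ fun α => SA_iInf hP _ fun _ => hZP α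
    · exact SA_iInf hP _ fun α => SA_iInf hP _ fun _ => ((hL b hb).2 i).2 α
  refine ⟨⟨⟨hPr, hml.1.trans hLg.1.2.1, ?_⟩, ?_⟩, ?_, ?_, ?_⟩
  · intro x hx
    rcases (hF' x).1 hx with h8 | h8
    · rw [h8]
      exact ⟨hb, hmr.1⟩
    · exact ⟨(hLg.1.2.2 x h8).1, hml.1.trans (hLg.1.2.2 x h8).2⟩
  · rw [hm]
    exact le.trans _ _ _ hml hLg.2
  · rw [hm]
    exact hml
  · rw [hm]
    exact hmr
  · rw [hm]
    exact h7

end Pool.MP_d2308b.SP
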