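import Pool.Agent.Work.MP_d2308b_lc.SP.Stmts2

/-!
# Block [d2308b SP], item SC: the number of label sequences
-/

namespace Pool.MP_d2308b.SP

open Cardinal Set

/-- [SC] The number of label sequences. -/
theorem sp_SC (hSq : StSq) : StSC := by
  intro κ L _ hκ hL
  have hS : Sqs (La κ) L := hSq (La κ) L
  have h0 : ℵ₀ ≤ κ := hκ.reg.aleph0_le
  have hl : ℵ₀ ≤ Order.succ κ := h0.trans (Order.le_succ κ)
  have hpow := powerlt_succ_self h0 hκ.cont
  apply le_antisymm
  · let F : Sq (La κ) L → Σ a : La κ, (Iio a → L) := fun q => ⟨q.lh, fun g => q.sq g.1⟩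
    have hF : Function.Injective F := by
      intro q q' h
      have h1 : q.lh = q'.lh := congrArg Sigma.fst h
      refine hS.ext q q' h1 fun g hg => ?_
      have h2 : ∀ (z z' : Σ a : La κ, (Iio a → L)), z = z' →
          ∀ (h1 : g < z.1) (h2 : g < z'.1), z.2 ⟨g, h1⟩ = z'.2 ⟨g, h2⟩ := by
        rintro z _ rfl h1 h2; rfl
      exact h2 _ _ h hg (lt_of_lt_of_eq hg h1 : g < q'.lh)
    exact (mk_le_of_injective hF).trans (card_seq hl hpow hL)
  · have h1 : Function.Injective (fun a : La κ => Sq.restr (fun _ => (default : L)) a) := by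
      intro a b h
      have h2 : (Sq.restr (fun _ => (default : L)) a).lh =
          (Sq.restr (fun _ => (default : L)) b).lh := congrArg Sq.lh h
      rwa [hS.restr_lh, hS.restr_lh] at h2
    have h3 := mk_le_of_injective h1
    rwa [mk_ord_toType] at h3

end Pool.MP_d2308b.SP
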