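import Pool.Agent.Work.MP_d2308b_lc.SP.Stmts

/-!
# Block [d2308b SP], item SM: small supports

Author: helper5.
-/

namespace Pool.MP_d2308b.SP

open Cardinal Set

theorem sp_SM (hMA : StMA) (hCA : StCA) : StSM := by
  intro κ J A _ g hc hco K x hx
  by_cases hx0 : x = ⊥
  · refine ⟨∅, Set.empty_subset _, ?_, ?_⟩
    · rw [Cardinal.mk_emptyCollection]
      exact zero_le
    · rw [hx0]
      exact supp_bot κ g ∅
  let I : Type := {p : J → Option Bool // #(dm p) < κ ∧ dm p ⊆ K ∧ bas g p ≤ x}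
  obtain ⟨p0, h1, h2, h3, h4⟩ := hx x hx0 le_rfl
  have hne : Nonempty I := ⟨⟨p0, h1, h2, h3⟩⟩
  have hsup : ⨆ p : I, bas g p.1 = x := by
    apply le_antisymm
    · exact iSup_le fun p => p.2.2.2
    · apply dense_le
      intro y hy hyx
      obtain ⟨p, a1, a2, a3, a4⟩ := hx y hy hyx
      exact ⟨bas g p ⊓ y, a4, inf_le_right,
        inf_le_left.trans (le_iSup (fun p : I => bas g p.1) ⟨p, a1, a2, a3⟩)⟩
  obtain ⟨e, he⟩ := hMA κ A hc.unc.le (hCA κ J A g hc hco) I (fun p => bas g p.1)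
  rw [hsup] at he
  refine ⟨⋃ i, dm (e i).1, iUnion_subset fun i => (e i).2.2.1, ?_, ?_⟩
  · refine (Cardinal.mk_iUnion_le _).trans ?_
    have e1 : #(Mo κ) = κ := mk_ord_toType κ
    have e2 : ⨆ i, #(dm (e i).1) ≤ κ := ciSup_le' fun i => (e i).2.1.le
    calc #(Mo κ) * ⨆ i, #(dm (e i).1) ≤ κ * κ := mul_le_mul' e1.le e2
      _ = κ := mul_eq_self hc.unc.le
  · intro y hy hyx
    rw [← he] at hyx
    obtain ⟨i, q, hq, hqy, hqi⟩ := ex_sup hy hyx
    refine ⟨(e i).1, (e i).2.1, ?_, (e i).2.2.2, ?_⟩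
    · exact subset_iUnion (fun i => dm (e i).1) i
    · exact ne_bot_of_le (le_inf hqi hqy) hq

end Pool.MP_d2308b.SP
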