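import Pool.Agent.Work.MP_d2308b_lc.SP.Stmts

/-!
# Block [d2308b SP], item SU: the subalgebras of the coordinates in `K`
-/

namespace Pool.MP_d2308b.SP

open Cardinal Set

section
variable {κ : Cardinal.{0}} {J A : Type} [CompleteBooleanAlgebra A] {g : J → A}

theorem SU_univ (hC : Cohen κ g) (x : A) : Supp κ g Set.univ x := by
  intro y hy hyx
  obtain ⟨p, hp, hpy⟩ := hC.dense y hy
  refine ⟨p, hp, Set.subset_univ _, hpy.trans hyx, ?_⟩
  rw [inf_eq_left.mpr hpy]
  exact hC.ne p hp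

theorem SU_mono {K K' : Set J} {x : A} (hK : K ⊆ K') (h : Supp κ g K x) : Supp κ g K' x := by
  intro y hy hyx
  obtain ⟨p, h1, h2, h3, h4⟩ := h y hy hyx
  exact ⟨p, h1, h2.trans hK, h3, h4⟩

theorem SU_sSup {K : Set J} {S : Set A} (h : ∀ x ∈ S, Supp κ g K x) :
    Supp κ g K (sSup S) := by
  intro y hy hyx
  have hex : ∃ x ∈ S, y ⊓ x ≠ ⊥ := by
    by_contra hc
    push Not at hc
    apply hy
    have h1 : y ⊓ sSup S = ⊥ := by
      rw [inf_sSup_eq]
      refine le_bot_iff.mp (iSup₂_le fun x hx => ?_)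
      rw [hc x hx]
    rwa [inf_eq_left.mpr hyx] at h1
  obtain ⟨x, hx, hne⟩ := hex
  obtain ⟨p, h1, h2, h3, h4⟩ := h x hx (y ⊓ x) hne inf_le_right
  refine ⟨p, h1, h2, h3.trans (le_sSup hx), fun h5 => h4 ?_⟩
  refine le_bot_iff.mp ((inf_le_inf_left _ inf_le_left).trans (le_of_eq h5))

theorem SU_compl (hPF : PFs κ g) (hC : Cohen κ g) {K : Set J} {x : A} (h : Supp κ g K x) :
    Supp κ g K xᶜ := by
  intro y hy hyx
  obtain ⟨p, hp, hpy⟩ := hC.dense y hy
  have hle : bas g (rs K p) ≤ xᶜ := by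
    by_contra hc
    have hne : bas g (rs K p) ⊓ x ≠ ⊥ := by
      intro h0
      exact hc (le_compl_iff_disjoint_right.mpr (disjoint_iff.mpr h0))
    obtain ⟨p', h1, h2, h3, h4⟩ := h _ hne inf_le_right
    have hcpt : Cpt p' (rs K p) := by
      by_contra hn
      apply h4
      rw [← inf_assoc, hPF.disj _ _ hn, bot_inf_eq]
    have hcpt' : Cpt p' p := hPF.cpt_rs K p' p h2 hcpt
    have h5 := hC.ne (jn p' p) (hPF.jn_small _ _ h1 hp)
    apply h5
    rw [hPF.jn_bas _ _ hcpt']
    refine le_bot_iff.mp ?_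
    calc bas g p' ⊓ bas g p ≤ x ⊓ xᶜ := inf_le_inf h3 (hpy.trans hyx)
      _ = ⊥ := inf_compl_self x
      _ ≤ ⊥ := le_rfl
  refine ⟨rs K p, hPF.rs_small K p hp, hPF.rs_dm K p, hle, fun h0 => hC.ne p hp ?_⟩
  refine le_bot_iff.mp ?_
  rw [← h0]
  exact le_inf (hPF.bas_rs K p) hpy

theorem SU_sInf (hPF : PFs κ g) (hC : Cohen κ g) {K : Set J} {S : Set A}
    (h : ∀ x ∈ S, Supp κ g K x) : Supp κ g K (sInf S) := by
  have h1 : sInf S = (sSup (compl '' S))ᶜ := by
    rw [sSup_image]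
    simp only [compl_iSup, compl_compl, sInf_eq_iInf]
  rw [h1]
  refine SU_compl hPF hC (SU_sSup ?_)
  rintro _ ⟨x, hx, rfl⟩
  exact SU_compl hPF hC (h x hx)

end

theorem sp_SU (hPF : StPF) : StSU := by
  intro κ J A _ g hκ hC
  have hP := hPF κ J A g hκ hC
  have hinf : ∀ (K : Set J) (x y : A), Supp κ g K x → Supp κ g K y → Supp κ g K (x ⊓ y) := by
    intro K x y hx hy
    rw [← sInf_pair]
    refine SU_sInf hP hC ?_
    rintro z (rfl | rfl)
    · exact hx
    · exact hy
  have hsup : ∀ (K : Set J) (x y : A), Supp κ g K x → Supp κ g K y → Supp κ g K (x ⊔ y) := by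
    intro K x y hx hy
    rw [← sSup_pair]
    refine SU_sSup ?_
    rintro z (rfl | rfl)
    · exact hx
    · exact hy
  have hbi : ∀ (K : Set J) (I : Type) (p : I → Prop) (f : I → A),
      (∀ i, p i → Supp κ g K (f i)) → Supp κ g K (⨅ i, ⨅ (_ : p i), f i) := by
    intro K I p f h
    have h1 : (⨅ i, ⨅ (_ : p i), f i) = sInf (f '' {i | p i}) := by
      rw [sInf_image]
      rfl
    rw [h1]
    refine SU_sInf hP hC ?_
    rintro _ ⟨i, hi, rfl⟩
    exact h i hi
  refine
    { basic := ?_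
      univ := SU_univ hC
      mono := fun K K' x hK h => SU_mono hK h
      top := ?_
      compl := fun K x h => SU_compl hP hC h
      sSup := fun K S h => SU_sSup h
      sInf := fun K S h => SU_sInf hP hC h
      inf := hinf
      sup := hsup
      biInf := hbi
      iSup := ?_ }
  · intro K p hp hd y hy hyx
    refine ⟨p, hp, hd, le_rfl, ?_⟩
    rw [inf_eq_right.mpr hyx]
    exact hy
  · intro K y hy _
    have hd : dm (fun _ : J => (none : Option Bool)) = ∅ := by
      ext x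
      simp [dm]
    refine ⟨fun _ => none, ?_, ?_, le_top, ?_⟩
    · rw [hd, Cardinal.mk_eq_zero]
      exact lt_of_lt_of_le Cardinal.aleph0_pos hκ
    · rw [hd]
      exact Set.empty_subset _
    · have hb : bas g (fun _ : J => (none : Option Bool)) = ⊤ := by
        unfold bas
        refine top_le_iff.mp (le_iInf fun x => le_iInf fun b => le_iInf fun hb => ?_)
        exact absurd hb (by simp)
      rw [hb, top_inf_eq]
      exact hy
  · intro K I f h
    refine SU_sSup ?_
    rintro _ ⟨i, rfl⟩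
    exact h i

end Pool.MP_d2308b.SP
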