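import Pool.Agent.Work.MP_d2308b_lc.SP.Stmts2

/-!
# Block [d2308b SP], item Sp: sparse subsequences
-/

namespace Pool.MP_d2308b.SP

open Cardinal Set

theorem Sp_finset {κ : Cardinal.{0}} (hκ : ℵ₀ ≤ κ) : #(Finset (Mo κ)) < Order.succ κ := by
  have h1 : #(Mo κ) = κ := mk_ord_toType κ
  have h2 : Infinite (Mo κ) := by
    rw [Cardinal.infinite_iff, h1]
    exact hκ
  rw [Cardinal.mk_finset_of_infinite, h1]
  exact Order.lt_succ κ

theorem Sp_unbounded {κ : Cardinal.{0}} (hκ : ℵ₀ ≤ κ) (s : La κ → Finset (Mo κ)) :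
    ∃ s₀ : Finset (Mo κ), ∀ a : La κ, ∃ b, a < b ∧ s b = s₀ := by
  by_contra hc
  push Not at hc
  choose β hβ using hc
  obtain ⟨b, hb⟩ := (regOrd_toType (isRegular_succ hκ)).bdd_range β (Sp_finset hκ)
  exact hβ (s b) b (hb (s b)) rfl

theorem sp_Sp : StSp := by
  intro κ hκ s c
  have hΛ := regOrd_toType (isRegular_succ hκ)
  obtain ⟨s₀, hs₀⟩ := Sp_unbounded hκ s
  have hstep : ∀ (ξ : La κ) (ih : ∀ η, η < ξ → La κ), ∃ b : La κ, s b = s₀ ∧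
      ∀ η (hη : η < ξ), ih η hη < b ∧ c (ih η hη) < b := by
    intro ξ ih
    have hcard : #(Iio ξ) < Order.succ κ := hΛ.init ξ
    obtain ⟨b₁, h₁⟩ := hΛ.bdd_range (fun η : Iio ξ => ih η.1 η.2) hcard
    obtain ⟨b₂, h₂⟩ := hΛ.bdd_range (fun η : Iio ξ => c (ih η.1 η.2)) hcard
    obtain ⟨b, hb, hsb⟩ := hs₀ (max b₁ b₂)
    exact ⟨b, hsb, fun η hη => ⟨(h₁ ⟨η, hη⟩).trans (lt_of_le_of_lt (le_max_left _ _) hb),
      (h₂ ⟨η, hη⟩).trans (lt_of_le_of_lt (le_max_right _ _) hb)⟩⟩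
  choose nx hnx0 hnx using hstep
  let e : La κ → La κ := WellFounded.fix (r := (· < ·)) wellFounded_lt nx
  have he : ∀ ξ, e ξ = nx ξ (fun η _ => e η) := fun ξ => WellFounded.fix_eq _ _ _
  refine ⟨e, s₀, fun ξ => ?_, fun ξ ξ' h => ?_⟩
  · rw [he ξ]
    exact hnx0 ξ _
  · rw [he ξ']
    exact hnx ξ' (fun η _ => e η) ξ h

end Pool.MP_d2308b.SP
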