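import Pool.Agent.Work.MP_d2308b_lc.SP.Stmts2

namespace Pool.MP_d2308b.SP

variable {Λ L : Type} [LinearOrder Λ] [Inhabited L]

theorem sp_Sq_ext {q q' : Sq Λ L} (h1 : q.lh = q'.lh) (h2 : ∀ g, g < q.lh → q.sq g = q'.sq g) :
    q = q' := by
  apply Subtype.ext
  apply Prod.ext
  · exact h1
  · funext g
    by_cases hg : g < q.lh
    · exact h2 g hg
    · rw [q.2 g hg, q'.2 g (by intro h; exact hg (by rw [h1]; exact h))]

theorem sp_Sq_conn {q r t : Sq Λ L} (h1 : q.sub t) (h2 : r.sub t) : q.sub r ∨ q = r ∨ r.sub q := by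
  have key : ∀ q r : Sq Λ L, q.sub t → r.sub t → q.lh < r.lh → q.sub r := fun q r h1 h2 h3 =>
    ⟨h3, fun g hg => (h1.2 g hg).trans (h2.2 g (hg.trans h3)).symm⟩
  rcases lt_trichotomy q.lh r.lh with h | h | h
  · exact Or.inl (key q r h1 h2 h)
  · exact Or.inr (Or.inl (sp_Sq_ext h fun g hg => (h1.2 g hg).trans (h2.2 g (h ▸ hg)).symm))
  · exact Or.inr (Or.inr (key r q h2 h1 h))

theorem sp_Sq_restr (s : Λ → L) {a g : Λ} (hg : g < a) : (Sq.restr s a).sq g = s g := by
  unfold Sq.sq Sq.restr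
  simp only [if_pos hg]

theorem sp_Sq_rec [WellFoundedLT Λ] (A : Sq Λ L → L) :
    ∃ s : Λ → L, ∀ g, s g = A (Sq.restr s g) := by
  classical
  let F : ∀ g : Λ, (∀ h, h < g → L) → L := fun g ih =>
    A ⟨(g, fun h => if hh : h < g then ih h hh else default),
      fun h hh => by
        have hh' : ¬ h < g := hh
        simp only [dif_neg hh']⟩
  refine ⟨WellFounded.fix (r := (· < ·)) wellFounded_lt F, fun g => ?_⟩
  rw [WellFounded.fix_eq]
  refine congrArg A (sp_Sq_ext rfl ?_)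
  intro h hh
  change h < g at hh
  rw [sp_Sq_restr _ hh]
  unfold Sq.sq
  simp only [dif_pos hh]

theorem sp_Sq : StSq := by
  intro Λ L _ _ _
  exact
    { ext := fun q q' h1 h2 => sp_Sq_ext h1 h2
      trans := fun q r t h1 h2 =>
        ⟨h1.1.trans h2.1, fun g hg => (h1.2 g hg).trans (h2.2 g (hg.trans h1.1))⟩
      conn := fun q r t h1 h2 => sp_Sq_conn h1 h2
      restr_lh := fun s a => rfl
      restr_sq := fun s a g hg => sp_Sq_restr s hg
      restr_sub := fun s a b h => ⟨h, fun g hg => by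
        have hg' : g < a := hg
        rw [sp_Sq_restr s hg', sp_Sq_restr s (hg'.trans h)]⟩
      rcs := fun Φ => sp_Sq_rec Φ }

end Pool.MP_d2308b.SP
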