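import Pool.Agent.Work.MP_d2308b_lc.SP.Stmts

/-!
# Block [d2308b SP], item TA: a set of coordinates into which all others can be moved
-/

set_option autoImplicit false

namespace Pool.MP_d2308b.SP

open Cardinal Set

theorem sp_TA : StTA := by
  classical
  intro κ J hκ K hK
  have hinf : ℵ₀ ≤ Order.succ κ := hκ.trans (Order.le_succ κ)
  by_cases hc : #(Kᶜ : Set J) ≤ Order.succ κ
  · have hJ : #J ≤ Order.succ κ := by
      rw [← mk_sum_compl K]
      exact (add_le_add hK hc).trans (add_eq_self hinf).le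
    refine ⟨Set.univ, Set.subset_univ K, ?_, ?_⟩
    · rw [mk_univ]
      exact hJ
    · intro K' _ _
      exact ⟨Equiv.refl J, fun x _ => rfl, fun x _ => Set.mem_univ _⟩
  · rw [not_le] at hc
    obtain ⟨N, hN, hNc⟩ := le_mk_iff_exists_subset.1 hc.le
    refine ⟨K ∪ N, Set.subset_union_left, ?_, ?_⟩
    · exact (mk_union_le K N).trans ((add_le_add hK hNc.le).trans (add_eq_self hinf).le)
    · intro K' _ hK'
      obtain ⟨s, hmem⟩ : ∃ s : Set (↥(Kᶜ : Set J)), ∀ x, x ∈ s ↔ (x : J) ∈ K' :=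
        ⟨{x | (x : J) ∈ K'}, fun x => Iff.rfl⟩
      have h1 : #s ≤ #K' := by
        refine mk_le_of_injective (f := fun x : s => (⟨x.1.1, (hmem x.1).1 x.2⟩ : K')) ?_
        intro x y hxy
        have h2 : x.1.1 = y.1.1 := congrArg (fun z : K' => (z : J)) hxy
        exact Subtype.ext (Subtype.ext h2)
      have h2 : #s ≤ #N := by
        rw [hNc]
        exact h1.trans hK'
      obtain ⟨f0⟩ : Nonempty (s ↪ N) := h2
      obtain ⟨f, hf⟩ : ∃ f : s ↪ (Kᶜ : Set J), ∀ x, ((f x : (Kᶜ : Set J)) : J) ∈ N :=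
        ⟨f0.trans ⟨fun x => ⟨x.1, hN x.2⟩, fun x y hxy =>
          Subtype.ext (congrArg (fun z : (Kᶜ : Set J) => (z : J)) hxy)⟩, fun x => (f0 x).2⟩
      have h3 : #s < #(Kᶜ : Set J) := (h1.trans hK').trans_lt hc
      obtain ⟨g, hg⟩ := extend_function_of_lt f h3 ⟨Equiv.refl _⟩
      refine ⟨Equiv.Perm.ofSubtype (p := fun x : J => x ∈ Kᶜ) g, ?_, ?_⟩
      · intro x hx
        exact Equiv.Perm.ofSubtype_apply_of_not_mem _ (fun h : x ∈ Kᶜ => h hx)
      · intro x hx
        by_cases hxK : x ∈ K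
        · rw [Equiv.Perm.ofSubtype_apply_of_not_mem _ (fun h : x ∈ Kᶜ => h hxK)]
          exact Or.inl hxK
        · have hxK' : x ∈ Kᶜ := hxK
          rw [Equiv.Perm.ofSubtype_apply_of_mem _ hxK']
          have h4 := hg ⟨⟨x, hxK'⟩, (hmem _).2 hx⟩
          have h5 := hf ⟨⟨x, hxK'⟩, (hmem _).2 hx⟩
          rw [← h4] at h5
          exact Or.inr h5

end Pool.MP_d2308b.SP
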