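import Pool.Agent.Work.MP_d2308b_lc.SP.Stmts2

/-!
# Block [d2308b SP], item TF: transfer to a longer sequence
-/

set_option autoImplicit false

namespace Pool.MP_d2308b.SP

open Cardinal Set

theorem TF_ZF {κ : Cardinal.{0}} {A T Λ : Type} [CompleteBooleanAlgebra A] [LinearOrder Λ]
    (ρ ρ' : Λ → Lb κ A T) (a g : Λ) (F : Finset (Λ × Mo κ)) (h : ∀ b, b < a → ρ b = ρ' b)
    (hg : g < a) (hF : ∀ x ∈ F, x.1 < a) : ZF ρ g F = ZF ρ' g F := by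
  funext α
  unfold ZF
  rw [h g hg]
  refine congrArg (fun z => (ρ' g).1.2.2 α ⊓ z) ?_
  refine iInf_congr fun x => iInf_congr fun hx => ?_
  rw [h x.1 (hF x hx)]

theorem sp_TF : StTF := by
  intro κ A T Λ L _ _ _ raw P σ σ' hs
  obtain ⟨hl, hsq⟩ := hs
  have hρ : ∀ b, b < σ.lh → rho raw σ b = rho raw σ' b := by
    intro b hb
    unfold rho
    rw [hsq b hb]
  refine ⟨hρ, ?_⟩
  intro g r u F hg hL
  obtain ⟨h1, h2, h3⟩ := hL
  have hZ := TF_ZF (rho raw σ) (rho raw σ') σ.lh g F hρ hg (fun x hx => (h3 x hx).1)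
  have hL' : Lt P (rho raw σ') g σ'.lh r F := by
    refine ⟨h1, ?_, fun x hx => ⟨(h3 x hx).1.trans hl, ?_⟩⟩
    · rw [← hρ g hg]
      exact h2
    · rw [← hρ x.1 (h3 x hx).1]
      exact (h3 x hx).2
  refine ⟨hZ, hL', ?_⟩
  intro hLg
  refine ⟨hL', ?_⟩
  rw [← hZ, ← hρ g hg]
  exact hLg.2

end Pool.MP_d2308b.SP
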