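import Pool.Agent.Work.MP_d2308b_lc.SP.Stmts2

/-!
# Block [d2308b SP]: item Tw (two states with incomparable elements in the chain)
-/

namespace Pool.MP_d2308b.SP

open Cardinal Set

/-- the tuples which put the element `x` of `T` into the chain at `b` -/
structure TwOk {κ : Cardinal.{0}} {A T L : Type} [CompleteBooleanAlgebra A] [Inhabited L]
    (P : A → Prop) (raw : L → Lb κ A T) (g : La κ) (σ : Sq (La κ) L) (r : A)
    (u : Finset (Mo κ)) (F : Finset (La κ × Mo κ)) (b : La κ) (x : T)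
    (σ' : Sq (La κ) L) (r' : A) (u' : Finset (Mo κ)) (F' : Finset (La κ × Mo κ)) (i : Mo κ) :
    Prop where
  hsub : σ = σ' ∨ σ.sub σ'
  hb : b < σ'.lh
  lg : Lg P (rho raw σ') g σ'.lh r' u' F'
  le1 : Le (r', u', ZF (rho raw σ') g F') (r, u, ZF (rho raw σ) g F)
  le2 : Le (r', u', ZF (rho raw σ') g F') ((rho raw σ' b).2 i).1
  val : ((rho raw σ' b).2 i).2 = x

/-- the name for the chain -/
noncomputable def TwM {κ : Cardinal.{0}} {A B T L : Type} [CompleteBooleanAlgebra A]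
    [CompleteBooleanAlgebra B] [Inhabited L] (ι : A → B) (h : Finset (Mo κ) → B) (π : A → A)
    (P : A → Prop) (raw : L → Lb κ A T) (W : Sq (La κ) L → B) (g : La κ) (σ : Sq (La κ) L)
    (r : A) (u : Finset (Mo κ)) (F : Finset (La κ × Mo κ)) (y : B) (b : La κ) (x : T) : B :=
  ⨆ σ' : Sq (La κ) L, ⨆ r' : A, ⨆ u' : Finset (Mo κ), ⨆ F' : Finset (La κ × Mo κ), ⨆ i : Mo κ,
    ⨆ (_ : TwOk P raw g σ r u F b x σ' r' u' F' i),
      y ⊓ W σ' ⊓ gd ι h π (r', u', ZF (rho raw σ') g F')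

section

variable {κ : Cardinal.{0}} {A B T L : Type} [CompleteBooleanAlgebra A]
    [CompleteBooleanAlgebra B] [Inhabited L] {ι : A → B} {h : Finset (Mo κ) → B} {π : A → A}
    {P : A → Prop} {raw : L → Lb κ A T} {W : Sq (La κ) L → B} {g : La κ} {σ : Sq (La κ) L}
    {r : A} {u : Finset (Mo κ)} {F : Finset (La κ × Mo κ)} {y : B} {b : La κ} {x : T}

theorem Tw_intro {σ' : Sq (La κ) L} {r' : A} {u' : Finset (Mo κ)} {F' : Finset (La κ × Mo κ)}
    {i : Mo κ} {p : B} (hok : TwOk P raw g σ r u F b x σ' r' u' F' i) (h1 : p ≤ y)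
    (h2 : p ≤ W σ') (h3 : p ≤ gd ι h π (r', u', ZF (rho raw σ') g F')) :
    p ≤ TwM ι h π P raw W g σ r u F y b x :=
  le_iSup_of_le σ' (le_iSup_of_le r' (le_iSup_of_le u' (le_iSup_of_le F' (le_iSup_of_le i
    (le_iSup_of_le hok (le_inf (le_inf h1 h2) h3))))))

theorem Tw_sub_lh {σ σ' : Sq (La κ) L} (hs : σ = σ' ∨ σ.sub σ') : σ.lh ≤ σ'.lh := by
  rcases hs with hs | hs
  · rw [hs]
  · exact hs.1.le

theorem Tw_elim (hg : g < σ.lh) {p : B} (hp : p ≠ ⊥)
    (hle : p ≤ TwM ι h π P raw W g σ r u F y b x) :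
    ∃ (σ' : Sq (La κ) L) (r' : A) (u' : Finset (Mo κ)) (F' : Finset (La κ × Mo κ)) (i : Mo κ)
      (q : B), TwOk P raw g σ r u F b x σ' r' u' F' i ∧ q ≤ p ∧ q ≤ y ∧
        Stt ι h π P raw W g σ' r' u' F' q := by
  obtain ⟨σ', p1, hp1, hp1p, hle1⟩ := ex_sup hp hle
  obtain ⟨r', p2, hp2, hp2p, hle2⟩ := ex_sup hp1 hle1
  obtain ⟨u', p3, hp3, hp3p, hle3⟩ := ex_sup hp2 hle2
  obtain ⟨F', p4, hp4, hp4p, hle4⟩ := ex_sup hp3 hle3
  obtain ⟨i, p5, hp5, hp5p, hle5⟩ := ex_sup hp4 hle4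
  obtain ⟨hok, p6, hp6, hp6p, hle6⟩ := ex_sup hp5 hle5
  exact ⟨σ', r', u', F', i, p6, hok,
    hp6p.trans (hp5p.trans (hp4p.trans (hp3p.trans (hp2p.trans hp1p)))),
    hle6.trans (inf_le_left.trans inf_le_left), hp6, hle6.trans (inf_le_left.trans inf_le_right),
    hg.trans_le (Tw_sub_lh hok.hsub), hok.lg, hle6.trans inf_le_right⟩

theorem Tw_sub_trans {σ σ' σ'' : Sq (La κ) L} (hs : σ = σ' ∨ σ.sub σ') (hs' : σ'.sub σ'') :
    σ.sub σ'' := by
  rcases hs with hs | hs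
  · rw [hs]
    exact hs'
  · exact ⟨hs.1.trans hs'.1, fun e he => (hs.2 e he).trans (hs'.2 e (he.trans hs.1))⟩

/-- transfer of the tuples to a longer sequence -/
theorem Tw_move (hTF : StTF) {σ₁ σ₂ : Sq (La κ) L} {r' : A} {u' : Finset (Mo κ)}
    {F' : Finset (La κ × Mo κ)} {i : Mo κ} {q : B} (hs : σ₁.sub σ₂)
    (hok : TwOk P raw g σ r u F b x σ₁ r' u' F' i) (hst : Stt ι h π P raw W g σ₁ r' u' F' q)
    (hW : q ≤ W σ₂) :
    TwOk P raw g σ r u F b x σ₂ r' u' F' i ∧ Stt ι h π P raw W g σ₂ r' u' F' q := by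
  obtain ⟨hlab, htf⟩ := hTF κ A T (La κ) L raw P σ₁ σ₂ hs
  obtain ⟨hZ, -, hLg⟩ := htf g r' u' F' hst.hg hst.lg.1
  refine ⟨⟨Or.inr (Tw_sub_trans hok.hsub hs), hok.hb.trans hs.1, hLg hst.lg, ?_, ?_, ?_⟩,
    ⟨hst.ne, hW, hst.hg.trans hs.1, hLg hst.lg, ?_⟩⟩
  · rw [← hZ]
    exact hok.le1
  · rw [← hZ, ← hlab b hok.hb]
    exact hok.le2
  · rw [← hlab b hok.hb]
    exact hok.val
  · rw [← hZ]
    exact hst.gdl

theorem Tw_mono_stt {σ' : Sq (La κ) L} {r' : A} {u' : Finset (Mo κ)}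
    {F' : Finset (La κ × Mo κ)} {p q : B} (hst : Stt ι h π P raw W g σ' r' u' F' p)
    (hq : q ≠ ⊥) (hqp : q ≤ p) : Stt ι h π P raw W g σ' r' u' F' q :=
  ⟨hq, hqp.trans hst.leW, hst.hg, hst.lg, hqp.trans hst.gdl⟩

end

theorem sp_Tw (hLq : StLq) (hTF : StTF) (hEX : StEX) (hCh : StCh) : StTw := by
  classical
  intro κ A B T L _ _ _ ι h π R P raw v W hG hR hP hraw hWb g σ r u F y hS
  by_contra hcon
  have hLe := hLq κ A
  have hch : y ≤ incr R univ (minPart R (TwM ι h π P raw W g σ r u F y)) := by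
    refine hCh B T (La κ) R y (TwM ι h π P raw W g σ r u F y) hR.trans hR.wf ?_ ?_ ?_
    · -- (k1)
      intro b
      apply dense_le
      intro p hp hpy
      obtain ⟨σ', i, r', u', F', y', hsub, hb, hy'p, hst, -, -, hle1, hle2⟩ :=
        hEX κ A B T L ι h π R P raw v W hP hraw hWb g σ r u F p
          (Tw_mono_stt hS hp hpy) b
      refine ⟨y', hst.ne, hy'p, le_iSup_of_le ((rho raw σ' b).2 i).2 ?_⟩
      exact Tw_intro ⟨Or.inr hsub, hb, hst.lg, hle1, hle2, rfl⟩ (hy'p.trans hpy) hst.leW hst.gdl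
    · -- (k3)
      intro b c hbc x
      apply dense_le
      intro p hp hpM
      obtain ⟨σ', r', u', F', j, p1, hok, hp1p, hp1y, hst⟩ := Tw_elim hS.hg hp hpM
      obtain ⟨σ'', i, r'', u'', F'', p2, hsub, hb, hp2p1, hst2, -, -, hle1, hle2⟩ :=
        hEX κ A B T L ι h π R P raw v W hP hraw hWb g σ' r' u' F' p1 hst b
      obtain ⟨hlab, -⟩ := hTF κ A T (La κ) L raw P σ' σ'' hsub
      refine ⟨p2, hst2.ne, hp2p1.trans hp1p, le_iSup_of_le ((rho raw σ'' b).2 i).2 (le_inf ?_ ?_)⟩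
      · exact Tw_intro ⟨Or.inr (Tw_sub_trans hok.hsub hsub), hb, hst2.lg,
          hLe.trans _ _ _ hle1 hok.le1, hle2, rfl⟩ (hp2p1.trans hp1y) hst2.leW hst2.gdl
      · have hcc : c < σ''.lh := hok.hb.trans hsub.1
        have hlec : Le (r'', u'', ZF (rho raw σ'') g F'') ((rho raw σ'' c).2 j).1 := by
          rw [← hlab c hok.hb]
          exact hLe.trans _ _ _ hle1 hok.le2
        have hval : ((rho raw σ'' c).2 j).2 = x := by
          rw [← hlab c hok.hb]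
          exact hok.val
        have hcmp : p2 ≤ cmp ι h π ((rho raw σ'' b).2 i).1 ((rho raw σ'' c).2 j).1 := by
          refine le_iSup_of_le u'' (le_iSup_of_le hle2.2.1 (le_iSup_of_le hlec.2.1 ?_))
          exact hst2.gdl.trans (hG.mono _ _ (hLe.mg_glb _ _ _ hle2 hlec))
        have hrv : p2 ≤ (cmp ι h π ((rho raw σ'' b).2 i).1 ((rho raw σ'' c).2 j).1)ᶜ ⊔
            R ((rho raw σ'' b).2 i).2 ((rho raw σ'' c).2 j).2 :=
          (hst2.leW.trans (hWb.val σ'')).trans ((inf_le_left.trans (inf_le_left.trans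
            inf_le_right)).trans ((iInf_le _ b).trans ((iInf_le _ c).trans
              ((iInf_le _ ⟨hbc, hcc⟩).trans ((iInf_le _ i).trans (iInf_le _ j))))))
        rw [hval] at hrv
        have h5 : p2 ≤ cmp ι h π ((rho raw σ'' b).2 i).1 ((rho raw σ'' c).2 j).1 ⊓
            ((cmp ι h π ((rho raw σ'' b).2 i).1 ((rho raw σ'' c).2 j).1)ᶜ ⊔
              R ((rho raw σ'' b).2 i).2 x) := le_inf hcmp hrv
        rw [inf_sup_left, inf_compl_self, bot_sup_eq] at h5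
        exact h5.trans inf_le_right
    · -- (k4)
      intro b x x' hxx'
      apply dense_le
      intro p hp hpM
      by_cases hpR : p ⊓ (R x x' ⊔ R x' x) = ⊥
      · exfalso
        obtain ⟨σ₁, r₁, u₁, F₁, i₁, p1, hok1, hp1p, hp1y, hst1⟩ :=
          Tw_elim hS.hg hp (hpM.trans (inf_le_left.trans inf_le_right))
        obtain ⟨σ₂, r₂, u₂, F₂, i₂, p2, hok2, hp2p, hp2y, hst2⟩ :=
          Tw_elim hS.hg hst1.ne ((hp1p.trans hpM).trans inf_le_right)
        have hst1' := Tw_mono_stt hst1 hst2.ne hp2p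
        have hnb1 : ¬ IsBot σ₁.lh := fun hb => not_lt.2 (hb g) hst1.hg
        have hnb2 : ¬ IsBot σ₂.lh := fun hb => not_lt.2 (hb g) hst2.hg
        have hne : W σ₁ ⊓ W σ₂ ≠ ⊥ := ne_bot_of_le (le_inf hst1'.leW hst2.leW) hst2.ne
        -- a common sequence
        have hcommon : ∃ σ' : Sq (La κ) L,
            TwOk P raw g σ r u F b x σ' r₁ u₁ F₁ i₁ ∧ Stt ι h π P raw W g σ' r₁ u₁ F₁ p2 ∧
            TwOk P raw g σ r u F b x' σ' r₂ u₂ F₂ i₂ ∧ Stt ι h π P raw W g σ' r₂ u₂ F₂ p2 := by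
          rcases hWb.cmp σ₁ σ₂ hnb1 hnb2 hne with hs | hs | hs
          · obtain ⟨ha, hb⟩ := Tw_move hTF hs hok1 hst1' hst2.leW
            exact ⟨σ₂, ha, hb, hok2, hst2⟩
          · subst hs
            exact ⟨σ₁, hok1, hst1', hok2, hst2⟩
          · obtain ⟨ha, hb⟩ := Tw_move hTF hs hok2 hst2 hst1'.leW
            exact ⟨σ₁, hok1, hst1', ha, hb⟩
        obtain ⟨σ', ha1, hb1, ha2, hb2⟩ := hcommon
        have hp2p' : p2 ≤ p := hp2p.trans hp1p
        have hd1 : p2 ⊓ R x x' = ⊥ := le_bot_iff.1 (hpR ▸ inf_le_inf hp2p' le_sup_left)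
        have hd2 : p2 ⊓ R x' x = ⊥ := le_bot_iff.1 (hpR ▸ inf_le_inf hp2p' le_sup_right)
        refine hcon ⟨σ', b, p2, fun k => cond k i₂ i₁, fun k => cond k r₂ r₁,
          fun k => cond k u₂ u₁, fun k => cond k F₂ F₁, ha1.hsub, ha1.hb, hp2y, ?_, ?_, ?_, ?_,
          ?_, ?_⟩
        · intro k
          cases k
          · exact hb1
          · exact hb2
        · intro k
          cases k
          · exact ha1.le1
          · exact ha2.le1
        · intro k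
          cases k
          · exact ha1.le2
          · exact ha2.le2
        · show ((rho raw σ' b).2 i₁).2 ≠ ((rho raw σ' b).2 i₂).2
          rw [ha1.val, ha2.val]
          exact hxx'
        · show p2 ⊓ R ((rho raw σ' b).2 i₁).2 ((rho raw σ' b).2 i₂).2 = ⊥
          rw [ha1.val, ha2.val]
          exact hd1
        · show p2 ⊓ R ((rho raw σ' b).2 i₂).2 ((rho raw σ' b).2 i₁).2 = ⊥
          rw [ha1.val, ha2.val]
          exact hd2
      · exact ⟨p ⊓ (R x x' ⊔ R x' x), hpR, inf_le_left, inf_le_right⟩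
  rw [hR.no_branch] at hch
  exact hS.ne (le_bot_iff.1 hch)

end Pool.MP_d2308b.SP
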