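import Pool.Agent.Work.MP_d2308b_lc.SP.Stmts

/-!
# Block [d2308b SP], item UF (helper85): facts on the normal ultrafilter
-/

set_option autoImplicit false

namespace Pool.MP_d2308b.SP

open Cardinal Set

theorem UF_rel {κ : Cardinal.{0}} {A : Type} [CompleteBooleanAlgebra A] {U : (Mo κ → A) → A}
    (hN : Nor U) (a : A) (X Y : Mo κ → A) (h : ∀ α, a ⊓ X α ≤ Y α) : a ⊓ U X ≤ U Y := by
  have h1 : a ≤ ⨅ α, (X α)ᶜ ⊔ Y α := by
    refine le_iInf fun α => ?_
    rw [sup_comm, ← himp_eq, le_himp_iff]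
    exact h α
  have h2 := h1.trans (hN.sub X Y)
  rw [sup_comm, ← himp_eq, le_himp_iff] at h2
  exact h2

theorem UF_mono {κ : Cardinal.{0}} {A : Type} [CompleteBooleanAlgebra A] {U : (Mo κ → A) → A}
    (hN : Nor U) (X Y : Mo κ → A) (h : ∀ α, X α ≤ Y α) : U X ≤ U Y := by
  have := UF_rel hN ⊤ X Y (fun α => inf_le_right.trans (h α))
  rwa [top_inf_eq] at this

theorem UF_const_le {κ : Cardinal.{0}} {A : Type} [CompleteBooleanAlgebra A]
    {U : (Mo κ → A) → A} (hN : Nor U) (a : A) : a ≤ U (fun _ => a) := by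
  have := UF_rel hN a (fun _ => ⊤) (fun _ => a) (fun _ => inf_le_left)
  rwa [hN.top, inf_top_eq] at this

theorem UF_const {κ : Cardinal.{0}} {A : Type} [CompleteBooleanAlgebra A] {U : (Mo κ → A) → A}
    (hN : Nor U) (a : A) : U (fun _ => a) = a := by
  refine le_antisymm ?_ (UF_const_le hN a)
  have h := UF_const_le hN aᶜ
  have h2 : U (fun _ : Mo κ => aᶜ) = (U fun _ => a)ᶜ := hN.compl (fun _ => a)
  rw [h2] at h
  exact compl_le_compl_iff_le.1 h

theorem UF_inf_eq {κ : Cardinal.{0}} {A : Type} [CompleteBooleanAlgebra A]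
    {U : (Mo κ → A) → A} (hN : Nor U) (X Y : Mo κ → A) :
    U (fun α => X α ⊓ Y α) = U X ⊓ U Y :=
  le_antisymm (le_inf (UF_mono hN _ _ fun _ => inf_le_left) (UF_mono hN _ _ fun _ => inf_le_right))
    (hN.inf X Y)

theorem UF_tail {κ : Cardinal.{0}} {A : Type} [CompleteBooleanAlgebra A] {U : (Mo κ → A) → A}
    (hN : Nor U) (X Y : Mo κ → A) (b : Mo κ) (h : ∀ α, b < α → X α ≤ Y α) : U X ≤ U Y := by
  have h1 : U X ≤ U X ⊓ U (fun α => open Classical in if b < α then ⊤ else ⊥) := by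
    rw [hN.tail b, inf_top_eq]
  refine (h1.trans (hN.inf _ _)).trans (UF_mono hN _ _ fun α => ?_)
  by_cases hb : b < α
  · simp only [if_pos hb]
    exact inf_le_left.trans (h α hb)
  · simp only [if_neg hb]
    exact inf_le_right.trans bot_le

theorem UF_iInf {κ : Cardinal.{0}} {A : Type} [CompleteBooleanAlgebra A] {U : (Mo κ → A) → A}
    (hN : Nor U) (I : Type) (hI : #I < κ) (X : I → Mo κ → A) :
    (⨅ i, U (X i)) ≤ U (fun α => ⨅ i, X i α) := by
  classical
  obtain ⟨b, hb⟩ := exists_Iio (lam := κ) hI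
  obtain ⟨e⟩ := Cardinal.eq.1 hb
  let X' : Mo κ → Mo κ → A := fun β α => if h : β < b then X (e ⟨β, h⟩) α else ⊤
  have h1 : (⨅ i, U (X i)) ≤ ⨅ β, U (X' β) := by
    refine le_iInf fun β => ?_
    by_cases h : β < b
    · have h2 : X' β = X (e ⟨β, h⟩) := by
        funext α
        simp only [X', dif_pos h]
      rw [h2]
      exact iInf_le _ _
    · have h2 : X' β = fun _ => ⊤ := by
        funext α
        simp only [X', dif_neg h]
      rw [h2, hN.top]
      exact le_top
  refine (h1.trans (hN.normal X')).trans (UF_tail hN _ _ b fun α hα => ?_)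
  refine le_iInf fun i => ?_
  have hβ : (e.symm i).1 < b := (e.symm i).2
  refine (iInf_le (fun β : Iio α => X' β.1 α) ⟨(e.symm i).1, hβ.trans hα⟩).trans ?_
  simp only [X', dif_pos hβ]
  have h3 : e ⟨(e.symm i).1, hβ⟩ = i := e.apply_symm_apply i
  rw [h3]

theorem UF_above {κ : Cardinal.{0}} {A : Type} [CompleteBooleanAlgebra A] {U : (Mo κ → A) → A}
    (hN : Nor U) (s : Finset (Mo κ)) (X : Mo κ → A) :
    U X ≤ U (fun α => open Classical in if ∀ y ∈ s, y < α then X α else ⊥) := by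
  classical
  rcases s.eq_empty_or_nonempty with rfl | hs
  · refine UF_mono hN _ _ fun α => ?_
    have h : ∀ y ∈ (∅ : Finset (Mo κ)), y < α := fun y hy => absurd hy (Finset.notMem_empty y)
    simp only [if_pos h]
    exact le_rfl
  · refine UF_tail hN _ _ (s.max' hs) fun α hα => ?_
    have h : ∀ y ∈ s, y < α := fun y hy => (s.le_max' y hy).trans_lt hα
    simp only [if_pos h]
    exact le_rfl

theorem sp_UF : StUF := by
  intro κ A _ U _ hN
  exact ⟨UF_mono hN, UF_rel hN, UF_const hN, UF_inf_eq hN, UF_iInf hN, UF_above hN⟩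

end Pool.MP_d2308b.SP
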