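import Pool.Agent.Work.MP_d2308b_lc.SP.Stmts

/-!
# Block [d2308b SP]: statements, part 2 (the tree)

Captain: helper94.  Items `X` are the files `SP/I_X.lean`, `theorem sp_X (h : StY ..) : StX`.

The tree `S` consists of the label sequences (`Sq`) of length `< κ⁺`, with the valuation `vl`.
-/

namespace Pool.MP_d2308b.SP

open Cardinal Set

/-! ## D. Label sequences and the valuation -/

/-- Facts on label sequences. -/
structure Sqs (Λ L : Type) [LinearOrder Λ] [Inhabited L] : Prop where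
  ext : ∀ q q' : Sq Λ L, q.lh = q'.lh → (∀ g, g < q.lh → q.sq g = q'.sq g) → q = q'
  trans : ∀ q r t : Sq Λ L, q.sub r → r.sub t → q.sub t
  conn : ∀ q r t : Sq Λ L, q.sub t → r.sub t → q.sub r ∨ q = r ∨ r.sub q
  restr_lh : ∀ (s : Λ → L) a, (Sq.restr s a).lh = a
  restr_sq : ∀ (s : Λ → L) a g, g < a → (Sq.restr s a).sq g = s g
  restr_sub : ∀ (s : Λ → L) a b, a < b → (Sq.restr s a).sub (Sq.restr s b)
  rcs : ∀ Φ : Sq Λ L → L, ∃ s : Λ → L, ∀ g, s g = Φ (Sq.restr s g)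

/-- [Sq] PROOF.  Exactly as `Q.ext'`, `Q.sub_trans`, `Q.sub_conn`, `Q.restr_lh`, `Q.restr_sq`,
`Q.restr_sub`, `Q.exists_rec` in the file `Pool/Agent/Work/MP_d2308b_lc/Tree.lean` (with
`Small.emp` replaced by `default` and `Small T ρ` by `L`). -/
def StSq : Prop := ∀ (Λ L : Type) [LinearOrder Λ] [WellFoundedLT Λ] [Inhabited L], Sqs Λ L

/-- [GT] The order `RSv val` is a well-founded tree order with a root, for every antitone valuation.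
PROOF.  Exactly as `RS_lt`, `RS_trans`, `RS_conn`, `RS_wf`, `RS_root_top` in the file
`Pool/Agent/Work/MP_d2308b_lc/STree.lean`, with `mval R` replaced by `val` (`mval_anti` is the
hypothesis); irreflexivity: if `RSv val x x ≠ ⊥` then `x.lh < x.lh` (as `RS_lt`). -/
def StGT : Prop := ∀ (Λ L B : Type) [LinearOrder Λ] [WellFoundedLT Λ] [Nonempty Λ] [Inhabited L]
  [CompleteBooleanAlgebra B] (val : Sq Λ L → B), (∀ q q', q.sub q' → val q' ≤ val q) →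
  (∀ x, RSv val x x = ⊥) ∧
  (∀ x y z, RSv val x y ⊓ RSv val y z ≤ RSv val x z) ∧
  (∀ x y z, x ≠ y → RSv val x z ⊓ RSv val y z ≤ RSv val x y ⊔ RSv val y x) ∧
  (∀ S : Sq Λ L → B, ⨆ x, S x ≤ ⨆ x, (S x ⊓ ⨅ y, (S y ⊓ RSv val y x)ᶜ)) ∧
  (⨆ r, ⨅ x, ⨅ (_ : x ≠ r), RSv val r x = ⊤)

/-- [IB] The restrictions of a full label sequence form an increasing sequence.  PROOF.  As
`le_incr_RS` in STree.lean: `le_incr`; if `g < k` then `RSv val (restr s g) (restr s k) ≥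
val (restr s k)` ([Sq] restr_sub). -/
def StIB : Prop := ∀ (Λ L B : Type) [LinearOrder Λ] [WellFoundedLT Λ] [Inhabited L]
  [CompleteBooleanAlgebra B] (val : Sq Λ L → B) (s : Λ → L) (I : Set Λ) (φ : B),
  (∀ g ∈ I, φ ≤ val (Sq.restr s g)) →
  φ ≤ incr (RSv val) I (open Classical in fun g q => if q = Sq.restr s g then ⊤ else ⊥)

/-- [Br] BRANCH ANALYSIS.  PROOF.  `v := incr (RSv val) univ c`, `W σ := v ⊓ ⨆ g, c g σ`.  As the
facts `ctot, cfun, cinc, f4, f5` in the proof of `RS_no_branch` in STree.lean: (f4)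
`v ⊓ c h q ≠ ⊥` implies `h ≤ q.lh`; (f5) `v ⊓ c h q ≤ val q` (take `k > h`, `RSv val q q' ≤ val q' ≤
val q` if `q.lh` is not bottom; if it is, `val q = ⊤`).  So `W σ ≤ val σ`.  Comparability: if
`W σ ⊓ W τ ≠ ⊥` there are `g, h` and `p ≠ ⊥` with `p ≤ v`, `p ≤ c g σ`, `p ≤ c h τ`; `g < h`:
`p ≤ RSv val σ τ`, and `σ.lh` is not bottom, so `σ.sub τ`; `g = h`: `σ = τ` by `cfun`; `h < g`:
`τ.sub σ`.  Length: given `b` take `g > b`; `v ≤ ⨆ q, c g q`, and (f4) `g ≤ q.lh`. -/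
def StBr : Prop := ∀ (Λ L B : Type) [LinearOrder Λ] [WellFoundedLT Λ] [Inhabited L]
  [CompleteBooleanAlgebra B] (val : Sq Λ L → B), (∀ a : Λ, ∃ b, a < b) →
  (∀ q q', q.sub q' → val q' ≤ val q) → (∀ q, IsBot q.lh → val q = ⊤) →
  ∀ c : Λ → Sq Λ L → B, ∃ W : Sq Λ L → B,
    (∀ σ, W σ ≤ incr (RSv val) univ c) ∧ (∀ σ, W σ ≤ val σ) ∧
    (∀ σ τ, ¬ IsBot σ.lh → ¬ IsBot τ.lh → W σ ⊓ W τ ≠ ⊥ → σ.sub τ ∨ σ = τ ∨ τ.sub σ) ∧
    ∀ b, incr (RSv val) univ c ≤ ⨆ σ : {σ : Sq Λ L // b < σ.lh}, W σ.1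

/-- [SC] The number of label sequences.  PROOF.  As `card_Q` in Card.lean: `≤`: injection into
`Σ a : La κ, (Iio a → L)` and `card_seq` with `powerlt_succ_self` (`Crd.cont`); `≥`:
`a ↦ Sq.restr (fun _ => default) a` is injective ([Sq] restr_lh). -/
def StSC : Prop := ∀ (κ : Cardinal.{0}) (L : Type) [Inhabited L], Crd κ → #L ≤ Order.succ κ →
  #(Sq (La κ) L) = Order.succ κ

/-- [LC] The number of labels.  PROOF.  A label is determined by the components of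
`(r, s, Z)` and `((r_i, s_i, Z_i), t_i)_i` in `As := {x // Supp κ g Ks x}`, `#As ≤ κ⁺` by [NK]; so the
set of labels injects into
`(As × Finset (Mo κ) × (Mo κ → As)) × (Mo κ → (As × Finset (Mo κ) × (Mo κ → As)) × T)`, and
`(κ⁺)^κ = (2^κ)^κ = 2^κ = κ⁺`, `#(Finset (Mo κ)) = κ`. -/
def StLC : Prop := ∀ (κ : Cardinal.{0}) (J A T : Type) [CompleteBooleanAlgebra A] (g : J → A),
  Crd κ → Cohen κ g → ∀ Ks : Set J, #Ks ≤ Order.succ κ → #T = Order.succ κ →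
  #(Lab κ g Ks T) ≤ Order.succ κ

/-- The raw labels of a label sequence. -/
def rho {κ : Cardinal.{0}} {A T Λ L : Type} [LinearOrder Λ] [Inhabited L]
    (raw : L → Lb κ A T) (σ : Sq Λ L) : Λ → Lb κ A T := fun g => raw (σ.sq g)

/-- [VA] Monotonicity of the valuation.  PROOF.  (1) For `g < a` and `F` with positions `< a`,
`ZF ρ g F = ZF ρ' g F` (the labels agree below `a`), and `Lt P ρ g a r F` implies
`Lt P ρ' g b r F`, `Lg P ρ g a r u F` implies `Lg P ρ' g b r u F`; so each term of the infimum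
`rval .. ρ a` is a term of the infimum `rval .. ρ' b`.  (2) is the case `ρ = rho raw σ`,
`ρ' = rho raw τ`, `a = σ.lh`, `b = τ.lh`.  (3) All index sets are empty. -/
def StVA : Prop := ∀ (κ : Cardinal.{0}) (A B T Λ : Type) [CompleteBooleanAlgebra A]
  [CompleteBooleanAlgebra B] [LinearOrder Λ] (ι : A → B) (h : Finset (Mo κ) → B) (π : A → A)
  (R : T → T → B) (P : A → Prop),
  (∀ (ρ ρ' : Λ → Lb κ A T) (a b : Λ), a ≤ b → (∀ g, g < a → ρ g = ρ' g) →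
    rval ι h π R P ρ' b ≤ rval ι h π R P ρ a) ∧
  ∀ (L : Type) [Inhabited L] (raw : L → Lb κ A T),
    (∀ σ τ : Sq Λ L, σ.sub τ → vl ι h π R P raw τ ≤ vl ι h π R P raw σ) ∧
    ∀ σ : Sq Λ L, IsBot σ.lh → vl ι h π R P raw σ = ⊤

/-- [GF] Invariance under an automorphism `φ` with `π ∘ φ = π`.  PROOF.  `φ` preserves `⊓` and `⨅`
(`OrderIso.map_inf`, `OrderIso.map_iInf`), so
`φ r ⊓ ⨅_{t \ s} φ (Z α) = φ (r ⊓ ⨅_{t \ s} Z α)` and `gd ι h π (mpC φ q) = gd ι h π q`;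
`mg (mpC φ q) (mpC φ q') u = mpC φ (mg q q' u)`, so `cmp` is invariant too;
`ZF (fun g => mpL φ (ρ g)) g F = fun α => φ (ZF ρ g F α)`.  If `Lg P (mpL φ ∘ ρ) g a r u F` then
`r' := φ.symm r` satisfies `Lg (fun _ => True) ρ g a r' u F` and
`(r, u, ZF (mpL φ ∘ ρ) g F) = mpC φ (r', u, ZF ρ g F)`; the same for `Lt`, `π r = π r'`. -/
def StGF : Prop := ∀ (κ : Cardinal.{0}) (A B T Λ : Type) [CompleteBooleanAlgebra A]
  [CompleteBooleanAlgebra B] [LinearOrder Λ] (ι : A → B) (h : Finset (Mo κ) → B) (π : A → A)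
  (R : T → T → B) (P : A → Prop) (φ : A ≃o A), (∀ x, π (φ x) = π x) →
  ∀ (ρ : Λ → Lb κ A T) (a : Λ), rval ι h π R (fun _ => True) ρ a ≤
    rval ι h π R P (fun g => mpL (fun x => φ x) (ρ g)) a

/-- [TR] TRUE RUNS.  `q` is a real root condition, each move consists of real conditions, is
predense below `q`, and compatible conditions of different moves force `R`.  Then `gd q` is below
the valuation.  PROOF.  `π := pj κ g K`.  R0: trivial.  R1: for `b < c < a` and `u ⊒` both stems,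
`mg q_{bi} q_{cj} u` is real ([Mt] real_mg), `cv (mg ..) ≤ cv q_{bi} ⊓ cv q_{cj} ≤ R t_{bi} t_{cj}`
([Lq], [Mt] mono), which is in `B_K`, so `gd (mg ..) ≤ R ..` by [PL]; so `cmp ≤ R ..` and
`(cmp ..)ᶜ ⊔ R .. = ⊤`.  R2: let `Lg True ρ g a r u F` (`ρ b = (q, m b)`).  `r ≤ q.1 ≤ U q.2.2`,
`r ≤ (m b i).1.1 ≤ U (m b i).1.2.2` for `(b, i) ∈ F`, so `r ≤ U (ZF ρ g F)` ([UF] inf_eq, iInf for
the finite index set `F`, or induction on `F`): `(r, u, ZF)` is real.  `Le (r, u, ZF) q`, so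
`cv (r, u, ZF) ≤ cv q ≤ ⨆ i, cv q_{bi}`, so by [Mt] meet `cv (r, u, ZF) ≤ ⨆ i, ⨆ u', cv (mg ..u')
≤ ⨆ i, cmp (r, u, ZF) q_{bi}` ([Gd] cv_le), which is in `B_K` ([BK]); by [PL]
`gd (r, u, ZF) ≤ ⨆ i, cmp ..`.  R3: let `Lt True ρ g a r F`; as before `r ≤ U (ZF ρ g F)`; [AL]:
`ι r ≤ ⨆ u, cv (r, u, ZF) ≤ ⨆ u, gd (r, u, ZF)`, in `B_K`; `cv (r, ∅, ⊤) = ι r`, real, so by [PL]
`ι (π r) = gd (r, ∅, ⊤) ≤ ⨆ u, gd (r, u, ZF)` ([Gd] iota). -/
def StTR : Prop := ∀ (κ : Cardinal.{0}) (J A B : Type) [CompleteBooleanAlgebra A]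
  [CompleteBooleanAlgebra B] (g : J → A) (U : (Mo κ → A) → A) (ι : A → B)
  (h : Finset (Mo κ) → B), Sys κ g U ι h → ∀ K : Set J, UCl κ g U K →
  ∀ (T Λ : Type) [LinearOrder Λ] (R : T → T → B), (∀ x y, BSupp g U ι h K (R x y)) →
  ∀ (q : Cn κ A) (m : Λ → Mo κ → Cn κ A × T) (a : Λ), Rl U q →
  (∀ b, b < a → ∀ i, Rl U (m b i).1) →
  (∀ b, b < a → cv ι h q ≤ ⨆ i, cv ι h (m b i).1) →
  (∀ b c, b < c → c < a → ∀ i j, cv ι h (m b i).1 ⊓ cv ι h (m c j).1 ≤ R (m b i).2 (m c j).2) →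
  gd ι h (pj κ g K) q ≤
    rval ι h (pj κ g K) R (fun _ => True) (fun b => (q, m b)) a

/-- [AN] ONE MOVE: a family of `K'`-conditions below `q` deciding a name `e` of an element of `T`.
PROOF.  Let `I` be the set of the pairs `(c, x) : Cn κ A × T` with `KC κ g K' c`, `Rl U c`,
`cv c ≤ cv q`, `cv c ≤ e x`.  It is nonempty: `(⊥, ∅, ⊤)` has `cv = ⊥`.  `⨆_I cv c = cv q`: `≤`
clear; `≥`: let `p ≠ ⊥`, `p ≤ cv q ≤ ⨆ e x`; `ex_sup`: `x`, `p' ≠ ⊥`, `p' ≤ p`, `p' ≤ e x`;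
`cv q ⊓ e x` is in `B_{K'}` ([BK] cvK, inf), so there is a real `K'`-condition `c`,
`cv c ≤ cv q ⊓ e x`, `cv c ⊓ p' ≠ ⊥`.  Use [MA], [CB]. -/
def StAN : Prop := ∀ (κ : Cardinal.{0}) (J A B : Type) [CompleteBooleanAlgebra A]
  [CompleteBooleanAlgebra B] (g : J → A) (U : (Mo κ → A) → A) (ι : A → B)
  (h : Finset (Mo κ) → B), Sys κ g U ι h → ∀ K' : Set J, UCl κ g U K' →
  ∀ (T : Type) [Nonempty T] (q : Cn κ A), KC κ g K' q → ∀ e : T → B,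
  (∀ x, BSupp g U ι h K' (e x)) → cv ι h q ≤ ⨆ x, e x →
  ∃ m : Mo κ → Cn κ A × T, (∀ i, KC κ g K' (m i).1 ∧ Rl U (m i).1 ∧
    cv ι h (m i).1 ≤ cv ι h q ∧ cv ι h (m i).1 ≤ e (m i).2) ∧ cv ι h q ≤ ⨆ i, cv ι h (m i).1

/-- [RN] TRUE RUNS, copied by an automorphism.  PROOF.  By [TR]
`gd q ≤ rval True (fun b => (q, m b)) a`, by [GF] this is
`≤ rval (Supp Ks) (fun b => mpL φ (q, m b)) a`, and by [VA] (1) (the labels agree below `a`:
`rho Subtype.val (restr s a) b = (s b).1 = mpL φ (q, m b)` for `b < a`, [Sq] restr_sq) this is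
`≤ vl .. (restr s a)` ([Sq] restr_lh). -/
def StRN : Prop := ∀ (κ : Cardinal.{0}) (J A B : Type) [CompleteBooleanAlgebra A]
  [CompleteBooleanAlgebra B] (g : J → A) (U : (Mo κ → A) → A) (ι : A → B)
  (h : Finset (Mo κ) → B), Sys κ g U ι h → ∀ K Ks : Set J, UCl κ g U K →
  ∀ φ : A ≃o A, (∀ x, pj κ g K (φ x) = pj κ g K x) →
  ∀ (T : Type) [Inhabited T] (R : T → T → B), (∀ x y, BSupp g U ι h K (R x y)) →
  ∀ (q : Cn κ A) (m : La κ → Mo κ → Cn κ A × T) (s : La κ → Lab κ g Ks T) (a : La κ), Rl U q →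
  (∀ b, b < a → (s b).1 = mpL (fun x => φ x) (q, m b)) →
  (∀ b, b < a → ∀ i, Rl U (m b i).1) →
  (∀ b, b < a → cv ι h q ≤ ⨆ i, cv ι h (m b i).1) →
  (∀ b c, b < c → c < a → ∀ i j, cv ι h (m b i).1 ⊓ cv ι h (m c j).1 ≤ R (m b i).2 (m c j).2) →
  gd ι h (pj κ g K) q ≤ vl ι h (pj κ g K) R (Supp κ g Ks) Subtype.val (Sq.restr s a)

/-- The condition on the pair `K ⊆ Ks` given by [TA]. -/
def TAc (κ : Cardinal.{0}) {J : Type} (K Ks : Set J) : Prop :=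
  K ⊆ Ks ∧ #K ≤ Order.succ κ ∧ #Ks ≤ Order.succ κ ∧ ∀ K' : Set J, K ⊆ K' →
    #K' ≤ Order.succ κ → ∃ e : Equiv.Perm J, (∀ x ∈ K, e x = x) ∧ ∀ x ∈ K', e x ∈ Ks

/-- [NH] NO STRICT MAP from the tree to `T`.  PROOF.  Let `val := vl ..`, `S := Sq (La κ) (Lab ..)`,
`v := homVal (RSv val) R f ≠ ⊥`.  By [LC], [SC] `#S = κ⁺`.  By [KE] with `K₀ = K`,
`I := Option (S × T)`, `b none := v`, `b (some (σ, t)) := f σ t` there is `K' ⊇ K`, `#K' ≤ κ⁺`,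
`UCl K'`, all these in `B_{K'}`.  `TAc` gives `e`, [AU] gives `φ` with `pj K ∘ φ = pj K` and
`Supp K' x → Supp (e '' K') (φ x) → Supp Ks (φ x)` ([SU] mono).  `BSupp K' v` with `y := v` gives a
real `K'`-condition `q` with `cv q ≤ v`, `cv q ≠ ⊥`.  For each `σ : S`, `cv q ≤ v ≤ ⨆ x, f σ x`
(`homVal_tot` in STree.lean), so [AN] gives a move `m σ`.  Let
`Φ σ := ⟨mpL φ (q, m σ), _⟩ : Lab κ g Ks T` (entries supported by `Ks`).  By [Sq] rcs there is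
`s : La κ → Lab ..` with `s g = Φ (restr s g)`.  CLAIM `gd q ≤ val (restr s a)` for all `a`, by
induction on `a` (`WellFoundedLT.induction`): by [RN] with the moves `b ↦ m (restr s b)`; the last
hypothesis of [RN]: for `b < c < a`, `cv q_{bi} ⊓ cv q_{cj} ≤ cv q ≤ v`, `≤ f (restr s b) t_{bi}`,
`≤ f (restr s c) t_{cj}`, and `≤ cv q ≤ gd q ≤ val (restr s c) ≤ RSv val (restr s b) (restr s c)`
([Gd] cv_le, induction hypothesis, [Sq] restr_sub); so `≤ R t_{bi} t_{cj}` (`homVal_inc`).  By [IB]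
`gd q ≤ incr (RSv val) univ _ = ⊥`, but `⊥ ≠ cv q ≤ gd q`. -/
def StNH : Prop := ∀ (κ : Cardinal.{0}) (J A B : Type) [CompleteBooleanAlgebra A]
  [CompleteBooleanAlgebra B] (g : J → A) (U : (Mo κ → A) → A) (ι : A → B)
  (h : Finset (Mo κ) → B), Sys κ g U ι h → ∀ K Ks : Set J, UCl κ g U K → TAc κ K Ks →
  ∀ (T : Type) [Inhabited T] (R : T → T → B), #T = Order.succ κ →
  (∀ x y, BSupp g U ι h K (R x y)) →
  (∀ c : La κ → Sq (La κ) (Lab κ g Ks T) → B,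
    incr (RSv (vl ι h (pj κ g K) R (Supp κ g Ks) Subtype.val)) univ c = ⊥) →
  ∀ f : Sq (La κ) (Lab κ g Ks T) → T → B,
    homVal (RSv (vl ι h (pj κ g K) R (Supp κ g Ks) Subtype.val)) R f = ⊥

/-- [HT] HEIGHT of the tree.  PROOF.  Let `incr R (Iic a) cT = ⊤`.  By [KE] (`K₀ = K`,
`I := La κ × T`, `b (g, x) := cT g x`) there is `K' ⊇ K`, `#K' ≤ κ⁺`, `UCl K'`; `TAc` and [AU] give
`φ` as in [NH].  `q := (⊤, ∅, ⊤)` is a real `K'`-condition with `cv q = ⊤` ([Mt] cv_iota, [SU] top).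
For each `g`, `⊤ ≤ ⨆ x, cT (min g a) x` (`incr_tot`), so [AN] gives a move `m g` for
`e := cT (min g a)`.  `s g := ⟨mpL φ (q, m g), _⟩`.  For `a' ≤ a` all hypotheses of [RN] hold (for
`b < c < a'`, `min b a = b`, `min c a = c`, use `incr_inc`), so
`⊤ = cv q ≤ gd q ≤ val (restr s a')`.  Now [IB] with `I := Iic a`, `φ := ⊤`. -/
def StHT : Prop := ∀ (κ : Cardinal.{0}) (J A B : Type) [CompleteBooleanAlgebra A]
  [CompleteBooleanAlgebra B] (g : J → A) (U : (Mo κ → A) → A) (ι : A → B)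
  (h : Finset (Mo κ) → B), Sys κ g U ι h → ∀ K Ks : Set J, UCl κ g U K → TAc κ K Ks →
  ∀ (T : Type) [Inhabited T] (R : T → T → B), #T = Order.succ κ →
  (∀ x y, BSupp g U ι h K (R x y)) → ∀ a : La κ,
  (∃ c : La κ → T → B, incr R (Iic a) c = ⊤) →
  ∃ c : La κ → Sq (La κ) (Lab κ g Ks T) → B,
    incr (RSv (vl ι h (pj κ g K) R (Supp κ g Ks) Subtype.val)) (Iic a) c = ⊤

/-! ## E. The tree has no branch of length `κ⁺` -/

/-- [SA] STEP A (local form).  PROOF.  By the third infimum (R2) of `rval` at `g, b, r, u, F` and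
`y ≤ gd (r, u, ZF ρ g F)`: `y ≤ ⨆ i, cmp (r, u, ZF ρ g F) q_{bi}` (a Boolean computation:
`y ≤ xᶜ ⊔ z`, `y ≤ x` imply `y ≤ z`), where `q_{bi} := ((ρ b).2 i).1`.  `ex_sup` (several times)
gives `i`, `u'` with `Ends u u'`, `Ends q_{bi}.2.1 u'`, and `y' ≠ ⊥`, `y' ≤ y`,
`y' ≤ gd (mg (r, u, ZF ρ g F) q_{bi} u')`.  Let `r'` be the first component of
`mg (r, u, ZF ρ g F) q_{bi} u'`; its last component is `ZF ρ g (insert (b, i) F)`
(`Finset.iInf_insert`, `inf_comm`).  The two `Le` are [Lq] mg_left, mg_right.  `Lg`: `P r'` by the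
closure of `P` and `hP` (for `ZF`: finite infimum of labels at positions `< a` and the root `g < a`);
`r' ≤ r ≤ (ρ g).1.1`, positions `< a`, `r' ≤ r ≤ ..`, `r' ≤ q_{bi}.1`; `Le .. (ρ g).1` by [Lq]
trans. -/
def StSA : Prop := ∀ (κ : Cardinal.{0}) (A B T Λ : Type) [CompleteBooleanAlgebra A]
  [CompleteBooleanAlgebra B] [LinearOrder Λ] (ι : A → B) (h : Finset (Mo κ) → B) (π : A → A)
  (R : T → T → B) (P : A → Prop), (∀ S : Set A, (∀ x ∈ S, P x) → P (sInf S)) →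
  ∀ (ρ : Λ → Lb κ A T) (a g b : Λ), (∀ g, g < a → LbP P (ρ g)) → g < a → b < a →
  ∀ (r : A) (u : Finset (Mo κ)) (F : Finset (Λ × Mo κ)) (y : B), y ≠ ⊥ →
  y ≤ rval ι h π R P ρ a → Lg P ρ g a r u F → y ≤ gd ι h π (r, u, ZF ρ g F) →
  ∃ (i : Mo κ) (r' : A) (u' : Finset (Mo κ)) (y' : B), y' ≠ ⊥ ∧ y' ≤ y ∧
    (∀ F' : Finset (Λ × Mo κ), (∀ x, x ∈ F' ↔ x = (b, i) ∨ x ∈ F) →
      Lg P ρ g a r' u' F' ∧ Le (r', u', ZF ρ g F') (r, u, ZF ρ g F) ∧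
      Le (r', u', ZF ρ g F') ((ρ b).2 i).1 ∧ y' ≤ gd ι h π (r', u', ZF ρ g F'))

/-- [TF] TRANSFER to a longer sequence.  PROOF.  For `b < σ.lh`, `rho raw σ b = rho raw σ' b`; all
positions in `F` are `< σ.lh`. -/
def StTF : Prop := ∀ (κ : Cardinal.{0}) (A T Λ L : Type) [CompleteBooleanAlgebra A]
  [LinearOrder Λ] [Inhabited L] (raw : L → Lb κ A T) (P : A → Prop) (σ σ' : Sq Λ L), σ.sub σ' →
  (∀ b, b < σ.lh → rho raw σ b = rho raw σ' b) ∧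
  ∀ (g : Λ) (r : A) (u : Finset (Mo κ)) (F : Finset (Λ × Mo κ)), g < σ.lh →
    Lt P (rho raw σ) g σ.lh r F →
    ZF (rho raw σ) g F = ZF (rho raw σ') g F ∧ Lt P (rho raw σ') g σ'.lh r F ∧
    (Lg P (rho raw σ) g σ.lh r u F → Lg P (rho raw σ') g σ'.lh r u F)

/-- A name for a branch of the tree: `W σ` is the Boolean value of 'σ is an initial segment of the
branch'. -/
structure Wbr {κ : Cardinal.{0}} {A B T L : Type} [CompleteBooleanAlgebra A]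
    [CompleteBooleanAlgebra B] [Inhabited L] (ι : A → B) (h : Finset (Mo κ) → B) (π : A → A)
    (R : T → T → B) (P : A → Prop) (raw : L → Lb κ A T) (v : B) (W : Sq (La κ) L → B) :
    Prop where
  ne : v ≠ ⊥
  le : ∀ σ, W σ ≤ v
  val : ∀ σ, W σ ≤ rval ι h π R P (rho raw σ) σ.lh
  cmp : ∀ σ τ, ¬ IsBot σ.lh → ¬ IsBot τ.lh → W σ ⊓ W τ ≠ ⊥ → σ.sub τ ∨ σ = τ ∨ τ.sub σ
  long : ∀ b, v ≤ ⨆ σ : {σ : Sq (La κ) L // b < σ.lh}, W σ.1

/-- A state: `y` forces that `σ` is on the branch and the legitimate condition `(r, u, ZF g F)` is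
good. -/
structure Stt {κ : Cardinal.{0}} {A B T L : Type} [CompleteBooleanAlgebra A]
    [CompleteBooleanAlgebra B] [Inhabited L] (ι : A → B) (h : Finset (Mo κ) → B) (π : A → A)
    (P : A → Prop) (raw : L → Lb κ A T) (W : Sq (La κ) L → B) (g : La κ) (σ : Sq (La κ) L)
    (r : A) (u : Finset (Mo κ)) (F : Finset (La κ × Mo κ)) (y : B) : Prop where
  ne : y ≠ ⊥
  leW : y ≤ W σ
  hg : g < σ.lh
  lg : Lg P (rho raw σ) g σ.lh r u F
  gdl : y ≤ gd ι h π (r, u, ZF (rho raw σ) g F)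

/-- [EX] STEP A: extension of a state to a condition below a member of the move `b`.  PROOF.  Let
`b' := max b σ.lh`.  `y ≤ v ≤ ⨆ σ', W σ'` over `b' < σ'.lh` (`Wbr.le`, `Wbr.long`); `ex_sup`: `σ'`,
`y₁ ≠ ⊥`, `y₁ ≤ y`, `y₁ ≤ W σ'`.  `W σ ⊓ W σ' ≠ ⊥`, both lengths are not bottom (`g < σ.lh`), and
`σ.lh < σ'.lh`, so `σ.sub σ'` (`Wbr.cmp`).  By [TF] `Lg P (rho raw σ') g σ'.lh r u F` and the `ZF`
are equal.  Apply [SA] to `ρ := rho raw σ'`, `a := σ'.lh`, `y := y₁` (`Wbr.val`), with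
`F' := insert (b, i) F`. -/
def StEX : Prop := ∀ (κ : Cardinal.{0}) (A B T L : Type) [CompleteBooleanAlgebra A]
  [CompleteBooleanAlgebra B] [Inhabited L] (ι : A → B) (h : Finset (Mo κ) → B) (π : A → A)
  (R : T → T → B) (P : A → Prop) (raw : L → Lb κ A T) (v : B) (W : Sq (La κ) L → B),
  (∀ S : Set A, (∀ x ∈ S, P x) → P (sInf S)) → (∀ l, LbP P (raw l)) →
  Wbr ι h π R P raw v W →
  ∀ (g : La κ) (σ : Sq (La κ) L) (r : A) (u : Finset (Mo κ)) (F : Finset (La κ × Mo κ)) (y : B),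
  Stt ι h π P raw W g σ r u F y → ∀ b : La κ,
  ∃ (σ' : Sq (La κ) L) (i : Mo κ) (r' : A) (u' : Finset (Mo κ)) (F' : Finset (La κ × Mo κ))
    (y' : B), σ.sub σ' ∧ b < σ'.lh ∧ y' ≤ y ∧ Stt ι h π P raw W g σ' r' u' F' y' ∧ F ⊆ F' ∧
    (b, i) ∈ F' ∧ Le (r', u', ZF (rho raw σ') g F') (r, u, ZF (rho raw σ) g F) ∧
    Le (r', u', ZF (rho raw σ') g F') ((rho raw σ' b).2 i).1

/-- [Ch] CHAIN LEMMA.  PROOF.  `N := minPart R M` (Kurepa.lean), `le_incr`.  (1) `y ≤ ⨆ x, N g x` by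
well-foundedness.  (2) For `x ≠ x'`: `y ⊓ N g x ⊓ N g x' ≤ R x x' ⊔ R x' x`, and
`N g x' ≤ (M g x ⊓ R x x')ᶜ`, `N g x ≤ M g x`, so it is disjoint from `R x x'`, and in the same way
from `R x' x`; so it is `⊥`.  (3) For `g < k`, `N k x' ≤ ⨆ z, N g z ⊓ R z x'` (`minPart_down`); for
`z ≠ x`, `y ⊓ N g x ⊓ N g z = ⊥` by (2); so `y ⊓ N g x ⊓ N k x' ≤ R x x'`. -/
def StCh : Prop := ∀ (B T Λ : Type) [CompleteBooleanAlgebra B] [LinearOrder Λ] [WellFoundedLT Λ]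
  (R : T → T → B) (y : B) (M : Λ → T → B), (∀ x y z, R x y ⊓ R y z ≤ R x z) →
  (∀ S : T → B, ⨆ x, S x ≤ ⨆ x, (S x ⊓ ⨅ y, (S y ⊓ R y x)ᶜ)) →
  (∀ g, y ≤ ⨆ x, M g x) → (∀ g k, g < k → ∀ x, M k x ≤ ⨆ z, M g z ⊓ R z x) →
  (∀ g x x', x ≠ x' → y ⊓ M g x ⊓ M g x' ≤ R x x' ⊔ R x' x) →
  y ≤ incr R univ (minPart R M)

/-- [Tw] STEP B: below each state there are two states (with the same `y'`) which force
incomparable elements of `T` into the chain.  PROOF.  Suppose not.  Let `M b x` be the supremum over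
all `(σ', r', u', F', i)` with (`σ = σ'` or `σ.sub σ'`), `b < σ'.lh`,
`Lg P (rho raw σ') g σ'.lh r' u' F'`, `(b, i) ∈ F'`,
`Le (r', u', ZF (rho raw σ') g F') (r, u, ZF (rho raw σ) g F)`,
`Le (r', u', ZF (rho raw σ') g F') ((rho raw σ' b).2 i).1`, `((rho raw σ' b).2 i).2 = x`, of
`y ⊓ W σ' ⊓ gd (r', u', ZF (rho raw σ') g F')`.  We check the hypotheses of [Ch].
(k1) `y ≤ ⨆ x, M b x`: for `p ≠ ⊥`, `p ≤ y`, the state with `p` in place of `y`, [EX], `dense_le`.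
(k3) Let `b < c`, `p ≠ ⊥`, `p ≤ M c x`; `ex_sup`: `(σ', r', u', F', j)` and `p₁ ≠ ⊥`, `p₁ ≤ p`, a
state at `σ'` with `y := p₁`.  [EX] with `b`: `σ''`, `i`, `r''`, `u''`, `F''`, `p₂ ≤ p₁`.
`p₂ ≤ M b t_{bi}` (where `t_{bi} := ((rho raw σ'' b).2 i).2`; [Lq] trans).  The condition
`(r'', u'', ZF'')` is `Le` both `q_{bi}` and `q_{cj}` (the label at `c < σ'.lh` is the same for `σ'`
and `σ''`, [TF]), so by [Lq] mg_glb and [Gd] mono
`p₂ ≤ gd (r'', u'', ZF'') ≤ gd (mg q_{bi} q_{cj} u'') ≤ cmp q_{bi} q_{cj}`, and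
`p₂ ≤ W σ'' ≤ rval ..`, whose second infimum (R1) gives `p₂ ≤ R t_{bi} x`.
(k4) Let `x ≠ x'`, `p ≠ ⊥`, `p ≤ y ⊓ M b x ⊓ M b x'`.  If `p ⊓ (R x x' ⊔ R x' x) ≠ ⊥` fine
(`dense_le`).  Otherwise `ex_sup` twice: `(σ₁, ..)` for `x`, `(σ₂, ..)` for `x'` and
`p' ≠ ⊥`, `p' ≤ p`, `p' ≤ W σ₁ ⊓ W σ₂`; `σ₁`, `σ₂` are comparable, transfer the shorter one to the
longer one by [TF]; this gives the conclusion of [Tw] with `c := b`, `y' := p'`: contradiction.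
By [Ch] `y ≤ incr R univ _ = ⊥` (`no_branch`): contradiction. -/
def StTw : Prop := ∀ (κ : Cardinal.{0}) (A B T L : Type) [CompleteBooleanAlgebra A]
  [CompleteBooleanAlgebra B] [Inhabited L] (ι : A → B) (h : Finset (Mo κ) → B) (π : A → A)
  (R : T → T → B) (P : A → Prop) (raw : L → Lb κ A T) (v : B) (W : Sq (La κ) L → B),
  Gds ι h π → WideAronszajn (La κ) R →
  (∀ S : Set A, (∀ x ∈ S, P x) → P (sInf S)) → (∀ l, LbP P (raw l)) →
  Wbr ι h π R P raw v W →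
  ∀ (g : La κ) (σ : Sq (La κ) L) (r : A) (u : Finset (Mo κ)) (F : Finset (La κ × Mo κ)) (y : B),
  Stt ι h π P raw W g σ r u F y →
  ∃ (σ' : Sq (La κ) L) (c : La κ) (y' : B) (j : Bool → Mo κ) (r' : Bool → A)
    (u' : Bool → Finset (Mo κ)) (F' : Bool → Finset (La κ × Mo κ)),
    (σ = σ' ∨ σ.sub σ') ∧ c < σ'.lh ∧ y' ≤ y ∧
    (∀ k, Stt ι h π P raw W g σ' (r' k) (u' k) (F' k) y') ∧
    (∀ k, Le (r' k, u' k, ZF (rho raw σ') g (F' k)) (r, u, ZF (rho raw σ) g F)) ∧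
    (∀ k, Le (r' k, u' k, ZF (rho raw σ') g (F' k)) ((rho raw σ' c).2 (j k)).1) ∧
    ((rho raw σ' c).2 (j false)).2 ≠ ((rho raw σ' c).2 (j true)).2 ∧
    y' ⊓ R ((rho raw σ' c).2 (j false)).2 ((rho raw σ' c).2 (j true)).2 = ⊥ ∧
    y' ⊓ R ((rho raw σ' c).2 (j true)).2 ((rho raw σ' c).2 (j false)).2 = ⊥

/-- The data attached to `b : κ⁺`: a real condition `q` forcing that `σ` is on the branch and that
the two conditions `(r k, stem of q, ZF g (F k))` are good, are below the member `i` of the move `b`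
and below the members `j k` of the move `c`, which have incomparable elements of `T`. -/
structure Dtm {κ : Cardinal.{0}} {A B T L : Type} [CompleteBooleanAlgebra A]
    [CompleteBooleanAlgebra B] [Inhabited L] (U : (Mo κ → A) → A) (ι : A → B)
    (h : Finset (Mo κ) → B) (π : A → A) (R : T → T → B) (P : A → Prop) (raw : L → Lb κ A T)
    (W : Sq (La κ) L → B) (g : La κ) (b : La κ) where
  q : Cn κ A
  σ : Sq (La κ) L
  i : Mo κ
  c : La κ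
  j : Bool → Mo κ
  r : Bool → A
  F : Bool → Finset (La κ × Mo κ)
  ne : q.1 ≠ ⊥
  real : Rl U q
  leW : cv ι h q ≤ W σ
  hg : g < σ.lh
  hb : b < σ.lh
  hc : c < σ.lh
  lt : ∀ k, Lt P (rho raw σ) g σ.lh (r k) (F k)
  gdl : ∀ k, cv ι h q ≤ gd ι h π (r k, q.2.1, ZF (rho raw σ) g (F k))
  leb : ∀ k, Le (r k, q.2.1, ZF (rho raw σ) g (F k)) ((rho raw σ b).2 i).1
  lec : ∀ k, Le (r k, q.2.1, ZF (rho raw σ) g (F k)) ((rho raw σ c).2 (j k)).1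
  tne : ((rho raw σ c).2 (j false)).2 ≠ ((rho raw σ c).2 (j true)).2
  inc₀ : cv ι h q ⊓ R ((rho raw σ c).2 (j false)).2 ((rho raw σ c).2 (j true)).2 = ⊥
  inc₁ : cv ι h q ⊓ R ((rho raw σ c).2 (j true)).2 ((rho raw σ c).2 (j false)).2 = ⊥

/-- [Fm] Existence of the data.  PROOF.  By `Wbr.ne`, `Wbr.long (max g b)` there are `σ₀`,
`y₀ ≠ ⊥`, `y₀ ≤ W σ₀`, `g, b < σ₀.lh`.  Let `q* := (rho raw σ₀ g).1`; by the first infimum (R0) of
`rval`, `y₀ ≤ gd q*`.  `ZF (rho raw σ₀) g ∅ = q*.2.2`, so `(q*.1, q*.2.1, ZF .. ∅) = q*` and we have a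
state with `F = ∅` (`P q*.1` by `LbP`; [Lq] refl).  [EX] with `b`: state at `σ₁`, `i`, `(r₁, u₁, F₁)`
`Le` the member `i` of the move `b`.  [Tw]: `σ₂`, `c`, `y₂`, `j`, `r₂ k`, `u₂ k`, `F₂ k`; by [Lq] trans
and [TF] (labels of `σ₁` and `σ₂` agree at `b < σ₁.lh`) these are `Le` the member `i` of the move `b`
too.  `y₂ ≤ gd (r₂ k, u₂ k, ..) ≤ h (u₂ k)` ([Gd] le_h).  [Dn] with `q₀ = (⊤, ∅, ⊤)` (`cv = ⊤`,
[Mt] cv_iota), `u = u₂ false`: real `q₁`, `cv q₁ ≤ y₂`, `Ends (u₂ false) q₁.2.1`, and [Dn] again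
with `q₀ = q₁`, `u = u₂ true`, `y = cv q₁` (`≠ ⊥` by `Prik.ne`): real `q`, `cv q ≤ y₂`, whose stem
`s` ends both `u₂ k` ([En] trans).  `r k := r₂ k ⊓ ⨅_{s \ u₂ k} ZF (F₂ k)`, `F k := F₂ k`: by [Gd]
step `cv q ≤ gd (r₂ k, u₂ k, ..) ⊓ h s ≤ gd (r k, s, ..)`, `Le (r k, s, ZF) (r₂ k, u₂ k, ZF)`; and
`Lt` with `P (r k)` by the closure of `P` and `LbP`. -/
def StFm : Prop := ∀ (κ : Cardinal.{0}) (A B T L : Type) [CompleteBooleanAlgebra A]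
  [CompleteBooleanAlgebra B] [Inhabited L] (U : (Mo κ → A) → A) (ι : A → B)
  (h : Finset (Mo κ) → B) (π : A → A) (R : T → T → B) (P : A → Prop) (raw : L → Lb κ A T) (v : B)
  (W : Sq (La κ) L → B), Nor U → Prik U ι h → Gds ι h π → WideAronszajn (La κ) R →
  (∀ S : Set A, (∀ x ∈ S, P x) → P (sInf S)) → (∀ l, LbP P (raw l)) →
  Wbr ι h π R P raw v W → ∀ g b : La κ, Nonempty (Dtm U ι h π R P raw W g b)

/-- [Sp] SPARSE SUBSEQUENCE.  PROOF.  (1) For some `s₀` the set `E := {b | s b = s₀}` is unbounded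
in `La κ`: otherwise each `{b | s b = t}` has a bound `β t`; `#(Finset (Mo κ)) = κ < κ⁺`, so by
`RegOrd.bdd_range` (`regOrd_toType`, `isRegular_succ`) there is `b` above all `β t`: contradiction
for `t := s b`.  (2) Recursion (`WellFounded.fix` as in `exists_stab` in Kurepa.lean): `e ξ` is an
element of `E` greater than all `e η`, `c (e η)`, `η < ξ` (`RegOrd.bdd_range`,
`#(Iio ξ) < κ⁺`). -/
def StSp : Prop := ∀ κ : Cardinal.{0}, ℵ₀ ≤ κ →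
  ∀ (s : La κ → Finset (Mo κ)) (c : La κ → La κ), ∃ (e : La κ → La κ) (s₀ : Finset (Mo κ)),
  (∀ ξ, s (e ξ) = s₀) ∧ ∀ ξ ξ', ξ < ξ' → e ξ < e ξ' ∧ c (e ξ) < e ξ'

/-- [Fn] NO BRANCH.  PROOF.  Fix `g : La κ` (nonempty) and choose `D b : Dtm .. g b` ([Fm], with
`π := pj κ g K`, [Gd], [PI]).  [Sp] with `s b := (D b).q.2.1`, `c b := (D b).c`: `e`, `s₀`.  Let
`p ξ := (D (e ξ)).q.1`, `r ξ k := (D (e ξ)).r k`; `p ξ ≠ ⊥` and `p ξ ≤ π (r ξ k)` since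
`cv q ≤ gd (r k, ..) ≤ ι (π (r k))` ([Gd] le_pi, [Mt] le_fst).  [Kn]: `ξ < ξ'` with
`p₀ := p ξ ⊓ p ξ' ⊓ π (r ξ false ⊓ r ξ' false) ⊓ π (r ξ true ⊓ r ξ' true) ≠ ⊥`.  Write `D`, `D'` for
the data at `b := e ξ`, `b' := e ξ'`, `X`, `X'` for the third components of `D.q`, `D'.q`;
`c := D.c < b'`.  `q₀ := (p₀, s₀, X ⊓ X')` is real, `Le q₀ D.q`, `Le q₀ D'.q`, so
`⊥ ≠ cv q₀ ≤ W D.σ ⊓ W D'.σ`; so `D.σ`, `D'.σ` are comparable (`Wbr.cmp`; lengths not bottom); let `τ`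
be the longer one, `cv q₀ ≤ W τ`.  By [TF] everything transfers to `ρ := rho raw τ`.  For `k : Bool`
let `r_k := r ξ k ⊓ r ξ' k`, `F_k := D.F k ∪ D'.F k`, `Z_k := ZF ρ g F_k = ZF ρ g (D.F k) ⊓
ZF ρ g (D'.F k)`: `Lt P ρ g τ.lh r_k F_k`.  By the fourth infimum (R3) of `rval` and
`cv q₀ ≤ ι p₀ ≤ ι (π r_k)`: `cv q₀ ≤ ⨆ u, gd (r_k, u, Z_k)`.  [PC] with `(p₀, s₀, X ⊓ X')`, `r_k`,
`Z_k`: `Y_k`, `U Y_k = ⊤`, `cv (p₀, s₀, (X ⊓ X') ⊓ Y_k) ≤ gd (r_k, s₀, Z_k)`.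
`q₁ := (p₀, s₀, (X ⊓ X') ⊓ (Y_false ⊓ Y_true))` is real, `cv q₁ ≠ ⊥`, `cv q₁ ≤ cv q₀` and
`cv q₁ ≤ gd (r_k, s₀, Z_k)` for both `k`.  `(r_k, s₀, Z_k)` is `Le (r ξ k, s₀, ZF ρ g (D.F k))`, hence
`Le` the member `D.j k` of the move `c`, and is `Le (r ξ' k, s₀, ZF ρ g (D'.F k))`, hence `Le` the
member `D'.i` of the move `b'`; so by [Lq] mg_glb, [Gd] mono
`cv q₁ ≤ cmp (member D.j k of c) (member D'.i of b')`.  `c < b' < τ.lh`, so by the second infimum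
(R1) of `rval`, `cv q₁ ≤ R t_k t'`, `t_k := ((ρ c).2 (D.j k)).2`, `t' := ((ρ b').2 D'.i).2`, for
`k = false, true`.  By `WideAronszajn.conn` (`t_false ≠ t_true`)
`cv q₁ ≤ R t_false t_true ⊔ R t_true t_false`; but `cv q₁ ≤ cv D.q` is disjoint from both
(`inc₀`, `inc₁`).  So `cv q₁ = ⊥`: contradiction. -/
def StFn : Prop := ∀ (κ : Cardinal.{0}) (J A B T L : Type) [CompleteBooleanAlgebra A]
  [CompleteBooleanAlgebra B] [Inhabited L] (gc : J → A) (U : (Mo κ → A) → A) (ι : A → B)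
  (h : Finset (Mo κ) → B) (K : Set J) (R : T → T → B) (P : A → Prop) (raw : L → Lb κ A T) (v : B)
  (W : Sq (La κ) L → B), Sys κ gc U ι h → WideAronszajn (La κ) R →
  (∀ S : Set A, (∀ x ∈ S, P x) → P (sInf S)) → (∀ l, LbP P (raw l)) →
  ¬ Wbr ι h (pj κ gc K) R P raw v W

/-- [NB] PROOF.  If `v := incr .. c ≠ ⊥` then [Br] (with [VA]; `La κ` has no largest element) gives
`W` with `Wbr .. v W`, against [Fn] with `L := Lab κ g Ks T`, `raw := Subtype.val`,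
`P := Supp κ g Ks` ([SU] sInf). -/
def StNB : Prop := ∀ (κ : Cardinal.{0}) (J A B : Type) [CompleteBooleanAlgebra A]
  [CompleteBooleanAlgebra B] (g : J → A) (U : (Mo κ → A) → A) (ι : A → B)
  (h : Finset (Mo κ) → B), Sys κ g U ι h → ∀ K Ks : Set J,
  ∀ (T : Type) [Inhabited T] (R : T → T → B), WideAronszajn (La κ) R →
  ∀ c : La κ → Sq (La κ) (Lab κ g Ks T) → B,
    incr (RSv (vl ι h (pj κ g K) R (Supp κ g Ks) Subtype.val)) univ c = ⊥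

/-- THEOREM SP. -/
def StMain : Prop := ∀ (κ : Cardinal.{0}) (J A B : Type) [CompleteBooleanAlgebra A]
  [CompleteBooleanAlgebra B] (g : J → A) (U : (Mo κ → A) → A) (ι : A → B)
  (h : Finset (Mo κ) → B), Sys κ g U ι h → NoMaximal (Order.succ κ) B

end Pool.MP_d2308b.SP
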