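import Mathlib
import Pool.Agent.Work.MP_d2308b_lc.SP.Stmts2

set_option autoImplicit false

/-! # Item VA of the block SP: monotonicity of the valuation -/

namespace Pool.MP_d2308b.SP

open Cardinal Set

section VA

variable {κ : Cardinal.{0}} {A B T Λ : Type} [CompleteBooleanAlgebra A] [CompleteBooleanAlgebra B]
  [LinearOrder Λ]

theorem VA_ZF {ρ ρ' : Λ → Lb κ A T} {a : Λ} (hρ : ∀ g, g < a → ρ g = ρ' g) {g : Λ} (hg : g < a)
    {F : Finset (Λ × Mo κ)} (hF : ∀ x ∈ F, x.1 < a) : ZF ρ g F = ZF ρ' g F := by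
  funext α
  have h1 : (⨅ x ∈ F, ((ρ x.1).2 x.2).1.2.2 α) = ⨅ x ∈ F, ((ρ' x.1).2 x.2).1.2.2 α :=
    iInf_congr fun x => iInf_congr fun hx => by rw [hρ x.1 (hF x hx)]
  simp only [ZF]
  rw [hρ g hg, h1]

theorem VA_Lt {P : A → Prop} {ρ ρ' : Λ → Lb κ A T} {a b : Λ} (hab : a ≤ b)
    (hρ : ∀ g, g < a → ρ g = ρ' g) {g : Λ} (hg : g < a) {r : A} {F : Finset (Λ × Mo κ)}
    (h : Lt P ρ g a r F) : Lt P ρ' g b r F := by
  refine ⟨h.1, ?_, fun x hx => ⟨(h.2.2 x hx).1.trans_le hab, ?_⟩⟩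
  · rw [← hρ g hg]
    exact h.2.1
  · rw [← hρ x.1 (h.2.2 x hx).1]
    exact (h.2.2 x hx).2

theorem VA_mono (ι : A → B) (h : Finset (Mo κ) → B) (π : A → A) (R : T → T → B) (P : A → Prop)
    (ρ ρ' : Λ → Lb κ A T) (a b : Λ) (hab : a ≤ b) (hρ : ∀ g, g < a → ρ g = ρ' g) :
    rval ι h π R P ρ' b ≤ rval ι h π R P ρ a := by
  refine le_inf (le_inf (le_inf ?_ ?_) ?_) ?_
  · refine le_iInf fun g => le_iInf fun hg => ?_
    rw [hρ g hg]
    exact (inf_le_left.trans (inf_le_left.trans inf_le_left)).trans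
      (iInf₂_le (f := fun (g : Λ) (_ : g < b) => gd ι h π (ρ' g).1) g (hg.trans_le hab))
  · refine le_iInf fun c => le_iInf fun d => le_iInf fun hcd => le_iInf fun i => le_iInf fun j => ?_
    rw [hρ c (hcd.1.trans hcd.2), hρ d hcd.2]
    refine (inf_le_left.trans (inf_le_left.trans inf_le_right)).trans ?_
    exact (iInf_le _ c).trans ((iInf_le _ d).trans ((iInf_le _ ⟨hcd.1, hcd.2.trans_le hab⟩).trans
      ((iInf_le _ i).trans (iInf_le _ j))))
  · refine le_iInf fun g => le_iInf fun c => le_iInf fun hgc => le_iInf fun r => le_iInf fun u =>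
      le_iInf fun F => le_iInf fun hL => ?_
    have hZ : ZF ρ g F = ZF ρ' g F := VA_ZF hρ hgc.1 fun x hx => (hL.1.2.2 x hx).1
    have hL' : Lg P ρ' g b r u F := by
      refine ⟨VA_Lt hab hρ hgc.1 hL.1, ?_⟩
      have h2 := hL.2
      rwa [hZ, hρ g hgc.1] at h2
    rw [hZ, hρ c hgc.2]
    refine (inf_le_left.trans inf_le_right).trans ?_
    exact (iInf_le _ g).trans ((iInf_le _ c).trans ((iInf_le _
      ⟨hgc.1.trans_le hab, hgc.2.trans_le hab⟩).trans ((iInf_le _ r).trans ((iInf_le _ u).trans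
        ((iInf_le _ F).trans (iInf_le _ hL'))))))
  · refine le_iInf fun g => le_iInf fun hg => le_iInf fun r => le_iInf fun F => le_iInf fun hL => ?_
    rw [VA_ZF hρ hg fun x hx => (hL.2.2 x hx).1]
    refine inf_le_right.trans ?_
    exact (iInf_le _ g).trans ((iInf_le _ (hg.trans_le hab)).trans ((iInf_le _ r).trans
      ((iInf_le _ F).trans (iInf_le _ (VA_Lt hab hρ hg hL)))))

theorem VA_top (ι : A → B) (h : Finset (Mo κ) → B) (π : A → A) (R : T → T → B) (P : A → Prop)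
    (ρ : Λ → Lb κ A T) (a : Λ) (ha : IsBot a) : rval ι h π R P ρ a = ⊤ := by
  have hn : ∀ g : Λ, ¬ g < a := fun g => not_lt.2 (ha g)
  refine eq_top_iff.2 (le_inf (le_inf (le_inf ?_ ?_) ?_) ?_)
  · exact le_iInf fun g => le_iInf fun hg => absurd hg (hn g)
  · exact le_iInf fun c => le_iInf fun d => le_iInf fun hcd => absurd hcd.2 (hn d)
  · exact le_iInf fun g => le_iInf fun c => le_iInf fun hgc => absurd hgc.1 (hn g)
  · exact le_iInf fun g => le_iInf fun hg => absurd hg (hn g)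

end VA

theorem sp_VA : StVA := by
  intro κ A B T Λ _ _ _ ι h π R P
  refine ⟨fun ρ ρ' a b hab hρ => VA_mono ι h π R P ρ ρ' a b hab hρ, fun L _ raw =>
    ⟨fun σ τ hs => ?_, fun σ hσ => VA_top ι h π R P _ _ hσ⟩⟩
  exact VA_mono ι h π R P (fun g => raw (σ.sq g)) (fun g => raw (τ.sq g)) σ.lh τ.lh hs.1.le
    fun g hg => by rw [hs.2 g hg]

end Pool.MP_d2308b.SP
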