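import Pool.Agent.Work.MP_d2308b_lc.SP.I_CL
import Pool.Agent.Work.MP_d2308b_lc.SP.I_NP
import Pool.Agent.Work.MP_d2308b_lc.SP.I_DS
import Pool.Agent.Work.MP_d2308b_lc.SP.I_PF
import Pool.Agent.Work.MP_d2308b_lc.SP.I_CA
import Pool.Agent.Work.MP_d2308b_lc.SP.I_MA
import Pool.Agent.Work.MP_d2308b_lc.SP.I_SU
import Pool.Agent.Work.MP_d2308b_lc.SP.I_SM
import Pool.Agent.Work.MP_d2308b_lc.SP.I_PI
import Pool.Agent.Work.MP_d2308b_lc.SP.I_Kn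
import Pool.Agent.Work.MP_d2308b_lc.SP.I_AU
import Pool.Agent.Work.MP_d2308b_lc.SP.I_NK
import Pool.Agent.Work.MP_d2308b_lc.SP.I_TA
import Pool.Agent.Work.MP_d2308b_lc.SP.I_UF
import Pool.Agent.Work.MP_d2308b_lc.SP.I_Rw
import Pool.Agent.Work.MP_d2308b_lc.SP.I_If
import Pool.Agent.Work.MP_d2308b_lc.SP.I_En
import Pool.Agent.Work.MP_d2308b_lc.SP.I_Lq
import Pool.Agent.Work.MP_d2308b_lc.SP.I_Io
import Pool.Agent.Work.MP_d2308b_lc.SP.I_Mt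
import Pool.Agent.Work.MP_d2308b_lc.SP.I_Dn
import Pool.Agent.Work.MP_d2308b_lc.SP.I_AL
import Pool.Agent.Work.MP_d2308b_lc.SP.I_CB
import Pool.Agent.Work.MP_d2308b_lc.SP.I_Gd
import Pool.Agent.Work.MP_d2308b_lc.SP.I_CP
import Pool.Agent.Work.MP_d2308b_lc.SP.I_Rd
import Pool.Agent.Work.MP_d2308b_lc.SP.I_BK
import Pool.Agent.Work.MP_d2308b_lc.SP.I_BS
import Pool.Agent.Work.MP_d2308b_lc.SP.I_KE
import Pool.Agent.Work.MP_d2308b_lc.SP.I_PL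
import Pool.Agent.Work.MP_d2308b_lc.SP.I_PC
import Pool.Agent.Work.MP_d2308b_lc.SP.I_Sq
import Pool.Agent.Work.MP_d2308b_lc.SP.I_GT
import Pool.Agent.Work.MP_d2308b_lc.SP.I_IB
import Pool.Agent.Work.MP_d2308b_lc.SP.I_Br
import Pool.Agent.Work.MP_d2308b_lc.SP.I_SC
import Pool.Agent.Work.MP_d2308b_lc.SP.I_LC
import Pool.Agent.Work.MP_d2308b_lc.SP.I_VA
import Pool.Agent.Work.MP_d2308b_lc.SP.I_GF
import Pool.Agent.Work.MP_d2308b_lc.SP.I_TR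
import Pool.Agent.Work.MP_d2308b_lc.SP.I_AN
import Pool.Agent.Work.MP_d2308b_lc.SP.I_RN
import Pool.Agent.Work.MP_d2308b_lc.SP.I_NH
import Pool.Agent.Work.MP_d2308b_lc.SP.I_HT
import Pool.Agent.Work.MP_d2308b_lc.SP.I_SA
import Pool.Agent.Work.MP_d2308b_lc.SP.I_TF
import Pool.Agent.Work.MP_d2308b_lc.SP.I_EX
import Pool.Agent.Work.MP_d2308b_lc.SP.I_Ch
import Pool.Agent.Work.MP_d2308b_lc.SP.I_Tw
import Pool.Agent.Work.MP_d2308b_lc.SP.I_Fm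
import Pool.Agent.Work.MP_d2308b_lc.SP.I_Sp
import Pool.Agent.Work.MP_d2308b_lc.SP.I_Fn
import Pool.Agent.Work.MP_d2308b_lc.SP.I_NB
import Pool.Agent.Work.MP_d2308b_lc.SP.I_Main

/-!
# Theorem SP: assembly
-/

namespace Pool.MP_d2308b.SP

open Cardinal

/-- THEOREM SP. -/
theorem silverPrikry : StMain := by
  have hCL := sp_CL
  have hNP := sp_NP
  have hDS := sp_DS hCL hNP
  have hPF := sp_PF
  have hCA := sp_CA hDS hPF
  have hMA := sp_MA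
  have hSU := sp_SU hPF
  have hSM := sp_SM hMA hCA
  have hPI := sp_PI hPF hSU
  have hKn := sp_Kn hDS hPF hSU hPI
  have hAU := sp_AU hPF hSU hPI
  have hNK := sp_NK hNP hMA hCA hPF
  have hTA := sp_TA
  have hUF := sp_UF
  have hRw := sp_Rw hUF
  have hIf := sp_If hUF
  have hEn := sp_En
  have hLq := sp_Lq hEn
  have hIo := sp_Io
  have hMt := sp_Mt hEn hLq hIo
  have hDn := sp_Dn hEn hLq hIo hMt
  have hAL := sp_AL hEn hLq hMt
  have hCB := sp_CB hCA hEn hLq hMt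
  have hGd := sp_Gd hEn hIo hMt
  have hCP := sp_CP hEn hLq hIo hMt hGd hSU hPI
  have hRd := sp_Rd hRw hIf hUF hSU hPI hIo hMt
  have hBK := sp_BK hRd hCP hUF hSU hPI hEn hLq hIo hMt
  have hBS := sp_BS hMA hCB hSM hSU
  have hKE := sp_KE hBS hCL hNK hSM hSU
  have hPL := sp_PL hBK hCP
  have hPC := sp_PC hRw hIf hUF hPI hEn hLq hIo hMt hDn hGd
  have hSq := sp_Sq
  have hGT := sp_GT hSq
  have hIB := sp_IB hSq
  have hBr := sp_Br hSq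
  have hSC := sp_SC hSq
  have hLC := sp_LC hNK
  have hVA := sp_VA
  have hGF := sp_GF
  have hTR := sp_TR hUF hPI hEn hLq hIo hMt hAL hGd hBK hPL
  have hAN := sp_AN hMA hCB hSU hMt hBK
  have hRN := sp_RN hTR hGF hVA hSq
  have hNH := sp_NH hLC hSC hKE hAU hSU hPI hAN hSq hRN hGd hIB
  have hHT := sp_HT hKE hAU hSU hPI hMt hAN hRN hGd hIB
  have hSA := sp_SA hLq
  have hTF := sp_TF
  have hEX := sp_EX hTF hSA
  have hCh := sp_Ch
  have hTw := sp_Tw hLq hTF hEX hCh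
  have hFm := sp_Fm hEn hLq hMt hDn hTF hEX hTw
  have hSp := sp_Sp
  have hFn := sp_Fn hUF hPI hKn hEn hLq hIo hMt hGd hPC hTF hFm hSp
  have hNB := sp_NB hSU hVA hBr hFn
  exact sp_Main hKE hTA hLC hSC hVA hGT hHT hNB hNH

end Pool.MP_d2308b.SP
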