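import Pool.Agent.Work.MP_d2308b_lc.SP.Stmts

/-!
# Block [d2308b SP], item [CL] (helper59): the closure lemma
-/

namespace Pool.MP_d2308b.SP

open Cardinal Set

/-- the shapes of the terms -/
abbrev CLA {X : Type} (θ ν : Cardinal.{0}) (D₀ : Set X) : Type :=
  D₀ ⊕ (θ.ord.ToType × ν.ord.ToType)

/-- the arities -/
def CLB {X : Type} (θ ν : Cardinal.{0}) (D₀ : Set X) : CLA θ ν D₀ → Type
  | .inl _ => Empty
  | .inr bi => Iio bi.1

/-- the evaluation of terms -/
noncomputable def clev {X : Type} (θ ν : Cardinal.{0}) (D₀ : Set X)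
    (en : Set X → ν.ord.ToType → Option X) : WType (CLB θ ν D₀) → Option X
  | ⟨.inl d, _⟩ => some d.1
  | ⟨.inr (_, i), f⟩ => en {x | ∃ j, clev θ ν D₀ en (f j) = some x} i

lemma cl_enum {X : Type} {ν : Cardinal.{0}} (S : Set X) (hS : #S ≤ ν) :
    ∃ f : ν.ord.ToType → Option X, ∀ x ∈ S, ∃ i, f i = some x := by
  classical
  have h1 : #S ≤ #(ν.ord.ToType) := by rwa [mk_ord_toType]
  obtain ⟨e⟩ := h1
  refine ⟨fun i => if h : ∃ x : S, e x = i then some (h.choose).1 else none, fun x hx => ?_⟩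
  refine ⟨e ⟨x, hx⟩, ?_⟩
  have h2 : ∃ y : S, e y = e ⟨x, hx⟩ := ⟨⟨x, hx⟩, rfl⟩
  have h3 : h2.choose = ⟨x, hx⟩ := e.injective h2.choose_spec
  simp only
  rw [dif_pos h2, h3]

lemma cl_card {X : Type} {θ ν : Cardinal.{0}} (h0 : ℵ₀ ≤ ν) (hθ : θ ≤ ν) (hp : ν ^< θ ≤ ν)
    (D₀ : Set X) (hD : #D₀ ≤ ν) : #(WType (CLB θ ν D₀)) ≤ ν := by
  apply WType.cardinalMk_le_of_le
  have h1 : ∀ a : CLA θ ν D₀, ν ^ #(CLB θ ν D₀ a) ≤ ν := by
    rintro (d | ⟨b, i⟩)
    · have : #(CLB θ ν D₀ (.inl d)) = 0 := by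
        change #Empty = 0
        simp
      rw [this, power_zero]
      exact one_le_aleph0.trans h0
    · have h3 : #(Iio b) < θ := by simpa using mk_Iio_lt b (by simp)
      exact (le_powerlt ν h3).trans hp
  refine (sum_le_sum _ _ h1).trans ?_
  rw [sum_const']
  have h4 : #(CLA θ ν D₀) ≤ ν := by
    rw [mk_sum, mk_prod]
    simp only [lift_id, mk_ord_toType]
    calc #D₀ + θ * ν ≤ ν + ν * ν := add_le_add hD (mul_le_mul' hθ le_rfl)
      _ = ν := by rw [mul_eq_self h0, add_eq_self h0]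
  calc #(CLA θ ν D₀) * ν ≤ ν * ν := mul_le_mul' h4 le_rfl
    _ = ν := mul_eq_self h0

theorem sp_CL : StCL := by
  classical
  intro X θ ν h0 hθ hp F hF D₀ hD₀
  have h1 : ∀ w : Set X, ∃ f : ν.ord.ToType → Option X, #w < θ → ∀ x ∈ F w, ∃ i, f i = some x := by
    intro w
    by_cases hw : #w < θ
    · obtain ⟨f, hf⟩ := cl_enum (F w) (hF w hw)
      exact ⟨f, fun _ => hf⟩
    · exact ⟨fun _ => none, fun h => absurd h hw⟩
  choose en hen using h1
  refine ⟨{x | ∃ t, clev θ ν D₀ en t = some x}, ?_, ?_, ?_⟩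
  · intro d hd
    exact ⟨WType.mk (.inl ⟨d, hd⟩) (fun e : Empty => e.elim), by rw [clev]⟩
  · refine le_trans ?_ (cl_card h0 hθ hp D₀ hD₀)
    choose t ht using fun x : {x | ∃ t, clev θ ν D₀ en t = some x} => x.2
    refine mk_le_of_injective (f := t) ?_
    intro x y hxy
    have h2 := ht x
    rw [hxy, ht y] at h2
    exact Subtype.ext (Option.some.inj h2).symm
  · intro w hwD hw x hx
    obtain ⟨b, hb⟩ := exists_Iio hw
    obtain ⟨e⟩ := Cardinal.eq.1 hb
    choose t ht using fun y : w => hwD y.2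
    let f : Iio b → WType (CLB θ ν D₀) := fun j => t (e j)
    have h3 : {y | ∃ j, clev θ ν D₀ en (f j) = some y} = w := by
      ext y
      constructor
      · rintro ⟨j, hj⟩
        have h4 := ht (e j)
        have h5 : some (e j).1 = some y := h4.symm.trans hj
        have h6 : (e j).1 = y := Option.some.inj h5
        rw [← h6]
        exact (e j).2
      · intro hy
        refine ⟨e.symm ⟨y, hy⟩, ?_⟩
        change clev θ ν D₀ en (t (e (e.symm ⟨y, hy⟩))) = some y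
        rw [e.apply_symm_apply]
        exact ht ⟨y, hy⟩
    obtain ⟨i, hi⟩ := hen w hw x hx
    refine ⟨WType.mk (.inr (b, i)) f, ?_⟩
    rw [clev]
    rw [← hi]
    exact congrArg (fun s => en s i) h3

end Pool.MP_d2308b.SP
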