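import Pool.Agent.Work.MP_d2308b_lc.SP.Stmts2

/-!
# Block [d2308b SP], item [Fm] (helper59): existence of the data
-/

namespace Pool.MP_d2308b.SP

open Cardinal Set

lemma fm_iInf {A : Type} [CompleteBooleanAlgebra A] {P : A → Prop}
    (hP : ∀ S : Set A, (∀ x ∈ S, P x) → P (sInf S)) {I : Sort*} (f : I → A)
    (hf : ∀ i, P (f i)) : P (⨅ i, f i) := by
  refine hP (range f) ?_
  rintro _ ⟨i, rfl⟩
  exact hf i

lemma fm_inf {A : Type} [CompleteBooleanAlgebra A] {P : A → Prop}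
    (hP : ∀ S : Set A, (∀ x ∈ S, P x) → P (sInf S)) {x y : A} (hx : P x) (hy : P y) :
    P (x ⊓ y) := by
  rw [← sInf_pair]
  refine hP _ ?_
  rintro z (rfl | hz)
  · exact hx
  · rw [mem_singleton_iff] at hz
    rw [hz]; exact hy

lemma fm_ZF {κ : Cardinal.{0}} {A T Λ L : Type} [CompleteBooleanAlgebra A] [LinearOrder Λ]
    [Inhabited L] {P : A → Prop} (hP : ∀ S : Set A, (∀ x ∈ S, P x) → P (sInf S))
    (raw : L → Lb κ A T) (hraw : ∀ l, LbP P (raw l)) (σ : Sq Λ L) (g : Λ)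
    (F : Finset (Λ × Mo κ)) (α : Mo κ) : P (ZF (rho raw σ) g F α) := by
  refine fm_inf hP ((hraw _).1.2 α) ?_
  refine fm_iInf hP _ fun x => fm_iInf hP _ fun _ => ?_
  exact ((hraw _).2 _).2 α

lemma fm_R0 {κ : Cardinal.{0}} {A B T Λ : Type} [CompleteBooleanAlgebra A]
    [CompleteBooleanAlgebra B] [LinearOrder Λ] (ι : A → B) (h : Finset (Mo κ) → B) (π : A → A)
    (R : T → T → B) (P : A → Prop) (ρ : Λ → Lb κ A T) (a g : Λ) (hg : g < a) :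
    rval ι h π R P ρ a ≤ gd ι h π (ρ g).1 :=
  ((inf_le_left.trans inf_le_left).trans inf_le_left).trans (iInf₂_le g hg)

theorem sp_Fm (hEn : StEn) (hLq : StLq) (hMt : StMt) (hDn : StDn) (hTF : StTF) (hEX : StEX)
    (hTw : StTw) : StFm := by
  intro κ A B T L _ _ _ U ι h π R P raw v W hU hPr hG hWA hP hraw hW g b
  have En := hEn (Mo κ)
  have Lq := hLq κ A
  have Mt := hMt κ A B U ι h hU hPr
  -- the first state
  obtain ⟨⟨σ₀, hσ₀⟩, y₀, hy₀, hy₀v, hy₀W⟩ := ex_sup hW.ne (hW.long (max g b))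
  have hg0 : g < σ₀.lh := (le_max_left g b).trans_lt hσ₀
  have hZ0 : ZF (rho raw σ₀) g ∅ = (rho raw σ₀ g).1.2.2 := by
    funext α
    simp [ZF]
  have hS₀ : Stt ι h π P raw W g σ₀ (rho raw σ₀ g).1.1 (rho raw σ₀ g).1.2.1 ∅ y₀ := by
    refine ⟨hy₀, hy₀W, hg0, ⟨⟨(hraw _).1.1, le_rfl, ?_⟩, ?_⟩, ?_⟩
    · intro x hx
      exact absurd hx (Finset.notMem_empty x)
    · rw [hZ0]
      exact Lq.refl _
    · rw [hZ0]
      exact (hy₀W.trans (hW.val σ₀)).trans (fm_R0 ι h π R P _ _ g hg0)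
  obtain ⟨σ₁, i, r₁, u₁, F₁, y₁, hs01, hb1, hy10, S₁, -, -, -, leb1⟩ :=
    hEX κ A B T L ι h π R P raw v W hP hraw hW g σ₀ _ _ ∅ y₀ hS₀ b
  obtain ⟨σ₂, c, y₂, j, r₂, u₂, F₂, hσ, hc, hy21, S₂, le1, lec, tne, inc0, inc1⟩ :=
    hTw κ A B T L ι h π R P raw v W hG hWA hP hraw hW g σ₁ r₁ u₁ F₁ y₁ S₁
  have hlab : rho raw σ₁ b = rho raw σ₂ b := by
    rcases hσ with rfl | hσ
    · rfl
    · exact (hTF κ A T (La κ) L raw P σ₁ σ₂ hσ).1 b hb1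
  have hb2 : b < σ₂.lh := by
    rcases hσ with rfl | hσ
    · exact hb1
    · exact hb1.trans hσ.1
  have leb2 : ∀ k, Le (r₂ k, u₂ k, ZF (rho raw σ₂) g (F₂ k)) ((rho raw σ₂ b).2 i).1 := by
    intro k
    rw [← hlab]
    exact Lq.trans _ _ _ (le1 k) leb1
  have hyh : ∀ k, y₂ ≤ h (u₂ k) := fun k => (S₂ k).gdl.trans (hG.le_h _)
  -- the condition
  have hR0 : Rl U ((⊤ : A), (∅ : Finset (Mo κ)), fun _ => (⊤ : A)) := by
    change ⊤ ≤ U (fun _ => ⊤)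
    rw [hU.top]
  have hcv0 : cv ι h ((⊤ : A), (∅ : Finset (Mo κ)), fun _ => (⊤ : A)) = ⊤ := by
    rw [Mt.cv_stem, hPr.emp]
  obtain ⟨q₁, hq1, hr1, hc1, -, he1⟩ := hDn κ A B U ι h hU hPr _ (u₂ false) y₂ hR0
    (S₂ false).ne (le_inf (by rw [hcv0]; exact le_top) (hyh false))
  obtain ⟨q, hq, hr, hcq, hle, he2⟩ := hDn κ A B U ι h hU hPr q₁ (u₂ true) (cv ι h q₁) hr1
    (hPr.ne q₁ hq1 hr1) (le_inf le_rfl (hc1.trans (hyh true)))
  have hcy : cv ι h q ≤ y₂ := hcq.trans hc1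
  have hends : ∀ k, Ends (u₂ k) q.2.1 := by
    rintro (_ | _)
    · exact En.trans _ _ _ he1 hle.2.1
    · exact he2
  have hlew : ∀ k, Le (r₂ k ⊓ ⨅ α ∈ q.2.1 \ u₂ k, ZF (rho raw σ₂) g (F₂ k) α, q.2.1,
      ZF (rho raw σ₂) g (F₂ k)) (r₂ k, u₂ k, ZF (rho raw σ₂) g (F₂ k)) := fun k =>
    ⟨inf_le_left, hends k, inf_le_right, fun _ => le_rfl⟩
  exact ⟨{
    q := q
    σ := σ₂
    i := i
    c := c
    j := j
    r := fun k => r₂ k ⊓ ⨅ α ∈ q.2.1 \ u₂ k, ZF (rho raw σ₂) g (F₂ k) α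
    F := F₂
    ne := hq
    real := hr
    leW := hcy.trans (S₂ false).leW
    hg := (S₂ false).hg
    hb := hb2
    hc := hc
    lt := fun k => by
      obtain ⟨h1, h2, h3⟩ := (S₂ k).lg.1
      refine ⟨fm_inf hP h1 ?_, inf_le_left.trans h2, fun x hx =>
        ⟨(h3 x hx).1, inf_le_left.trans (h3 x hx).2⟩⟩
      exact fm_iInf hP _ fun α => fm_iInf hP _ fun _ => fm_ZF hP raw hraw σ₂ g (F₂ k) α
    gdl := fun k => (le_inf (hcy.trans (S₂ k).gdl) (Mt.le_h q)).trans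
      (hG.step (r₂ k, u₂ k, ZF (rho raw σ₂) g (F₂ k)) q.2.1 (hends k))
    leb := fun k => Lq.trans _ _ _ (hlew k) (leb2 k)
    lec := fun k => Lq.trans _ _ _ (hlew k) (lec k)
    tne := tne
    inc₀ := le_bot_iff.1 ((inf_le_inf_right _ hcy).trans inc0.le)
    inc₁ := le_bot_iff.1 ((inf_le_inf_right _ hcy).trans inc1.le) }⟩

end Pool.MP_d2308b.SP
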