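import Pool.Agent.Work.MP_d2308b_lc.SP.Stmts

/-! Block [d2308b SP], item Kn (helper15): the Knaster type lemma. -/

set_option autoImplicit false

namespace Pool.MP_d2308b.SP

open Cardinal Set

section Kn

variable {κ : Cardinal.{0}} {J A : Type} [CompleteBooleanAlgebra A] {g : J → A}

theorem Kn_rs_mem {K : Set J} {p : J → Option Bool} {x : J} {b : Bool} :
    rs K p x = some b ↔ x ∈ K ∧ p x = some b := by
  unfold rs
  split_ifs with h
  · simp [h]
  · simp [h]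

theorem Kn_pull (hPF : PFs κ g) (K : Set J) (p u : J → Option Bool) (hp : #(dm p) < κ)
    (hu : #(dm u) < κ) (h : Ext (rs K p) u) :
    ∃ p', #(dm p') < κ ∧ bas g p' ≤ bas g p ∧ rs K p' = rs K u := by
  refine ⟨jn (rs K u) p, hPF.jn_small _ _ (hPF.rs_small K u hu) hp, ?_, ?_⟩
  · rw [hPF.jn_bas _ _ ?_]
    · exact inf_le_right
    · intro x b c hb hc
      rw [Kn_rs_mem] at hb
      have h1 : u x = some c := h x c (Kn_rs_mem.2 ⟨hb.1, hc⟩)
      rw [hb.2] at h1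
      exact Option.some.inj h1
  · funext x
    by_cases hx : x ∈ K
    · have e1 : rs K (jn (rs K u) p) x = jn (rs K u) p x := by simp [rs, hx]
      have e2 : rs K u x = u x := by simp [rs, hx]
      have e3 : rs K p x = p x := by simp [rs, hx]
      rw [e1, e2]
      unfold jn
      rw [e2]
      rcases hux : u x with _ | b
      · rcases hpx : p x with _ | c
        · rfl
        · have h1 := h x c (by rw [e3]; exact hpx)
          rw [hux] at h1
          exact absurd h1 (by simp)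
      · rfl
    · simp [rs, hx]

theorem Kn_step (hC : Cohen κ g) (hPF : PFs κ g) (hSU : SUs κ g) (K : Set J) (hPI : PIs κ g K)
    (p : J → Option Bool) (r : A) (hp : #(dm p) < κ) (h : bas g p ≤ pj κ g K r) :
    ∃ u, #(dm u) < κ ∧ bas g u ≤ r ∧ Ext (rs K p) u := by
  have h1 : bas g (rs K p) ⊓ pj κ g K r ≠ ⊥ := by
    intro h0
    have h2 : bas g p ≤ bas g (rs K p) ⊓ pj κ g K r := le_inf (hPF.bas_rs K p) h
    rw [h0] at h2
    exact hC.ne p hp (le_bot_iff.1 h2)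
  have h3 := hPI.meet _ _ (hSU.basic K (rs K p) (hPF.rs_small K p hp) (hPF.rs_dm K p)) h1
  obtain ⟨u, hu, hle⟩ := hC.dense _ h3
  exact ⟨u, hu, hle.trans inf_le_right, hPF.ext_of_le u (rs K p) hu (hle.trans inf_le_left)⟩

theorem Kn_tri (hC : Cohen κ g) (hPF : PFs κ g) (hSU : SUs κ g) (K : Set J) (hPI : PIs κ g K)
    (a : A) (r : Bool → A) (ha : a ≠ ⊥) (h : ∀ k, a ≤ pj κ g K (r k)) :
    ∃ (P : J → Option Bool) (V : Bool → J → Option Bool), #(dm P) < κ ∧ (∀ k, #(dm (V k)) < κ) ∧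
      bas g P ≤ a ∧ (∀ k, bas g (V k) ≤ r k) ∧ ∀ k, rs K P = rs K (V k) := by
  obtain ⟨p₀, hp₀, hle₀⟩ := hC.dense a ha
  obtain ⟨u₀, hu₀, hur₀, hext₀⟩ := Kn_step hC hPF hSU K hPI p₀ (r false) hp₀
    (hle₀.trans (h false))
  obtain ⟨p₁, hp₁, hpp₁, hrs₁⟩ := Kn_pull hPF K p₀ u₀ hp₀ hu₀ hext₀
  obtain ⟨u₁, hu₁, hur₁, hext₁⟩ := Kn_step hC hPF hSU K hPI p₁ (r true) hp₁
    ((hpp₁.trans hle₀).trans (h true))
  obtain ⟨p₂, hp₂, hpp₂, hrs₂⟩ := Kn_pull hPF K p₁ u₁ hp₁ hu₁ hext₁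
  rw [hrs₁] at hext₁
  obtain ⟨v₀, hv₀, hvu₀, hrs₃⟩ := Kn_pull hPF K u₀ u₁ hu₀ hu₁ hext₁
  refine ⟨p₂, fun k => if k then u₁ else v₀, hp₂, ?_, (hpp₂.trans hpp₁).trans hle₀, ?_, ?_⟩
  · intro k
    cases k
    · exact hv₀
    · exact hu₁
  · intro k
    cases k
    · exact hvu₀.trans hur₀
    · exact hur₁
  · intro k
    cases k
    · exact hrs₂.trans hrs₃.symm
    · exact hrs₂

theorem Kn_le_pj (hPF : PFs κ g) (K : Set J) (P V : J → Option Bool) (x : A)
    (hV : #(dm V) < κ) (hle : bas g V ≤ x) (h : rs K P = rs K V) : bas g P ≤ pj κ g K x := by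
  refine (hPF.bas_rs K P).trans ?_
  rw [h]
  exact le_iSup (fun p : {p : J → Option Bool // #(dm p) < κ ∧ bas g p ≤ x} => bas g (rs K p.1))
    ⟨V, hV, hle⟩

theorem Kn_fin (hC : Cohen κ g) (hPF : PFs κ g) (K : Set J) (a a' : A) (r r' : Bool → A)
    (P P' : J → Option Bool) (V V' : Bool → J → Option Bool)
    (hP : #(dm P) < κ) (hV : ∀ k, #(dm (V k)) < κ) (hPa : bas g P ≤ a)
    (hVr : ∀ k, bas g (V k) ≤ r k) (hrs : ∀ k, rs K P = rs K (V k))
    (hP' : #(dm P') < κ) (hV' : ∀ k, #(dm (V' k)) < κ) (hPa' : bas g P' ≤ a')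
    (hVr' : ∀ k, bas g (V' k) ≤ r' k) (hrs' : ∀ k, rs K P' = rs K (V' k))
    (hcP : Cpt P P') (hcV : ∀ k, Cpt (V k) (V' k)) :
    a ⊓ a' ⊓ pj κ g K (r false ⊓ r' false) ⊓ pj κ g K (r true ⊓ r' true) ≠ ⊥ := by
  have hb : bas g (jn P P') = bas g P ⊓ bas g P' := hPF.jn_bas _ _ hcP
  have hne : bas g (jn P P') ≠ ⊥ := hC.ne _ (hPF.jn_small _ _ hP hP')
  have hk : ∀ k, bas g (jn P P') ≤ pj κ g K (r k ⊓ r' k) := by
    intro k
    refine Kn_le_pj hPF K (jn P P') (jn (V k) (V' k)) _ (hPF.jn_small _ _ (hV k) (hV' k)) ?_ ?_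
    · rw [hPF.jn_bas _ _ (hcV k)]
      exact inf_le_inf (hVr k) (hVr' k)
    · rw [hPF.jn_rs, hPF.jn_rs, hrs k, hrs' k]
  intro h0
  have h1 : bas g (jn P P') ≤ a ⊓ a' ⊓ pj κ g K (r false ⊓ r' false) ⊓
      pj κ g K (r true ⊓ r' true) := by
    refine le_inf (le_inf ?_ (hk false)) (hk true)
    rw [hb]
    exact inf_le_inf hPa hPa'
  rw [h0] at h1
  exact hne (le_bot_iff.1 h1)

theorem Kn_small (hκ : ℵ₀ ≤ κ) (P : J → Option Bool) (V : Bool → J → Option Bool)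
    (hP : #(dm P) < κ) (hV : ∀ k, #(dm (V k)) < κ) :
    #(dm (fun y : J × Option Bool => match y.2 with
      | none => P y.1
      | some k => V k y.1)) < κ := by
  have hsub : dm (fun y : J × Option Bool => match y.2 with
      | none => P y.1
      | some k => V k y.1) ⊆ ((fun x => (x, none)) '' dm P) ∪
        (((fun x => (x, some false)) '' dm (V false)) ∪
          ((fun x => (x, some true)) '' dm (V true))) := by
    rintro ⟨x, o⟩ hx
    rcases o with _ | k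
    · exact Or.inl ⟨x, hx, rfl⟩
    · cases k
      · exact Or.inr (Or.inl ⟨x, hx, rfl⟩)
      · exact Or.inr (Or.inr ⟨x, hx, rfl⟩)
  refine lt_of_le_of_lt (mk_le_mk_of_subset hsub) ?_
  refine lt_of_le_of_lt (mk_union_le _ _) (add_lt_of_lt hκ ?_ ?_)
  · exact lt_of_le_of_lt mk_image_le hP
  · refine lt_of_le_of_lt (mk_union_le _ _) (add_lt_of_lt hκ ?_ ?_)
    · exact lt_of_le_of_lt mk_image_le (hV false)
    · exact lt_of_le_of_lt mk_image_le (hV true)

end Kn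

/-- [Kn] -/
theorem sp_Kn (hDS : StDS) (hPF : StPF) (hSU : StSU) (hPI : StPI) : StKn := by
  intro κ J A _ g hcrd hC K p r hp hr
  have hκ : ℵ₀ ≤ κ := hcrd.unc.le
  have hpf := hPF κ J A g hκ hC
  have hsu := hSU κ J A g hκ hC
  have hpi := hPI κ J A g K hκ hC
  have htri := fun a => Kn_tri hC hpf hsu K hpi (p a) (r a) (hp a) (hr a)
  choose P V hP hV hPa hVr hrs using htri
  obtain ⟨i, j, hij, hcpt⟩ := hDS κ (J × Option Bool) (La κ) hκ hcrd.pow
    (fun a => fun y : J × Option Bool => match y.2 with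
      | none => P a y.1
      | some k => V a k y.1)
    (fun a => Kn_small hκ (P a) (V a) (hP a) (hV a)) (by
      rw [mk_ord_toType]
      exact Order.lt_succ κ)
  have hcP : Cpt (P i) (P j) := fun x b c hb hc => hcpt (x, none) b c hb hc
  have hcV : ∀ k, Cpt (V i k) (V j k) := fun k x b c hb hc => hcpt (x, some k) b c hb hc
  rcases lt_or_gt_of_ne hij with h | h
  · exact ⟨i, j, h, Kn_fin hC hpf K _ _ _ _ (P i) (P j) (V i) (V j) (hP i) (hV i) (hPa i) (hVr i)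
      (hrs i) (hP j) (hV j) (hPa j) (hVr j) (hrs j) hcP hcV⟩
  · exact ⟨j, i, h, Kn_fin hC hpf K _ _ _ _ (P j) (P i) (V j) (V i) (hP j) (hV j) (hPa j) (hVr j)
      (hrs j) (hP i) (hV i) (hPa i) (hVr i) (hrs i) (hpf.cpt_comm _ _ hcP)
      (fun k => hpf.cpt_comm _ _ (hcV k))⟩

end Pool.MP_d2308b.SP
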