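import Pool.Agent.Work.MP_d2308b_lc.SP.Stmts

set_option autoImplicit false

namespace Pool.MP_d2308b.SP

open Cardinal Set

section

variable {κ : Cardinal.{0}} {A B : Type} [CompleteBooleanAlgebra A] [CompleteBooleanAlgebra B]

lemma Mt_le_cv (ι : A → B) (h : Finset (Mo κ) → B) (q : Cn κ A) (p : B) (h1 : p ≤ ι q.1)
    (h2 : p ≤ h q.2.1)
    (h3 : ∀ t, Ends q.2.1 t → p ⊓ h t ≤ ⨅ α ∈ t \ q.2.1, ι (q.2.2 α)) : p ≤ cv ι h q := by
  unfold cv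
  refine le_inf (le_inf h1 h2) (le_iInf₂ fun t ht => ?_)
  calc p = p ⊓ h t ⊔ p ⊓ (h t)ᶜ := sup_inf_inf_compl.symm
    _ ≤ (⨅ α ∈ t \ q.2.1, ι (q.2.2 α)) ⊔ (h t)ᶜ := sup_le_sup (h3 t ht) inf_le_right
    _ = (h t)ᶜ ⊔ ⨅ α ∈ t \ q.2.1, ι (q.2.2 α) := sup_comm _ _

lemma Mt_le_h (ι : A → B) (h : Finset (Mo κ) → B) (q : Cn κ A) : cv ι h q ≤ h q.2.1 :=
  inf_le_left.trans inf_le_right

lemma Mt_le_iota (ι : A → B) (h : Finset (Mo κ) → B) (q : Cn κ A) : cv ι h q ≤ ι q.1 :=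
  inf_le_left.trans inf_le_left

lemma Mt_le_ends (ι : A → B) (h : Finset (Mo κ) → B) (q : Cn κ A) (t : Finset (Mo κ))
    (hE : Ends q.2.1 t) : cv ι h q ⊓ h t ≤ ⨅ α ∈ t \ q.2.1, ι (q.2.2 α) := by
  have h1 : cv ι h q ≤ (h t)ᶜ ⊔ ⨅ α ∈ t \ q.2.1, ι (q.2.2 α) :=
    inf_le_right.trans (iInf₂_le t hE)
  calc cv ι h q ⊓ h t ≤ ((h t)ᶜ ⊔ ⨅ α ∈ t \ q.2.1, ι (q.2.2 α)) ⊓ h t := inf_le_inf_right _ h1
    _ = ((h t)ᶜ ⊓ h t) ⊔ ((⨅ α ∈ t \ q.2.1, ι (q.2.2 α)) ⊓ h t) := inf_sup_right _ _ _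
    _ ≤ ⨅ α ∈ t \ q.2.1, ι (q.2.2 α) := by
        rw [compl_inf_self, bot_sup_eq]
        exact inf_le_left

lemma Mt_ends_one (ι : A → B) (h : Finset (Mo κ) → B) (q : Cn κ A) (t : Finset (Mo κ))
    (hE : Ends q.2.1 t) (α : Mo κ) (h1 : α ∈ t) (h2 : α ∉ q.2.1) :
    cv ι h q ⊓ h t ≤ ι (q.2.2 α) :=
  (Mt_le_ends ι h q t hE).trans (iInf₂_le α (Finset.mem_sdiff.mpr ⟨h1, h2⟩))

lemma Mt_mono (U : (Mo κ → A) → A) (ι : A → B) (h : Finset (Mo κ) → B) (hP : Prik U ι h)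
    (hI : Ios ι) (q' q : Cn κ A) (hq : Le q' q) : cv ι h q' ≤ cv ι h q := by
  obtain ⟨h1, h2, h3, h4⟩ := hq
  refine Mt_le_cv ι h q _ ((Mt_le_iota ι h q').trans (hI.mono _ _ h1))
    ((Mt_le_h ι h q').trans (hP.mono _ _ h2)) fun t ht => ?_
  have hone : ∀ α ∈ q'.2.1, α ∉ q.2.1 → cv ι h q' ⊓ h t ≤ ι (q.2.2 α) := by
    intro α ha1 ha2
    refine inf_le_left.trans ((Mt_le_iota ι h q').trans (hI.mono _ _ (h3.trans ?_)))
    exact iInf₂_le α (Finset.mem_sdiff.mpr ⟨ha1, ha2⟩)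
  by_cases hA : Ends q'.2.1 t
  · refine le_iInf₂ fun α hα => ?_
    rw [Finset.mem_sdiff] at hα
    by_cases hα' : α ∈ q'.2.1
    · exact hone α hα' hα.2
    · exact (Mt_ends_one ι h q' t hA α hα.1 hα').trans (hI.mono _ _ (h4 α))
  · by_cases hB : Ends t q'.2.1
    · refine le_iInf₂ fun α hα => ?_
      rw [Finset.mem_sdiff] at hα
      exact hone α (hB.1 hα.1) hα.2
    · have h5 := hP.disj _ _ hA hB
      calc cv ι h q' ⊓ h t ≤ h q'.2.1 ⊓ h t := inf_le_inf_right _ (Mt_le_h ι h q')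
        _ = ⊥ := h5
        _ ≤ _ := bot_le

lemma Mt_mg_le (hE : Ens (Mo κ)) (ι : A → B) (h : Finset (Mo κ) → B)
    (hI : Ios ι) (q q' : Cn κ A) (u : Finset (Mo κ)) (h1 : Ends q.2.1 u) (h2 : Ends q'.2.1 u) :
    cv ι h q ⊓ cv ι h q' ⊓ h u ≤ cv ι h (mg q q' u) := by
  have hl : cv ι h q ⊓ cv ι h q' ⊓ h u ≤ cv ι h q ⊓ h u := inf_le_inf_right _ inf_le_left
  have hr : cv ι h q ⊓ cv ι h q' ⊓ h u ≤ cv ι h q' ⊓ h u := inf_le_inf_right _ inf_le_right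
  refine Mt_le_cv ι h (mg q q' u) _ ?_ inf_le_right fun t ht => ?_
  · show _ ≤ ι (q.1 ⊓ q'.1 ⊓ (⨅ α ∈ u \ q.2.1, q.2.2 α) ⊓ (⨅ α ∈ u \ q'.2.1, q'.2.2 α))
    rw [hI.inf, hI.inf, hI.inf, hI.biInf (Mo κ) (fun α => α ∈ u \ q.2.1) (fun α => q.2.2 α),
      hI.biInf (Mo κ) (fun α => α ∈ u \ q'.2.1) (fun α => q'.2.2 α)]
    refine le_inf (le_inf (le_inf ?_ ?_) ?_) ?_
    · exact (hl.trans inf_le_left).trans (Mt_le_iota ι h q)
    · exact (hr.trans inf_le_left).trans (Mt_le_iota ι h q')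
    · exact hl.trans (Mt_le_ends ι h q u h1)
    · exact hr.trans (Mt_le_ends ι h q' u h2)
  · have ht' : Ends u t := ht
    refine le_iInf₂ fun α hα => ?_
    have hα' : α ∈ t \ u := hα
    rw [Finset.mem_sdiff] at hα'
    show _ ≤ ι (q.2.2 α ⊓ q'.2.2 α)
    rw [hI.inf]
    refine le_inf ?_ ?_
    · refine le_trans (inf_le_inf_right _ (hl.trans inf_le_left)) ?_
      exact Mt_ends_one ι h q t (hE.trans _ _ _ h1 ht') α hα'.1 (fun hc => hα'.2 (h1.1 hc))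
    · refine le_trans (inf_le_inf_right _ (hr.trans inf_le_left)) ?_
      exact Mt_ends_one ι h q' t (hE.trans _ _ _ h2 ht') α hα'.1 (fun hc => hα'.2 (h2.1 hc))

lemma Mt_meet (hE : Ens (Mo κ)) (U : (Mo κ → A) → A) (ι : A → B) (h : Finset (Mo κ) → B)
    (hP : Prik U ι h) (hI : Ios ι) (q q' : Cn κ A) : cv ι h q ⊓ cv ι h q' ≤
    ⨆ u, ⨆ (_ : Ends q.2.1 u), ⨆ (_ : Ends q'.2.1 u), cv ι h (mg q q' u) := by
  by_cases hA : Ends q.2.1 q'.2.1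
  · refine le_trans ?_ (le_iSup_of_le q'.2.1 (le_iSup_of_le hA
      (le_iSup_of_le (hE.refl _) (le_refl _))))
    refine le_trans ?_ (Mt_mg_le hE ι h hI q q' q'.2.1 hA (hE.refl _))
    exact le_inf (le_refl _) (inf_le_right.trans (Mt_le_h ι h q'))
  · by_cases hB : Ends q'.2.1 q.2.1
    · refine le_trans ?_ (le_iSup_of_le q.2.1 (le_iSup_of_le (hE.refl _)
        (le_iSup_of_le hB (le_refl _))))
      refine le_trans ?_ (Mt_mg_le hE ι h hI q q' q.2.1 (hE.refl _) hB)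
      exact le_inf (le_refl _) (inf_le_left.trans (Mt_le_h ι h q))
    · have h5 := hP.disj _ _ hA hB
      calc cv ι h q ⊓ cv ι h q' ≤ h q.2.1 ⊓ h q'.2.1 :=
            inf_le_inf (Mt_le_h ι h q) (Mt_le_h ι h q')
        _ = ⊥ := h5
        _ ≤ _ := bot_le

end

theorem sp_Mt (hEn : StEn) (hLq : StLq) (hIo : StIo) : StMt := by
  have _ := hLq
  intro κ A B _ _ U ι h hN hP
  have hE : Ens (Mo κ) := hEn (Mo κ)
  have hI : Ios ι := hIo κ A B U ι h hP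
  refine ⟨Mt_le_h ι h, Mt_le_iota ι h, Mt_le_ends ι h, Mt_mono U ι h hP hI, ?_,
    Mt_mg_le hE ι h hI, Mt_meet hE U ι h hP hI, ?_, ?_, ?_, ?_, ?_⟩
  · -- real_mg
    intro q q' u h1 h2
    show q.1 ⊓ q'.1 ⊓ (⨅ α ∈ u \ q.2.1, q.2.2 α) ⊓ (⨅ α ∈ u \ q'.2.1, q'.2.2 α) ≤
      U (fun α => q.2.2 α ⊓ q'.2.2 α)
    refine le_trans ?_ (hN.inf _ _)
    exact (inf_le_left.trans inf_le_left).trans (inf_le_inf h1 h2)
  · -- ne_fst
    intro q hq h0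
    apply hq
    have := Mt_le_iota ι h q
    rw [h0, hI.bot] at this
    exact le_bot_iff.mp this
  · -- le_fst
    intro q a hR hle
    by_contra hcon
    have hne : q.1 ⊓ aᶜ ≠ ⊥ := fun h0 => hcon (disjoint_compl_right_iff.mp (disjoint_iff.mpr h0))
    have hR' : Rl U ((q.1 ⊓ aᶜ, q.2.1, q.2.2) : Cn κ A) := le_trans inf_le_left hR
    have h1 := hP.ne (q.1 ⊓ aᶜ, q.2.1, q.2.2) hne hR'
    apply h1
    have hLe : Le ((q.1 ⊓ aᶜ, q.2.1, q.2.2) : Cn κ A) q := by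
      refine ⟨inf_le_left, hE.refl _, ?_, fun α => le_refl _⟩
      refine le_iInf₂ fun α hα => ?_
      have hα' : α ∈ q.2.1 \ q.2.1 := hα
      rw [Finset.mem_sdiff] at hα'
      exact absurd hα'.1 hα'.2
    have h2 := (Mt_mono U ι h hP hI _ _ hLe).trans hle
    have h3 : cv ι h ((q.1 ⊓ aᶜ, q.2.1, q.2.2) : Cn κ A) ≤ (ι a)ᶜ := by
      rw [← hP.compl]
      exact (Mt_le_iota ι h _).trans (hI.mono _ _ inf_le_right)
    exact le_bot_iff.mp ((le_inf h2 h3).trans (le_of_eq (inf_compl_self (a := ι a))))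
  · -- stem
    intro q s hne
    by_contra hcon
    rw [not_or] at hcon
    apply hne
    refine le_bot_iff.mp ((inf_le_inf_right _ (Mt_le_h ι h q)).trans (le_of_eq ?_))
    exact hP.disj _ _ hcon.1 hcon.2
  · -- cv_stem
    intro s
    refine le_antisymm (Mt_le_h ι h _) (Mt_le_cv ι h _ _ ?_ (le_refl _) fun t _ => ?_)
    · show h s ≤ ι ⊤
      rw [hI.top]
      exact le_top
    · refine le_iInf₂ fun α _ => ?_
      show _ ≤ ι ⊤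
      rw [hI.top]
      exact le_top
  · -- cv_iota
    intro a
    refine le_antisymm (Mt_le_iota ι h _) (Mt_le_cv ι h _ _ (le_refl _) ?_ fun t _ => ?_)
    · show ι a ≤ h ∅
      rw [hP.emp]
      exact le_top
    · refine le_iInf₂ fun α _ => ?_
      show _ ≤ ι ⊤
      rw [hI.top]
      exact le_top

end Pool.MP_d2308b.SP
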