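import Pool.Agent.Work.MP_d2308b_lc.SP.Stmts

set_option autoImplicit false

/-!
# Block [d2308b SP], item PL: the projection lemma
-/

namespace Pool.MP_d2308b.SP

open Cardinal Set

theorem sp_PL (hBK : StBK) (hCP : StCP) : StPL := by
  intro κ J A B _ _ g U ι h hs K hK q b hq hb hqb
  by_contra hne
  have hy : gd ι h (pj κ g K) q ⊓ bᶜ ≠ ⊥ := by
    intro h0
    exact hne (disjoint_compl_right_iff.1 (disjoint_iff.2 h0))
  have hbc := (hBK κ J A B g U ι h hs K hK).compl b hb
  obtain ⟨c, hKC, hRl, hcb, hcy⟩ := hbc _ hy inf_le_right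
  have h1 : gd ι h (pj κ g K) q ⊓ cv ι h c ≠ ⊥ := by
    intro h0
    apply hcy
    rw [← le_bot_iff, ← h0]
    exact le_inf (inf_le_right.trans inf_le_left) inf_le_left
  refine hCP κ J A B g U ι h hs K q c hq hRl hKC h1 ?_
  rw [← le_bot_iff, ← inf_compl_eq_bot (a := b)]
  exact inf_le_inf hqb hcb

end Pool.MP_d2308b.SP
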