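import Pool.Agent.Work.MP_d2308b_lc.SP.Stmts2

/-!
# Block [d2308b SP]: item TR (true runs)
-/

namespace Pool.MP_d2308b.SP

open Cardinal Set

lemma TR_imp {B : Type} [CompleteBooleanAlgebra B] {x y : B} (hxy : x ≤ y) (z : B) :
    z ≤ xᶜ ⊔ y := by
  calc z ≤ ⊤ := le_top
    _ = xᶜ ⊔ x := compl_sup_eq_top.symm
    _ ≤ xᶜ ⊔ y := sup_le_sup_left hxy _

lemma TR_real {κ : Cardinal.{0}} {A T Λ : Type} [CompleteBooleanAlgebra A] [LinearOrder Λ]
    {U : (Mo κ → A) → A} (nor : Nor U) (uf : UFs U) (q : Cn κ A) (m : Λ → Mo κ → Cn κ A × T)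
    (a : Λ) (hq : Rl U q) (hm : ∀ b, b < a → ∀ i, Rl U (m b i).1) (g : Λ) (r : A)
    (F : Finset (Λ × Mo κ))
    (hL : Lt (fun _ => True) (fun b => ((q, m b) : Lb κ A T)) g a r F) :
    r ≤ U (ZF (fun b => ((q, m b) : Lb κ A T)) g F) := by
  obtain ⟨-, h1, h2⟩ := hL
  have key : ∀ G : Finset (Λ × Mo κ), (∀ x ∈ G, x.1 < a ∧ r ≤ (m x.1 x.2).1.1) →
      r ≤ U (fun α => ⨅ x ∈ G, (m x.1 x.2).1.2.2 α) := by
    classical
    intro G
    induction G using Finset.induction_on with
    | empty =>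
      intro _
      have : (fun α : Mo κ => ⨅ x ∈ (∅ : Finset (Λ × Mo κ)), (m x.1 x.2).1.2.2 α)
          = fun _ => (⊤ : A) := by
        funext α
        simp
      rw [this, nor.top]
      exact le_top
    | insert y s hy ih =>
      intro hG
      have : (fun α : Mo κ => ⨅ x ∈ insert y s, (m x.1 x.2).1.2.2 α)
          = fun α => (m y.1 y.2).1.2.2 α ⊓ ⨅ x ∈ s, (m x.1 x.2).1.2.2 α := by
        funext α
        rw [Finset.iInf_insert]
      rw [this, uf.inf_eq]
      refine le_inf ?_ (ih fun x hx => hG x (Finset.mem_insert_of_mem hx))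
      have h3 := hG y (Finset.mem_insert_self y s)
      exact h3.2.trans (hm y.1 h3.1 y.2)
  have h4 : U (ZF (fun b => ((q, m b) : Lb κ A T)) g F)
      = U q.2.2 ⊓ U (fun α => ⨅ x ∈ F, (m x.1 x.2).1.2.2 α) := by
    rw [← uf.inf_eq]
    rfl
  rw [h4]
  exact le_inf (le_trans h1 hq) (key F h2)

theorem sp_TR (hUF : StUF) (hPI : StPI) (hEn : StEn) (hLq : StLq) (hIo : StIo) (hMt : StMt)
    (hAL : StAL) (hGd : StGd) (hBK : StBK) (hPL : StPL) : StTR := by
  intro κ J A B _ _ g U ι h hS K hK T Λ _ R hR q m a hq hm hcov hinc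
  have crd := hS.crd
  have coh := hS.coh
  have nor := hS.nor
  have prik := hS.prik
  have hk : ℵ₀ < κ := crd.unc
  have uf : UFs U := hUF κ A U hk nor
  have pi : PIs κ g K := hPI κ J A g K hk.le coh
  have lq : Les κ A := hLq κ A
  have mt := hMt κ A B U ι h nor prik
  have gds := hGd κ A B U ι h (pj κ g K) nor prik pi.mono pi.le
  have bk := hBK κ J A B g U ι h hS K hK
  have pl := hPL κ J A B g U ι h hS K hK
  have realZ := TR_real nor uf q m a hq hm
  unfold rval
  refine le_inf (le_inf (le_inf ?_ ?_) ?_) ?_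
  · exact le_iInf₂ fun _ _ => le_rfl
  · refine le_iInf fun b => le_iInf fun c => le_iInf fun hbc => le_iInf fun i => le_iInf fun j => ?_
    refine TR_imp ?_ _
    unfold cmp
    refine iSup_le fun u => iSup_le fun h1 => iSup_le fun h2 => ?_
    have hb : b < a := hbc.1.trans hbc.2
    refine pl _ _ (mt.real_mg _ _ u (hm b hb i) (hm c hbc.2 j)) (hR _ _) ?_
    refine le_trans (le_inf (mt.mono _ _ (lq.mg_left _ _ u h1 h2))
      (mt.mono _ _ (lq.mg_right _ _ u h1 h2))) (hinc b c hbc.1 hbc.2 i j)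
  · refine le_iInf fun g' => le_iInf fun b => le_iInf fun hgb => le_iInf fun r => le_iInf fun u =>
      le_iInf fun F => le_iInf fun hLg => ?_
    refine TR_imp ?_ _
    have hr := realZ g' r F hLg.1
    refine pl (r, u, ZF (fun b => ((q, m b) : Lb κ A T)) g' F) _ hr ?_ ?_
    · exact bk.iSup _ _ fun i => bk.cmpK _ _
    · have h1 : cv ι h (r, u, ZF (fun b => ((q, m b) : Lb κ A T)) g' F) ≤ cv ι h q :=
        mt.mono _ _ hLg.2
      have h2 := h1.trans (hcov b hgb.2)
      have h3 : cv ι h (r, u, ZF (fun b => ((q, m b) : Lb κ A T)) g' F) ≤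
          ⨆ i, (cv ι h (r, u, ZF (fun b => ((q, m b) : Lb κ A T)) g' F) ⊓ cv ι h (m b i).1) := by
        rw [← inf_iSup_eq]
        exact le_inf le_rfl h2
      refine h3.trans (iSup_mono fun i => ?_)
      refine (mt.meet _ _).trans ?_
      unfold cmp
      refine iSup_mono fun u' => iSup_mono fun _ => iSup_mono fun _ => gds.cv_le _
  · refine le_iInf fun g' => le_iInf fun _ => le_iInf fun r => le_iInf fun F => le_iInf fun hLt => ?_
    refine TR_imp ?_ _
    have hr := realZ g' r F hLt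
    rw [← gds.iota r]
    refine pl _ _ ?_ ?_ ?_
    · show r ≤ U (fun _ => ⊤)
      rw [nor.top]
      exact le_top
    · exact bk.iSup _ _ fun u => bk.gdK _
    · rw [mt.cv_iota]
      refine (hAL κ A B U ι h nor prik r _ hr).trans ?_
      exact iSup_mono fun u => gds.cv_le _

end Pool.MP_d2308b.SP
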