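import Pool.Agent.Work.MP_d2308b_lc.SP.Defs

/-!
# Block [d2308b SP]: statements, part 1 (Cohen algebra, ultrafilter, Prikry part)

Captain: helper94.  THEOREM SP: let `κ` be regular uncountable, `κ^{<κ} = κ`, `2^κ = κ⁺`, `A` the
completion of `Add(κ, J)`, `U` an `A`-name for a normal ultrafilter on `κ`, `B` the completion of
`A * Prikry(U)`.  Then `NoMaximal κ⁺ B`.

RULES.  Item `X` is the file `SP/I_X.lean`, which imports `SP.Stmts` (or `SP.Stmts2`), namespace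
`Pool.MP_d2308b.SP`, and proves `theorem sp_X (hypotheses : StY ...) : StX`.  Every docstring is the
complete proof.  Helper lemmas carry the item name in front.  Useful lemmas of the namespace
`Pool.MP_d2308b` (files Basic, Kurepa, Card): `dense_le` (to prove `a ≤ b` in a complete Boolean
algebra it is enough to find below every `p ≠ ⊥`, `p ≤ a` some `q ≠ ⊥`, `q ≤ p`, `q ≤ b`),
`ex_sup` (`p ≠ ⊥`, `p ≤ ⨆ i, f i` gives `i` and `q ≠ ⊥` with `q ≤ p`, `q ≤ f i`),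
`le_compl_of_inf`, `ne_bot_of_le`, `CC.family`, `regOrd_toType`, `RegOrd.bdd_range`, `exists_Iio`,
`card_seq`, `powerlt_succ_self`, `le_incr`, `incr_tot`, `incr_fun`, `incr_inc`, `minPart_down`,
`minPart_uniq`.
-/

namespace Pool.MP_d2308b.SP

open Cardinal Set

/-! ## A. Cardinal arithmetic, closure, Cohen algebra -/

/-- [CL] CLOSURE LEMMA.  `F` assigns to each subset `w` of `X` with fewer than `θ` elements a set
with at most `ν` elements, `ν^{<θ} ≤ ν`.  Then each set with at most `ν` elements is contained in a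
set `D` with at most `ν` elements which is closed: `w ⊆ D`, `#w < θ` imply `F w ⊆ D`.

PROOF (no recursion on ordinals, use `WType`).  For each `w` with `#w < θ` choose
`en w : ν.ord.ToType → Option X` whose range contains all `some x`, `x ∈ F w` (possible since
`#(F w) ≤ ν`: inject `F w` into `ν.ord.ToType`; values `none` elsewhere); for `#w ≥ θ` let
`en w = fun _ => none`.  Let `α := D₀ ⊕ (θ.ord.ToType × ν.ord.ToType)`, `β (inl _) := Empty`,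
`β (inr (b, i)) := Iio b`, and let `ev : WType β → Option X` be defined by
`ev (mk (inl d) _) = some d`, `ev (mk (inr (b, i)) f) = en {x | ∃ j, ev (f j) = some x} i`
(`WType.elim`).  `D := {x | ∃ t, ev t = some x}`.  `#D ≤ #(WType β) ≤ ν` by
`WType.cardinalMk_le_of_le'` (or `cardinalMk_le_of_le`), since
`Σ_a ν^{#β a} ≤ #D₀ + Σ_{(b, i)} ν^{#(Iio b)} ≤ ν + θ * ν * ν ≤ ν` (`#(Iio b) < θ` for
`b : θ.ord.ToType`: `by simpa using mk_Iio_lt b (by simp)`, and `le_powerlt`).  If `w ⊆ D`, `#w < θ`: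
take `b : θ.ord.ToType` with `#(Iio b) = #w` (`exists_Iio`), a bijection `Iio b ≃ w` and choose for
each element of `w` a term with this value: this gives `f : Iio b → WType β` with
`{x | ∃ j, ev (f j) = some x} = w`, so every `x ∈ F w` is the value of `mk (inr (b, i)) f` for some
`i`. -/
def StCL : Prop := ∀ (X : Type) (θ ν : Cardinal.{0}), ℵ₀ ≤ ν → θ ≤ ν → ν ^< θ ≤ ν →
  ∀ F : Set X → Set X, (∀ w : Set X, #w < θ → #(F w) ≤ ν) →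
  ∀ D₀ : Set X, #D₀ ≤ ν → ∃ D : Set X, D₀ ⊆ D ∧ #D ≤ ν ∧ ∀ w ⊆ D, #w < θ → F w ⊆ D

/-- [NP] Number of small partial functions.  PROOF.  As `card_small` in Card.lean: each `q` with
`dm q ⊆ D`, `#(dm q) < θ` is obtained from some `b : θ.ord.ToType` with `#(Iio b) = #(dm q)`
(`exists_Iio`) and a bijection `Iio b ≃ dm q` together with the values: so the map from
`Σ b : θ.ord.ToType, (Iio b → D × Bool)` to (partial functions with domain in `D`) which sends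
`(b, f)` to `x ↦ some c` if `(x, c) ∈ range f` for some `c` (choose one), `none` otherwise, is
surjective onto our set (restrict to the preimage).  The number is at most
`Σ_b (ν * 2)^{#(Iio b)} ≤ θ * ν^{<θ} ≤ ν`. -/
def StNP : Prop := ∀ (X : Type) (θ ν : Cardinal.{0}), ℵ₀ ≤ ν → θ ≤ ν → ν ^< θ ≤ ν →
  ∀ D : Set X, #D ≤ ν → #{q : X → Option Bool // dm q ⊆ D ∧ #(dm q) < θ} ≤ ν

/-- [DS] Among more than `κ` small partial functions two are compatible (`κ^{<κ} = κ`).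

PROOF.  For a small set `w` let `Pw` be the set of the `q` with `dm q = w` which have an extension
`Ext q (p i)` for some `i`; for such `q` choose `i(q)`.  `F w := ⋃_{q ∈ Pw} dm (p (i(q)))` has at
most `κ` elements (`#Pw ≤ κ` by [NP] with `D := w`, `θ = ν = κ`).  By [CL] (`θ = ν = κ`, `D₀ = ∅`)
there is `D`, `#D ≤ κ`, closed under `F`.  By [NP] the set of the `i(q)`, `dm q ⊆ D` small, has at
most `κ` elements, so some `a : I` is not in it.  Let `q := rs D (p a)`; it is small, `dm q ⊆ D`, and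
has the extension `p a`, so `i := i(q)` exists, `i ≠ a`, `Ext q (p i)` and `dm (p i) ⊆ D`.  Then
`Cpt (p i) (p a)`: if `p i x = some b`, `p a x = some c` then `x ∈ dm (p i) ⊆ D`, so
`q x = p a x = some c`, so `p i x = some c`. -/
def StDS : Prop := ∀ (κ : Cardinal.{0}) (X I : Type), ℵ₀ ≤ κ → κ ^< κ = κ →
  ∀ p : I → X → Option Bool, (∀ i, #(dm (p i)) < κ) → κ < #I → ∃ i j, i ≠ j ∧ Cpt (p i) (p j)

/-- Elementary facts on partial functions and their Boolean values. -/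
structure PFs (κ : Cardinal.{0}) {J A : Type} [CompleteBooleanAlgebra A] (g : J → A) : Prop where
  rs_dm : ∀ (K : Set J) p, dm (rs K p) ⊆ K
  rs_small : ∀ (K : Set J) p, #(dm p) < κ → #(dm (rs K p)) < κ
  jn_dm : ∀ p q : J → Option Bool, dm (jn p q) = dm p ∪ dm q
  jn_small : ∀ p q : J → Option Bool, #(dm p) < κ → #(dm q) < κ → #(dm (jn p q)) < κ
  jn_bas : ∀ p q, Cpt p q → bas g (jn p q) = bas g p ⊓ bas g q
  jn_rs : ∀ (K : Set J) p q, rs K (jn p q) = jn (rs K p) (rs K q)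
  anti : ∀ p q, Ext p q → bas g q ≤ bas g p
  disj : ∀ p q, ¬ Cpt p q → bas g p ⊓ bas g q = ⊥
  bas_rs : ∀ (K : Set J) p, bas g p ≤ bas g (rs K p)
  cpt_rs : ∀ (K : Set J) (p q : J → Option Bool), dm p ⊆ K → Cpt p (rs K q) → Cpt p q
  cpt_comm : ∀ p q : J → Option Bool, Cpt p q → Cpt q p
  ext_of_le : ∀ p q, #(dm p) < κ → bas g p ≤ bas g q → Ext q p
  sup_basic : ∀ x : A, x = ⨆ p : {p : J → Option Bool // #(dm p) < κ ∧ bas g p ≤ x}, bas g p.1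

/-- [PF] PROOF.  Everything is immediate from the definitions; `disj`: if `p x = some b`,
`q x = some c`, `b ≠ c` then `bas g p ≤ lit g x b`, `bas g q ≤ lit g x c`, and these are disjoint.
`ext_of_le`: let `q x = some b` and suppose `p x ≠ some b`; if `p x = some (!b)` then
`bas g p ≤ lit g x b ⊓ lit g x (!b) = ⊥`, against `Cohen.ne`; if `p x = none` let `p'` be `p` with
the additional value `!b` at `x`, it is small since `ℵ₀ ≤ κ`, and `bas g p' ≤ ⊥` in the same way.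
`sup_basic`: by `dense_le` and `Cohen.dense`. -/
def StPF : Prop := ∀ (κ : Cardinal.{0}) (J A : Type) [CompleteBooleanAlgebra A] (g : J → A),
  ℵ₀ ≤ κ → Cohen κ g → PFs κ g

/-- [CA] The Cohen algebra is `κ⁺`-c.c.  PROOF.  Let `S` be an antichain with `#S ≥ κ⁺`, so
`κ < #S`.  For `a ∈ S` choose a small `p a` with `bas g (p a) ≤ a` (`Cohen.dense`).  By [DS] (with
`I := S`) there are `a ≠ a'` with `Cpt (p a) (p a')`; then
`bas g (jn (p a) (p a')) = bas g (p a) ⊓ bas g (p a') ≤ a ⊓ a' = ⊥`, against `Cohen.ne`. -/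
def StCA : Prop := ∀ (κ : Cardinal.{0}) (J A : Type) [CompleteBooleanAlgebra A] (g : J → A),
  Crd κ → Cohen κ g → CC A (Order.succ κ)

/-- [MA] In a `κ⁺`-c.c. complete Boolean algebra each family has a subfamily indexed by `κ` with the
same supremum.  PROOF.  Let `x := ⨆ i, f i`.  By Zorn there is a maximal set `C` of nonzero pairwise
disjoint elements `c` with `∃ i, c ≤ f i`.  `#C ≤ κ` by the chain condition (`Order.lt_succ_iff`).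
`sSup C = x`: otherwise `y := x ⊓ (sSup C)ᶜ ≠ ⊥` and `y ≤ ⨆ f i`, so by `ex_sup` there is a nonzero
`q ≤ y` with `q ≤ f i`, and `C ∪ {q}` contradicts maximality.  Choose `i(c)` with `c ≤ f (i(c))`.
If `C = ∅` then `x = ⊥` and every `f i = ⊥`: take `e` constant.  Otherwise there is a surjection
`Mo κ → C` (`#(Mo κ) = κ`, `mk_ord_toType`), let `e` be its composition with `i(·)`. -/
def StMA : Prop := ∀ (κ : Cardinal.{0}) (D : Type) [CompleteBooleanAlgebra D], ℵ₀ ≤ κ →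
  CC D (Order.succ κ) → ∀ (I : Type) [Nonempty I] (f : I → D),
  ∃ e : Mo κ → I, ⨆ i, f (e i) = ⨆ i, f i

/-- Closure properties of the subalgebras. -/
structure SUs (κ : Cardinal.{0}) {J A : Type} [CompleteBooleanAlgebra A] (g : J → A) : Prop where
  basic : ∀ (K : Set J) p, #(dm p) < κ → dm p ⊆ K → Supp κ g K (bas g p)
  univ : ∀ x, Supp κ g Set.univ x
  mono : ∀ (K K' : Set J) x, K ⊆ K' → Supp κ g K x → Supp κ g K' x
  top : ∀ K : Set J, Supp κ g K ⊤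
  compl : ∀ (K : Set J) x, Supp κ g K x → Supp κ g K xᶜ
  sSup : ∀ (K : Set J) (S : Set A), (∀ x ∈ S, Supp κ g K x) → Supp κ g K (sSup S)
  sInf : ∀ (K : Set J) (S : Set A), (∀ x ∈ S, Supp κ g K x) → Supp κ g K (sInf S)
  inf : ∀ (K : Set J) x y, Supp κ g K x → Supp κ g K y → Supp κ g K (x ⊓ y)
  sup : ∀ (K : Set J) x y, Supp κ g K x → Supp κ g K y → Supp κ g K (x ⊔ y)
  biInf : ∀ (K : Set J) (I : Type) (p : I → Prop) (f : I → A), (∀ i, p i → Supp κ g K (f i)) →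
    Supp κ g K (⨅ i, ⨅ (_ : p i), f i)
  iSup : ∀ (K : Set J) (I : Type) (f : I → A), (∀ i, Supp κ g K (f i)) → Supp κ g K (⨆ i, f i)

/-- [SU] PROOF.  `univ` is `Cohen.dense` (for `y` take small `p` with `bas g p ≤ y`, and
`bas g p ≠ ⊥`).  `sSup`: if `y ≠ ⊥`, `y ≤ sSup S` then `y ⊓ x ≠ ⊥` for some `x ∈ S`, apply
`Supp κ g K x` to `y ⊓ x`.  `compl`: let `y ≠ ⊥`, `y ≤ xᶜ`.  Take a small `p` with `bas g p ≤ y`, and
`q := rs K p`.  Claim `bas g q ≤ xᶜ`: otherwise `bas g q ⊓ x ≠ ⊥`, and `Supp κ g K x` gives a small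
`p'`, `dm p' ⊆ K`, `bas g p' ≤ x`, `bas g p' ⊓ (bas g q ⊓ x) ≠ ⊥`; so `p'` and `q = rs K p` are
compatible ([PF] disj), so `p'` and `p` are compatible (cpt_rs), so
`bas g (jn p' p) = bas g p' ⊓ bas g p ≠ ⊥` (`Cohen.ne`), but it is `≤ x ⊓ xᶜ`.  And
`bas g q ⊓ y ≥ bas g p ≠ ⊥`.  The infima follow by complements (`compl_sInf`), `inf`, `sup` are
special cases, as are `biInf`, `iSup`. -/
def StSU : Prop := ∀ (κ : Cardinal.{0}) (J A : Type) [CompleteBooleanAlgebra A] (g : J → A),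
  ℵ₀ ≤ κ → Cohen κ g → SUs κ g

/-- [SM] Small supports.  PROOF.  If `x = ⊥` take `K' = ∅` (`supp_bot`).  Otherwise let
`I := {p // #(dm p) < κ ∧ dm p ⊆ K ∧ bas g p ≤ x}`; it is nonempty (apply `Supp κ g K x` to
`y = x`), and `⨆ p : I, bas g p = x` by `dense_le` and `Supp κ g K x`.  By [MA], [CA] there is
`e : Mo κ → I` with `⨆ i, bas g (e i) = x`.  Let `K' := ⋃ i, dm (e i)`: `K' ⊆ K`, `#K' ≤ κ`.  If
`y ≠ ⊥`, `y ≤ x` then `y ⊓ bas g (e i) ≠ ⊥` for some `i`. -/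
def StSM : Prop := ∀ (κ : Cardinal.{0}) (J A : Type) [CompleteBooleanAlgebra A] (g : J → A),
  Crd κ → Cohen κ g → ∀ (K : Set J) (x : A), Supp κ g K x →
  ∃ K' ⊆ K, #K' ≤ κ ∧ Supp κ g K' x

/-- Properties of the projections. -/
structure PIs (κ : Cardinal.{0}) {J A : Type} [CompleteBooleanAlgebra A] (g : J → A) (K : Set J) :
    Prop where
  supp : ∀ x, Supp κ g K (pj κ g K x)
  le : ∀ x, x ≤ pj κ g K x
  mono : ∀ x y, x ≤ y → pj κ g K x ≤ pj κ g K y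
  meet : ∀ c x, Supp κ g K c → c ⊓ pj κ g K x ≠ ⊥ → c ⊓ x ≠ ⊥
  least : ∀ c x, Supp κ g K c → x ≤ c → pj κ g K x ≤ c
  fix : ∀ c, Supp κ g K c → pj κ g K c = c
  inf : ∀ c x, Supp κ g K c → pj κ g K (c ⊓ x) = c ⊓ pj κ g K x

/-- [PI] PROOF.  `supp`: it is a supremum of elements `bas g (rs K p)` ([SU]).  `le`: by [PF]
sup_basic and bas_rs.  `meet`: `c ⊓ bas g (rs K p) ≠ ⊥` for some small `p` with `bas g p ≤ x`; by
`Supp κ g K c` there is a small `p'`, `dm p' ⊆ K`, `bas g p' ≤ c` with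
`bas g p' ⊓ (c ⊓ bas g (rs K p)) ≠ ⊥`; so `p'` and `rs K p` are compatible, so `p'` and `p` are, so
`⊥ ≠ bas g (jn p' p) = bas g p' ⊓ bas g p ≤ c ⊓ x`.  `least`: if not, `pj x ⊓ cᶜ ≠ ⊥`, `cᶜ` is
supported by `K`, so by `meet` `cᶜ ⊓ x ≠ ⊥`, contradiction.  `inf`: `≤` by `least`.  `≥`: if
`d := c ⊓ (pj (c ⊓ x))ᶜ` (supported by `K`) meets `pj x`, then `d ⊓ x ≠ ⊥` by `meet`, but
`d ⊓ x ≤ (c ⊓ x) ⊓ (pj (c ⊓ x))ᶜ = ⊥` by `le`. -/
def StPI : Prop := ∀ (κ : Cardinal.{0}) (J A : Type) [CompleteBooleanAlgebra A] (g : J → A)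
  (K : Set J), ℵ₀ ≤ κ → Cohen κ g → PIs κ g K

/-- [Kn] KNASTER TYPE LEMMA.  PROOF.  Fix `a`.  Choose a small `p₀` with `bas g p₀ ≤ p a`
(`Cohen.dense`).  `bas g p₀ ≤ pj (r a false)`, so `bas g (rs K p₀) ⊓ pj (r a false) ≠ ⊥` (it is
`≥ bas g p₀`), so by [PI] meet `bas g (rs K p₀) ⊓ r a false ≠ ⊥`; choose a small `u₀` with
`bas g u₀ ≤ bas g (rs K p₀) ⊓ r a false`; then `Ext (rs K p₀) u₀` ([PF] ext_of_le).  Let
`p₁ := jn (rs K u₀) p₀`: `rs K u₀` and `p₀` are compatible (`u₀` extends `p₀` on `K`), so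
`bas g p₁ ≤ bas g p₀ ≤ p a`, and `rs K p₁ = rs K u₀`.  Do the same with `p₁` and `r a true`: a small
`u₁` with `bas g u₁ ≤ r a true`, `Ext (rs K p₁) u₁`, and `p₂ := jn (rs K u₁) p₁`,
`rs K p₂ = rs K u₁`, `bas g p₂ ≤ p a`.  Finally `u₀' := jn (rs K u₁) u₀` (compatible since `u₁`
extends `rs K p₁ = rs K u₀`): `bas g u₀' ≤ r a false`, `rs K u₀' = rs K u₁`.  So we have small
`P a := p₂`, `V a false := u₀'`, `V a true := u₁` with the same restriction to `K`,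
`bas g (P a) ≤ p a`, `bas g (V a k) ≤ r a k`.  Let `q a : J × Option Bool → Option Bool`,
`q a (x, none) := P a x`, `q a (x, some k) := V a k x`: domain of cardinality `< κ`.  By [DS] with
`I := La κ` (`κ < #(La κ)`) there are `a ≠ a'` with `q a`, `q a'` compatible; wlog `a < a'` (the
statement is symmetric by `inf_comm`).  So `P := jn (P a) (P a')`, `V k := jn (V a k) (V a' k)` are
small with `bas g P = bas g (P a) ⊓ bas g (P a')`, etc., and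
`rs K P = jn (rs K (P a)) (rs K (P a')) = rs K (V k)`.  Hence
`bas g P ≤ bas g (rs K P) = bas g (rs K (V k)) ≤ pj (r a k ⊓ r a' k)` (definition of `pj`, since
`bas g (V k) ≤ r a k ⊓ r a' k`).  So `⊥ ≠ bas g P ≤` the left side. -/
def StKn : Prop := ∀ (κ : Cardinal.{0}) (J A : Type) [CompleteBooleanAlgebra A] (g : J → A),
  Crd κ → Cohen κ g → ∀ (K : Set J) (p : La κ → A) (r : La κ → Bool → A), (∀ a, p a ≠ ⊥) →
  (∀ a k, p a ≤ pj κ g K (r a k)) → ∃ a a', a < a' ∧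
    p a ⊓ p a' ⊓ pj κ g K (r a false ⊓ r a' false) ⊓ pj κ g K (r a true ⊓ r a' true) ≠ ⊥

/-- [AU] Automorphisms from permutations of the coordinates.  PROOF.  Write `p^e := p ∘ e.symm`
(`dm (p^e) = e '' dm p`).  Let `φ_e x := ⨆ p : {p // #(dm p) < κ ∧ bas g p ≤ x}, bas g (p^e)`.  It is
monotone.  (1) `φ_{e⁻¹} (φ_e x) = x`: `≥`: `x` is the supremum of the small `bas g p ≤ x`, and for
such `p`, `bas g (p^e) ≤ φ_e x`, so `bas g p = bas g ((p^e)^{e⁻¹}) ≤ φ_{e⁻¹} (φ_e x)`.  `≤`: let `q`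
be small, `bas g q ≤ φ_e x`; claim `bas g (q^{e⁻¹}) ≤ x`.  Otherwise there is a small `p'` with
`bas g p' ≤ bas g (q^{e⁻¹}) ⊓ xᶜ`, so `Ext (q^{e⁻¹}) p'` ([PF] ext_of_le), so `Ext q (p'^e)` and
`bas g (p'^e) ≤ bas g q ≤ φ_e x`; so there is a small `p''`, `bas g p'' ≤ x`,
`bas g (p''^e) ⊓ bas g (p'^e) ≠ ⊥`, so `p''^e`, `p'^e` are compatible, so `p''`, `p'` are, so
`⊥ ≠ bas g p'' ⊓ bas g p' ≤ x ⊓ xᶜ`, contradiction.  So `φ := φ_e` is an order isomorphism with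
inverse `φ_{e⁻¹}`, and (by (1) for both) `bas g p ≤ x ↔ bas g (p^e) ≤ φ x`, so `φ (bas g p) =
bas g (p^e)` for small `p` (`≤`: if `bas g p'' ≤ bas g p` then `Ext p p''`, so
`bas g (p''^e) ≤ bas g (p^e)`).  (2) Supports: if `Supp κ g K' x` and `y ≠ ⊥`, `y ≤ φ x` then
`φ.symm y ≤ x` is nonzero, take `p` for it and use `p^e`.  (3) If `c` is supported by `K` then
`φ c = c`: `c` is the supremum of the `bas g p`, `p` small, `dm p ⊆ K`, `bas g p ≤ c`, `φ` preserves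
suprema (`OrderIso.map_iSup`), and `p^e = p` for these (`e` fixes `K` pointwise, so `e.symm` maps
`Kᶜ` into `Kᶜ`).  (4) So for `c` supported by `K`: `φ x ≤ c ↔ x ≤ φ.symm c = c`; by [PI] supp, le,
least `pj (φ x) = pj x`. -/
def StAU : Prop := ∀ (κ : Cardinal.{0}) (J A : Type) [CompleteBooleanAlgebra A] (g : J → A),
  ℵ₀ ≤ κ → Cohen κ g → ∀ (e : Equiv.Perm J) (K : Set J), (∀ x ∈ K, e x = x) →
  ∃ φ : A ≃o A, (∀ (K' : Set J) x, Supp κ g K' x → Supp κ g (e '' K') (φ x)) ∧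
    ∀ x, pj κ g K (φ x) = pj κ g K x

/-- [NK] The number of elements of the subalgebra of `K`, `#K ≤ κ⁺`.  PROOF.  If `x ≠ ⊥` is
supported by `K` then as in [SM] there is `e : Mo κ → {p // dm p ⊆ K ∧ #(dm p) < κ}` with
`x = ⨆ i, bas g (e i)`.  So the map from `Option (Mo κ → {p // dm p ⊆ K ∧ #(dm p) < κ})` to `A`,
`none ↦ ⊥`, `some e ↦ ⨆ i, bas g (e i)` has all supported elements in its range; its domain has
cardinality at most `1 + (κ⁺)^κ` by [NP] with `θ = κ`, `ν = κ⁺` (`(κ⁺)^{<κ} ≤ (2^κ)^κ = 2^κ = κ⁺`,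
see `powerlt_succ_self` for the computation), and `(κ⁺)^κ = (2^κ)^κ = 2^κ = κ⁺`. -/
def StNK : Prop := ∀ (κ : Cardinal.{0}) (J A : Type) [CompleteBooleanAlgebra A] (g : J → A),
  Crd κ → Cohen κ g → ∀ K : Set J, #K ≤ Order.succ κ →
  #{x : A // Supp κ g K x} ≤ Order.succ κ

/-- [TA] PROOF.  Case 1: `#(Kᶜ) ≤ κ⁺`.  Then `#J ≤ κ⁺`; `Ks := univ`, `e := refl`.  Case 2:
`κ⁺ < #(Kᶜ)`.  Choose `N ⊆ Kᶜ` with `#N = κ⁺` (`le_mk_iff_exists_subset`), `Ks := K ∪ N`.  Given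
`K'`, the set `s : Set (Kᶜ : Set J)` of the points in `K'` has `#s ≤ κ⁺ = #N`, so there is an
injection of `s` into `N`, i.e. an embedding `f : s ↪ (Kᶜ : Set J)` with values in `N`.  By
`Cardinal.extend_function_of_lt` (`#s < #(Kᶜ)`) there is a bijection of `Kᶜ` extending `f`; together
with the identity on `K` it gives `e`. -/
def StTA : Prop := ∀ (κ : Cardinal.{0}) (J : Type), ℵ₀ ≤ κ → ∀ K : Set J, #K ≤ Order.succ κ →
  ∃ Ks : Set J, K ⊆ Ks ∧ #Ks ≤ Order.succ κ ∧ ∀ K' : Set J, K ⊆ K' → #K' ≤ Order.succ κ →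
    ∃ e : Equiv.Perm J, (∀ x ∈ K, e x = x) ∧ ∀ x ∈ K', e x ∈ Ks

/-! ## B. The ultrafilter -/

/-- Facts on `U`. -/
structure UFs {κ : Cardinal.{0}} {A : Type} [CompleteBooleanAlgebra A] (U : (Mo κ → A) → A) :
    Prop where
  mono : ∀ X Y : Mo κ → A, (∀ α, X α ≤ Y α) → U X ≤ U Y
  rel : ∀ (a : A) (X Y : Mo κ → A), (∀ α, a ⊓ X α ≤ Y α) → a ⊓ U X ≤ U Y
  const : ∀ a : A, U (fun _ => a) = a
  inf_eq : ∀ X Y : Mo κ → A, U (fun α => X α ⊓ Y α) = U X ⊓ U Y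
  iInf : ∀ I : Type, #I < κ → ∀ X : I → Mo κ → A, (⨅ i, U (X i)) ≤ U (fun α => ⨅ i, X i α)
  above : ∀ (s : Finset (Mo κ)) (X : Mo κ → A),
    U X ≤ U (fun α => open Classical in if ∀ y ∈ s, y < α then X α else ⊥)

/-- [UF] PROOF.  `rel`: `a ≤ ⨅ α, (X α)ᶜ ⊔ Y α ≤ (U X)ᶜ ⊔ U Y` by `Nor.sub`.  `mono`: `rel` with
`a = ⊤`.  `const`: `a ≤ U (fun _ => a)` by `rel` with `X = ⊤`, `Nor.top`; apply this to `aᶜ` and use
`Nor.compl` for the other direction.  `inf_eq`: `Nor.inf` and `mono`.  `iInf` (`κ`-completeness):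
by `exists_Iio` there are `b : Mo κ` and a bijection `e : Iio b ≃ I`.  Let `X' β := X (e β)` for
`β < b`, `X' β := ⊤` for `β ≥ b`.  `⨅ i, U (X i) ≤ ⨅ β, U (X' β) ≤ U (Δ)`, `Δ α := ⨅ β : Iio α, X' β α`
(`Nor.normal`); and `U Δ = U Δ ⊓ U (tail b) = U (Δ ⊓ tail b)` (`Nor.tail b`), where for `α > b`
`Δ α ≤ ⨅ i, X i α`, and `tail b` is `⊥` at `α ≤ b`.  `above`: by `Nor.tail (max s)` (if `s = ∅`
trivial): `U X = U X ⊓ U (tail β) = U (X ⊓ tail β)`, where `β` is the largest element of `s`. -/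
def StUF : Prop := ∀ (κ : Cardinal.{0}) (A : Type) [CompleteBooleanAlgebra A]
  (U : (Mo κ → A) → A), ℵ₀ < κ → Nor U → UFs U

/-- [Rw] ROWBOTTOM'S THEOREM for names of 2-colourings `f` of the finite subsets of `κ`, inside a
complete subalgebra `P` closed under `U`.  PROOF.  (1) By induction on `n`, for all `f` with values
in `P`: there are `Y : Mo κ → A`, `c : A` with values in `P`, `U Y = ⊤`, such that for all `u` with
`u.card = n`: `⟦u ⊆ Y⟧ ⊓ f u ≤ c` and `⟦u ⊆ Y⟧ ⊓ c ≤ f u`, where `⟦u ⊆ Y⟧ := ⨅ α ∈ u, Y α`.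
`n = 0`: `Y = ⊤` (`P ⊤`: `sInf ∅`), `c = f ∅`.  `n + 1`: for each `α` apply the case `n` to
`f_α u := f (insert α u)`: `Y_α`, `c_α`.  Let `c := U (fun α => c_α)`,
`Y* α := (c_α ⊓ c) ⊔ (c_αᶜ ⊓ cᶜ)`; `U Y* = ⊤`, since `c ⊓ U (c_•) ≤ U Y*` and
`cᶜ ⊓ U (c_•ᶜ) ≤ U Y*` ([UF] rel), `U (c_•) = c`, `U (c_•ᶜ) = cᶜ`.  `Δ α := ⨅ β : Iio α, Y_β α`,
`U Δ = ⊤` by `Nor.normal`.  `Y := Y* ⊓ Δ`.  Let `u.card = n + 1`, `α := min u`,
`u' := u.erase α`; for `β ∈ u'`, `α < β`, so `Y β ≤ Δ β ≤ Y_α β`.  Hence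
`⟦u ⊆ Y⟧ ≤ Y* α ⊓ ⟦u' ⊆ Y_α⟧`, and `⟦u' ⊆ Y_α⟧ ⊓ f u ≤ c_α`, `Y* α ⊓ c_α ≤ c`, and conversely.
(2) Take `Y_n`, `c_n` for each `n` and `Y := ⨅ n, Y_n`; `U Y = ⊤` by [UF] iInf (`ℵ₀ < κ`).  (`P` is
closed under `⊓`, `⊔`, `⨅` by the hypotheses.) -/
def StRw : Prop := ∀ (κ : Cardinal.{0}) (A : Type) [CompleteBooleanAlgebra A]
  (U : (Mo κ → A) → A), ℵ₀ < κ → Nor U → ∀ P : A → Prop, (∀ x, P x → P xᶜ) →
  (∀ S : Set A, (∀ x ∈ S, P x) → P (sInf S)) →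
  (∀ X : Mo κ → A, (∀ α, P (X α)) → P (U X)) →
  ∀ f : Finset (Mo κ) → A, (∀ u, P (f u)) →
  ∃ (Y : Mo κ → A) (c : ℕ → A), (∀ α, P (Y α)) ∧ (∀ n, P (c n)) ∧ U Y = ⊤ ∧
    ∀ u : Finset (Mo κ), (⨅ α ∈ u, Y α) ⊓ f u ≤ c u.card ∧ (⨅ α ∈ u, Y α) ⊓ c u.card ≤ f u

/-- [If] Large sets have finite subsets of each size above a given finite set `s`.  PROOF.
Induction on `n`.  `n = 0`: `w = ∅`.  Step: (a) for every finite set `t`:
`U X ≤ ⨆ α : {α // ∀ y ∈ t, y < α}, X α`: let `a := U X ⊓ (the right side)ᶜ`; with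
`X' α := if ∀ y ∈ t, y < α then X α else ⊥` we have `a ⊓ X' α ≤ ⊥` for all `α`, so by [UF] above, rel,
const `a = a ⊓ U X ≤ a ⊓ U X' ≤ U (fun _ => ⊥) = ⊥`.  (b) Given nonzero `p ≤ U X` take by the case
`n` and `ex_sup` (twice) a `w` with `n` elements above `s` and a nonzero `q ≤ p`, `q ≤ ⨅ α ∈ w, X α`;
apply (a) with `t := s ∪ w` to get `α` and a nonzero `q' ≤ q`, `q' ≤ X α`; use `insert α w`. -/
def StIf : Prop := ∀ (κ : Cardinal.{0}) (A : Type) [CompleteBooleanAlgebra A]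
  (U : (Mo κ → A) → A), ℵ₀ < κ → Nor U → ∀ (X : Mo κ → A) (n : ℕ) (s : Finset (Mo κ)),
  U X ≤ ⨆ w : Finset (Mo κ), ⨆ (_ : w.card = n ∧ ∀ α ∈ w, ∀ y ∈ s, y < α), ⨅ α ∈ w, X α

/-! ## C. The Prikry part -/

/-- Facts on initial segments. -/
structure Ens (M : Type) [LinearOrder M] : Prop where
  refl : ∀ s : Finset M, Ends s s
  emp : ∀ s : Finset M, Ends ∅ s
  trans : ∀ s t u : Finset M, Ends s t → Ends t u → Ends s u
  comp : ∀ s t u : Finset M, Ends s u → Ends t u → Ends s t ∨ Ends t s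
  union : ∀ s w : Finset M, (∀ α ∈ w, ∀ y ∈ s, y < α) → Ends s (s ∪ w)
  sdiff : ∀ s t u : Finset M, Ends s t → Ends t u → u \ s = (u \ t) ∪ (t \ s)

/-- [En] PROOF.  `comp`: if `x ∈ s \ t` and `y ∈ t \ s` then (`x ∈ u \ t`, `y ∈ t`) `y < x` and
(`y ∈ u \ s`, `x ∈ s`) `x < y`, contradiction; so `s ⊆ t` or `t ⊆ s`, and the second clause is
inherited from `Ends s u` resp. `Ends t u`.  The rest is immediate. -/
def StEn : Prop := ∀ (M : Type) [LinearOrder M], Ens M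

/-- Facts on the order of raw conditions. -/
structure Les (κ : Cardinal.{0}) (A : Type) [CompleteBooleanAlgebra A] : Prop where
  refl : ∀ q : Cn κ A, Le q q
  trans : ∀ q₂ q₁ q₀ : Cn κ A, Le q₂ q₁ → Le q₁ q₀ → Le q₂ q₀
  mg_left : ∀ (q q' : Cn κ A) (u : Finset (Mo κ)), Ends q.2.1 u → Ends q'.2.1 u → Le (mg q q' u) q
  mg_right : ∀ (q q' : Cn κ A) (u : Finset (Mo κ)), Ends q.2.1 u → Ends q'.2.1 u →
    Le (mg q q' u) q'
  mg_glb : ∀ p q q' : Cn κ A, Le p q → Le p q' → Le p (mg q q' p.2.1)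

/-- [Lq] PROOF.  Immediate; `trans` uses [En] trans and sdiff: for the stems `s₀ ⊑ s₁ ⊑ s₂`,
`s₂ \ s₀ = (s₂ \ s₁) ∪ (s₁ \ s₀)` and `q₂.1 ≤ ⨅_{s₂ \ s₁} q₁.2.2 ≤ ⨅_{s₂ \ s₁} q₀.2.2`,
`q₂.1 ≤ q₁.1 ≤ ⨅_{s₁ \ s₀} q₀.2.2`. -/
def StLq : Prop := ∀ (κ : Cardinal.{0}) (A : Type) [CompleteBooleanAlgebra A], Les κ A

/-- Facts on the embedding `ι`. -/
structure Ios {A B : Type} [CompleteBooleanAlgebra A] [CompleteBooleanAlgebra B] (ι : A → B) :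
    Prop where
  mono : ∀ x y, x ≤ y → ι x ≤ ι y
  le : ∀ x y, ι x ≤ ι y → x ≤ y
  bot : ι ⊥ = ⊥
  top : ι ⊤ = ⊤
  inf : ∀ x y, ι (x ⊓ y) = ι x ⊓ ι y
  iSup : ∀ (I : Type) (f : I → A), ι (⨆ i, f i) = ⨆ i, ι (f i)
  iInf : ∀ (I : Type) (f : I → A), ι (⨅ i, f i) = ⨅ i, ι (f i)
  biInf : ∀ (I : Type) (p : I → Prop) (f : I → A),
    ι (⨅ i, ⨅ (_ : p i), f i) = ⨅ i, ⨅ (_ : p i), ι (f i)

/-- [Io] PROOF.  From `Prik.sup`, `Prik.compl`, `Prik.inj`: `ι (⨆ i, f i) = ⨆ i, ι (f i)`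
(`sSup (range f)`), `ι ⊥ = ⊥` (`S = ∅`), `ι (x ⊔ y) = ι x ⊔ ι y` (`S = {x, y}`), so `mono`; infima by
complements.  `le`: if `ι x ≤ ι y` then `ι (x ⊓ yᶜ) = ι x ⊓ (ι y)ᶜ = ⊥`, so `x ⊓ yᶜ = ⊥`.  `biInf`:
by `iInf` and a case distinction on `p i`, or as an `sInf`. -/
def StIo : Prop := ∀ (κ : Cardinal.{0}) (A B : Type) [CompleteBooleanAlgebra A]
  [CompleteBooleanAlgebra B] (U : (Mo κ → A) → A) (ι : A → B) (h : Finset (Mo κ) → B),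
  Prik U ι h → Ios ι

/-- Facts on the elements `cv ι h q`. -/
structure Mts {κ : Cardinal.{0}} {A B : Type} [CompleteBooleanAlgebra A]
    [CompleteBooleanAlgebra B] (U : (Mo κ → A) → A) (ι : A → B) (h : Finset (Mo κ) → B) :
    Prop where
  le_h : ∀ q, cv ι h q ≤ h q.2.1
  le_iota : ∀ q, cv ι h q ≤ ι q.1
  le_ends : ∀ (q : Cn κ A) t, Ends q.2.1 t → cv ι h q ⊓ h t ≤ ⨅ α ∈ t \ q.2.1, ι (q.2.2 α)
  mono : ∀ q' q, Le q' q → cv ι h q' ≤ cv ι h q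
  real_mg : ∀ (q q' : Cn κ A) u, Rl U q → Rl U q' → Rl U (mg q q' u)
  mg_le : ∀ (q q' : Cn κ A) u, Ends q.2.1 u → Ends q'.2.1 u →
    cv ι h q ⊓ cv ι h q' ⊓ h u ≤ cv ι h (mg q q' u)
  meet : ∀ q q' : Cn κ A, cv ι h q ⊓ cv ι h q' ≤
    ⨆ u, ⨆ (_ : Ends q.2.1 u), ⨆ (_ : Ends q'.2.1 u), cv ι h (mg q q' u)
  ne_fst : ∀ q, cv ι h q ≠ ⊥ → q.1 ≠ ⊥
  le_fst : ∀ q a, Rl U q → cv ι h q ≤ ι a → q.1 ≤ a
  stem : ∀ q s, cv ι h q ⊓ h s ≠ ⊥ → Ends q.2.1 s ∨ Ends s q.2.1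
  cv_stem : ∀ s, cv ι h ((⊤ : A), s, fun _ => ⊤) = h s
  cv_iota : ∀ a, cv ι h (a, ∅, fun _ => ⊤) = ι a

/-- [Mt] PROOF.  `le_h`, `le_iota`, `le_ends` from the definition.  `mono`: let `Le q' q`, stems
`s ⊑ s'`.  `cv q' ≤ ι q'.1 ≤ ι q.1`, `cv q' ≤ h s' ≤ h s`.  For `Ends s t`: to show
`cv q' ⊓ h t ≤ ⨅ α ∈ t \ s, ι (q.2.2 α)`; if `h s' ⊓ h t = ⊥` trivial, so `s'`, `t` are comparable
(`Prik.disj`).  If `s' ⊑ t`: `t \ s = (t \ s') ∪ (s' \ s)` ([En] sdiff), use `le_ends` for `q'` and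
`q'.1 ≤ ⨅_{s' \ s} q.2.2`.  If `t ⊑ s'`: `t \ s ⊆ s' \ s`.  `real_mg`: `(mg q q' u).1 ≤ q.1 ⊓ q'.1 ≤
U q.2.2 ⊓ U q'.2.2 ≤ U (fun α => q.2.2 α ⊓ q'.2.2 α)` (`Nor.inf`).  `mg_le`: for `u ⊒ s, s'`:
`cv q ⊓ h u ≤ ι (⨅_{u \ s} q.2.2)` (`le_ends`, [Io]), the same for `q'`, so `≤ ι (mg q q' u).1`; for
`Ends u t`: `cv q ⊓ h t ≤ ⨅_{t \ s} ι (q.2.2 α) ≤ ⨅_{t \ u} ...` as `t \ u ⊆ t \ s`.  `meet`: if
the left side is not `⊥` then `h s ⊓ h s' ≠ ⊥`, so `s ⊑ s'` or `s' ⊑ s`; let `u` be the longer one;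
the left side is `≤ h u`, use `mg_le`.  `ne_fst`: `cv q ≤ ι q.1`.  `le_fst`: let
`q₁ := (q.1 ⊓ aᶜ, q.2.1, q.2.2)`, real, `cv q₁ ≤ cv q ≤ ι a` and `cv q₁ ≤ ι aᶜ = (ι a)ᶜ`, so
`cv q₁ = ⊥`, so `q.1 ⊓ aᶜ = ⊥` by `Prik.ne`.  `stem`: `Prik.disj`.  `cv_stem`, `cv_iota`: `ι ⊤ = ⊤`,
`Prik.emp`. -/
def StMt : Prop := ∀ (κ : Cardinal.{0}) (A B : Type) [CompleteBooleanAlgebra A]
  [CompleteBooleanAlgebra B] (U : (Mo κ → A) → A) (ι : A → B) (h : Finset (Mo κ) → B),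
  Nor U → Prik U ι h → Mts U ι h

/-- [Dn] DENSITY WITH A PRESCRIBED INITIAL SEGMENT.  PROOF.  By `Prik.dense` there is a real `q₁`,
`q₁.1 ≠ ⊥`, `cv q₁ ≤ y`.  `cv q₁ = cv q₁ ⊓ cv q₀`, so by [Mt] meet there is `u₁` (`⊒` both stems)
with `cv q₁ ⊓ cv (mg q₁ q₀ u₁) ≠ ⊥`.  `q₂ := mg q₁ q₀ u₁` is real, `Le q₂ q₁`, `Le q₂ q₀`, so
`cv q₂ ≤ cv q₁ ≤ y`, `cv q₂ ≠ ⊥`.  Now `cv q₂ ≤ h u = cv (⊤, u, ⊤)`; by [Mt] meet again there is `u₂`
such that `q₃ := mg q₂ (⊤, u, ⊤) u₂` has `cv q₃ ≠ ⊥`, `q₃` is real (`U ⊤ = ⊤`), `Le q₃ q₂`, so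
`Le q₃ q₀`, `cv q₃ ≤ y`, `Ends u u₂`, `q₃.1 ≠ ⊥` by [Mt] ne_fst. -/
def StDn : Prop := ∀ (κ : Cardinal.{0}) (A B : Type) [CompleteBooleanAlgebra A]
  [CompleteBooleanAlgebra B] (U : (Mo κ → A) → A) (ι : A → B) (h : Finset (Mo κ) → B),
  Nor U → Prik U ι h → ∀ (q₀ : Cn κ A) (u : Finset (Mo κ)) (y : B), Rl U q₀ → y ≠ ⊥ →
  y ≤ cv ι h q₀ ⊓ h u →
  ∃ q : Cn κ A, q.1 ≠ ⊥ ∧ Rl U q ∧ cv ι h q ≤ y ∧ Le q q₀ ∧ Ends u q.2.1

/-- [AL] A set in the ultrafilter contains a tail of the Prikry sequence.  PROOF.  Let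
`p ≠ ⊥`, `p ≤ ι a`.  `Prik.dense`: real `q`, `q.1 ≠ ⊥`, `cv q ≤ p`; `q.1 ≤ a` by [Mt] le_fst.  Then
`q' := (q.1, q.2.1, q.2.2 ⊓ X)` is real (`q.1 ≤ U q.2.2 ⊓ U X`), `Le q' q` so `cv q' ≤ p`, and
`Le q' (a, q.2.1, X)`, so `cv q' ≤ cv (a, q.2.1, X)`.  Use `dense_le`. -/
def StAL : Prop := ∀ (κ : Cardinal.{0}) (A B : Type) [CompleteBooleanAlgebra A]
  [CompleteBooleanAlgebra B] (U : (Mo κ → A) → A) (ι : A → B) (h : Finset (Mo κ) → B),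
  Nor U → Prik U ι h → ∀ (a : A) (X : Mo κ → A), a ≤ U X →
  ι a ≤ ⨆ u : Finset (Mo κ), cv ι h (a, u, X)

/-- [CB] `B` is `κ⁺`-c.c.  PROOF.  Let `S` be an antichain of `B`, `#S ≥ κ⁺`.  For `b ∈ S` choose a
real `q b`, `(q b).1 ≠ ⊥`, `cv (q b) ≤ b`.  `Finset (Mo κ)` has `κ` elements, so by the pigeonhole
principle (`Cardinal.infinite_pigeonhole_card` or by counting: a union of `κ` many sets of
cardinality `≤ κ` has cardinality `≤ κ`) there is `s` such that `S' := {b ∈ S | stem of q b = s}` has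
cardinality `≥ κ⁺`.  For `b ≠ b'` in `S'`: `cv (q b) ⊓ cv (q b') = ⊥`, and
`mg (q b) (q b') s = ((q b).1 ⊓ (q b').1, s, ..)` is real and below both ([Mt], [Lq]), so
`(q b).1 ⊓ (q b').1 = ⊥` by `Prik.ne`.  So the family `(q b).1`, `b ∈ S'`, contradicts [CA]
(`CC.family` in Basic.lean). -/
def StCB : Prop := ∀ (κ : Cardinal.{0}) (J A B : Type) [CompleteBooleanAlgebra A]
  [CompleteBooleanAlgebra B] (g : J → A) (U : (Mo κ → A) → A) (ι : A → B)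
  (h : Finset (Mo κ) → B), Sys κ g U ι h → CC B (Order.succ κ)

/-- Facts on the elements `gd ι h π q`, for a monotone `π` with `x ≤ π x`. -/
structure Gds {κ : Cardinal.{0}} {A B : Type} [CompleteBooleanAlgebra A]
    [CompleteBooleanAlgebra B] (ι : A → B) (h : Finset (Mo κ) → B) (π : A → A) : Prop where
  le_h : ∀ q, gd ι h π q ≤ h q.2.1
  le_pi : ∀ q, gd ι h π q ≤ ι (π q.1)
  le_ends : ∀ (q : Cn κ A) t, Ends q.2.1 t →
    gd ι h π q ⊓ h t ≤ ι (π (q.1 ⊓ ⨅ α ∈ t \ q.2.1, q.2.2 α))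
  cv_le : ∀ q, cv ι h q ≤ gd ι h π q
  mono : ∀ q' q, Le q' q → gd ι h π q' ≤ gd ι h π q
  step : ∀ (q : Cn κ A) t, Ends q.2.1 t →
    gd ι h π q ⊓ h t ≤ gd ι h π (q.1 ⊓ ⨅ α ∈ t \ q.2.1, q.2.2 α, t, q.2.2)
  iota : ∀ r, gd ι h π (r, ∅, fun _ => ⊤) = ι (π r)

/-- [Gd] PROOF.  `le_h`, `le_ends` from the definition, `le_pi`: `le_ends` with `t` the stem.
`cv_le`: for `Ends s t`, `cv q ⊓ h t ≤ ι q.1 ⊓ ⨅_{t \ s} ι (q.2.2 α) = ι (q.1 ⊓ ⨅_{t \ s} q.2.2)`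
`≤ ι (π ..)`.  `mono`: stems `s ⊑ s'`; `gd q' ≤ h s' ≤ h s`; for `Ends s t` with
`h s' ⊓ h t ≠ ⊥`, `s'` and `t` are comparable.  If `s' ⊑ t`:
`gd q' ⊓ h t ≤ ι (π (q'.1 ⊓ ⨅_{t \ s'} q'.2.2)) ≤ ι (π (q.1 ⊓ ⨅_{t \ s} q.2.2))`, since
`t \ s = (t \ s') ∪ (s' \ s)` and `q'.1 ≤ ⨅_{s' \ s} q.2.2`.  If `t ⊑ s'`:
`gd q' ≤ ι (π q'.1)` and `q'.1 ≤ q.1 ⊓ ⨅_{t \ s} q.2.2` as `t \ s ⊆ s' \ s`.  `step`: for
`Ends t t'`: `gd q ⊓ h t' ≤ ι (π (q.1 ⊓ ⨅_{t' \ s} q.2.2))` and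
`⨅_{t' \ s} = (⨅_{t \ s}) ⊓ (⨅_{t' \ t})`.  `iota`: `≤` is `le_pi`; `≥` since `h ∅ = ⊤` and the
infimum over `t \ ∅` of `⊤` is `⊤`. -/
def StGd : Prop := ∀ (κ : Cardinal.{0}) (A B : Type) [CompleteBooleanAlgebra A]
  [CompleteBooleanAlgebra B] (U : (Mo κ → A) → A) (ι : A → B) (h : Finset (Mo κ) → B)
  (π : A → A), Nor U → Prik U ι h → (∀ x y, x ≤ y → π x ≤ π y) → (∀ x, x ≤ π x) → Gds ι h π

/-- [CP] COMPATIBILITY: a real condition meets every real `K`-condition which meets its projection.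
PROOF.  Let `q = (r, s, Z)`, `c = (a, t, Y)`, `gd q ⊓ cv c ≠ ⊥`.  Then `h s ⊓ h t ≠ ⊥`, so `s ⊑ t`
or `t ⊑ s`.  Case `s ⊑ t`: by [Gd] step `gd q ⊓ h t ≤ gd (r', t, Z) ≤ ι (π r')`,
`r' := r ⊓ ⨅_{t \ s} Z`; so `π r' ⊓ a ≠ ⊥`, `a` is supported by `K`, so `r' ⊓ a ≠ ⊥` ([PI] meet).
`mg q c t` has first component `r' ⊓ a` (the second infimum is over `t \ t = ∅`), is real ([Mt]
real_mg), so `⊥ ≠ cv (mg q c t) ≤ cv q ⊓ cv c` ([Lq] mg_left, mg_right, [Mt] mono).  Case `t ⊑ s`: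
`cv c ⊓ h s ≤ ι (a ⊓ ⨅_{s \ t} Y)` and `gd q ≤ ι (π r)`, so `a' := a ⊓ ⨅_{s \ t} Y`, supported by `K`
([SU] inf, biInf), meets `π r`, so it meets `r`, and `mg q c s` has first component `r ⊓ a'`. -/
def StCP : Prop := ∀ (κ : Cardinal.{0}) (J A B : Type) [CompleteBooleanAlgebra A]
  [CompleteBooleanAlgebra B] (g : J → A) (U : (Mo κ → A) → A) (ι : A → B)
  (h : Finset (Mo κ) → B), Sys κ g U ι h → ∀ (K : Set J) (q c : Cn κ A), Rl U q → Rl U c →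
  KC κ g K c → gd ι h (pj κ g K) q ⊓ cv ι h c ≠ ⊥ → cv ι h q ⊓ cv ι h c ≠ ⊥

/-- [Rd] REDUCTION of a real condition to a `K`-condition (`K` closed under `U`).  PROOF.  Let
`q = (a, t, X)` be real, `π := pj κ g K`, `f u := π (a ⊓ ⨅ α ∈ u, X α)`.  By [Rw] with
`P := Supp κ g K` ([SU], [PI] supp, `UCl`) there are `Y`, `c` with values in `P`, `U Y = ⊤`.
Claim `π a ≤ c n` for all `n`; since `c n` is supported by `K` it is enough that `a ≤ c n` ([PI]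
least).  `a ≤ U (X ⊓ Y)` ([UF] inf_eq), so by [If] (`s = ∅`) `a` is the supremum of the
`a ⊓ ⨅_{w} (X ⊓ Y)`, `w.card = n`, and `a ⊓ ⨅_w X ≤ f w` ([PI] le), `⨅_w Y ⊓ f w ≤ c n`.  Now
`cv (π a, t, Y) ≤ gd q`: `≤ h t` clear; for `Ends t t'`, `w := t' \ t`:
`cv (π a, t, Y) ⊓ h t' ≤ ι (π a) ⊓ ι (⨅_w Y) ≤ ι (c w.card ⊓ ⨅_w Y) ≤ ι (f w)`. -/
def StRd : Prop := ∀ (κ : Cardinal.{0}) (J A B : Type) [CompleteBooleanAlgebra A]
  [CompleteBooleanAlgebra B] (g : J → A) (U : (Mo κ → A) → A) (ι : A → B)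
  (h : Finset (Mo κ) → B), Sys κ g U ι h → ∀ K : Set J, UCl κ g U K → ∀ q : Cn κ A, Rl U q →
  ∃ Y : Mo κ → A, (∀ α, Supp κ g K (Y α)) ∧ U Y = ⊤ ∧
    cv ι h (pj κ g K q.1, q.2.1, Y) ≤ gd ι h (pj κ g K) q

/-- Closure properties of the subalgebra `B_K` of `B`. -/
structure BKs {κ : Cardinal.{0}} {J A B : Type} [CompleteBooleanAlgebra A]
    [CompleteBooleanAlgebra B] (g : J → A) (U : (Mo κ → A) → A) (ι : A → B)
    (h : Finset (Mo κ) → B) (K : Set J) : Prop where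
  iSup : ∀ (I : Type) (f : I → B), (∀ i, BSupp g U ι h K (f i)) → BSupp g U ι h K (⨆ i, f i)
  biSup : ∀ (I : Type) (p : I → Prop) (f : I → B), (∀ i, p i → BSupp g U ι h K (f i)) →
    BSupp g U ι h K (⨆ i, ⨆ (_ : p i), f i)
  compl : ∀ b, BSupp g U ι h K b → BSupp g U ι h K bᶜ
  biInf : ∀ (I : Type) (p : I → Prop) (f : I → B), (∀ i, p i → BSupp g U ι h K (f i)) →
    BSupp g U ι h K (⨅ i, ⨅ (_ : p i), f i)
  inf : ∀ b b', BSupp g U ι h K b → BSupp g U ι h K b' → BSupp g U ι h K (b ⊓ b')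
  sup : ∀ b b', BSupp g U ι h K b → BSupp g U ι h K b' → BSupp g U ι h K (b ⊔ b')
  top : BSupp g U ι h K ⊤
  bot : BSupp g U ι h K ⊥
  iota : ∀ a, Supp κ g K a → BSupp g U ι h K (ι a)
  stem : ∀ s, BSupp g U ι h K (h s)
  cvK : ∀ q : Cn κ A, KC κ g K q → BSupp g U ι h K (cv ι h q)
  gdK : ∀ q : Cn κ A, BSupp g U ι h K (gd ι h (pj κ g K) q)
  cmpK : ∀ q q' : Cn κ A, BSupp g U ι h K (cmp ι h (pj κ g K) q q')

/-- [BK] PROOF.  `iSup`, `biSup`: if `y ≠ ⊥`, `y ≤ ⨆ f i` then `y ⊓ f i ≠ ⊥` for some `i`; apply the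
hypothesis to `y ⊓ f i`.  `compl`: let `y ≠ ⊥`, `y ≤ bᶜ`.  Take a real `q`, `q.1 ≠ ⊥`, `cv q ≤ y`
(`Prik.dense`).  [Rd]: `Y`; `c := (π q.1, q.2.1, Y)` is a real (`U Y = ⊤`) `K`-condition with
`cv c ≤ gd q`.  `cv c ≤ bᶜ`: otherwise `cv c ⊓ b ≠ ⊥`, and `BSupp b` gives a real `K`-condition
`c'`, `cv c' ≤ b`, `cv c' ⊓ (cv c ⊓ b) ≠ ⊥`; so `gd q ⊓ cv c' ≠ ⊥`, so `cv q ⊓ cv c' ≠ ⊥` by [CP],
but `cv q ≤ bᶜ`, `cv c' ≤ b`.  `cv c ⊓ y ≠ ⊥`: `mg c q q.2.1` has first component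
`π q.1 ⊓ q.1 = q.1 ≠ ⊥`, is real, and is below `c` and `q` (equal stems).  `biInf`, `inf`, `sup` by
complements and `iSup`.  `iota`: the condition `(a, ∅, ⊤)` is real ([UF]: `U ⊤ = ⊤`), a
`K`-condition, with `cv = ι a`.  `stem`: `(⊤, s, ⊤)`.  `cvK`, `gdK`, `cmpK`: by the closure
properties (`pj κ g K x` is supported by `K`; in `cvK` the elements `ι (q.2.2 α)`), `⨅ α ∈ t \ s` is a
`biInf`, and `xᶜ ⊔ y` by `compl`, `sup`. -/
def StBK : Prop := ∀ (κ : Cardinal.{0}) (J A B : Type) [CompleteBooleanAlgebra A]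
  [CompleteBooleanAlgebra B] (g : J → A) (U : (Mo κ → A) → A) (ι : A → B)
  (h : Finset (Mo κ) → B), Sys κ g U ι h → ∀ K : Set J, UCl κ g U K → BKs g U ι h K

/-- [BS] Small supports in `B`.  PROOF.  `mono`: clear from [SU] mono.  Let `b : B`; if `b = ⊥` take
`K' = ∅`.  Otherwise `I := {q // Rl U q ∧ q.1 ≠ ⊥ ∧ cv q ≤ b}` is nonempty (`Prik.dense`) and
`⨆ q : I, cv q = b` by `dense_le`.  By [MA], [CB] there is `e : Mo κ → I` with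
`⨆ i, cv (e i) = b`.  By [SM] (with `K = univ`, [SU] univ) choose for each `i` a set of cardinality
`≤ κ` supporting `(e i).1`, and for each `i, α` one supporting `(e i).2.2 α`; let `K'` be their union
(`κ * κ = κ` many sets of cardinality `≤ κ`).  Then each `e i` is a `K'`-condition, and if
`y ≠ ⊥`, `y ≤ b` then `y ⊓ cv (e i) ≠ ⊥` for some `i`. -/
def StBS : Prop := ∀ (κ : Cardinal.{0}) (J A B : Type) [CompleteBooleanAlgebra A]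
  [CompleteBooleanAlgebra B] (g : J → A) (U : (Mo κ → A) → A) (ι : A → B)
  (h : Finset (Mo κ) → B), Sys κ g U ι h →
  (∀ (K K' : Set J) b, K ⊆ K' → BSupp g U ι h K b → BSupp g U ι h K' b) ∧
  ∀ b : B, ∃ K' : Set J, #K' ≤ κ ∧ BSupp g U ι h K' b

/-- [KE] PROOF.  By [BS] each `b i` is supported by some `K_i`, `#K_i ≤ κ`; let
`D₀ := K₀ ∪ ⋃ K_i`, `#D₀ ≤ κ⁺`.  For `w ⊆ J` with `#w < κ⁺` let `F w` be the union over all
`X : Mo κ → {x // Supp κ g w x}` of a chosen set of cardinality `≤ κ` supporting `U X` ([SM] with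
`univ`); `#(F w) ≤ (κ⁺)^κ * κ ≤ κ⁺` by [NK] (`(κ⁺)^κ = (2^κ)^κ = 2^κ`).  By [CL] with
`θ = ν = κ⁺` (`powerlt_succ_self`) there is `K ⊇ D₀`, `#K ≤ κ⁺`, closed under `F`.  `UCl κ g U K`: let
all `X α` be supported by `K`; by [SM] `X α` is supported by some `w_α ⊆ K`, `#w_α ≤ κ`;
`w := ⋃ w_α` has `#w ≤ κ < κ⁺`, so `U X` is supported by a subset of `F w ⊆ K`.  `BSupp K (b i)` by
monotonicity. -/
def StKE : Prop := ∀ (κ : Cardinal.{0}) (J A B : Type) [CompleteBooleanAlgebra A]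
  [CompleteBooleanAlgebra B] (g : J → A) (U : (Mo κ → A) → A) (ι : A → B)
  (h : Finset (Mo κ) → B), Sys κ g U ι h → ∀ (I : Type) (b : I → B), #I ≤ Order.succ κ →
  ∀ K₀ : Set J, #K₀ ≤ Order.succ κ → ∃ K : Set J, K₀ ⊆ K ∧ #K ≤ Order.succ κ ∧ UCl κ g U K ∧
    ∀ i, BSupp g U ι h K (b i)

/-- [PL] PROJECTION LEMMA: `gd q` is the projection of the real condition `q` to `B_K`.  PROOF.
Otherwise `gd q ⊓ bᶜ ≠ ⊥`; `bᶜ` is in `B_K` ([BK] compl), so there is a real `K`-condition `c`,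
`cv c ≤ bᶜ`, `cv c ⊓ (gd q ⊓ bᶜ) ≠ ⊥`.  By [CP] `cv q ⊓ cv c ≠ ⊥`, but it is `≤ b ⊓ bᶜ`. -/
def StPL : Prop := ∀ (κ : Cardinal.{0}) (J A B : Type) [CompleteBooleanAlgebra A]
  [CompleteBooleanAlgebra B] (g : J → A) (U : (Mo κ → A) → A) (ι : A → B)
  (h : Finset (Mo κ) → B), Sys κ g U ι h → ∀ K : Set J, UCl κ g U K → ∀ (q : Cn κ A) (b : B),
  Rl U q → BSupp g U ι h K b → cv ι h q ≤ b → gd ι h (pj κ g K) q ≤ b

/-- [PC] COLOUR LEMMA.  If the real condition `(p, s, X)` forces that `r` is part of a good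
condition `(r, u, Z)` for some stem `u`, then after shrinking `X` by a set in `U` it forces
`(r, s, Z)` to be good.  PROOF.  `π := pj κ g K`, `f w := π (r ⊓ ⨅ α ∈ w, Z α)`.  By [Rw] with
`P := fun _ => True` there are `Y`, `c`, `U Y = ⊤`.  CLAIM `p ≤ c n` for each `n`.  Otherwise
`p₀ := p ⊓ (c n)ᶜ ≠ ⊥`, `q₀ := (p₀, s, X ⊓ Y)` is real, `Le q₀ (p, s, X)`, so
`⊥ ≠ cv q₀ ≤ ⨆ u, gd (r, u, Z)`; `ex_sup`: `u`, `y ≠ ⊥`, `y ≤ cv q₀`, `y ≤ gd (r, u, Z) ≤ h u`.  By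
[Dn] there is a real `q'`, `q'.1 ≠ ⊥`, `cv q' ≤ y`, `Le q' q₀`, `Ends u q'.2.1`.  By [If] with
`s := q'.2.1` there is `w`, `w.card = n`, all elements of `w` above all elements of `q'.2.1`, with
`p'' := q'.1 ⊓ ⨅_w q'.2.2 ≠ ⊥`.  `q'' := (p'', q'.2.1 ∪ w, q'.2.2)` is real, `Le q'' q'`
([En] union), so `⊥ ≠ cv q'' ≤ gd (r, u, Z) ⊓ h (q'.2.1 ∪ w)
≤ ι (π (r ⊓ ⨅_{(q'.2.1 ∪ w) \ u} Z)) ≤ ι (f w)` (`w ⊆ (q'.2.1 ∪ w) \ u`).  By [Mt] le_fst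
`p'' ≤ f w`; `p'' ≤ ⨅_w q'.2.2 ≤ ⨅_w Y`; so `p'' ≤ c n`; but `p'' ≤ q'.1 ≤ p₀ ≤ (c n)ᶜ`:
contradiction.  Now `cv (p, s, X ⊓ Y) ≤ gd (r, s, Z)`: `≤ h s` clear; for `Ends s t`, `w := t \ s`:
`cv (p, s, X ⊓ Y) ⊓ h t ≤ ι p ⊓ ι (⨅_w Y) ≤ ι (c w.card ⊓ ⨅_w Y) ≤ ι (f w)`. -/
def StPC : Prop := ∀ (κ : Cardinal.{0}) (J A B : Type) [CompleteBooleanAlgebra A]
  [CompleteBooleanAlgebra B] (g : J → A) (U : (Mo κ → A) → A) (ι : A → B)
  (h : Finset (Mo κ) → B), Sys κ g U ι h → ∀ (K : Set J) (p : A) (s : Finset (Mo κ))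
  (X : Mo κ → A) (r : A) (Z : Mo κ → A), p ≤ U X →
  cv ι h (p, s, X) ≤ ⨆ u, gd ι h (pj κ g K) (r, u, Z) →
  ∃ Y : Mo κ → A, U Y = ⊤ ∧
    cv ι h (p, s, fun α => X α ⊓ Y α) ≤ gd ι h (pj κ g K) (r, s, Z)

end Pool.MP_d2308b.SP
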